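import Pool.Agent.H787R2.KC.St

set_option autoImplicit false

/-!
# BT: tail of the norm
-/

namespace Pool.Agent.H787R2.KC

open MeasureTheory Set Matrix Pool.Agent.H212R2.KLS
open scoped ENNReal InnerProductSpace

theorem BT (h : S_SPC) : S_BT := by
  intro m hm ρ s hs hsp hln r hr
  have hm2 : (2 : ℝ) ≤ m := by exact_mod_cast hm
  have hm0 : (0 : ℝ) < m := by linarith
  set q : ℝ := Real.sqrt s with hq
  have hq0 : 0 < q := Real.sqrt_pos.2 hs
  have hqq : q ^ 2 = s := Real.sq_sqrt hs.le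
  set y : ℝ := r / (400 * q) with hy
  have hry : r = 400 * q * y := by rw [hy]; field_simp
  have hy4 : 4 * ((m : ℝ) + 1) ≤ y := by
    rw [hy, le_div_iff₀ (by positivity)]
    linarith
  have hy0 : 0 < y := by linarith
  have hr0 : 0 < r := by rw [hry]; positivity
  set A : ℝ := Real.sqrt ((m + 1 : ℕ) : ℝ) with hA
  have hA0 : 0 < A := Real.sqrt_pos.2 (by positivity)
  have hAA : A ^ 2 = (m : ℝ) + 1 := by
    rw [hA, Real.sq_sqrt (by positivity)]
    push_cast
    ring
  set B : ℝ := Real.sqrt (m * s) with hB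
  have hB0 : 0 < B := Real.sqrt_pos.2 (by positivity)
  have hBB : B ^ 2 = m * s := Real.sq_sqrt (by positivity)
  have hAB : A * B ≤ 5 / 4 * m * q := by
    apply le_of_sq_le_sq _ (by positivity)
    rw [mul_pow, hAA, hBB, mul_pow, hqq]
    nlinarith [mul_pos hm0 hs]
  -- the two exponents
  set t : ℝ := r / (80 * (A * B)) with ht
  have htB : 40 * t * B = r / (2 * A) := by
    rw [ht]; field_simp; ring
  have hmt : 4 * y ≤ m * t := by
    have e : (m : ℝ) * t = (m * r) / (80 * (A * B)) := by rw [ht]; ring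
    rw [e, le_div_iff₀ (by positivity)]
    have e2 : (m : ℝ) * r = 4 * y * (80 * (5 / 4 * m * q)) := by rw [hry]; ring
    rw [e2]
    exact mul_le_mul_of_nonneg_left (by linarith) (by positivity)
  have h1 : mc ρ {X | ¬ Sp (r / (2 * A)) X} ≤ ENNReal.ofReal (Real.exp (-(2 * y))) := by
    have := hsp t
    rw [htB] at this
    refine this.trans (ENNReal.ofReal_le_ofReal (Real.exp_le_exp.2 ?_))
    have : (m : ℝ) * (8 - t) = 8 * m - m * t := by ring
    rw [this]
    linarith
  have h2 : mc ρ {x | r / 2 < |⟪td (m + 1), x⟫_ℝ|} ≤ ENNReal.ofReal (Real.exp (-(2 * y))) := by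
    have h3 := hln (50 * y) (by linarith)
    have e : 4 * (50 * y) * q = r / 2 := by rw [hry]; ring
    rw [e] at h3
    exact h3.trans (ENNReal.ofReal_le_ofReal (Real.exp_le_exp.2 (by linarith)))
  have hsub : (Metric.closedBall (0 : Sy (m + 1)) r)ᶜ ⊆
      {X | ¬ Sp (r / (2 * A)) X} ∪ {x | r / 2 < |⟪td (m + 1), x⟫_ℝ|} := by
    intro X hX
    have hX' : r < ‖X‖ := by
      rw [mem_compl_iff, mem_closedBall_zero_iff, not_le] at hX
      exact hX
    by_cases hS : Sp (r / (2 * A)) X
    · right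
      show r / 2 < |⟪td (m + 1), X⟫_ℝ|
      have h3 := h (m + 1) (by omega) (r / (2 * A)) X hS
      have h4 : Real.sqrt ((m + 1 : ℕ) : ℝ) * (r / (2 * A)) = r / 2 := by
        rw [← hA]; field_simp
      rw [h4] at h3
      linarith
    · left
      exact hS
  calc mc ρ (Metric.closedBall 0 r)ᶜ
      ≤ mc ρ ({X | ¬ Sp (r / (2 * A)) X} ∪ {x | r / 2 < |⟪td (m + 1), x⟫_ℝ|}) :=
        measure_mono hsub
    _ ≤ mc ρ {X | ¬ Sp (r / (2 * A)) X} + mc ρ {x | r / 2 < |⟪td (m + 1), x⟫_ℝ|} :=
        measure_union_le _ _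
    _ ≤ ENNReal.ofReal (Real.exp (-(2 * y))) + ENNReal.ofReal (Real.exp (-(2 * y))) :=
        add_le_add h1 h2
    _ = ENNReal.ofReal (Real.exp (-(2 * y)) + Real.exp (-(2 * y))) := by
        rw [ENNReal.ofReal_add (Real.exp_nonneg _) (Real.exp_nonneg _)]
    _ ≤ ENNReal.ofReal (Real.exp (-y)) := by
        apply ENNReal.ofReal_le_ofReal
        have e : Real.exp (-(2 * y)) = Real.exp (-y) * Real.exp (-y) := by
          rw [← Real.exp_add]; congr 1; ring
        have h5 : Real.exp (-y) ≤ 1 / 2 := by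
          rw [Real.exp_neg, one_div]
          apply inv_anti₀ (by norm_num)
          have := Real.add_one_le_exp y
          linarith
        rw [e]
        nlinarith [Real.exp_pos (-y)]

end Pool.Agent.H787R2.KC
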