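import Pool.Agent.H787R2.KC.St
import Pool.Agent.H212R2.KLS.A1

/-!
# CA1: algebra of the infinitesimal conjugations
-/

set_option autoImplicit false

namespace Pool.Agent.H787R2.KC

open MvPolynomial Pool.Agent.H212R2.KLS

namespace CA1x

theorem cD_X {n : ℕ} (a b e j : Fin n) :
    cD a b (X (e, j) : MvPolynomial (Fin n × Fin n) ℝ) =
      (A1dl e a • (X (b, j) : MvPolynomial (Fin n × Fin n) ℝ) - A1dl e b • X (a, j)) +
      (A1dl j a • X (e, b) - A1dl j b • X (e, a)) := by
  unfold cD
  rw [mkDerivation_X]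
  simp only
  rw [A1_ite, A1_ite, A1_ite, A1_ite]

theorem cD_anti {n : ℕ} (a b : Fin n) (p : MvPolynomial (Fin n × Fin n) ℝ) :
    cD b a p = - cD a b p := by
  have h : (cD b a : Derivation ℝ (MvPolynomial (Fin n × Fin n) ℝ) _) = - cD a b := by
    apply MvPolynomial.derivation_ext
    rintro ⟨e, j⟩
    rw [Derivation.neg_apply, cD_X, cD_X]
    abel
  rw [h, Derivation.neg_apply]

theorem cD_comm {n : ℕ} (a b c d : Fin n) (p : MvPolynomial (Fin n × Fin n) ℝ) :
    cD a b (cD c d p) - cD c d (cD a b p) =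
      (if a = d then cD c b p else 0) + (if b = d then cD a c p else 0) +
      (if a = c then cD b d p else 0) + (if b = c then cD d a p else 0) := by
  have h : (⁅(cD a b : Derivation ℝ (MvPolynomial (Fin n × Fin n) ℝ) _), cD c d⁆ :
      Derivation ℝ (MvPolynomial (Fin n × Fin n) ℝ) _) =
      A1dl a d • cD c b + A1dl b d • cD a c + A1dl a c • cD b d + A1dl b c • cD d a := by
    apply MvPolynomial.derivation_ext
    rintro ⟨e, j⟩
    rw [Derivation.commutator_apply]
    simp only [Derivation.add_apply, Derivation.smul_apply, cD_X, map_sub, map_add,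
      Derivation.map_smul]
    rw [A1dl_comm d a, A1dl_comm d b, A1dl_comm c a, A1dl_comm c b]
    module
  have h2 := congrArg (fun D : Derivation ℝ (MvPolynomial (Fin n × Fin n) ℝ)
    (MvPolynomial (Fin n × Fin n) ℝ) => D p) h
  simp only [Derivation.commutator_apply, Derivation.add_apply, Derivation.smul_apply] at h2
  rw [h2, A1_ite, A1_ite, A1_ite, A1_ite]

end CA1x

theorem CA1 : S_CA1 := by
  intro n a b c d p
  exact ⟨CA1x.cD_anti a b p, CA1x.cD_comm a b c d p⟩

end Pool.Agent.H787R2.KC
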