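import Pool.Agent.H787R2.KC.St
import Pool.Agent.H212R2.KLS.A1

/-!
# CA1b: degree, gradient form and symmetrisation
-/

set_option autoImplicit false

namespace Pool.Agent.H787R2.KC

open MvPolynomial Pool.Agent.H212R2.KLS

namespace CA1bx

/-- exchange of the two indices -/
noncomputable def sw {n : ℕ} :
    MvPolynomial (Fin n × Fin n) ℝ →ₐ[ℝ] MvPolynomial (Fin n × Fin n) ℝ :=
  rename Prod.swap

theorem sw_X {n : ℕ} (i j : Fin n) : sw (X (i, j) : MvPolynomial (Fin n × Fin n) ℝ) = X (j, i) := by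
  unfold sw
  rw [rename_X]
  rfl

theorem sw_sw {n : ℕ} (p : MvPolynomial (Fin n × Fin n) ℝ) : sw (sw p) = p := by
  unfold sw
  rw [rename_rename]
  have : (Prod.swap ∘ Prod.swap : Fin n × Fin n → Fin n × Fin n) = id := by
    funext q; simp
  rw [this]
  simp

theorem cD_X {n : ℕ} (a b i j : Fin n) :
    cD a b (X (i, j) : MvPolynomial (Fin n × Fin n) ℝ) =
      (A1dl i a • (X (b, j) : MvPolynomial (Fin n × Fin n) ℝ) - A1dl i b • X (a, j)) +
      (A1dl j a • (X (i, b) : MvPolynomial (Fin n × Fin n) ℝ) - A1dl j b • X (i, a)) := by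
  unfold cD
  rw [mkDerivation_X]
  simp only
  rw [A1_ite, A1_ite, A1_ite, A1_ite]

/-- the derivation acting on the second index -/
theorem cD_eq {n : ℕ} (a b : Fin n) (p : MvPolynomial (Fin n × Fin n) ℝ) :
    cD a b p = DD a b p + sw (DD a b (sw p)) := by
  induction p using MvPolynomial.induction_on with
  | C c => simp
  | add p q hp hq => rw [map_add, hp, hq, map_add, map_add, map_add, map_add]; abel
  | mul_X p i hp =>
    obtain ⟨i, j⟩ := i
    rw [Derivation.leibniz, Derivation.leibniz, map_mul, Derivation.leibniz, map_add, hp]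
    simp only [smul_eq_mul, map_mul, sw_sw]
    rw [cD_X, A1_DD_X, sw_X, A1_DD_X]
    simp only [map_sub, map_smul, sw_X]
    ring

theorem gr_sw {n : ℕ} (p q : MvPolynomial (Fin n × Fin n) ℝ) :
    gr (sw p) (sw q) = sw (gr p q) := by
  unfold gr
  rw [map_sum, ← (Equiv.prodComm (Fin n) (Fin n)).sum_comp]
  apply Finset.sum_congr rfl
  intro i _
  have h : ∀ u : MvPolynomial (Fin n × Fin n) ℝ,
      pderiv ((Equiv.prodComm (Fin n) (Fin n)) i) (sw u) = sw (pderiv i u) := by
    intro u
    exact MvPolynomial.pderiv_rename Prod.swap_injective i u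
  rw [h, h, map_mul]

theorem gr_add_left {n : ℕ} (p q r : MvPolynomial (Fin n × Fin n) ℝ) :
    gr (p + q) r = gr p r + gr q r := by
  unfold gr
  rw [← Finset.sum_add_distrib]
  apply Finset.sum_congr rfl
  intro i _
  rw [map_add, add_mul]

theorem gr_add_right {n : ℕ} (p q r : MvPolynomial (Fin n × Fin n) ℝ) :
    gr p (q + r) = gr p q + gr p r := by
  unfold gr
  rw [← Finset.sum_add_distrib]
  apply Finset.sum_congr rfl
  intro i _
  rw [map_add, mul_add]

theorem sy_X {n : ℕ} (i j : Fin n) : sy (X (i, j) : MvPolynomial (Fin n × Fin n) ℝ) =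
    (1 / 2 : ℝ) • (X (i, j) + X (j, i)) := by
  unfold sy
  rw [aeval_X, ← smul_eq_C_mul]

theorem sy_cD_X {n : ℕ} (a b i j : Fin n) :
    sy (cD a b (X (i, j) : MvPolynomial (Fin n × Fin n) ℝ)) =
      cD a b (sy (X (i, j) : MvPolynomial (Fin n × Fin n) ℝ)) := by
  rw [sy_X, Derivation.map_smul, map_add, cD_X, cD_X]
  simp only [map_add, map_sub, map_smul, sy_X]
  module

theorem sy_cD {n : ℕ} (a b : Fin n) (p : MvPolynomial (Fin n × Fin n) ℝ) :
    sy (cD a b p) = cD a b (sy p) := by
  induction p using MvPolynomial.induction_on with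
  | C c => simp [sy]
  | add p q hp hq => rw [map_add, map_add, hp, hq, map_add, map_add]
  | mul_X p i hp =>
    obtain ⟨i, j⟩ := i
    rw [Derivation.leibniz, map_add, map_mul, Derivation.leibniz]
    simp only [smul_eq_mul, map_mul, hp, sy_cD_X]

theorem sy_sy {n : ℕ} (p : MvPolynomial (Fin n × Fin n) ℝ) : sy (sy p) = sy p := by
  have h : (sy.comp sy : MvPolynomial (Fin n × Fin n) ℝ →ₐ[ℝ] _) = sy := by
    apply MvPolynomial.algHom_ext
    rintro ⟨i, j⟩
    rw [AlgHom.comp_apply, sy_X]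
    simp only [map_smul, map_add, sy_X]
    module
  exact congrArg (fun F : MvPolynomial (Fin n × Fin n) ℝ →ₐ[ℝ] _ => F p) h

theorem evs_sy {n : ℕ} (p : MvPolynomial (Fin n × Fin n) ℝ) (x : Sy n) :
    evs (sy p) x = evs p x := by
  unfold evs ev
  induction p using MvPolynomial.induction_on with
  | C c => simp [sy]
  | add p q hp hq => rw [map_add, map_add, hp, hq, map_add]
  | mul_X p i hp =>
    obtain ⟨i, j⟩ := i
    rw [map_mul, map_mul, hp, map_mul, sy_X]
    congr 1
    rw [MvPolynomial.smul_eval, map_add, eval_X, eval_X]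
    have h : (x : E n n) (i, j) = (x : E n n) (j, i) := x.2 i j
    change (1 / 2 : ℝ) * ((x : E n n) (i, j) + (x : E n n) (j, i)) = _
    rw [← h]
    ring

theorem sw_deg {n : ℕ} (p : MvPolynomial (Fin n × Fin n) ℝ) :
    (sw p).totalDegree ≤ p.totalDegree := totalDegree_rename_le _ _

end CA1bx

open CA1bx in
theorem CA1b : S_CA1b := by
  intro n a b p q
  refine ⟨?_, ?_, sy_cD a b p, sy_sy p, evs_sy p⟩
  · rw [cD_eq]
    refine (totalDegree_add _ _).trans (max_le (DD_deg a b p) ?_)
    exact (sw_deg _).trans ((DD_deg a b _).trans (sw_deg _))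
  · rw [cD_eq, cD_eq, cD_eq, DD_gr, gr_add_left, gr_add_right, ← gr_sw, DD_gr, map_add, ← gr_sw,
      ← gr_sw, sw_sw, sw_sw]
    abel

end Pool.Agent.H787R2.KC
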