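import Pool.Agent.H787R2.KC.St
import Pool.Agent.H212R2.KLS.A2

/-!
# CA2: conjugation invariance: the integral of `cD a b p` is 0
-/

set_option autoImplicit false

namespace Pool.Agent.H787R2.KC

open MeasureTheory Set Matrix Pool.Agent.H212R2.KLS
open scoped ENNReal InnerProductSpace

namespace CA2x

/-- derivative of the rotation -/
noncomputable def rotD {m : ℕ} (a b : Fin m) (t : ℝ) : Matrix (Fin m) (Fin m) ℝ :=
  Matrix.of fun i => if i = a then rot a b t b else if i = b then - rot a b t a else 0

theorem rotD_row {m : ℕ} (a b : Fin m) (t : ℝ) (i : Fin m) : rotD a b t i =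
    if i = a then rot a b t b else if i = b then - rot a b t a else 0 := rfl

theorem hasDeriv_rot {m : ℕ} (a b : Fin m) (hab : a ≠ b) (t : ℝ) (i k : Fin m) :
    HasDerivAt (fun s => rot a b s i k) (rotD a b t i k) t := by
  have hba : b ≠ a := hab.symm
  have e : (fun s => rot a b s i k) = fun s =>
      if i = a then Real.cos s * (Pi.single a 1 : Fin m → ℝ) k +
        Real.sin s * (Pi.single b 1 : Fin m → ℝ) k
      else if i = b then (- Real.sin s) * (Pi.single a 1 : Fin m → ℝ) k +
        Real.cos s * (Pi.single b 1 : Fin m → ℝ) k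
      else (Pi.single i 1 : Fin m → ℝ) k := by
    funext s
    rw [rot_row]
    split_ifs <;> rfl
  rw [e, rotD_row]
  by_cases hi : i = a
  · simp only [hi, if_true]
    have h1 := ((Real.hasDerivAt_cos t).mul_const ((Pi.single a 1 : Fin m → ℝ) k)).add
      ((Real.hasDerivAt_sin t).mul_const ((Pi.single b 1 : Fin m → ℝ) k))
    refine h1.congr_deriv ?_
    rw [rot_row, if_neg hba, if_pos rfl]
    rfl
  · by_cases hi2 : i = b
    · simp only [hi2, if_neg hba, if_true]
      have h1 := ((Real.hasDerivAt_sin t).neg.mul_const ((Pi.single a 1 : Fin m → ℝ) k)).add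
        ((Real.hasDerivAt_cos t).mul_const ((Pi.single b 1 : Fin m → ℝ) k))
      refine h1.congr_deriv ?_
      rw [rot_row, if_pos rfl]
      simp only [Pi.neg_apply, Pi.add_apply, Pi.smul_apply, smul_eq_mul]
      ring
    · simp only [if_neg hi, if_neg hi2]
      exact hasDerivAt_const t _

/-- the curve in the orbit -/
noncomputable def cur {n : ℕ} (a b : Fin n) (t : ℝ) (x : Sy n) : Sy n := cong (rot a b t)ᵀ x

theorem cur_apply {n : ℕ} (a b : Fin n) (t : ℝ) (x : Sy n) (i j : Fin n) :
    (cur a b t x : E n n) (i, j) =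
      ∑ k, ∑ l, rot a b t i k * (x : E n n) (k, l) * rot a b t j l := by
  change ((rot a b t)ᵀᵀ * sM x * (rot a b t)ᵀ) i j = _
  rw [Matrix.transpose_transpose, Matrix.mul_apply, Finset.sum_comm]
  refine Finset.sum_congr rfl fun l _ => ?_
  rw [Matrix.mul_apply, Finset.sum_mul]
  rfl

theorem hasDeriv_cur {n : ℕ} (a b : Fin n) (hab : a ≠ b) (t : ℝ) (x : Sy n) (i j : Fin n) :
    HasDerivAt (fun s => (cur a b s x : E n n) (i, j))
      (((if i = a then (cur a b t x : E n n) (b, j) else 0) -
        (if i = b then (cur a b t x : E n n) (a, j) else 0)) +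
      ((if j = a then (cur a b t x : E n n) (i, b) else 0) -
        (if j = b then (cur a b t x : E n n) (i, a) else 0))) t := by
  have e : (fun s => (cur a b s x : E n n) (i, j)) = fun s =>
      ∑ k, ∑ l, rot a b s i k * (x : E n n) (k, l) * rot a b s j l := by
    funext s
    exact cur_apply a b s x i j
  rw [e]
  have h1 : HasDerivAt (fun s => ∑ k, ∑ l, rot a b s i k * (x : E n n) (k, l) * rot a b s j l)
      (∑ k, ∑ l, (rotD a b t i k * (x : E n n) (k, l) * rot a b t j l +
        rot a b t i k * (x : E n n) (k, l) * rotD a b t j l)) t := by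
    refine HasDerivAt.fun_sum fun k _ => HasDerivAt.fun_sum fun l _ => ?_
    exact ((hasDeriv_rot a b hab t i k).mul_const _).mul (hasDeriv_rot a b hab t j l)
  refine h1.congr_deriv ?_
  have hba : b ≠ a := hab.symm
  simp only [Finset.sum_add_distrib]
  congr 1
  · by_cases hi : i = a
    · subst hi
      simp only [if_true, if_neg hab, sub_zero]
      rw [cur_apply]
      simp only [rotD_row, if_true]
    · by_cases hi2 : i = b
      · subst hi2
        simp only [if_true, if_neg hba, zero_sub]
        rw [cur_apply]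
        simp only [rotD_row, if_neg hba, if_true, Pi.neg_apply, neg_mul, Finset.sum_neg_distrib]
      · simp only [if_neg hi, if_neg hi2, sub_zero, rotD_row, Pi.zero_apply, zero_mul,
          Finset.sum_const_zero]
  · by_cases hi : j = a
    · subst hi
      simp only [if_true, if_neg hab, sub_zero]
      rw [cur_apply]
      simp only [rotD_row, if_true]
    · by_cases hi2 : j = b
      · subst hi2
        simp only [if_true, if_neg hba, zero_sub]
        rw [cur_apply]
        simp only [rotD_row, if_neg hba, if_true, Pi.neg_apply, mul_neg, Finset.sum_neg_distrib]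
      · simp only [if_neg hi, if_neg hi2, sub_zero, rotD_row, Pi.zero_apply, mul_zero,
          Finset.sum_const_zero]

theorem cD_X {n : ℕ} (a b : Fin n) (q : Fin n × Fin n) :
    cD a b (MvPolynomial.X q : MvPolynomial (Fin n × Fin n) ℝ) =
      ((if q.1 = a then MvPolynomial.X (b, q.2) else 0) -
      (if q.1 = b then MvPolynomial.X (a, q.2) else 0)) +
      ((if q.2 = a then MvPolynomial.X (q.1, b) else 0) -
      (if q.2 = b then MvPolynomial.X (q.1, a) else 0)) := by
  unfold cD
  rw [MvPolynomial.mkDerivation_X]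

theorem cD_self {n : ℕ} (a : Fin n) (p : MvPolynomial (Fin n × Fin n) ℝ) :
    cD a a p = 0 := by
  have : (cD a a : Derivation ℝ (MvPolynomial (Fin n × Fin n) ℝ)
    (MvPolynomial (Fin n × Fin n) ℝ)) = 0 := by
    apply MvPolynomial.derivation_ext
    intro q
    rw [cD_X, sub_self, sub_self, add_zero]
    rfl
  rw [this]
  rfl

/-- the derivative along the rotation -/
theorem hasDeriv_evs {n : ℕ} (a b : Fin n) (hab : a ≠ b) (x : Sy n)
    (p : MvPolynomial (Fin n × Fin n) ℝ) (t : ℝ) :
    HasDerivAt (fun s => evs p (cur a b s x)) (evs (cD a b p) (cur a b t x)) t := by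
  induction p using MvPolynomial.induction_on with
  | C c =>
    have h1 : (fun s => evs (MvPolynomial.C c) (cur a b s x)) = fun _ => c := by
      funext s
      simp [evs, ev]
    have h2 : (cD a b (MvPolynomial.C c) : MvPolynomial (Fin n × Fin n) ℝ) = 0 := by
      rw [← MvPolynomial.algebraMap_eq]
      exact Derivation.map_algebraMap _ _
    rw [h1, h2]
    have h3 : evs (0 : MvPolynomial (Fin n × Fin n) ℝ) (cur a b t x) = 0 := by simp [evs, ev]
    rw [h3]
    exact hasDerivAt_const t c
  | add p q hp hq =>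
    have h1 : (fun s => evs (p + q) (cur a b s x)) =
        fun s => evs p (cur a b s x) + evs q (cur a b s x) := by
      funext s
      simp [evs, ev]
    have h2 : evs (cD a b (p + q)) (cur a b t x) =
        evs (cD a b p) (cur a b t x) + evs (cD a b q) (cur a b t x) := by
      rw [map_add]
      simp [evs, ev]
    rw [h1, h2]
    exact hp.add hq
  | mul_X p q hp =>
    have h1 : (fun s => evs (p * MvPolynomial.X q) (cur a b s x)) =
        fun s => evs p (cur a b s x) * (cur a b s x : E n n) q := by
      funext s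
      simp [evs, ev]
    have h2 : evs (cD a b (p * MvPolynomial.X q)) (cur a b t x) =
        evs (cD a b p) (cur a b t x) * (cur a b t x : E n n) q +
        evs p (cur a b t x) *
        (((if q.1 = a then (cur a b t x : E n n) (b, q.2) else 0) -
          (if q.1 = b then (cur a b t x : E n n) (a, q.2) else 0)) +
        ((if q.2 = a then (cur a b t x : E n n) (q.1, b) else 0) -
          (if q.2 = b then (cur a b t x : E n n) (q.1, a) else 0))) := by
      rw [Derivation.leibniz, cD_X]
      have e1 : ∀ (P : Prop) [Decidable P] (y : Fin n × Fin n → ℝ) (r : Fin n × Fin n),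
          MvPolynomial.eval y
          (if P then (MvPolynomial.X r : MvPolynomial (Fin n × Fin n) ℝ) else 0) =
          if P then y r else 0 := by
        intro P _ y r
        split_ifs <;> simp
      simp only [evs, ev, smul_eq_mul, map_add, map_mul, map_sub, e1, MvPolynomial.eval_X]
      ring
    rw [h1, h2]
    obtain ⟨i, j⟩ := q
    exact hp.mul (hasDeriv_cur a b hab t x i j)

theorem evs_cont {n : ℕ} (p : MvPolynomial (Fin n × Fin n) ℝ) : Continuous (evs p) := by
  unfold evs
  exact (continuous_ev p).comp continuous_subtype_val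

theorem cong_cont {n : ℕ} (g : Matrix (Fin n) (Fin n) ℝ) :
    Continuous (cong g : Sy n →ₗ[ℝ] Sy n) := (cong g).continuous_of_finiteDimensional

theorem rot_le {n : ℕ} (a b : Fin n) (t : ℝ) (i k : Fin n) : |rot a b t i k| ≤ 2 := by
  have hc := Real.abs_cos_le_one t
  have hs := Real.abs_sin_le_one t
  have hd : ∀ c : Fin n, |(Pi.single c 1 : Fin n → ℝ) k| ≤ 1 := by
    intro c
    by_cases h : k = c
    · subst h; simp
    · rw [Pi.single_eq_of_ne h]; simp
  have key : ∀ c d u v : ℝ, |c| ≤ 1 → |d| ≤ 1 → |u| ≤ 1 → |v| ≤ 1 → |c * u + d * v| ≤ 2 := by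
    intro c d u v hc hd hu hv
    calc |c * u + d * v| ≤ |c * u| + |d * v| := abs_add_le _ _
      _ = |c| * |u| + |d| * |v| := by rw [abs_mul, abs_mul]
      _ ≤ 1 * 1 + 1 * 1 := by
        apply add_le_add
        · exact mul_le_mul hc hu (abs_nonneg _) (by norm_num)
        · exact mul_le_mul hd hv (abs_nonneg _) (by norm_num)
      _ = 2 := by norm_num
  rw [rot_row]
  split_ifs
  · exact key _ _ _ _ hc hs (hd _) (hd _)
  · exact key _ _ _ _ (by rw [abs_neg]; exact hs) hc (hd _) (hd _)
  · exact (hd i).trans (by norm_num)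

theorem cur_le {n : ℕ} (a b : Fin n) (t : ℝ) (x : Sy n) (R : ℝ) (hx : ‖x‖ ≤ R)
    (q : Fin n × Fin n) : |(cur a b t x : E n n) q| ≤ (n * n) * (4 * R) := by
  obtain ⟨i, j⟩ := q
  have h0 : ∀ q, |(x : E n n) q| ≤ R := fun q => by
    have := PiLp.norm_apply_le (x : E n n) q
    rw [Real.norm_eq_abs] at this
    exact this.trans hx
  have hR : 0 ≤ R := le_trans (norm_nonneg x) hx
  rw [cur_apply]
  refine (Finset.abs_sum_le_sum_abs _ _).trans ?_
  have h1 : ∀ k : Fin n, |∑ l, rot a b t i k * (x : E n n) (k, l) * rot a b t j l| ≤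
      n * (4 * R) := by
    intro k
    refine (Finset.abs_sum_le_sum_abs _ _).trans ?_
    have h2 : ∀ l : Fin n, |rot a b t i k * (x : E n n) (k, l) * rot a b t j l| ≤ 4 * R := by
      intro l
      rw [abs_mul, abs_mul]
      calc |rot a b t i k| * |(x : E n n) (k, l)| * |rot a b t j l| ≤ 2 * R * 2 := by
            refine mul_le_mul (mul_le_mul (rot_le a b t i k) (h0 _) (abs_nonneg _) (by norm_num))
              (rot_le a b t j l) (abs_nonneg _) (by positivity)
        _ = 4 * R := by ring
    refine (Finset.sum_le_sum fun l _ => h2 l).trans ?_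
    simp
  refine (Finset.sum_le_sum fun k _ => h1 k).trans ?_
  simp only [Finset.sum_const, Finset.card_univ, Fintype.card_fin, nsmul_eq_mul]
  exact le_of_eq (by ring)

theorem cur_zero {n : ℕ} (a b : Fin n) (x : Sy n) : cur a b 0 x = x := by
  unfold cur
  rw [rot_zero, Matrix.transpose_one]
  apply sM_inj
  rw [sM_cong]
  simp

end CA2x

open CA2x in
theorem CA2 : S_CA2 := by
  intro n μ hfin hinv hb a b p
  by_cases hab : a = b
  · subst hab
    rw [cD_self]
    simp [evs, ev]
  obtain ⟨R, hR⟩ := hb
  have hae : ∀ᵐ x ∂μ, ‖x‖ ≤ R := by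
    rw [ae_iff]
    convert hR using 2
    ext x
    simp
  have hbd : ∀ q : MvPolynomial (Fin n × Fin n) ℝ, ∃ C : ℝ, ∀ x : Sy n, ‖x‖ ≤ R → ∀ t,
      ‖evs q (cur a b t x)‖ ≤ C := by
    intro q
    have hK : IsCompact (Set.univ.pi fun _ : Fin n × Fin n =>
        Set.Icc (-((n * n : ℝ) * (4 * R))) ((n * n : ℝ) * (4 * R))) :=
      isCompact_univ_pi fun _ => isCompact_Icc
    obtain ⟨C, hC⟩ := hK.exists_bound_of_continuousOn
      (MvPolynomial.continuous_eval q).continuousOn
    refine ⟨C, fun x hx t => hC _ ?_⟩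
    intro i _
    have := cur_le a b t x R hx i
    rw [abs_le] at this
    exact this
  obtain ⟨C, hC⟩ := hbd p
  obtain ⟨C', hC'⟩ := hbd (cD a b p)
  have hmeas : ∀ (q : MvPolynomial (Fin n × Fin n) ℝ) (t : ℝ),
      AEStronglyMeasurable (fun x => evs q (cur a b t x)) μ := fun q t =>
    ((evs_cont q).comp (cong_cont _)).aestronglyMeasurable
  have hderiv := hasDerivAt_integral_of_dominated_loc_of_deriv_le (μ := μ)
    (F := fun t x => evs p (cur a b t x))
    (F' := fun t x => evs (cD a b p) (cur a b t x)) (x₀ := (0 : ℝ)) (s := Set.univ)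
    (bound := fun _ => C') Filter.univ_mem
    (Filter.Eventually.of_forall fun t => hmeas p t)
    (Integrable.of_bound (hmeas p 0) C (hae.mono fun x hx => hC x hx 0))
    (hmeas (cD a b p) 0)
    (hae.mono fun x hx t _ => hC' x hx t)
    (integrable_const C')
    (Filter.Eventually.of_forall fun x t _ => hasDeriv_evs a b hab x p t)
  have hconst : (fun t => ∫ x, evs p (cur a b t x) ∂μ) = fun _ => ∫ x, evs p x ∂μ := by
    funext t
    have hmem : (rot a b t)ᵀ ∈ OG n := by
      have h0 := rot_mem a b hab t
      rw [Matrix.mem_orthogonalGroup_iff']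
      rw [Matrix.mem_orthogonalGroup_iff] at h0
      simpa using h0
    have h1 := hinv _ hmem
    have h2 : ∫ x, evs p x ∂(μ.map (cong (rot a b t)ᵀ)) = ∫ x, evs p (cur a b t x) ∂μ :=
      integral_map (cong_cont _).measurable.aemeasurable
        (evs_cont p).aestronglyMeasurable
    rw [← h2, h1]
  have h3 := hderiv.2
  rw [hconst] at h3
  have h4 := h3.unique (hasDerivAt_const (0 : ℝ) _)
  simpa only [cur_zero] using h4

end Pool.Agent.H787R2.KC
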