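import Pool.Agent.H787R2.KC.St
import Pool.Agent.H212R2.KLS.A5

/-!
# CA5: a symmetric polynomial function which vanishes almost everywhere is 0
-/

set_option autoImplicit false

namespace Pool.Agent.H787R2.KC

open MeasureTheory Set Matrix Pool.Agent.H212R2.KLS
open scoped ENNReal InnerProductSpace

namespace CA5x

theorem pos_ae {n : ℕ} {ρ : Sy n → ℝ} (hρ : CDens n ρ) {P : Sy n → Prop}
    (h : ∀ᵐ x ∂(mc ρ), P x) : ∀ᵐ x : Sy n ∂(nu n), 0 < ρ x → P x := by
  unfold mc at h
  rw [ae_withDensity_iff (hρ.meas.ennreal_ofReal)] at h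
  filter_upwards [h] with x hx hpos
  apply hx
  rw [ne_eq, ENNReal.ofReal_eq_zero, not_le]
  exact hpos

theorem supp {n : ℕ} {ρ : Sy n → ℝ} (hρ : CDens n ρ) {R : ℝ}
    (hR : ∀ x, R < ‖x‖ → ρ x = 0) : ∀ᵐ x ∂(mc ρ), ‖x‖ ≤ R := by
  unfold mc
  rw [ae_withDensity_iff (hρ.meas.ennreal_ofReal)]
  refine Filter.Eventually.of_forall fun x hx => ?_
  by_contra hc
  exact hx (by rw [hR x (not_le.1 hc)]; simp)

theorem conv {n : ℕ} {ρ : Sy n → ℝ} (hρ : CDens n ρ) : Convex ℝ {x | 0 < ρ x} := by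
  intro x hx y hy a b ha hb hab
  simp only [mem_ofPred_eq] at hx hy ⊢
  rcases eq_or_lt_of_le ha with ha | ha
  · have : b = 1 := by linarith
    rw [← ha, this, zero_smul, one_smul, zero_add]
    exact hy
  rcases eq_or_lt_of_le hb with hb | hb
  · have : a = 1 := by linarith
    rw [← hb, this, zero_smul, one_smul, add_zero]
    exact hx
  have h1 := hρ.logc x y b hb (by linarith)
  have e : 1 - b = a := by linarith
  rw [e] at h1
  exact lt_of_lt_of_le (mul_pos (Real.rpow_pos_of_pos hx _) (Real.rpow_pos_of_pos hy _)) h1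

theorem inter {n : ℕ} [(nu n).IsAddHaarMeasure] {ρ : Sy n → ℝ} (hρ : CDens n ρ)
    (h0 : mc ρ ≠ 0) : (interior {x | 0 < ρ x}).Nonempty := by
  rw [nonempty_iff_ne_empty]
  intro he
  apply h0
  have h1 : nu n {x : Sy n | 0 < ρ x} = 0 := by
    refine measure_mono_null ?_ ((conv hρ).addHaar_frontier (nu n))
    intro x hx
    rw [frontier, he, sdiff_empty]
    exact subset_closure hx
  unfold mc
  rw [withDensity_eq_zero_iff (hρ.meas.ennreal_ofReal.aemeasurable)]
  have h2 : ∀ᵐ x : Sy n ∂(nu n), x ∉ {x : Sy n | 0 < ρ x} := measure_eq_zero_iff_ae_notMem.1 h1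
  filter_upwards [h2] with x hx
  simp only [not_lt] at hx
  simp only [Pi.zero_apply, ENNReal.ofReal_eq_zero]
  exact hx

theorem evs_cont {n : ℕ} (p : MvPolynomial (Fin n × Fin n) ℝ) : Continuous (evs p) := by
  unfold evs
  exact (A5_cont p).comp continuous_subtype_val

theorem eval_sy {n : ℕ} (x : Fin n × Fin n → ℝ) (p : MvPolynomial (Fin n × Fin n) ℝ) :
    MvPolynomial.eval x (sy p) =
      MvPolynomial.eval (fun q => 1 / 2 * (x (q.1, q.2) + x (q.2, q.1))) p := by
  have h : ((MvPolynomial.aeval x : MvPolynomial (Fin n × Fin n) ℝ →ₐ[ℝ] ℝ)).comp (sy (n := n)) =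
      (MvPolynomial.aeval (fun q : Fin n × Fin n => 1 / 2 * (x (q.1, q.2) + x (q.2, q.1))) :
        MvPolynomial (Fin n × Fin n) ℝ →ₐ[ℝ] ℝ) := by
    apply MvPolynomial.algHom_ext
    intro q
    simp [sy]
  have h2 := DFunLike.congr_fun h p
  rw [AlgHom.comp_apply, MvPolynomial.aeval_eq_eval, MvPolynomial.aeval_eq_eval] at h2
  exact h2

/-- symmetrisation -/
noncomputable def PP {n : ℕ} (X : E n n) : Sy n :=
  ⟨WithLp.toLp 2 fun q : Fin n × Fin n => 1 / 2 * (X (q.1, q.2) + X (q.2, q.1)), by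
    intro i j
    change 1 / 2 * (X (i, j) + X (j, i)) = 1 / 2 * (X (j, i) + X (i, j))
    ring⟩

theorem PP_cont {n : ℕ} : Continuous (PP (n := n)) := by
  refine Continuous.subtype_mk ?_ _
  refine (PiLp.continuous_toLp 2 _).comp ?_
  refine continuous_pi fun q => ?_
  refine continuous_const.mul ?_
  exact ((continuous_apply (q.1, q.2)).comp (PiLp.continuous_ofLp 2 _)).add
    ((continuous_apply (q.2, q.1)).comp (PiLp.continuous_ofLp 2 _))

theorem PP_coe {n : ℕ} (x : Sy n) : PP (x : E n n) = x := by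
  apply Subtype.ext
  ext q
  change 1 / 2 * ((x : E n n) (q.1, q.2) + (x : E n n) (q.2, q.1)) = (x : E n n) (q.1, q.2)
  rw [← x.2 q.1 q.2]
  ring

theorem ev_PP {n : ℕ} (p : MvPolynomial (Fin n × Fin n) ℝ) (hp : sy p = p) (X : E n n) :
    ev p X = evs p (PP X) := by
  change MvPolynomial.eval X.ofLp p = MvPolynomial.eval _ p
  conv_lhs => rw [← hp]
  rw [eval_sy]
  rfl

end CA5x

open CA5x in
theorem CA5 : S_CA5 := by
  intro n ρ hρ hb hfin h0 p hsy hp
  have hnu : (nu n).IsAddHaarMeasure := by unfold nu; infer_instance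
  have hprop : ProperSpace (Sy n) := FiniteDimensional.proper ℝ (Sy n)
  obtain ⟨R, hR⟩ := hb
  have hc : Continuous fun x : Sy n => (evs p x) ^ 2 := (evs_cont p).pow 2
  obtain ⟨C, hC⟩ := (isCompact_closedBall (0 : Sy n) R).exists_bound_of_continuousOn
    hc.continuousOn
  have hint : Integrable (fun x => (evs p x) ^ 2) (mc ρ) := by
    refine Integrable.of_bound hc.aestronglyMeasurable C ?_
    filter_upwards [supp hρ hR] with x hx
    exact hC x (by simpa using hx)
  rw [integral_eq_zero_iff_of_nonneg (fun x => sq_nonneg _) hint] at hp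
  have h1 := pos_ae hρ hp
  have h2 : ∀ x ∈ interior {x : Sy n | 0 < ρ x}, evs p x = 0 := by
    by_contra hcon
    push Not at hcon
    obtain ⟨x, hx, hxp⟩ := hcon
    have hU : IsOpen (interior {x : Sy n | 0 < ρ x} ∩ {x | evs p x ≠ 0}) :=
      isOpen_interior.inter (isOpen_ne_fun (evs_cont p) continuous_const)
    have h3 : nu n (interior {x : Sy n | 0 < ρ x} ∩ {x | evs p x ≠ 0}) = 0 := by
      rw [measure_eq_zero_iff_ae_notMem]
      filter_upwards [h1] with y hy hmem
      have h4 : y ∈ {x : Sy n | 0 < ρ x} := interior_subset hmem.1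
      have h5 := hy h4
      simp only [Pi.zero_apply] at h5
      exact hmem.2 (pow_eq_zero_iff (two_ne_zero)|>.1 h5)
    have h4 := hU.eq_empty_of_measure_zero h3
    exact (h4 ▸ (⟨hx, hxp⟩ : x ∈ interior {x : Sy n | 0 < ρ x} ∩ {x | evs p x ≠ 0}) :
      x ∈ (∅ : Set (Sy n)))
  obtain ⟨x0, hx0⟩ := inter hρ h0
  refine A5_poly p (PP ⁻¹' interior {x : Sy n | 0 < ρ x}) (isOpen_interior.preimage PP_cont)
    ⟨(x0 : E n n), ?_⟩ ?_
  · change PP (x0 : E n n) ∈ interior {x : Sy n | 0 < ρ x}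
    rw [PP_coe]
    exact hx0
  · intro X hX
    rw [ev_PP p hsy X]
    exact h2 _ hX

end Pool.Agent.H787R2.KC
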