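import Pool.Agent.H787R2.KC.St
import Pool.Agent.H212R2.KLS.A1
import Pool.Agent.H212R2.KLS.A7
import Pool.Agent.H212R2.KLS.H2
import Pool.Agent.H212R2.KLS.R7

/-!
# CA7: polynomials killed by all `cD a b` are conjugation invariant
-/

set_option autoImplicit false

namespace Pool.Agent.H787R2.KC

open MvPolynomial Matrix Pool.Agent.H212R2.KLS

namespace CA7x

/-- the substitution `X ↦ B x Bᵀ` -/
noncomputable def Ph {n : ℕ} (x : Fin n → Fin n → ℝ) :
    MvPolynomial (Fin n × Fin n) ℝ →ₐ[ℝ] MvPolynomial (Fin n × Fin n) ℝ :=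
  aeval fun q : Fin n × Fin n => ∑ k, ∑ l, x k l • (X (q.1, k) * X (q.2, l))

theorem Ph_X {n : ℕ} (x : Fin n → Fin n → ℝ) (i j : Fin n) :
    Ph x (X (i, j)) = ∑ k, ∑ l, x k l • (X (i, k) * X (j, l) : MvPolynomial (Fin n × Fin n) ℝ) := by
  unfold Ph
  rw [aeval_X]

theorem cD_X {n : ℕ} (a b i j : Fin n) :
    cD a b (X (i, j) : MvPolynomial (Fin n × Fin n) ℝ) =
      (A1dl i a • (X (b, j) : MvPolynomial (Fin n × Fin n) ℝ) - A1dl i b • X (a, j)) +
      (A1dl j a • (X (i, b) : MvPolynomial (Fin n × Fin n) ℝ) - A1dl j b • X (i, a)) := by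
  unfold cD
  rw [mkDerivation_X]
  simp only
  rw [A1_ite, A1_ite, A1_ite, A1_ite]

theorem DD_Ph_X {n : ℕ} (x : Fin n → Fin n → ℝ) (a b i j : Fin n) :
    DD a b (Ph x (X (i, j))) = Ph x (cD a b (X (i, j))) := by
  rw [cD_X, map_add, map_sub, map_sub, map_smul, map_smul, map_smul, map_smul,
    Ph_X, Ph_X, Ph_X, Ph_X, Ph_X, map_sum]
  simp only [map_sum, Derivation.map_smul, Derivation.leibniz, A1_DD_X, smul_eq_mul,
    Finset.smul_sum]
  rw [← Finset.sum_sub_distrib, ← Finset.sum_sub_distrib, ← Finset.sum_add_distrib]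
  refine Finset.sum_congr rfl fun k _ => ?_
  rw [← Finset.sum_sub_distrib, ← Finset.sum_sub_distrib, ← Finset.sum_add_distrib]
  refine Finset.sum_congr rfl fun l _ => ?_
  simp only [mul_sub, mul_smul_comm]
  rw [mul_comm (X (j, l)) (X (b, k)), mul_comm (X (j, l)) (X (a, k))]
  module

theorem DD_Ph {n : ℕ} (x : Fin n → Fin n → ℝ) (a b : Fin n)
    (p : MvPolynomial (Fin n × Fin n) ℝ) : DD a b (Ph x p) = Ph x (cD a b p) := by
  induction p using MvPolynomial.induction_on with
  | C c => simp [Ph]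
  | add p q hp hq => rw [map_add, map_add, hp, hq, map_add, map_add]
  | mul_X p i hp =>
    obtain ⟨i, j⟩ := i
    rw [Derivation.leibniz, map_add, map_mul, Derivation.leibniz]
    simp only [smul_eq_mul, map_mul, hp, DD_Ph_X]

theorem ev_Ph {n : ℕ} (x : Matrix (Fin n) (Fin n) ℝ) (B : E n n)
    (p : MvPolynomial (Fin n × Fin n) ℝ) :
    ev (Ph (fun k l => x k l) p) B =
      MvPolynomial.eval (fun q : Fin n × Fin n => (toM B * x * (toM B)ᵀ) q.1 q.2) p := by
  unfold ev
  induction p using MvPolynomial.induction_on with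
  | C c => simp [Ph]
  | add p q hp hq => rw [map_add, map_add, hp, hq, map_add]
  | mul_X p i hp =>
    obtain ⟨i, j⟩ := i
    rw [map_mul, map_mul, hp, map_mul, Ph_X, eval_X]
    congr 1
    rw [map_sum]
    simp only [map_sum, MvPolynomial.smul_eval, map_mul, eval_X]
    rw [Finset.sum_comm, Matrix.mul_apply]
    refine Finset.sum_congr rfl fun l _ => ?_
    rw [Matrix.mul_apply, Finset.sum_mul]
    refine Finset.sum_congr rfl fun k _ => ?_
    rw [Matrix.transpose_apply, toM_apply, toM_apply]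
    ring

theorem inv_one {n : ℕ} (p : MvPolynomial (Fin n × Fin n) ℝ) (h : ∀ a b, cD a b p = 0)
    (g : Matrix (Fin n) (Fin n) ℝ) (hg : g ∈ OG n) (hdet : g.det = 1) (x : Sy n) :
    evs p (cong g x) = evs p x := by
  have h1 : ∀ a b, DD a b (Ph (fun k l => sM x k l) p) = 0 := by
    intro a b
    rw [DD_Ph, h a b, map_zero]
  have hgt : gᵀ ∈ Matrix.orthogonalGroup (Fin n) ℝ := by
    rw [Matrix.mem_orthogonalGroup_iff]
    have := (Matrix.mem_orthogonalGroup_iff' (Fin n) ℝ).mp hg
    simpa using this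
  have h2 := inv_of_DD (Ph (fun k l => sM x k l) p) h1 gᵀ hgt
    (by rw [Matrix.det_transpose]; exact hdet) (ofM 1)
  rw [ev_Ph, ev_Ph] at h2
  have e1 : toM (lm gᵀ (ofM (1 : Matrix (Fin n) (Fin n) ℝ))) = gᵀ := by
    unfold lm
    rw [toM_ofM, toM_ofM, Matrix.mul_one]
  rw [e1, toM_ofM, Matrix.one_mul, Matrix.transpose_one, Matrix.mul_one,
    Matrix.transpose_transpose] at h2
  exact h2

theorem Rm_eq {n : ℕ} (u : V n) :
    H2aux.Rm u = 1 - (2 : ℝ) • Matrix.vecMulVec u.ofLp u.ofLp := by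
  ext i j
  rw [H2aux.Rm_apply, Matrix.sub_apply, Matrix.smul_apply, Matrix.vecMulVec_apply,
    Matrix.one_apply, smul_eq_mul]
  ring

end CA7x

open CA7x in
theorem CA7 : S_CA7 := by
  intro n p h g hg x
  have hgg : g * gᵀ = 1 := by
    have := (Matrix.mem_orthogonalGroup_iff (Fin n) ℝ).mp hg
    simpa using this
  have hd : g.det = 1 ∨ g.det = -1 := by
    have h1 : g.det * g.det = 1 := by
      have := congrArg Matrix.det hgg
      rwa [Matrix.det_mul, Matrix.det_transpose, Matrix.det_one] at this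
    exact mul_self_eq_one_iff.mp h1
  rcases hd with hd | hd
  · exact inv_one p h g hg hd x
  · rcases Nat.eq_zero_or_pos n with hn | hn
    · subst hn
      rw [Matrix.det_isEmpty] at hd
      norm_num at hd
    · set i : Fin n := ⟨0, hn⟩
      set u : V n := (R7.sM_herm x).eigenvectorBasis i with hu
      have hu1 : ‖u‖ = 1 := (R7.sM_herm x).eigenvectorBasis.orthonormal.1 i
      have he : sM x *ᵥ u.ofLp = (R7.sM_herm x).eigenvalues i • u.ofLp :=
        (R7.sM_herm x).mulVec_eigenvectorBasis i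
      have he' : u.ofLp ᵥ* sM x = (R7.sM_herm x).eigenvalues i • u.ofLp := by
        rw [← he, ← Matrix.mulVec_transpose, sM_transpose]
      have hcomm : sM x * H2aux.Rm u = H2aux.Rm u * sM x := by
        rw [Rm_eq, Matrix.mul_sub, Matrix.sub_mul, Matrix.mul_one, Matrix.one_mul,
          Matrix.mul_smul, Matrix.smul_mul, Matrix.mul_vecMulVec, Matrix.vecMulVec_mul, he, he',
          Matrix.smul_vecMulVec, Matrix.vecMulVec_smul]
      have hR := H2aux.Rm_mem u hu1
      have hRR : (H2aux.Rm u)ᵀ * H2aux.Rm u = 1 := by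
        have := (Matrix.mem_orthogonalGroup_iff' (Fin n) ℝ).mp hR
        simpa using this
      have hx : (H2aux.Rm u)ᵀ * sM x * H2aux.Rm u = sM x := by
        rw [Matrix.mul_assoc, hcomm, ← Matrix.mul_assoc, hRR, Matrix.one_mul]
      have e : cong g x = cong (H2aux.Rm u * g) x := by
        apply sM_inj
        rw [sM_cong, sM_cong, Matrix.transpose_mul]
        conv_lhs => rw [← hx]
        simp only [Matrix.mul_assoc]
      rw [e]
      refine inv_one p h _ (mul_mem hR hg) ?_ x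
      rw [Matrix.det_mul, H2aux.Rm_det u hu1, hd]
      norm_num

end Pool.Agent.H787R2.KC
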