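import Pool.Agent.H787R2.KC.St
import Pool.Agent.H212R2.KLS.L2
import Pool.Agent.H212R2.KLS.R6

/-!
# CB: basic facts on conjugation invariant log-concave densities (helper99)
-/

set_option autoImplicit false

namespace Pool.Agent.H787R2.KC

open MeasureTheory Set Matrix Pool.Agent.H212R2.KLS
open scoped ENNReal InnerProductSpace

theorem cb_norm {n : ℕ} {g : Matrix (Fin n) (Fin n) ℝ} (hg : g ∈ OG n) (X : Sy n) :
    ‖cong g X‖ = ‖X‖ := by
  have hg1 : g * gᵀ = 1 := (Matrix.mem_orthogonalGroup_iff (Fin n) ℝ).1 hg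
  have h : ‖cong g X‖ ^ 2 = ‖X‖ ^ 2 := by
    have e1 : ‖cong g X‖ ^ 2 = Matrix.trace ((gᵀ * sM X * g)ᵀ * (gᵀ * sM X * g)) :=
      l2_norm_sq ((cong g X : Sy n) : E n n)
    have e2 : ‖X‖ ^ 2 = Matrix.trace ((sM X)ᵀ * sM X) := l2_norm_sq (X : E n n)
    rw [e1, e2]
    have e3 : (gᵀ * sM X * g)ᵀ * (gᵀ * sM X * g) = gᵀ * (((sM X)ᵀ * sM X) * g) := by
      rw [Matrix.transpose_mul, Matrix.transpose_mul, Matrix.transpose_transpose]
      calc gᵀ * ((sM X)ᵀ * g) * (gᵀ * sM X * g)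
          = gᵀ * ((sM X)ᵀ * ((g * gᵀ) * (sM X * g))) := by simp only [Matrix.mul_assoc]
        _ = gᵀ * (((sM X)ᵀ * sM X) * g) := by rw [hg1, Matrix.one_mul, Matrix.mul_assoc]
    rw [e3, Matrix.trace_mul_comm, Matrix.mul_assoc, hg1, Matrix.mul_one]
  exact (sq_eq_sq₀ (norm_nonneg _) (norm_nonneg _)).1 h

theorem cb_det {n : ℕ} {g : Matrix (Fin n) (Fin n) ℝ} (hg : g ∈ OG n) :
    |LinearMap.det (cong g)| = 1 := by
  have hg1 : g * gᵀ = 1 := (Matrix.mem_orthogonalGroup_iff (Fin n) ℝ).1 hg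
  have h1 : g.det * g.det = 1 := by
    have := congrArg Matrix.det hg1
    rwa [Matrix.det_mul, Matrix.det_transpose, Matrix.det_one] at this
  have h2 : |g.det| = 1 := by
    have h3 : |g.det| * |g.det| = 1 := by rw [← abs_mul, h1, abs_one]
    nlinarith [abs_nonneg g.det]
  rw [det_cong, abs_pow, h2, one_pow]

theorem cb_mp {n : ℕ} {g : Matrix (Fin n) (Fin n) ℝ} (hg : g ∈ OG n) :
    MeasurePreserving (cong g : Sy n → Sy n) (nu n) (nu n) := by
  have hc : Continuous (cong g : Sy n → Sy n) := (cong g).continuous_of_finiteDimensional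
  have hd := cb_det hg
  have hd0 : LinearMap.det (cong g) ≠ 0 := by
    intro h
    rw [h, abs_zero] at hd
    exact zero_ne_one hd
  refine ⟨hc.measurable, ?_⟩
  unfold nu
  rw [Measure.map_linearMap_addHaar_eq_smul_addHaar _ hd0, abs_inv, hd, inv_one,
    ENNReal.ofReal_one, one_smul]

theorem cb_map {n : ℕ} {ρ : Sy n → ℝ} (hρ : CDens n ρ) {g : Matrix (Fin n) (Fin n) ℝ}
    (hg : g ∈ OG n) : (mc ρ).map (cong g) = mc ρ := by
  have hmp := cb_mp hg
  ext s hs
  rw [Measure.map_apply hmp.measurable hs]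
  unfold mc
  rw [withDensity_apply _ (hmp.measurable hs), withDensity_apply _ hs]
  rw [← hmp.setLIntegral_comp_preimage hs (hρ.meas.ennreal_ofReal)]
  refine lintegral_congr fun x => ?_
  rw [hρ.inv g hg x]

theorem cb_finite {n : ℕ} {ρ : Sy n → ℝ} (B : ℝ) (hB : ∀ x, ρ x ≤ B) (hb : Bdd ρ) :
    IsFiniteMeasure (mc ρ) := by
  obtain ⟨R, hR⟩ := hb
  refine ⟨?_⟩
  unfold mc
  rw [withDensity_apply _ MeasurableSet.univ, Measure.restrict_univ]
  have h1 : ∫⁻ x, ENNReal.ofReal (ρ x) ∂(nu n) ≤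
      ∫⁻ x, (Metric.closedBall (0 : Sy n) R).indicator (fun _ => ENNReal.ofReal B) x ∂(nu n) := by
    refine lintegral_mono fun x => ?_
    by_cases hx : x ∈ Metric.closedBall (0 : Sy n) R
    · rw [indicator_of_mem hx]
      exact ENNReal.ofReal_le_ofReal (hB x)
    · rw [indicator_of_notMem hx]
      rw [mem_closedBall_zero_iff, not_le] at hx
      rw [hR x hx, ENNReal.ofReal_zero]
  refine lt_of_le_of_lt h1 ?_
  rw [lintegral_indicator_const measurableSet_closedBall]
  refine ENNReal.mul_lt_top ENNReal.ofReal_lt_top ?_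
  unfold nu
  exact measure_closedBall_lt_top

theorem cb_trunc {n : ℕ} {ρ : Sy n → ℝ} (hρ : CDens n ρ) (S : Set (Sy n))
    (hS : MeasurableSet S)
    (hconv : ∀ x ∈ S, ∀ y ∈ S, ∀ t : ℝ, 0 < t → t < 1 → (1 - t) • x + t • y ∈ S)
    (hinv : ∀ g ∈ OG n, ∀ x, cong g x ∈ S ↔ x ∈ S) :
    CDens n (S.indicator ρ) where
  nonneg x := indicator_nonneg (fun y _ => hρ.nonneg y) x
  meas := hρ.meas.indicator hS
  logc x y t h0 h1 := by
    have hnn : 0 ≤ S.indicator ρ ((1 - t) • x + t • y) :=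
      indicator_nonneg (fun y _ => hρ.nonneg y) _
    by_cases hx : x ∈ S
    · by_cases hy : y ∈ S
      · rw [indicator_of_mem hx, indicator_of_mem hy,
          indicator_of_mem (hconv x hx y hy t h0 h1)]
        exact hρ.logc x y t h0 h1
      · rw [indicator_of_notMem hy, Real.zero_rpow h0.ne', mul_zero]
        exact hnn
    · rw [indicator_of_notMem hx, Real.zero_rpow (by linarith), zero_mul]
      exact hnn
  inv g hg x := by
    by_cases hx : x ∈ S
    · rw [indicator_of_mem hx, indicator_of_mem ((hinv g hg x).2 hx), hρ.inv g hg x]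
    · rw [indicator_of_notMem hx, indicator_of_notMem (fun h => hx ((hinv g hg x).1 h))]

theorem cb_smul {n : ℕ} {ρ : Sy n → ℝ} (hρ : CDens n ρ) (c : ℝ) (hc : 0 ≤ c) :
    CDens n (fun x => c * ρ x) where
  nonneg x := mul_nonneg hc (hρ.nonneg x)
  meas := hρ.meas.const_mul c
  logc x y t h0 h1 := by
    have h2 : (c * ρ x) ^ (1 - t) * (c * ρ y) ^ t =
        (c ^ (1 - t) * c ^ t) * (ρ x ^ (1 - t) * ρ y ^ t) := by
      rw [Real.mul_rpow hc (hρ.nonneg x), Real.mul_rpow hc (hρ.nonneg y)]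
      ring
    have h3 : c ^ (1 - t) * c ^ t = c := by
      rcases hc.eq_or_lt with h | h
      · rw [← h, Real.zero_rpow h0.ne', mul_zero]
      · rw [← Real.rpow_add h, sub_add_cancel, Real.rpow_one]
    rw [h2, h3]
    exact mul_le_mul_of_nonneg_left (hρ.logc x y t h0 h1) hc
  inv g hg x := by rw [hρ.inv g hg x]

theorem cb_min {n : ℕ} {ρ : Sy n → ℝ} (hρ : CDens n ρ) (B : ℝ) (hB : 0 ≤ B) :
    CDens n (fun x => min (ρ x) B) where
  nonneg x := le_min (hρ.nonneg x) hB
  meas := hρ.meas.min measurable_const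
  logc x y t h0 h1 := by
    have hx0 : 0 ≤ min (ρ x) B := le_min (hρ.nonneg x) hB
    have hy0 : 0 ≤ min (ρ y) B := le_min (hρ.nonneg y) hB
    have ht : 0 ≤ 1 - t := by linarith
    apply le_min
    · calc min (ρ x) B ^ (1 - t) * min (ρ y) B ^ t ≤ ρ x ^ (1 - t) * ρ y ^ t := by
            apply mul_le_mul
            · exact Real.rpow_le_rpow hx0 (min_le_left _ _) ht
            · exact Real.rpow_le_rpow hy0 (min_le_left _ _) h0.le
            · exact Real.rpow_nonneg hy0 _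
            · exact Real.rpow_nonneg (hρ.nonneg x) _
        _ ≤ ρ ((1 - t) • x + t • y) := hρ.logc x y t h0 h1
    · calc min (ρ x) B ^ (1 - t) * min (ρ y) B ^ t ≤ B ^ (1 - t) * B ^ t := by
            apply mul_le_mul
            · exact Real.rpow_le_rpow hx0 (min_le_right _ _) ht
            · exact Real.rpow_le_rpow hy0 (min_le_right _ _) h0.le
            · exact Real.rpow_nonneg hy0 _
            · exact Real.rpow_nonneg hB _
        _ = B := by
            rcases hB.eq_or_lt with h | h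
            · rw [← h, Real.zero_rpow h0.ne', mul_zero]
            · rw [← Real.rpow_add h, sub_add_cancel, Real.rpow_one]
  inv g hg x := by rw [hρ.inv g hg x]

theorem CB : S_CB := by
  intro n ρ hρ
  refine ⟨fun g hg => cb_map hρ hg, fun ⟨B, hB⟩ hb => cb_finite B hB hb,
    fun c hc => cb_smul hρ c hc, fun B hB => cb_min hρ B hB, fun r => ?_⟩
  refine cb_trunc hρ _ (isClosed_le continuous_norm continuous_const).measurableSet ?_ ?_
  · intro x hx y hy t h0 h1
    have hx' : ‖x‖ ≤ r := hx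
    have hy' : ‖y‖ ≤ r := hy
    change ‖(1 - t) • x + t • y‖ ≤ r
    calc ‖(1 - t) • x + t • y‖ ≤ ‖(1 - t) • x‖ + ‖t • y‖ := norm_add_le _ _
      _ = (1 - t) * ‖x‖ + t * ‖y‖ := by
        rw [norm_smul, norm_smul, Real.norm_of_nonneg (by linarith), Real.norm_of_nonneg h0.le]
      _ ≤ (1 - t) * r + t * r := by
        have : 0 ≤ 1 - t := by linarith
        gcongr
      _ = r := by ring
  · intro g hg x
    change ‖cong g x‖ ≤ r ↔ ‖x‖ ≤ r
    rw [cb_norm hg]

end Pool.Agent.H787R2.KC
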