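import Pool.Agent.H787R2.KC.St

set_option autoImplicit false

namespace Pool.Agent.H787R2.KC

open MeasureTheory Set Matrix Pool.Agent.H212R2.KLS
open scoped ENNReal InnerProductSpace

theorem CB2 (h : S_SPB) : S_CB2 := by
  intro n ρ hρ r
  obtain ⟨hcl, hconv, hinv⟩ := h n r
  have hms : MeasurableSet {X : Sy n | Sp r X} := hcl.measurableSet
  constructor
  · refine ⟨fun x => indicator_nonneg (fun x _ => hρ.nonneg x) x, hρ.meas.indicator hms, ?_, ?_⟩
    · intro x y t ht0 ht1
      have hnn : 0 ≤ ({x : Sy n | Sp r x}.indicator ρ) ((1 - t) • x + t • y) :=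
        indicator_nonneg (fun x _ => hρ.nonneg x) _
      by_cases hx : Sp r x
      · by_cases hy : Sp r y
        · have hxy := hconv x y t ht0 ht1 hx hy
          rw [indicator_of_mem (show x ∈ {x : Sy n | Sp r x} from hx),
            indicator_of_mem (show y ∈ {x : Sy n | Sp r x} from hy),
            indicator_of_mem (show (1 - t) • x + t • y ∈ {x : Sy n | Sp r x} from hxy)]
          exact hρ.logc x y t ht0 ht1
        · rw [indicator_of_notMem (show y ∉ {x : Sy n | Sp r x} from hy),
            Real.zero_rpow ht0.ne', mul_zero]
          exact hnn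
      · rw [indicator_of_notMem (show x ∉ {x : Sy n | Sp r x} from hx),
          Real.zero_rpow (by linarith : (1 - t) ≠ 0), zero_mul]
        exact hnn
    · intro g hg x
      by_cases hx : Sp r x
      · rw [indicator_of_mem (show x ∈ {x : Sy n | Sp r x} from hx),
          indicator_of_mem (show cong g x ∈ {x : Sy n | Sp r x} from (hinv g hg x).mpr hx)]
        exact hρ.inv g hg x
      · rw [indicator_of_notMem (show x ∉ {x : Sy n | Sp r x} from hx),
          indicator_of_notMem (show cong g x ∉ {x : Sy n | Sp r x} from
            fun h' => hx ((hinv g hg x).mp h'))]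
  · unfold mc
    have h1 : (fun x => ENNReal.ofReal (({x : Sy n | Sp r x}.indicator ρ) x)) =
        {x : Sy n | Sp r x}.indicator (fun x => ENNReal.ofReal (ρ x)) := by
      funext x
      by_cases hx : Sp r x
      · rw [indicator_of_mem (show x ∈ {x : Sy n | Sp r x} from hx),
          indicator_of_mem (show x ∈ {x : Sy n | Sp r x} from hx)]
      · rw [indicator_of_notMem (show x ∉ {x : Sy n | Sp r x} from hx),
          indicator_of_notMem (show x ∉ {x : Sy n | Sp r x} from hx), ENNReal.ofReal_zero]
    rw [h1, withDensity_indicator hms, restrict_withDensity hms]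

end Pool.Agent.H787R2.KC
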