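import Pool.Agent.H787R2.KC.St
import Pool.Agent.H212R2.KLS.L1
import Pool.Agent.H212R2.KLS.A8

/-!
# CL1: polynomial approximation in `C^1` on symmetric matrices (helper99)
-/

set_option autoImplicit false

namespace Pool.Agent.H787R2.KC

open MeasureTheory Set Matrix Pool.Agent.H212R2.KLS
open scoped ENNReal InnerProductSpace

theorem cl1_sy_X {n : ℕ} (p : Fin n × Fin n) :
    sy (MvPolynomial.X p : MvPolynomial (Fin n × Fin n) ℝ) = MvPolynomial.C (1 / 2 : ℝ) *
    (MvPolynomial.X (p.1, p.2) + MvPolynomial.X (p.2, p.1)) := by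
  unfold sy
  rw [MvPolynomial.aeval_X]

theorem cl1_sy_sy {n : ℕ} (q : MvPolynomial (Fin n × Fin n) ℝ) : sy (sy q) = sy q := by
  have h : (sy (n := n)).comp sy = sy := by
    apply MvPolynomial.algHom_ext
    intro p
    rw [AlgHom.comp_apply, cl1_sy_X, map_mul, map_add, cl1_sy_X, cl1_sy_X]
    have hC : sy (n := n) (MvPolynomial.C (1 / 2 : ℝ)) = MvPolynomial.C (1 / 2 : ℝ) := by
      unfold sy
      exact MvPolynomial.algHom_C _ _
    rw [hC, ← mul_add]
    have h2 : ((MvPolynomial.X (p.1, p.2) + MvPolynomial.X (p.2, p.1)) +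
        (MvPolynomial.X (p.2, p.1) + MvPolynomial.X (p.1, p.2)) :
          MvPolynomial (Fin n × Fin n) ℝ) =
        MvPolynomial.C (2 : ℝ) * (MvPolynomial.X (p.1, p.2) + MvPolynomial.X (p.2, p.1)) := by
      have : (MvPolynomial.C (2 : ℝ) : MvPolynomial (Fin n × Fin n) ℝ) = 2 :=
        map_ofNat MvPolynomial.C 2
      rw [this]
      ring
    rw [h2, ← mul_assoc (MvPolynomial.C (1 / 2 : ℝ)) (MvPolynomial.C (2 : ℝ)),
      ← MvPolynomial.C_mul]
    norm_num
  exact congrArg (fun φ : MvPolynomial (Fin n × Fin n) ℝ →ₐ[ℝ] MvPolynomial (Fin n × Fin n) ℝ =>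
    φ q) h

theorem cl1_evs_sy {n : ℕ} (q : MvPolynomial (Fin n × Fin n) ℝ) (x : Sy n) :
    evs (sy q) x = evs q x := by
  have h : (MvPolynomial.aeval ((x : E n n).ofLp) :
      MvPolynomial (Fin n × Fin n) ℝ →ₐ[ℝ] ℝ).comp sy = MvPolynomial.aeval ((x : E n n).ofLp) := by
    apply MvPolynomial.algHom_ext
    intro p
    rw [AlgHom.comp_apply, cl1_sy_X, map_mul, map_add, MvPolynomial.aeval_X, MvPolynomial.aeval_X,
      MvPolynomial.aeval_C]
    have hx : (x : E n n) (p.2, p.1) = (x : E n n) (p.1, p.2) := x.2 p.2 p.1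
    change (1 / 2 : ℝ) * ((x : E n n) (p.1, p.2) + (x : E n n) (p.2, p.1)) = (x : E n n) p
    rw [hx]
    change (1 / 2 : ℝ) * ((x : E n n) p + (x : E n n) p) = (x : E n n) p
    ring
  have h2 := congrArg (fun φ : MvPolynomial (Fin n × Fin n) ℝ →ₐ[ℝ] ℝ => φ q) h
  simp only [AlgHom.comp_apply] at h2
  unfold evs ev
  rw [← MvPolynomial.coe_aeval_eq_eval]
  exact h2

theorem CL1 (_h1b : S_CA1b) : S_CL1 := by
  intro n f hf R ε hε
  let P : E n n →L[ℝ] Sy n := (Sy n).orthogonalProjectionOnto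
  have hP : ∀ x : Sy n, P (x : E n n) = x := fun x =>
    Submodule.orthogonalProjectionOnto_mem_subspace_eq_self x
  obtain ⟨q, hq⟩ := poly_approx (fun X : E n n => f (P X)) (hf.comp P.contDiff) R ε hε
  refine ⟨sy q, cl1_sy_sy q, ?_⟩
  intro x hx
  have hfun : evs (sy q) = fun y : Sy n => ev q (y : E n n) := by
    funext y
    exact cl1_evs_sy q y
  have hxn : ‖(x : E n n)‖ ≤ R := hx
  obtain ⟨h1, h2⟩ := hq (x : E n n) hxn
  rw [hfun]
  constructor
  · have : f (P (x : E n n)) = f x := by rw [hP]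
    rw [this] at h1
    exact h1
  · let I : Sy n →L[ℝ] E n n := (Sy n).subtypeL
    have hevd : DifferentiableAt ℝ (ev q) (x : E n n) := by
      have hc : ContDiff ℝ 1 (ev q) := ev_contDiff q 1
      exact (hc.differentiable (by norm_num)).differentiableAt
    have e1 : fderiv ℝ (fun y : Sy n => ev q (y : E n n)) x = (fderiv ℝ (ev q) (x : E n n)).comp I := by
      have h := (hevd.hasFDerivAt).comp x (I.hasFDerivAt (x := x))
      exact h.fderiv
    have e2 : fderiv ℝ f x = (fderiv ℝ (fun X : E n n => f (P X)) (x : E n n)).comp I := by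
      have hd : DifferentiableAt ℝ (fun X : E n n => f (P X)) (x : E n n) :=
        ((hf.comp P.contDiff).differentiable (by norm_num)).differentiableAt
      have h : HasFDerivAt (fun y : Sy n => f (P (y : E n n)))
        ((fderiv ℝ (fun X : E n n => f (P X)) (x : E n n)).comp I) x :=
        (hd.hasFDerivAt).comp x (I.hasFDerivAt (x := x))
      have h3 : (fun y : Sy n => f (P (y : E n n))) = f := by
        funext y
        rw [hP]
      rw [h3] at h
      exact h.fderiv
    rw [e1, e2, ← ContinuousLinearMap.sub_comp]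
    calc ‖(fderiv ℝ (ev q) (x : E n n) - fderiv ℝ (fun X : E n n => f (P X)) (x : E n n)).comp I‖
        ≤ ‖fderiv ℝ (ev q) (x : E n n) - fderiv ℝ (fun X : E n n => f (P X)) (x : E n n)‖ * ‖I‖ :=
          ContinuousLinearMap.opNorm_comp_le _ _
      _ ≤ ε * 1 := by
          have hI : ‖I‖ ≤ 1 := Submodule.norm_subtypeL_le _
          exact mul_le_mul h2 hI (norm_nonneg I) hε.le
      _ = ε := mul_one _

end Pool.Agent.H787R2.KC
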