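import Pool.Agent.H212R2.KLS.Defs

/-!
# KLS for log-concave measures on symmetric matrices invariant under conjugation: definitions
and the statements of all tasks (as propositions).
-/

set_option autoImplicit false

namespace Pool.Agent.H787R2.KC

open MeasureTheory Set Matrix Pool.Agent.H212R2.KLS
open scoped ENNReal InnerProductSpace

/-! ### definitions -/

/-- orthogonal matrices -/
abbrev OG (n : ℕ) := Matrix.orthogonalGroup (Fin n) ℝ

/-- log-concave density on symmetric matrices, invariant under conjugation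
(`cong g X = gᵀ X g`) -/
structure CDens (n : ℕ) (ρ : Sy n → ℝ) : Prop where
  nonneg : ∀ x, 0 ≤ ρ x
  meas : Measurable ρ
  logc : ∀ x y : Sy n, ∀ t : ℝ, 0 < t → t < 1 →
    ρ x ^ (1 - t) * ρ y ^ t ≤ ρ ((1 - t) • x + t • y)
  inv : ∀ g ∈ OG n, ∀ x, ρ (cong g x) = ρ x

/-- the measure with density `ρ` -/
noncomputable def mc {n : ℕ} (ρ : Sy n → ℝ) : Measure (Sy n) :=
  (nu n).withDensity fun x => ENNReal.ofReal (ρ x)

/-- `X v` for a symmetric matrix `X` -/
def sv {n : ℕ} (X : Sy n) (v : V n) : V n := mv (X : E n n) v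

/-- half of the spread `λ_max - λ_min` of `X` is at most `r` -/
def Sp {n : ℕ} (r : ℝ) (X : Sy n) : Prop :=
  ∀ u v : V n, ‖u‖ = 1 → ‖v‖ = 1 → ⟪u, sv X u⟫_ℝ - ⟪v, sv X v⟫_ℝ ≤ 2 * r

/-- the symmetric matrix `1 / √n` (a unit vector) -/
noncomputable def td (n : ℕ) : Sy n := sOf ((1 / Real.sqrt n) • (1 : Matrix (Fin n) (Fin n) ℝ))
  (by rw [Matrix.transpose_smul, Matrix.transpose_one])

/-- diagonal matrices -/
def dg {n : ℕ} (l : V n) : Sy n := sOf (Matrix.diagonal l.ofLp) (Matrix.diagonal_transpose _)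

/-- the open Weyl chamber -/
def Ch (n : ℕ) : Set (V n) := {l | StrictMono l.ofLp}

/-- the Vandermonde product `∏_{i<j} (l_j - l_i)` -/
def vd {n : ℕ} (l : V n) : ℝ := ∏ i : Fin n, ∏ j ∈ Finset.Ioi i, (l j - l i)

/-- infinitesimal conjugation in the plane `a, b`, on polynomials in the entries:
`x_{aj} ↦ x_{bj}`, `x_{bj} ↦ - x_{aj}` on both indices -/
noncomputable def cD {n : ℕ} (a b : Fin n) : Derivation ℝ (MvPolynomial (Fin n × Fin n) ℝ)
    (MvPolynomial (Fin n × Fin n) ℝ) :=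
  MvPolynomial.mkDerivation ℝ (fun p : Fin n × Fin n =>
    ((if p.1 = a then MvPolynomial.X (b, p.2) else 0) -
    (if p.1 = b then MvPolynomial.X (a, p.2) else 0)) +
    ((if p.2 = a then MvPolynomial.X (p.1, b) else 0) -
    (if p.2 = b then MvPolynomial.X (p.1, a) else 0)))

/-- symmetrisation `x_{ij} ↦ (x_{ij} + x_{ji}) / 2` -/
noncomputable def sy {n : ℕ} : MvPolynomial (Fin n × Fin n) ℝ →ₐ[ℝ] MvPolynomial (Fin n × Fin n) ℝ :=
  MvPolynomial.aeval fun p => MvPolynomial.C (1 / 2 : ℝ) *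
    (MvPolynomial.X (p.1, p.2) + MvPolynomial.X (p.2, p.1))

/-- value of a polynomial at a symmetric matrix -/
noncomputable def evs {n : ℕ} (p : MvPolynomial (Fin n × Fin n) ℝ) (x : Sy n) : ℝ :=
  ev p (x : E n n)

/-- a Haar measure on skew-symmetric matrices -/
noncomputable def nk (n : ℕ) : Measure (Sk n) := Measure.addHaar

/-- Cayley transform `(1 - A) (1 + A)⁻¹` -/
noncomputable def cay {n : ℕ} (A : Sk n) : Matrix (Fin n) (Fin n) ℝ := (1 - kM A) * (1 + kM A)⁻¹

/-- the chart `(A, l) ↦ Q diag(l) Qᵀ`, `Q = cay A` -/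
noncomputable def Ph {n : ℕ} (p : Sk n × V n) : Sy n := cong (cay p.1)ᵀ (dg p.2)

/-- small skew matrices -/
def Kb (n : ℕ) : Set (Sk n) := {A | ‖A‖ < 1 / 10}

/-- the image of the chart -/
noncomputable def Om (n : ℕ) : Set (Sy n) := Ph '' (Kb n ×ˢ Ch n)

/-- `|v|² X v - ⟨v, X v⟩ v` -/
noncomputable def Av {n : ℕ} (X : Sy n) (v : V n) : V n :=
  (‖v‖ ^ 2) • sv X v - ⟪v, sv X v⟫_ℝ • v

/-- the first column without the diagonal entry -/
def yv {m : ℕ} (X : Sy (m + 1)) : V m := WithLp.toLp 2 fun i => sM X i.succ 0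

/-- `H ↦ -2 Gᵀ H G`, `G = (1 + A)⁻¹`, on matrices -/
noncomputable def kcM {n : ℕ} (A : Sk n) (H : Matrix (Fin n) (Fin n) ℝ) :
    Matrix (Fin n) (Fin n) ℝ :=
  (-2 : ℝ) • (((1 + kM A)⁻¹)ᵀ * H * (1 + kM A)⁻¹)

theorem kM_add {n : ℕ} (A B : Sk n) : kM (A + B) = kM A + kM B := rfl

theorem kM_smul {n : ℕ} (c : ℝ) (A : Sk n) : kM (c • A) = c • kM A := rfl

theorem sM_add {n : ℕ} (A B : Sy n) : sM (A + B) = sM A + sM B := rfl

theorem sM_smul {n : ℕ} (c : ℝ) (A : Sy n) : sM (c • A) = c • sM A := rfl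

theorem kM_inj {n : ℕ} {A B : Sk n} (h : kM A = kM B) : A = B := by
  apply Subtype.ext
  ext p
  exact congrFun (congrFun h p.1) p.2

theorem sM_inj {n : ℕ} {A B : Sy n} (h : sM A = sM B) : A = B := by
  apply Subtype.ext
  ext p
  exact congrFun (congrFun h p.1) p.2

theorem kcM_add {n : ℕ} (A : Sk n) (H K : Matrix (Fin n) (Fin n) ℝ) :
    kcM A (H + K) = kcM A H + kcM A K := by
  simp only [kcM, Matrix.mul_add, Matrix.add_mul, smul_add]

theorem kcM_smul {n : ℕ} (A : Sk n) (c : ℝ) (H : Matrix (Fin n) (Fin n) ℝ) :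
    kcM A (c • H) = c • kcM A H := by
  simp only [kcM, Matrix.mul_smul, Matrix.smul_mul, smul_comm c]

/-- the map `H ↦ -2 Gᵀ H G`, `G = (1 + A)⁻¹`, on skew matrices -/
noncomputable def kc {n : ℕ} (A : Sk n) : Sk n →ₗ[ℝ] Sk n where
  toFun H := kOf (kcM A (kM H)) (by
    rw [kcM, Matrix.transpose_smul, Matrix.transpose_mul, Matrix.transpose_mul,
      Matrix.transpose_transpose, kM_transpose, Matrix.neg_mul, Matrix.mul_neg, smul_neg,
      Matrix.mul_assoc])
  map_add' H K := kM_inj (by rw [kM_kOf, kM_add, kM_add, kcM_add]; rfl)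
  map_smul' c H := kM_inj (by rw [kM_kOf, kM_smul, kcM_smul]; rfl)

@[simp] theorem kM_kc {n : ℕ} (A H : Sk n) : kM (kc A H) = kcM A (kM H) := rfl

/-- `(Ω, δ) ↦ Ω D - D Ω + diag δ`, `D = diag l`, on matrices -/
noncomputable def LbM {n : ℕ} (l : Fin n → ℝ) (O : Matrix (Fin n) (Fin n) ℝ) (d : Fin n → ℝ) :
    Matrix (Fin n) (Fin n) ℝ :=
  O * Matrix.diagonal l - Matrix.diagonal l * O + Matrix.diagonal d

theorem LbM_add {n : ℕ} (l : Fin n → ℝ) (O P : Matrix (Fin n) (Fin n) ℝ) (d f : Fin n → ℝ) :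
    LbM l (O + P) (d + f) = LbM l O d + LbM l P f := by
  have h : Matrix.diagonal (d + f) = Matrix.diagonal d + Matrix.diagonal f :=
    (Matrix.diagonal_add d f).symm
  simp only [LbM, Matrix.mul_add, Matrix.add_mul, h]
  abel

theorem LbM_smul {n : ℕ} (l : Fin n → ℝ) (c : ℝ) (O : Matrix (Fin n) (Fin n) ℝ) (d : Fin n → ℝ) :
    LbM l (c • O) (c • d) = c • LbM l O d := by
  have h : Matrix.diagonal (c • d) = c • Matrix.diagonal d := Matrix.diagonal_smul c d
  simp only [LbM, Matrix.mul_smul, Matrix.smul_mul, h, smul_add, smul_sub]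

/-- the map `(Ω, δ) ↦ Ω D - D Ω + diag δ`, `D = diag l` -/
noncomputable def Lb {n : ℕ} (l : V n) : (Sk n × V n) →ₗ[ℝ] Sy n where
  toFun q := sOf (LbM l.ofLp (kM q.1) q.2.ofLp) (by
    rw [LbM, Matrix.transpose_add, Matrix.transpose_sub, Matrix.transpose_mul,
      Matrix.transpose_mul, kM_transpose, Matrix.diagonal_transpose, Matrix.diagonal_transpose,
      Matrix.neg_mul, Matrix.mul_neg]
    abel)
  map_add' p q := sM_inj (by
    rw [sM_sOf]
    exact LbM_add l.ofLp (kM p.1) (kM q.1) p.2.ofLp q.2.ofLp)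
  map_smul' c q := sM_inj (by
    rw [sM_sOf]
    exact LbM_smul l.ofLp c (kM q.1) q.2.ofLp)

@[simp] theorem sM_Lb {n : ℕ} (l : V n) (q : Sk n × V n) :
    sM (Lb l q) = LbM l.ofLp (kM q.1) q.2.ofLp := rfl

@[simp] theorem sM_dg {n : ℕ} (l : V n) : sM (dg l) = Matrix.diagonal l.ofLp := rfl

@[simp] theorem sM_cong {n : ℕ} (A : Matrix (Fin n) (Fin n) ℝ) (G : Sy n) :
    sM (cong A G) = Aᵀ * sM G * A := rfl

/-- the tilted weight `w(x) exp(-(⟨e,x⟩ - τ)² / (2 σ²))` -/
noncomputable def tw {F : Type} [NormedAddCommGroup F] [InnerProductSpace ℝ F] (w : F → ℝ)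
    (e : F) (σ τ : ℝ) (x : F) : ℝ :=
  w x * Real.exp (-((⟪e, x⟫_ℝ - τ) ^ 2 / (2 * σ ^ 2)))

/-- the weight on the chamber -/
noncomputable def wch {n : ℕ} (ρ : Sy n → ℝ) : V n → ℝ :=
  (Ch n).indicator fun l => ρ (dg l) * vd l

/-- the sign of `j - i` -/
def sg {n : ℕ} (i j : Fin n) : ℝ := if i < j then 1 else if j < i then -1 else 0

/-- the linear isomorphism `S ↦ (sg(i,j) S_ij, diag S)` (inverse: `sg(i,j) K_ij + diag`) -/
def io2 (n : ℕ) : Sy n ≃ₗ[ℝ] (Sk n × V n) where
  toFun S := (kOf (Matrix.of fun i j => sg i j * sM S i j) (by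
      ext i j
      simp only [Matrix.transpose_apply, Matrix.of_apply, Matrix.neg_apply]
      have h : sM S j i = sM S i j := congrFun (congrFun (sM_transpose S) i) j
      rw [h]
      unfold sg
      rcases lt_trichotomy i j with h1 | h1 | h1
      · simp [h1, h1.not_gt]
      · simp [h1]
      · simp [h1, h1.not_gt]), WithLp.toLp 2 fun i => sM S i i)
  map_add' S T := by
    refine Prod.ext ?_ ?_
    · apply Subtype.ext
      ext p
      change sg p.1 p.2 * (sM S p.1 p.2 + sM T p.1 p.2) =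
        sg p.1 p.2 * sM S p.1 p.2 + sg p.1 p.2 * sM T p.1 p.2
      ring
    · ext i
      rfl
  map_smul' c S := by
    refine Prod.ext ?_ ?_
    · apply Subtype.ext
      ext p
      change sg p.1 p.2 * (c * sM S p.1 p.2) = c * (sg p.1 p.2 * sM S p.1 p.2)
      ring
    · ext i
      rfl
  invFun q := sOf (Matrix.of fun i j => sg i j * kM q.1 i j + if i = j then q.2 i else 0) (by
      ext i j
      simp only [Matrix.transpose_apply, Matrix.of_apply]
      have h : kM q.1 j i = - kM q.1 i j := congrFun (congrFun (kM_transpose q.1) i) j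
      rw [h]
      unfold sg
      rcases lt_trichotomy i j with h1 | h1 | h1
      · simp [h1, h1.not_gt, h1.ne, h1.ne']
      · simp [h1]
      · simp [h1, h1.not_gt, h1.ne, h1.ne'])
  left_inv S := by
    apply Subtype.ext
    ext p
    obtain ⟨i, j⟩ := p
    change sg i j * (sg i j * sM S i j) + (if i = j then sM S i i else 0) = sM S i j
    unfold sg
    rcases lt_trichotomy i j with h1 | h1 | h1
    · simp [h1, h1.ne]
    · simp [h1]
    · simp [h1, h1.ne', h1.not_gt]
  right_inv q := by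
    refine Prod.ext ?_ ?_
    · apply Subtype.ext
      ext p
      obtain ⟨i, j⟩ := p
      change sg i j * (sg i j * kM q.1 i j + if i = j then q.2 i else 0) = kM q.1 i j
      unfold sg
      rcases lt_trichotomy i j with h1 | h1 | h1
      · simp [h1, h1.ne]
      · subst h1
        have h : kM q.1 i i = - kM q.1 i i := congrFun (congrFun (kM_transpose q.1) i) i
        simp
        linarith
      · simp [h1, h1.ne', h1.not_gt]
    · ext i
      change sg i i * kM q.1 i i + (if i = i then q.2 i else 0) = q.2 i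
      simp [sg]

end Pool.Agent.H787R2.KC
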