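import Pool.Agent.H787R2.KC.St
import Pool.Agent.H212R2.KLS.G1

/-!
# GLUE: gluing, generic version
-/

set_option autoImplicit false

namespace Pool.Agent.H787R2.KC

open MeasureTheory Set Matrix Pool.Agent.H212R2.KLS
open scoped ENNReal InnerProductSpace

namespace GLUEx

open Pool.Agent.H212R2.KLS.G1x

theorem glue {W : Type} [NormedAddCommGroup W] [InnerProductSpace ℝ W] [FiniteDimensional ℝ W]
    [MeasurableSpace W] [BorelSpace W] (μ : Measure W) [IsProbabilityMeasure μ]
    (hball : ∃ R, μ (Metric.closedBall 0 R)ᶜ = 0) (m s A B : ℝ) (hm3 : 3 ≤ m) (hs : 0 ≤ s)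
    (hA : 0 ≤ A) (hB : 0 ≤ B)
    (hsm : ∀ g : W → ℝ, ContDiff ℝ 1 g →
      μ {x | g x ≠ 0} ≤ ENNReal.ofReal (Real.exp (-(2 * m))) →
      ∫ x, g x ^ 2 ∂μ ≤ B * s * ∫ x, ‖fderiv ℝ g x‖ ^ 2 ∂μ)
    (U : Set W) (hUm : MeasurableSet U) (hUc : μ Uᶜ ≤ ENNReal.ofReal (Real.exp (-(8 * m))))
    (hloc : ∀ h : W → ℝ, ContDiff ℝ 1 h → ∃ c : ℝ, ∫ x in U, (h x - c) ^ 2 ∂μ ≤
      A * s * ∫ x in U, ‖fderiv ℝ h x‖ ^ 2 ∂μ)
    (f : W → ℝ) (hf : ContDiff ℝ 1 f) :
    ∫ x, f x ^ 2 ∂μ - (∫ x, f x ∂μ) ^ 2 ≤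
      (2 * (2 * A + 4 * B)) * s * ∫ x, ‖fderiv ℝ f x‖ ^ 2 ∂μ := by
  have hI : ∀ g : W → ℝ, Continuous g → Integrable g μ := fun g hg =>
    L3x.intg μ hball g hg
  have hUr : μ.real Uᶜ ≤ Real.exp (-(8 * m)) := by
    rw [measureReal_def]
    exact ENNReal.toReal_le_of_le_ofReal (Real.exp_pos _).le hUc
  have hU1 : μ.real U = 1 - μ.real Uᶜ := by
    rw [probReal_compl_eq_one_sub hUm]
    ring
  have hU0 : 0 < μ.real U := by
    rw [hU1]
    have : Real.exp (-(8 * (m:ℝ))) < 1 := by
      rw [Real.exp_lt_one_iff]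
      linarith
    linarith
  have hresb : ∃ R, (μ.restrict U) (Metric.closedBall 0 R)ᶜ = 0 := by
    obtain ⟨R, hR⟩ := hball
    exact ⟨R, le_antisymm ((Measure.restrict_apply_le _ _).trans hR.le) zero_le⟩
  have hres0 : μ.restrict U ≠ 0 := by
    intro h
    have h2 : μ U = 0 := by
      rw [← Measure.restrict_apply_univ, h]
      simp
    rw [measureReal_def, h2] at hU0
    simp at hU0
  have hresr : ((μ.restrict U) univ).toReal = μ.real U := by
    rw [Measure.restrict_apply_univ, measureReal_def]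
  set c : ℝ := (∫ x in U, f x ∂μ) / μ.real U with hc
  set F : W → ℝ := fun x => f x - c with hF
  have hFc : ContDiff ℝ 1 F := hf.sub contDiff_const
  have hFcont : Continuous F := hFc.continuous
  have hfcont : Continuous f := hf.continuous
  have hF0 : ∫ x in U, F x ∂μ = 0 := by
    simp only [hF]
    rw [integral_sub (hI f hfcont).integrableOn (integrable_const _).integrableOn,
      integral_const, measureReal_restrict_apply_univ, smul_eq_mul, hc]
    field_simp
    ring
  have hDF : ∀ x, fderiv ℝ F x = fderiv ℝ f x := fun x => by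
    simp only [hF]
    exact fderiv_sub_const c
  set D := ∫ x, ‖fderiv ℝ f x‖ ^ 2 ∂μ with hD
  have hD0 : 0 ≤ D := integral_nonneg fun x => by positivity
  have hmain : ∫ x, F x ^ 2 ∂μ ≤ (2 * (2 * A + 4 * B)) * s * D := by
    set S := ∫ x, F x ^ 2 ∂μ with hS
    have hS0 : 0 ≤ S := integral_nonneg fun x => by positivity
    rcases hS0.eq_or_lt with hS1 | hS1
    · rw [← hS1]
      positivity
    set M : ℝ := Real.exp m * Real.sqrt S with hM
    have hM0 : 0 < M := mul_pos (Real.exp_pos _) (Real.sqrt_pos.2 hS1)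
    have hM2 : M ^ 2 = Real.exp (2 * m) * S := by
      rw [hM, mul_pow, Real.sq_sqrt hS0, ← Real.exp_nat_mul]
      norm_num
    set h : W → ℝ := fun x => M * ch (F x / M) with hh
    set g : W → ℝ := fun x => F x - h x with hg
    have hhc : ContDiff ℝ 1 h :=
      contDiff_const.mul (ch_contDiff.comp (hFc.div_const M))
    have hgc : ContDiff ℝ 1 g := hFc.sub hhc
    have hhcont : Continuous h := hhc.continuous
    have hgcont : Continuous g := hgc.continuous
    have hFd : ∀ x, HasFDerivAt F (fderiv ℝ f x) x := fun x => by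
      rw [← hDF]
      exact (hFc.differentiable (by norm_num)).differentiableAt.hasFDerivAt
    have hhd : ∀ x, fderiv ℝ h x = th (F x / M) • fderiv ℝ f x := by
      intro x
      have h1 : HasFDerivAt (fun y => F y / M) (M⁻¹ • fderiv ℝ f x) x := by
        have := (hFd x).const_mul M⁻¹
        simpa [div_eq_inv_mul] using this
      have h2 := ((ch_hasDeriv (F x / M)).comp_hasFDerivAt x h1).const_mul M
      have h3 : HasFDerivAt h (M • th (F x / M) • M⁻¹ • fderiv ℝ f x) x := h2
      rw [h3.fderiv, smul_smul, smul_smul]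
      congr 1
      field_simp
    have hgd : ∀ x, fderiv ℝ g x = (1 - th (F x / M)) • fderiv ℝ f x := by
      intro x
      have h1 : HasFDerivAt g (fderiv ℝ f x - fderiv ℝ h x) x :=
        (hFd x).sub (hhc.differentiable (by norm_num)).differentiableAt.hasFDerivAt
      rw [h1.fderiv, hhd, sub_smul, one_smul]
    have hhn : ∀ x, ‖fderiv ℝ h x‖ ^ 2 ≤ ‖fderiv ℝ f x‖ ^ 2 := by
      intro x
      rw [hhd, norm_smul, Real.norm_eq_abs, abs_of_nonneg (th_nonneg _)]
      refine pow_le_pow_left₀ (mul_nonneg (th_nonneg _) (norm_nonneg _)) ?_ 2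
      have := mul_le_mul_of_nonneg_right (th_le (F x / M)) (norm_nonneg (fderiv ℝ f x))
      linarith
    have hgn : ∀ x, ‖fderiv ℝ g x‖ ^ 2 ≤ ‖fderiv ℝ f x‖ ^ 2 := by
      intro x
      have h1 : 0 ≤ 1 - th (F x / M) := by linarith [th_le (F x / M)]
      rw [hgd, norm_smul, Real.norm_eq_abs, abs_of_nonneg h1]
      refine pow_le_pow_left₀ (mul_nonneg h1 (norm_nonneg _)) ?_ 2
      have := mul_nonneg (th_nonneg (F x / M)) (norm_nonneg (fderiv ℝ f x))
      linarith
    have hcd : ∀ u : W → ℝ, ContDiff ℝ 1 u → Continuous (fun x => ‖fderiv ℝ u x‖ ^ 2) :=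
      fun u hu => ((hu.continuous_fderiv (by norm_num)).norm).pow 2
    have hDh : ∫ x in U, ‖fderiv ℝ h x‖ ^ 2 ∂μ ≤ D := by
      refine (setIntegral_le_integral (hI _ (hcd h hhc)) ?_).trans ?_
      · exact Filter.Eventually.of_forall fun x => by positivity
      · exact integral_mono (hI _ (hcd h hhc)) (hI _ (hcd f hf)) hhn
    have hDg : ∫ x, ‖fderiv ℝ g x‖ ^ 2 ∂μ ≤ D :=
      integral_mono (hI _ (hcd g hgc)) (hI _ (hcd f hf)) hgn
    -- the support of g
    have hgsupp : μ {x | g x ≠ 0} ≤ ENNReal.ofReal (Real.exp (-(2 * m))) := by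
      have h1 : {x | g x ≠ 0} ⊆ {x | M ^ 2 ≤ F x ^ 2} := by
        intro x hx
        by_contra hcon
        refine hx ?_
        have h2 : F x ^ 2 < M ^ 2 := not_le.1 hcon
        have h3 : |F x| ≤ M := (abs_lt_of_sq_lt_sq h2 hM0.le).le
        have h4 : |F x / M| ≤ 1 := by
          rw [abs_div, abs_of_pos hM0, div_le_one hM0]
          exact h3
        simp only [hg, hh]
        rw [ch_eq h4]
        field_simp
        ring
      have h2 : M ^ 2 * μ.real {x | M ^ 2 ≤ F x ^ 2} ≤ S :=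
        mul_meas_ge_le_integral_of_nonneg (Filter.Eventually.of_forall fun x => by positivity)
          (hI _ (by fun_prop)) (M ^ 2)
      have h3 : μ.real {x | M ^ 2 ≤ F x ^ 2} ≤ Real.exp (-(2 * m)) := by
        rw [hM2] at h2
        have he := Real.exp_pos (2 * (m:ℝ))
        have h4 : Real.exp (2 * m) * μ.real {x | M ^ 2 ≤ F x ^ 2} ≤ 1 := by
          refine le_of_mul_le_mul_right ?_ hS1
          rw [hM2]
          linarith
        rw [Real.exp_neg, ← one_div, le_div_iff₀ he, mul_comm]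
        exact h4
      calc μ {x | g x ≠ 0} ≤ μ {x | M ^ 2 ≤ F x ^ 2} := measure_mono h1
        _ = ENNReal.ofReal (μ.real {x | M ^ 2 ≤ F x ^ 2}) := by
            rw [ofReal_measureReal]
        _ ≤ _ := ENNReal.ofReal_le_ofReal h3
    set G := ∫ x, g x ^ 2 ∂μ with hG
    have hGle : G ≤ B * s * D := (hsm g hgc hgsupp).trans
      (mul_le_mul_of_nonneg_left hDg (by positivity))
    have hGU : ∫ x in U, g x ^ 2 ∂μ ≤ G :=
      setIntegral_le_integral (hI _ (by fun_prop))
        (Filter.Eventually.of_forall fun x => by positivity)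
    -- on U
    have hhU : ∫ x in U, h x ^ 2 ∂μ ≤ A * s * D + G := by
      obtain ⟨c', hc'⟩ := hloc h hhc
      rw [L3x.var_le (μ.restrict U) hres0 hresb h hhcont c', hresr] at hc'
      have h1 : 0 ≤ μ.real U * (c' - (∫ x in U, h x ∂μ) / μ.real U) ^ 2 := by positivity
      have h2 : ∫ x in U, h x ∂μ = - ∫ x in U, g x ∂μ := by
        have : ∫ x in U, g x ∂μ = ∫ x in U, F x ∂μ - ∫ x in U, h x ∂μ :=
          integral_sub (hI F hFcont).integrableOn (hI h hhcont).integrableOn
        rw [hF0] at this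
        linarith
      have h3 : (∫ x in U, g x ∂μ) ^ 2 ≤ μ.real U * ∫ x in U, g x ^ 2 ∂μ := by
        have := cs (μ.restrict U) hresb g hgcont
        rwa [hresr] at this
      have h4 : (∫ x in U, h x ∂μ) ^ 2 / μ.real U ≤ G := by
        rw [div_le_iff₀ hU0, h2, neg_sq]
        refine h3.trans ?_
        rw [mul_comm]
        exact mul_le_mul_of_nonneg_right hGU hU0.le
      have h5 : A * s * ∫ x in U, ‖fderiv ℝ h x‖ ^ 2 ∂μ ≤ A * s * D :=
        mul_le_mul_of_nonneg_left hDh (by positivity)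
      linarith
    -- on the complement
    have hhUc : ∫ x in Uᶜ, h x ^ 2 ∂μ ≤ S / 100 := by
      have h1 : ∫ x in Uᶜ, h x ^ 2 ∂μ ≤ ∫ x in Uᶜ, (2 * M) ^ 2 ∂μ := by
        refine setIntegral_mono (hI _ (by fun_prop)).integrableOn
          (integrable_const _).integrableOn fun x => ?_
        have h2 : |h x| ≤ 2 * M := by
          simp only [hh]
          rw [abs_mul, abs_of_pos hM0]
          nlinarith [ch_abs (F x / M)]
        calc h x ^ 2 = |h x| ^ 2 := (sq_abs _).symm
          _ ≤ (2 * M) ^ 2 := pow_le_pow_left₀ (abs_nonneg _) h2 2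
      have h2 : ∫ x in Uᶜ, (2 * M) ^ 2 ∂μ = μ.real Uᶜ * (2 * M) ^ 2 := by
        rw [integral_const, measureReal_restrict_apply_univ, smul_eq_mul]
      have h3 : μ.real Uᶜ * (2 * M) ^ 2 ≤ Real.exp (-(8 * m)) * (2 * M) ^ 2 :=
        mul_le_mul_of_nonneg_right hUr (by positivity)
      have h4 : Real.exp (-(8 * (m:ℝ))) * (2 * M) ^ 2 = 4 * Real.exp (-(6 * m)) * S := by
        rw [mul_pow, hM2]
        have : Real.exp (-(6 * (m:ℝ))) = Real.exp (-(8 * m)) * Real.exp (2 * m) := by
          rw [← Real.exp_add]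
          congr 1
          ring
        rw [this]
        ring
      have h5 : Real.exp (-(6 * (m:ℝ))) ≤ 1 / 400 := by
        have h6 : Real.exp (-(6 * (m:ℝ))) = (Real.exp (m:ℝ) ^ 6)⁻¹ := by
          rw [Real.exp_neg, ← Real.exp_nat_mul]
          norm_num
        rw [h6]
        have h7 : (4:ℝ) ≤ Real.exp m := by
          have := Real.add_one_le_exp (m:ℝ)
          linarith
        have h8 : (4:ℝ) ^ 6 ≤ Real.exp m ^ 6 := pow_le_pow_left₀ (by norm_num) h7 6
        rw [inv_le_comm₀ (by positivity) (by norm_num)]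
        refine le_trans ?_ h8
        norm_num
      have h9 : 4 * Real.exp (-(6 * (m:ℝ))) * S ≤ S / 100 := by nlinarith
      linarith
    have hhall : ∫ x, h x ^ 2 ∂μ = ∫ x in U, h x ^ 2 ∂μ + ∫ x in Uᶜ, h x ^ 2 ∂μ :=
      (integral_add_compl hUm (hI _ (by fun_prop))).symm
    have hSle : S ≤ 2 * ∫ x, h x ^ 2 ∂μ + 2 * G := by
      rw [hS, hG, ← integral_const_mul, ← integral_const_mul,
        ← integral_add (hI _ (by fun_prop)) (hI _ (by fun_prop))]
      refine integral_mono (hI _ (by fun_prop)) (hI _ (by fun_prop)) fun x => ?_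
      have : F x = h x + g x := by simp only [hg]; ring
      simp only
      rw [this]
      nlinarith [sq_nonneg (h x - g x)]
    have hA' : 0 ≤ A * s * D := by positivity
    have hB' : 0 ≤ B * s * D := by positivity
    rw [hhall] at hSle
    have hrw : (2 * (2 * A + 4 * B)) * s * D = 4 * (A * s * D) + 8 * (B * s * D) := by ring
    rw [hrw]
    linarith
  have hvar := L3x.var_le μ (IsProbabilityMeasure.ne_zero μ) hball f hfcont c
  rw [show (μ univ).toReal = 1 by simp, div_one, div_one, one_mul] at hvar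
  have : ∫ x, F x ^ 2 ∂μ = ∫ x, (f x - c) ^ 2 ∂μ := rfl
  nlinarith [sq_nonneg (c - ∫ x, f x ∂μ)]

end GLUEx

/-- GLUE -/
theorem GLUE : S_GLUE := by
  intro W _ _ _ _ _ μ _ hball a s A B ha hs hA hB hsm U hUm hUc hloc f hf
  exact GLUEx.glue μ hball a s A B ha hs hA hB hsm U hUm hUc hloc f hf

end Pool.Agent.H787R2.KC
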