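import Pool.Agent.H787R2.KC.St

/-! Task LT: Poincare inequality for WA weights. -/

set_option autoImplicit false

namespace Pool.Agent.H787R2.KC

open MeasureTheory Set Matrix Pool.Agent.H212R2.KLS
open scoped ENNReal InnerProductSpace

namespace LTx

variable {F : Type} [NormedAddCommGroup F] [InnerProductSpace ℝ F]

theorem tw_le {w : F → ℝ} (hw : ∀ x, 0 ≤ w x) (e : F) (σ τ : ℝ) (x : F) :
    tw w e σ τ x ≤ w x := by
  unfold tw
  have h1 : Real.exp (-((⟪e, x⟫_ℝ - τ) ^ 2 / (2 * σ ^ 2))) ≤ 1 := by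
    rw [Real.exp_le_one_iff]
    have : 0 ≤ (⟪e, x⟫_ℝ - τ) ^ 2 / (2 * σ ^ 2) := by positivity
    linarith
  calc w x * _ ≤ w x * 1 := mul_le_mul_of_nonneg_left h1 (hw x)
    _ = w x := mul_one _

theorem tw_nonneg {w : F → ℝ} (hw : ∀ x, 0 ≤ w x) (e : F) (σ τ : ℝ) (x : F) :
    0 ≤ tw w e σ τ x := mul_nonneg (hw x) (Real.exp_pos _).le

variable [FiniteDimensional ℝ F] [MeasurableSpace F] [BorelSpace F]

/-- `h w'` is integrable if `h` is continuous and `0 ≤ w' ≤ w` -/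
theorem integ {ν : Measure F} [ν.IsAddHaarMeasure] {w : F → ℝ} {e : F} {σ : ℝ}
    (hw : WA ν w e σ) (w' : F → ℝ) (hm : Measurable w') (h0 : ∀ x, 0 ≤ w' x)
    (hle : ∀ x, w' x ≤ w x) (h : F → ℝ) (hc : Continuous h) :
    Integrable (fun x => h x * w' x) ν := by
  obtain ⟨B, hB⟩ := hw.bound
  obtain ⟨R, hR⟩ := hw.supp
  have hB0 : 0 ≤ B := (hw.nonneg 0).trans (hB 0)
  obtain ⟨M, hM⟩ := (isCompact_closedBall (0 : F) R).exists_bound_of_continuousOn hc.continuousOn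
  have h1 : Integrable ((Metric.closedBall (0 : F) R).indicator fun _ => M * B) ν := by
    rw [integrable_indicator_iff measurableSet_closedBall]
    apply integrableOn_const
    · exact (isCompact_closedBall (0 : F) R).measure_lt_top.ne
    · exact enorm_ne_top
  refine h1.mono' ((hc.measurable.mul hm).aestronglyMeasurable) (Filter.Eventually.of_forall ?_)
  intro x
  by_cases hx : x ∈ Metric.closedBall (0 : F) R
  · rw [indicator_of_mem hx, norm_mul, Real.norm_of_nonneg (h0 x)]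
    exact mul_le_mul (hM x hx) ((hle x).trans (hB x)) (h0 x) ((norm_nonneg _).trans (hM x hx))
  · rw [indicator_of_notMem hx]
    have h2 : w x = 0 := hR x (by
      rw [mem_closedBall_zero_iff, not_le] at hx
      exact hx)
    have h3 : w' x = 0 := le_antisymm ((hle x).trans h2.le) (h0 x)
    rw [h3, mul_zero, norm_zero]

theorem tw_meas {ν : Measure F} {w : F → ℝ} {e : F} {σ : ℝ}
    (hw : WA ν w e σ) (τ : ℝ) : Measurable (tw w e σ τ) := by
  unfold tw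
  refine hw.meas.mul ?_
  have : Continuous fun x : F => Real.exp (-((⟪e, x⟫_ℝ - τ) ^ 2 / (2 * σ ^ 2))) := by fun_prop
  exact this.measurable

theorem integ_tw {ν : Measure F} [ν.IsAddHaarMeasure] {w : F → ℝ} {e : F} {σ : ℝ}
    (hw : WA ν w e σ) (τ : ℝ) (h : F → ℝ) (hc : Continuous h) :
    Integrable (fun x => h x * tw w e σ τ x) ν :=
  integ hw _ (tw_meas hw τ) (tw_nonneg hw.nonneg e σ τ) (tw_le hw.nonneg e σ τ) h hc

theorem integ_tw1 {ν : Measure F} [ν.IsAddHaarMeasure] {w : F → ℝ} {e : F} {σ : ℝ}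
    (hw : WA ν w e σ) (τ : ℝ) : Integrable (fun x => tw w e σ τ x) ν := by
  have := integ_tw hw τ (fun _ => 1) continuous_const
  simpa using this

/-- bound for the tilted mean -/
theorem mean_bd {ν : Measure F} [ν.IsAddHaarMeasure] {w : F → ℝ} {e : F} {σ : ℝ}
    (hw : WA ν w e σ) (f : F → ℝ) (hc : Continuous f) :
    ∃ M : ℝ, ∀ τ, 0 < ∫ y, tw w e σ τ y ∂ν →
      |(∫ y, f y * tw w e σ τ y ∂ν) / ∫ y, tw w e σ τ y ∂ν| ≤ M := by
  obtain ⟨R, hR⟩ := hw.supp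
  obtain ⟨M, hM⟩ := (isCompact_closedBall (0 : F) R).exists_bound_of_continuousOn hc.continuousOn
  refine ⟨M, fun τ hτ => ?_⟩
  rw [abs_div, abs_of_pos hτ, div_le_iff₀ hτ, ← integral_const_mul]
  refine (abs_integral_le_integral_abs).trans ?_
  refine integral_mono (integ_tw hw τ f hc).abs ((integ_tw1 hw τ).const_mul M) ?_
  intro x
  show |f x * tw w e σ τ x| ≤ M * tw w e σ τ x
  rw [abs_mul, abs_of_nonneg (tw_nonneg hw.nonneg e σ τ x)]
  by_cases hx : x ∈ Metric.closedBall (0 : F) R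
  · exact mul_le_mul_of_nonneg_right (hM x hx) (tw_nonneg hw.nonneg e σ τ x)
  · have h2 : w x = 0 := hR x (by
      rw [mem_closedBall_zero_iff, not_le] at hx
      exact hx)
    have h3 : tw w e σ τ x = 0 := by unfold tw; rw [h2, zero_mul]
    rw [h3, mul_zero, mul_zero]

end LTx

open LTx in
theorem LT (h1 : S_LT1) (h2 : S_LT2) (h3 : S_LT3) (h4 : S_LT4) (h5 : S_LT5) : S_LT := by
  intro F _ _ _ _ _ ν _ w e σ hw f hf
  have hfc : Continuous f := hf.continuous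
  have hfd : Continuous fun x => ‖fderiv ℝ f x‖ ^ 2 :=
    ((hf.continuous_fderiv (by norm_num)).norm).pow 2
  obtain ⟨m', hm'c, hm'd, hm'b⟩ := h3 F ν w e σ hw f hfc
  obtain ⟨hZc, hZp, hZi, hZl, x0, hx0⟩ := h4 F ν w e σ hw
  obtain ⟨M, hM⟩ := mean_bd hw f hfc
  set Z : ℝ → ℝ := fun τ => ∫ y, tw w e σ τ y ∂ν with hZ
  set m : ℝ → ℝ := fun τ => (∫ y, f y * tw w e σ τ y ∂ν) / ∫ y, tw w e σ τ y ∂ν with hm
  set G : ℝ → ℝ := fun τ => ∫ x, ‖fderiv ℝ f x‖ ^ 2 * tw w e σ τ x ∂ν with hG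
  have hσ := hw.σpos
  have hH := h1 Z m m' x0 (8 * σ) M hZc hZp hZi hZl hx0 hm'c hm'd (fun τ => hM τ (hZp τ))
  -- the bound for m'
  have hmG : ∀ τ, (m' τ) ^ 2 * Z τ ≤ G τ := by
    intro τ
    have b1 := hm'b τ
    have b2 := (h2 F ν w e σ hw τ f hf).2
    have hcd : ContDiff ℝ 1 (fun x : F => ⟪e, x⟫_ℝ) := (innerSL ℝ e).contDiff
    have b3 := (h2 F ν w e σ hw τ (fun x => ⟪e, x⟫_ℝ) hcd).2
    have hfe : ∀ x : F, ‖fderiv ℝ (fun x : F => ⟪e, x⟫_ℝ) x‖ ^ 2 = 1 := by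
      intro x
      have : fderiv ℝ (fun x : F => ⟪e, x⟫_ℝ) x = innerSL ℝ e := (innerSL ℝ e).fderiv
      rw [this, innerSL_apply_norm, hw.unit, one_pow]
    simp only [hfe, one_mul] at b3
    have hZ0 : 0 < Z τ := hZp τ
    have n1 : 0 ≤ ∫ x, (⟪e, x⟫_ℝ - (∫ y, ⟪e, y⟫_ℝ * tw w e σ τ y ∂ν) /
        ∫ y, tw w e σ τ y ∂ν) ^ 2 * tw w e σ τ x ∂ν :=
      integral_nonneg fun x => mul_nonneg (sq_nonneg _) (tw_nonneg hw.nonneg e σ τ x)
    have n2 : 0 ≤ G τ :=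
      integral_nonneg fun x => mul_nonneg (sq_nonneg _) (tw_nonneg hw.nonneg e σ τ x)
    have b4 : (m' τ) ^ 2 * σ ^ 4 * (Z τ) ^ 2 ≤ (σ ^ 2 * G τ) * (σ ^ 2 * Z τ) :=
      b1.trans (mul_le_mul b2 b3 n1 (by positivity))
    have b5 : (σ ^ 4 * Z τ) * ((m' τ) ^ 2 * Z τ) ≤ (σ ^ 4 * Z τ) * G τ := by
      calc (σ ^ 4 * Z τ) * ((m' τ) ^ 2 * Z τ) = (m' τ) ^ 2 * σ ^ 4 * (Z τ) ^ 2 := by ring
        _ ≤ (σ ^ 2 * G τ) * (σ ^ 2 * Z τ) := b4
        _ = (σ ^ 4 * Z τ) * G τ := by ring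
    exact le_of_mul_le_mul_left b5 (by positivity)
  refine ⟨m x0, ?_⟩
  set N : ℝ := Real.sqrt (2 * Real.pi) * σ with hN
  have hNp : 0 < N := by positivity
  set D : ℝ := ∫ x, ‖fderiv ℝ f x‖ ^ 2 * w x ∂ν with hD
  have hD0 : 0 ≤ D := integral_nonneg fun x => mul_nonneg (sq_nonneg _) (hw.nonneg x)
  -- pointwise bound
  have hpt : ∀ τ, ∫ x, (f x - m x0) ^ 2 * tw w e σ τ x ∂ν ≤
      ∫ x, (2 * σ ^ 2 * ‖fderiv ℝ f x‖ ^ 2) * tw w e σ τ x ∂ν + 2 * ((m τ - m x0) ^ 2 * Z τ) := by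
    intro τ
    have b2 := (h2 F ν w e σ hw τ f hf).2
    have i1 : Integrable (fun x => (f x - m τ) ^ 2 * tw w e σ τ x) ν :=
      integ_tw hw τ _ ((hfc.sub continuous_const).pow 2)
    have i2 : Integrable (fun x => (f x - m x0) ^ 2 * tw w e σ τ x) ν :=
      integ_tw hw τ _ ((hfc.sub continuous_const).pow 2)
    have c1 : ∫ x, (f x - m x0) ^ 2 * tw w e σ τ x ∂ν ≤
        ∫ x, (2 * ((f x - m τ) ^ 2 * tw w e σ τ x) +
          2 * (m τ - m x0) ^ 2 * tw w e σ τ x) ∂ν := by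
      refine integral_mono i2 ((i1.const_mul 2).add ((integ_tw1 hw τ).const_mul _)) ?_
      intro x
      show (f x - m x0) ^ 2 * tw w e σ τ x ≤ 2 * ((f x - m τ) ^ 2 * tw w e σ τ x) +
          2 * (m τ - m x0) ^ 2 * tw w e σ τ x
      have ht := tw_nonneg hw.nonneg e σ τ x
      have hq : (f x - m x0) ^ 2 ≤ 2 * (f x - m τ) ^ 2 + 2 * (m τ - m x0) ^ 2 := by
        nlinarith [sq_nonneg ((f x - m τ) - (m τ - m x0))]
      calc (f x - m x0) ^ 2 * tw w e σ τ x ≤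
          (2 * (f x - m τ) ^ 2 + 2 * (m τ - m x0) ^ 2) * tw w e σ τ x :=
            mul_le_mul_of_nonneg_right hq ht
        _ = _ := by ring
    have c2 : ∫ x, (2 * ((f x - m τ) ^ 2 * tw w e σ τ x) +
          2 * (m τ - m x0) ^ 2 * tw w e σ τ x) ∂ν =
        2 * (∫ x, (f x - m τ) ^ 2 * tw w e σ τ x ∂ν) + 2 * ((m τ - m x0) ^ 2 * Z τ) := by
      rw [integral_add (i1.const_mul 2) ((integ_tw1 hw τ).const_mul _), integral_const_mul,
        integral_const_mul]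
      ring
    have c3 : ∫ x, (2 * σ ^ 2 * ‖fderiv ℝ f x‖ ^ 2) * tw w e σ τ x ∂ν =
        2 * (σ ^ 2 * ∫ x, ‖fderiv ℝ f x‖ ^ 2 * tw w e σ τ x ∂ν) := by
      rw [← integral_const_mul, ← integral_const_mul]
      congr 1
      funext x
      ring
    rw [c3]
    linarith
  have hq1 := h5 F ν w e σ hw (fun x => (f x - m x0) ^ 2) ((hfc.sub continuous_const).pow 2)
    (fun x => sq_nonneg _)
  have hq2 := h5 F ν w e σ hw (fun x => 2 * σ ^ 2 * ‖fderiv ℝ f x‖ ^ 2)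
    (continuous_const.mul hfd) (fun x => by positivity)
  have hq3 := h5 F ν w e σ hw (fun x => ‖fderiv ℝ f x‖ ^ 2) hfd (fun x => by positivity)
  have hs1 : ∫⁻ τ : ℝ, ENNReal.ofReal (2 * ((m τ - m x0) ^ 2 * Z τ)) ≤
      ENNReal.ofReal (512 * σ ^ 2 * (N * D)) := by
    have e1 : ∀ τ : ℝ, ENNReal.ofReal (2 * ((m τ - m x0) ^ 2 * Z τ)) =
        ENNReal.ofReal 2 * ENNReal.ofReal ((m τ - m x0) ^ 2 * Z τ) := by
      intro τ
      rw [ENNReal.ofReal_mul (by norm_num)]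
    simp only [e1]
    rw [lintegral_const_mul' _ _ ENNReal.ofReal_ne_top]
    have e2 : ∫⁻ τ : ℝ, ENNReal.ofReal ((m' τ) ^ 2 * Z τ) ≤ ENNReal.ofReal (N * D) := by
      rw [← hq3]
      exact lintegral_mono fun τ => ENNReal.ofReal_le_ofReal (hmG τ)
    calc ENNReal.ofReal 2 * ∫⁻ τ : ℝ, ENNReal.ofReal ((m τ - m x0) ^ 2 * Z τ) ≤
        ENNReal.ofReal 2 * (ENNReal.ofReal (4 * (8 * σ) ^ 2) * ENNReal.ofReal (N * D)) := by
          gcongr
          exact hH.trans (by gcongr)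
      _ = ENNReal.ofReal (512 * σ ^ 2 * (N * D)) := by
          rw [← ENNReal.ofReal_mul (by positivity), ← ENNReal.ofReal_mul (by positivity)]
          congr 1
          ring
  have hfin : ENNReal.ofReal (N * ∫ x, (f x - m x0) ^ 2 * w x ∂ν) ≤
      ENNReal.ofReal (514 * σ ^ 2 * (N * D)) := by
    rw [← hq1]
    calc ∫⁻ τ : ℝ, ENNReal.ofReal (∫ x, (f x - m x0) ^ 2 * tw w e σ τ x ∂ν) ≤
        ∫⁻ τ : ℝ, (ENNReal.ofReal (∫ x, (2 * σ ^ 2 * ‖fderiv ℝ f x‖ ^ 2) * tw w e σ τ x ∂ν) +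
          ENNReal.ofReal (2 * ((m τ - m x0) ^ 2 * Z τ))) :=
          lintegral_mono fun τ => (ENNReal.ofReal_le_ofReal (hpt τ)).trans ENNReal.ofReal_add_le
      _ = (∫⁻ τ : ℝ, ENNReal.ofReal (∫ x, (2 * σ ^ 2 * ‖fderiv ℝ f x‖ ^ 2) *
          tw w e σ τ x ∂ν)) + ∫⁻ τ : ℝ, ENNReal.ofReal (2 * ((m τ - m x0) ^ 2 * Z τ)) := by
          refine lintegral_add_right _ ?_
          have hmc : Continuous m := by
            rw [continuous_iff_continuousAt]
            exact fun τ => (hm'd τ).continuousAt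
          exact (((hmc.sub continuous_const).pow 2).mul hZc |>.const_mul 2).measurable.ennreal_ofReal
      _ ≤ ENNReal.ofReal (N * (2 * σ ^ 2 * D)) + ENNReal.ofReal (512 * σ ^ 2 * (N * D)) := by
          refine add_le_add (le_of_eq ?_) hs1
          rw [hq2]
          congr 2
          rw [hD, ← integral_const_mul]
          congr 1
          funext x
          ring
      _ = ENNReal.ofReal (514 * σ ^ 2 * (N * D)) := by
          rw [← ENNReal.ofReal_add (by positivity) (by positivity)]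
          congr 1
          ring
  rw [ENNReal.ofReal_le_ofReal_iff (by positivity)] at hfin
  have : N * ∫ x, (f x - m x0) ^ 2 * w x ∂ν ≤ N * (514 * σ ^ 2 * D) := by
    calc N * ∫ x, (f x - m x0) ^ 2 * w x ∂ν ≤ 514 * σ ^ 2 * (N * D) := hfin
      _ = N * (514 * σ ^ 2 * D) := by ring
  exact le_of_mul_le_mul_left this hNp

end Pool.Agent.H787R2.KC
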