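import Pool.Agent.H787R2.KC.St

/-!
LT1: Hardy inequality on the line for log-concave densities.
-/

set_option autoImplicit false

namespace Pool.Agent.H787R2.KC

open MeasureTheory Set
open scoped ENNReal

namespace LT1x

/-- four point inequality -/
theorem four {Z : ℝ → ℝ} (hp : ∀ x, 0 < Z x)
    (hl : ∀ x y t : ℝ, 0 < t → t < 1 → Z x ^ (1 - t) * Z y ^ t ≤ Z ((1 - t) * x + t * y))
    {x0 x u : ℝ} (hx : x0 ≤ x) (hu : 0 ≤ u) : Z (x + u) * Z x0 ≤ Z x * Z (x0 + u) := by
  rcases hx.eq_or_lt with rfl | hx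
  · rw [mul_comm]
  rcases hu.eq_or_lt with rfl | hu
  · simp
  set θ := (x - x0) / (x + u - x0) with hθ
  have hd : 0 < x + u - x0 := by linarith
  have h0 : 0 < θ := div_pos (by linarith) hd
  have h1 : θ < 1 := by rw [hθ, div_lt_one hd]; linarith
  have e : θ * (x + u - x0) = x - x0 := by rw [hθ]; field_simp
  have a1 := hl x0 (x + u) θ h0 h1
  have a2 := hl x0 (x + u) (1 - θ) (by linarith) (by linarith)
  have e1 : (1 - θ) * x0 + θ * (x + u) = x := by linear_combination e
  have e2 : (1 - (1 - θ)) * x0 + (1 - θ) * (x + u) = x0 + u := by linear_combination -e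
  rw [e1] at a1
  rw [e2] at a2
  have b1 : Z x0 ^ (1 - θ) * Z x0 ^ (1 - (1 - θ)) = Z x0 := by
    rw [← Real.rpow_add (hp x0), show 1 - θ + (1 - (1 - θ)) = 1 by ring, Real.rpow_one]
  have b2 : Z (x + u) ^ θ * Z (x + u) ^ (1 - θ) = Z (x + u) := by
    rw [← Real.rpow_add (hp _), show θ + (1 - θ) = 1 by ring, Real.rpow_one]
  have key := mul_le_mul a1 a2 (mul_nonneg (Real.rpow_nonneg (hp _).le _)
    (Real.rpow_nonneg (hp _).le _)) (hp x).le
  calc Z (x + u) * Z x0 = (Z x0 ^ (1 - θ) * Z x0 ^ (1 - (1 - θ))) *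
        (Z (x + u) ^ θ * Z (x + u) ^ (1 - θ)) := by rw [b1, b2, mul_comm]
    _ = (Z x0 ^ (1 - θ) * Z (x + u) ^ θ) * (Z x0 ^ (1 - (1 - θ)) * Z (x + u) ^ (1 - θ)) := by ring
    _ ≤ _ := key

/-- tails are bounded by the density -/
theorem tail {Z : ℝ → ℝ} (hc : Continuous Z) (hp : ∀ x, 0 < Z x) (hi : Integrable Z)
    (hl : ∀ x y t : ℝ, 0 < t → t < 1 → Z x ^ (1 - t) * Z y ^ t ≤ Z ((1 - t) * x + t * y))
    {x0 K : ℝ} (hK : ∫ x, Z x ≤ K * Z x0) {x T : ℝ} (hx : x0 ≤ x) (hT : x ≤ T) :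
    ∫ y in x..T, Z y ≤ K * Z x := by
  have h1 : ∫ y in x..T, Z y = ∫ u in (0:ℝ)..(T - x), Z (x + u) := by
    rw [intervalIntegral.integral_comp_add_left]; simp
  have h2 : ∫ u in (0:ℝ)..(T - x), Z (x0 + u) = ∫ y in x0..(x0 + (T - x)), Z y := by
    rw [intervalIntegral.integral_comp_add_left]; simp
  have h3 : Z x0 * ∫ u in (0:ℝ)..(T - x), Z (x + u) ≤
      Z x * ∫ u in (0:ℝ)..(T - x), Z (x0 + u) := by
    rw [← intervalIntegral.integral_const_mul, ← intervalIntegral.integral_const_mul]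
    apply intervalIntegral.integral_mono_on (by linarith)
    · exact (Continuous.intervalIntegrable (by fun_prop) _ _)
    · exact (Continuous.intervalIntegrable (by fun_prop) _ _)
    · intro u hu
      have := four hp hl hx hu.1
      linarith
  have h4 : ∫ y in x0..(x0 + (T - x)), Z y ≤ ∫ y, Z y := by
    rw [intervalIntegral.integral_of_le (by linarith)]
    exact setIntegral_le_integral hi (Filter.Eventually.of_forall fun y => (hp y).le)
  have h5 : Z x0 * ∫ y in x..T, Z y ≤ Z x0 * (K * Z x) := by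
    rw [h1]
    calc _ ≤ Z x * ∫ u in (0:ℝ)..(T - x), Z (x0 + u) := h3
      _ ≤ Z x * (K * Z x0) :=
        mul_le_mul_of_nonneg_left (by rw [h2]; exact h4.trans hK) (hp x).le
      _ = _ := by ring
  exact le_of_mul_le_mul_left h5 (hp x0)

/-- Hardy inequality on an interval -/
theorem hardy {Z m m' : ℝ → ℝ} (hc : Continuous Z) (hp : ∀ x, 0 < Z x) (hi : Integrable Z)
    (hl : ∀ x y t : ℝ, 0 < t → t < 1 → Z x ^ (1 - t) * Z y ^ t ≤ Z ((1 - t) * x + t * y))
    {x0 K : ℝ} (hK : ∫ x, Z x ≤ K * Z x0) (hm'c : Continuous m')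
    (hm : ∀ x, HasDerivAt m (m' x) x) {T : ℝ} (hT : x0 ≤ T) :
    ∫ x in x0..T, (m x - m x0) ^ 2 * Z x ≤ 4 * K ^ 2 * ∫ x in x0..T, (m' x) ^ 2 * Z x := by
  have hmc : Continuous m := continuous_iff_continuousAt.2 fun x => (hm x).continuousAt
  let h : ℝ → ℝ := fun x => ∫ y in x..T, Z y
  have hh : ∀ x, HasDerivAt h (- Z x) x := by
    intro x
    exact intervalIntegral.integral_hasDerivAt_left (hc.intervalIntegrable _ _)
      (hc.stronglyMeasurableAtFilter _ _) hc.continuousAt
  have hhc : Continuous h := continuous_iff_continuousAt.2 fun x => (hh x).continuousAt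
  have hg : ∀ x, HasDerivAt (fun x => (m x - m x0) ^ 2 * h x)
      (2 * (m x - m x0) * m' x * h x - (m x - m x0) ^ 2 * Z x) x := by
    intro x
    have := (((hm x).sub_const (m x0)).fun_pow 2).fun_mul (hh x)
    refine this.congr_deriv ?_
    simp
    ring
  have hF := intervalIntegral.integral_eq_sub_of_hasDerivAt (a := x0) (b := T)
    (fun x _ => hg x) (Continuous.intervalIntegrable (by fun_prop) _ _)
  have e0 : h T = 0 := intervalIntegral.integral_same
  rw [e0, sub_self, mul_zero, zero_pow two_ne_zero, zero_mul, sub_zero,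
    intervalIntegral.integral_sub (Continuous.intervalIntegrable (by fun_prop) _ _)
      (Continuous.intervalIntegrable (by fun_prop) _ _), sub_eq_zero] at hF
  have hmono : ∫ x in x0..T, 2 * (m x - m x0) * m' x * h x ≤
      ∫ x in x0..T, ((1 / 2) * ((m x - m x0) ^ 2 * Z x) + 2 * K ^ 2 * ((m' x) ^ 2 * Z x)) := by
    apply intervalIntegral.integral_mono_on hT
    · exact (Continuous.intervalIntegrable (by fun_prop) _ _)
    · exact (Continuous.intervalIntegrable (by fun_prop) _ _)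
    · intro x hx
      have h1 : h x ≤ K * Z x := tail hc hp hi hl hK hx.1 hx.2
      have h0 : 0 ≤ h x := intervalIntegral.integral_nonneg hx.2 fun y _ => (hp y).le
      have h2 : (m x - m x0) * m' x * h x ≤ |m x - m x0| * |m' x| * (K * Z x) := by
        calc (m x - m x0) * m' x * h x ≤ |(m x - m x0) * m' x| * h x :=
              mul_le_mul_of_nonneg_right (le_abs_self _) h0
          _ ≤ |(m x - m x0) * m' x| * (K * Z x) := mul_le_mul_of_nonneg_left h1 (abs_nonneg _)
          _ = _ := by rw [abs_mul]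
      have h3 : 0 ≤ (|m x - m x0| - 2 * K * |m' x|) ^ 2 * Z x :=
        mul_nonneg (sq_nonneg _) (hp x).le
      have h4 : |m x - m x0| ^ 2 = (m x - m x0) ^ 2 := sq_abs _
      have h5 : |m' x| ^ 2 = (m' x) ^ 2 := sq_abs _
      have h6 : (|m x - m x0| - 2 * K * |m' x|) ^ 2 = (m x - m x0) ^ 2 -
          4 * K * (|m x - m x0| * |m' x|) + 4 * K ^ 2 * (m' x) ^ 2 := by
        rw [← h4, ← h5]; ring
      rw [h6] at h3
      nlinarith [h2, h3]
  rw [intervalIntegral.integral_add (Continuous.intervalIntegrable (by fun_prop) _ _)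
      (Continuous.intervalIntegrable (by fun_prop) _ _), intervalIntegral.integral_const_mul,
    intervalIntegral.integral_const_mul, hF] at hmono
  linarith

/-- Hardy inequality on both sides -/
theorem hardy2 {Z m m' : ℝ → ℝ} (hc : Continuous Z) (hp : ∀ x, 0 < Z x) (hi : Integrable Z)
    (hl : ∀ x y t : ℝ, 0 < t → t < 1 → Z x ^ (1 - t) * Z y ^ t ≤ Z ((1 - t) * x + t * y))
    {x0 K : ℝ} (hK : ∫ x, Z x ≤ K * Z x0) (hm'c : Continuous m')
    (hm : ∀ x, HasDerivAt m (m' x) x) {T : ℝ} (hT : 0 ≤ T) :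
    ∫ x in (x0 - T)..(x0 + T), (m x - m x0) ^ 2 * Z x ≤
      4 * K ^ 2 * ∫ x in (x0 - T)..(x0 + T), (m' x) ^ 2 * Z x := by
  have hmc : Continuous m := continuous_iff_continuousAt.2 fun x => (hm x).continuousAt
  have h1 := hardy hc hp hi hl hK hm'c hm (T := x0 + T) (by linarith)
  have h2 := hardy (Z := fun x => Z (2 * x0 - x)) (m := fun x => m (2 * x0 - x))
    (m' := fun x => - m' (2 * x0 - x)) (by fun_prop) (fun x => hp _)
    (hi.comp_sub_left (2 * x0))
    (by
      intro x y t h0 h1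
      have := hl (2 * x0 - x) (2 * x0 - y) t h0 h1
      have e : (1 - t) * (2 * x0 - x) + t * (2 * x0 - y) = 2 * x0 - ((1 - t) * x + t * y) := by
        ring
      rw [e] at this
      exact this)
    (x0 := x0) (K := K)
    (by
      have e : ∫ x, Z (2 * x0 - x) = ∫ x, Z x := integral_sub_left_eq_self Z volume (2 * x0)
      have e2 : 2 * x0 - x0 = x0 := by ring
      rw [e, e2]
      exact hK)
    (by fun_prop)
    (by
      intro x
      have := (hm (2 * x0 - x)).comp_const_sub (2 * x0) x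
      exact this)
    (T := x0 + T) (by linarith)
  have e1 : ∫ x in x0..(x0 + T), (m (2 * x0 - x) - m (2 * x0 - x0)) ^ 2 * Z (2 * x0 - x) =
      ∫ x in (x0 - T)..x0, (m x - m x0) ^ 2 * Z x := by
    have := intervalIntegral.integral_comp_sub_left (a := x0) (b := x0 + T)
      (fun x => (m x - m x0) ^ 2 * Z x) (2 * x0)
    rw [show 2 * x0 - (x0 + T) = x0 - T by ring, show 2 * x0 - x0 = x0 by ring] at this
    rw [show 2 * x0 - x0 = x0 by ring]
    exact this
  have e2 : ∫ x in x0..(x0 + T), (- m' (2 * x0 - x)) ^ 2 * Z (2 * x0 - x) =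
      ∫ x in (x0 - T)..x0, (m' x) ^ 2 * Z x := by
    have := intervalIntegral.integral_comp_sub_left (a := x0) (b := x0 + T)
      (fun x => (m' x) ^ 2 * Z x) (2 * x0)
    rw [show 2 * x0 - (x0 + T) = x0 - T by ring, show 2 * x0 - x0 = x0 by ring] at this
    rw [← this]
    simp only [neg_sq]
  rw [e1, e2] at h2
  rw [← intervalIntegral.integral_add_adjacent_intervals (b := x0)
    (f := fun x => (m x - m x0) ^ 2 * Z x) (Continuous.intervalIntegrable (by fun_prop) _ _)
    (Continuous.intervalIntegrable (by fun_prop) _ _),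
    ← intervalIntegral.integral_add_adjacent_intervals (b := x0)
    (f := fun x => (m' x) ^ 2 * Z x) (Continuous.intervalIntegrable (by fun_prop) _ _)
    (Continuous.intervalIntegrable (by fun_prop) _ _)]
  linarith

theorem lint_Ioc {f : ℝ → ℝ} (hf : Continuous f) (h0 : ∀ x, 0 ≤ f x) {a b : ℝ} (hab : a ≤ b) :
    ∫⁻ x in Ioc a b, ENNReal.ofReal (f x) = ENNReal.ofReal (∫ x in a..b, f x) := by
  rw [intervalIntegral.integral_of_le hab, ofReal_integral_eq_lintegral_ofReal]
  · exact (hf.intervalIntegrable a b).1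
  · exact Filter.Eventually.of_forall h0

theorem iUnion_Ioc (x0 : ℝ) : ⋃ n : ℕ, Ioc (x0 - n) (x0 + n) = univ := by
  ext x
  simp only [mem_iUnion, mem_Ioc, mem_univ, iff_true]
  obtain ⟨n, hn⟩ := exists_nat_gt |x - x0|
  rw [abs_lt] at hn
  exact ⟨n, by linarith, by linarith⟩

theorem dir_Ioc (x0 : ℝ) : Directed (· ⊆ ·) fun n : ℕ => Ioc (x0 - n) (x0 + n) := by
  apply Monotone.directed_le
  intro a b hab
  have : (a : ℝ) ≤ b := by exact_mod_cast hab
  exact Ioc_subset_Ioc (by linarith) (by linarith)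

end LT1x

open LT1x in
theorem LT1 : S_LT1 := by
  intro Z m m' x0 K M hc hp hi hl hK hm'c hm _
  have hmc : Continuous m := continuous_iff_continuousAt.2 fun x => (hm x).continuousAt
  rw [← setLIntegral_univ, ← iUnion_Ioc x0,
    setLIntegral_iUnion_of_directed _ (dir_Ioc x0)]
  refine iSup_le fun n => ?_
  rw [lint_Ioc (by fun_prop) (fun x => mul_nonneg (sq_nonneg _) (hp x).le)
    (by linarith [Nat.cast_nonneg (α := ℝ) n])]
  calc ENNReal.ofReal (∫ x in (x0 - n)..(x0 + n), (m x - m x0) ^ 2 * Z x)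
      ≤ ENNReal.ofReal (4 * K ^ 2 * ∫ x in (x0 - n)..(x0 + n), (m' x) ^ 2 * Z x) :=
        ENNReal.ofReal_le_ofReal (hardy2 hc hp hi hl hK hm'c hm (Nat.cast_nonneg n))
    _ = ENNReal.ofReal (4 * K ^ 2) *
        ∫⁻ x in Ioc (x0 - n) (x0 + n), ENNReal.ofReal ((m' x) ^ 2 * Z x) := by
      rw [lint_Ioc (by fun_prop) (fun x => mul_nonneg (sq_nonneg _) (hp x).le)
        (by linarith [Nat.cast_nonneg (α := ℝ) n]), ENNReal.ofReal_mul (by positivity)]
    _ ≤ _ := by
      gcongr
      exact Measure.restrict_le_self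

end Pool.Agent.H787R2.KC
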