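import Pool.Agent.H787R2.KC.St
import Pool.Agent.H212R2.KLS.R4

/-!
# Task LT2: Poincare inequality for the tilted weight
-/

set_option autoImplicit false

namespace Pool.Agent.H787R2.KC

open MeasureTheory Set Matrix Pool.Agent.H212R2.KLS
open scoped ENNReal InnerProductSpace

namespace LT2x

variable {F : Type} [NormedAddCommGroup F] [InnerProductSpace ℝ F]

theorem mid_tw (w : F → ℝ) (e : F) (σ : ℝ) (hσ : 0 < σ) (τ : ℝ)
    (mid : ∀ x y, w x * w y ≤ (w ((1 / 2 : ℝ) • (x + y))) ^ 2 *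
      Real.exp (-(1 / (4 * σ ^ 2) * (‖x - y‖ ^ 2 - ⟪e, x - y⟫_ℝ ^ 2)))) (x y : F) :
    tw w e σ τ x * tw w e σ τ y ≤ (tw w e σ τ ((1 / 2 : ℝ) • (x + y))) ^ 2 *
      Real.exp (-((σ ^ 2)⁻¹ / 4 * ‖x - y‖ ^ 2)) := by
  unfold tw
  rw [inner_smul_right, inner_add_right]
  have h1 := mid x y
  rw [inner_sub_right] at h1
  set a := ⟪e, x⟫_ℝ with ha
  set b := ⟪e, y⟫_ℝ with hb
  set W := w ((1 / 2 : ℝ) • (x + y)) with hW
  set D := ‖x - y‖ ^ 2 with hD
  have hE : Real.exp (-(1 / (4 * σ ^ 2) * (D - (a - b) ^ 2))) *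
      (Real.exp (-((a - τ) ^ 2 / (2 * σ ^ 2))) * Real.exp (-((b - τ) ^ 2 / (2 * σ ^ 2)))) =
      Real.exp (-((1 / 2 * (a + b) - τ) ^ 2 / (2 * σ ^ 2))) ^ 2 *
        Real.exp (-((σ ^ 2)⁻¹ / 4 * D)) := by
    rw [← Real.exp_add, ← Real.exp_add, ← Real.exp_nat_mul, ← Real.exp_add]
    congr 1
    push_cast
    field_simp
    ring
  calc w x * Real.exp (-((a - τ) ^ 2 / (2 * σ ^ 2))) *
        (w y * Real.exp (-((b - τ) ^ 2 / (2 * σ ^ 2))))
      = (w x * w y) * (Real.exp (-((a - τ) ^ 2 / (2 * σ ^ 2))) *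
        Real.exp (-((b - τ) ^ 2 / (2 * σ ^ 2)))) := by ring
    _ ≤ (W ^ 2 * Real.exp (-(1 / (4 * σ ^ 2) * (D - (a - b) ^ 2)))) *
        (Real.exp (-((a - τ) ^ 2 / (2 * σ ^ 2))) *
        Real.exp (-((b - τ) ^ 2 / (2 * σ ^ 2)))) :=
        mul_le_mul_of_nonneg_right h1 (by positivity)
    _ = W ^ 2 * (Real.exp (-(1 / (4 * σ ^ 2) * (D - (a - b) ^ 2))) *
        (Real.exp (-((a - τ) ^ 2 / (2 * σ ^ 2))) *
        Real.exp (-((b - τ) ^ 2 / (2 * σ ^ 2))))) := by ring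
    _ = W ^ 2 * (Real.exp (-((1 / 2 * (a + b) - τ) ^ 2 / (2 * σ ^ 2))) ^ 2 *
        Real.exp (-((σ ^ 2)⁻¹ / 4 * D))) := by rw [hE]
    _ = _ := by ring

end LT2x

theorem LT2 : S_LT2 := by
  intro F _ _ _ _ _ ν _ w e σ h τ f hf
  obtain ⟨B, hB⟩ := h.bound
  obtain ⟨R, hR⟩ := h.supp
  have hexp : ∀ x : F, Real.exp (-((⟪e, x⟫_ℝ - τ) ^ 2 / (2 * σ ^ 2))) ≤ 1 := by
    intro x
    apply Real.exp_le_one_iff.2
    have : 0 ≤ (⟪e, x⟫_ℝ - τ) ^ 2 / (2 * σ ^ 2) := by positivity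
    linarith
  have hv0 : ∀ x, 0 ≤ tw w e σ τ x := fun x => mul_nonneg (h.nonneg x) (Real.exp_pos _).le
  have hEc : Continuous fun x : F => Real.exp (-((⟪e, x⟫_ℝ - τ) ^ 2 / (2 * σ ^ 2))) := by
    have h1 : Continuous fun x : F => ⟪e, x⟫_ℝ := continuous_const.inner continuous_id
    fun_prop
  have hvm : Measurable (tw w e σ τ) := h.meas.mul hEc.measurable
  have hvb : ∀ x, tw w e σ τ x ≤ B := by
    intro x
    calc tw w e σ τ x ≤ w x * 1 := mul_le_mul_of_nonneg_left (hexp x) (h.nonneg x)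
      _ ≤ B := by rw [mul_one]; exact hB x
  have hvR : ∀ x, R < ‖x‖ → tw w e σ τ x = 0 := by
    intro x hx
    unfold tw
    rw [hR x hx, zero_mul]
  have hint : ∀ {φ : F → ℝ}, Continuous φ → Integrable (fun x => φ x * tw w e σ τ x) ν :=
    fun hφ => R4aux.intg hvm hv0 ⟨B, hvb⟩ hvR hφ
  have hwint : Integrable w ν := by
    have := R4aux.intg (ν := ν) (φ := fun _ => (1 : ℝ)) h.meas h.nonneg h.bound hR
      continuous_const
    simpa using this
  have hvint : Integrable (tw w e σ τ) ν := by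
    have := hint (φ := fun _ => (1 : ℝ)) continuous_const
    simpa using this
  have hpos : 0 < ∫ x, tw w e σ τ x ∂ν := by
    have h1 := h.pos
    rw [integral_pos_iff_support_of_nonneg h.nonneg hwint] at h1
    rw [integral_pos_iff_support_of_nonneg hv0 hvint]
    have h2 : Function.support (tw w e σ τ) = Function.support w := by
      ext x
      simp only [Function.mem_support, tw, ne_eq, mul_eq_zero, (Real.exp_pos _).ne', or_false]
    rw [h2]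
    exact h1
  refine ⟨hpos, ?_⟩
  obtain ⟨c, hc⟩ := poincare_of_strong ν (tw w e σ τ) hv0 hvm ⟨B, hvb⟩ ⟨R, hvR⟩ (σ ^ 2)⁻¹
    (by have := h.σpos; positivity) (LT2x.mid_tw w e σ h.σpos τ h.mid) f hf
  rw [inv_inv] at hc
  refine le_trans ?_ hc
  have hfc : Continuous f := hf.continuous
  have i0 := hvint
  have i1 := hint hfc
  have i2 : Integrable (fun x => f x ^ 2 * tw w e σ τ x) ν := hint (hfc.pow 2)
  have hexpand : ∀ a : ℝ, ∫ x, (f x - a) ^ 2 * tw w e σ τ x ∂ν =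
      (∫ x, f x ^ 2 * tw w e σ τ x ∂ν) - 2 * a * (∫ x, f x * tw w e σ τ x ∂ν) +
        a ^ 2 * ∫ x, tw w e σ τ x ∂ν := by
    intro a
    have e1 : ∀ x, (f x - a) ^ 2 * tw w e σ τ x =
        (f x ^ 2 * tw w e σ τ x - 2 * a * (f x * tw w e σ τ x)) + a ^ 2 * tw w e σ τ x := by
      intro x; ring
    simp only [e1]
    have j1 : Integrable (fun x => 2 * a * (f x * tw w e σ τ x)) ν := i1.const_mul _
    have j2 : Integrable (fun x => a ^ 2 * tw w e σ τ x) ν := i0.const_mul _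
    have j3 : Integrable (fun x => f x ^ 2 * tw w e σ τ x - 2 * a * (f x * tw w e σ τ x)) ν :=
      i2.sub j1
    rw [integral_add j3 j2, integral_sub i2 j1, integral_const_mul, integral_const_mul]
  rw [hexpand, hexpand]
  set I0 := ∫ x, tw w e σ τ x ∂ν with hI0
  set I1 := ∫ x, f x * tw w e σ τ x ∂ν with hI1
  have key : 0 ≤ (I1 - c * I0) ^ 2 / I0 := div_nonneg (sq_nonneg _) hpos.le
  have e2 : (I1 - c * I0) ^ 2 / I0 = I1 ^ 2 / I0 - 2 * c * I1 + c ^ 2 * I0 := by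
    field_simp
    ring
  have e3 : 2 * (I1 / I0) * I1 = 2 * (I1 ^ 2 / I0) := by ring
  have e4 : (I1 / I0) ^ 2 * I0 = I1 ^ 2 / I0 := by field_simp
  rw [e3, e4]
  rw [e2] at key
  linarith

end Pool.Agent.H787R2.KC
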