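import Pool.Agent.H787R2.KC.LT4

/-!
# KC, task LT3: the derivative of the tilted mean (helper330)
-/

set_option autoImplicit false

namespace Pool.Agent.H787R2.KC

open MeasureTheory Set Matrix Pool.Agent.H212R2.KLS
open scoped ENNReal InnerProductSpace

namespace LT3x

variable {F : Type} [NormedAddCommGroup F] [InnerProductSpace ℝ F] [FiniteDimensional ℝ F]
  [MeasurableSpace F] [BorelSpace F] {ν : Measure F} [ν.IsAddHaarMeasure] {w : F → ℝ} {e : F}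
  {σ : ℝ}

theorem bnd (h : WA ν w e σ) (φ : F → ℝ) (τ : ℝ) (x : F) (t : ℝ) (ht : t ∈ Metric.ball τ 1) :
    ‖φ x * ((⟪e, x⟫_ℝ - t) / σ ^ 2) * tw w e σ t x‖ ≤
      (|φ x| * ((|⟪e, x⟫_ℝ| + |τ| + 1) / σ ^ 2)) * w x := by
  have hσ := h.σpos
  rw [Metric.mem_ball, Real.dist_eq] at ht
  rw [norm_mul, norm_mul, Real.norm_eq_abs, Real.norm_eq_abs, Real.norm_eq_abs,
    abs_of_nonneg (LT5x.tw_nonneg h t x), abs_div, abs_of_pos (show 0 < σ ^ 2 by positivity)]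
  have h1 : |⟪e, x⟫_ℝ - t| ≤ |⟪e, x⟫_ℝ| + |τ| + 1 := by
    have h2 := abs_sub ⟪e, x⟫_ℝ t
    have h3 : |t| ≤ |τ| + |t - τ| := by
      have := abs_add_le τ (t - τ)
      rwa [add_sub_cancel] at this
    linarith
  have h4 : |⟪e, x⟫_ℝ - t| / σ ^ 2 ≤ (|⟪e, x⟫_ℝ| + |τ| + 1) / σ ^ 2 :=
    div_le_div_of_nonneg_right h1 (by positivity)
  exact mul_le_mul (mul_le_mul_of_nonneg_left h4 (abs_nonneg _)) (LT5x.tw_le h t x)
    (LT5x.tw_nonneg h t x) (by positivity)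

theorem hd (hσ : 0 < σ) (φ : F → ℝ) (x : F) (t : ℝ) :
    HasDerivAt (fun t => φ x * tw w e σ t x)
      (φ x * ((⟪e, x⟫_ℝ - t) / σ ^ 2) * tw w e σ t x) t := by
  have h1 : HasDerivAt (fun t : ℝ => ⟪e, x⟫_ℝ - t) (-1) t := (hasDerivAt_id t).const_sub _
  have h2 := (((((h1.pow 2).div_const (2 * σ ^ 2)).neg).exp).const_mul (w x)).const_mul (φ x)
  unfold tw
  refine h2.congr_deriv ?_
  have hσ2 : σ ≠ 0 := hσ.ne'
  change φ x * (w x * (Real.exp (-((⟪e, x⟫_ℝ - t) ^ 2 / (2 * σ ^ 2))) *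
    -(((2 : ℕ) : ℝ) * (⟪e, x⟫_ℝ - t) ^ (2 - 1) * -1 / (2 * σ ^ 2)))) =
    φ x * ((⟪e, x⟫_ℝ - t) / σ ^ 2) * (w x * Real.exp (-((⟪e, x⟫_ℝ - t) ^ 2 / (2 * σ ^ 2))))
  have e1 : -(((2 : ℕ) : ℝ) * (⟪e, x⟫_ℝ - t) ^ (2 - 1) * -1 / (2 * σ ^ 2)) =
      (⟪e, x⟫_ℝ - t) / σ ^ 2 := by
    push_cast
    field_simp
  rw [e1]
  ring

theorem dI (h : WA ν w e σ) {φ : F → ℝ} (hφ : Continuous φ) (τ : ℝ) :
    HasDerivAt (fun t => ∫ x, φ x * tw w e σ t x ∂ν)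
      ((∫ x, (φ x * ⟪e, x⟫_ℝ) * tw w e σ τ x ∂ν - τ * ∫ x, φ x * tw w e σ τ x ∂ν) / σ ^ 2) τ := by
  have hσ := h.σpos
  have c1 : Continuous fun x => φ x * ((⟪e, x⟫_ℝ - τ) / σ ^ 2) := by fun_prop
  have c2 : Continuous fun x => |φ x| * ((|⟪e, x⟫_ℝ| + |τ| + 1) / σ ^ 2) := by fun_prop
  have c3 : Continuous fun x => φ x * ⟪e, x⟫_ℝ := by fun_prop
  have key := (hasDerivAt_integral_of_dominated_loc_of_deriv_le (μ := ν)
    (F := fun t x => φ x * tw w e σ t x)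
    (F' := fun t x => φ x * ((⟪e, x⟫_ℝ - t) / σ ^ 2) * tw w e σ t x) (x₀ := τ)
    (s := Metric.ball τ 1)
    (bound := fun x => (|φ x| * ((|⟪e, x⟫_ℝ| + |τ| + 1) / σ ^ 2)) * w x)
    (Metric.ball_mem_nhds τ one_pos)
    (Filter.Eventually.of_forall fun t => (LT5x.tw_intg h t hφ).aestronglyMeasurable)
    (LT5x.tw_intg h τ hφ)
    (LT5x.tw_intg h τ c1).aestronglyMeasurable
    (Filter.Eventually.of_forall fun x t ht => bnd h φ τ x t ht)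
    (LT5x.w_intg h c2)
    (Filter.Eventually.of_forall fun x t _ => hd hσ φ x t)).2
  refine key.congr_deriv ?_
  have e1 : ∀ x, φ x * ((⟪e, x⟫_ℝ - τ) / σ ^ 2) * tw w e σ τ x =
      (1 / σ ^ 2) * ((φ x * ⟪e, x⟫_ℝ) * tw w e σ τ x - τ * (φ x * tw w e σ τ x)) := by
    intro x
    ring
  change ∫ x, φ x * ((⟪e, x⟫_ℝ - τ) / σ ^ 2) * tw w e σ τ x ∂ν = _
  rw [integral_congr_ae (Filter.Eventually.of_forall e1)]
  rw [integral_const_mul, integral_sub (LT5x.tw_intg h τ c3) ((LT5x.tw_intg h τ hφ).const_mul τ),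
    integral_const_mul]
  ring

theorem cI (h : WA ν w e σ) {φ : F → ℝ} (hφ : Continuous φ) :
    Continuous (fun t => ∫ x, φ x * tw w e σ t x ∂ν) :=
  continuous_iff_continuousAt.2 fun τ => (dI h hφ τ).continuousAt

theorem int6 {a b c d g k : F → ℝ} (ha : Integrable a ν) (hb : Integrable b ν)
    (hc : Integrable c ν) (hd : Integrable d ν) (hg : Integrable g ν) (hk : Integrable k ν)
    (ca cb cc cd cg : ℝ) :
    ∫ x, (ca * a x + cb * b x - cc * c x - cd * d x + cg * g x + k x) ∂ν =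
      ca * ∫ x, a x ∂ν + cb * ∫ x, b x ∂ν - cc * ∫ x, c x ∂ν - cd * ∫ x, d x ∂ν +
        cg * ∫ x, g x ∂ν + ∫ x, k x ∂ν := by
  have s1 : Integrable (fun x => ca * a x + cb * b x) ν := (ha.const_mul ca).add (hb.const_mul cb)
  have s2 : Integrable (fun x => ca * a x + cb * b x - cc * c x) ν := s1.sub (hc.const_mul cc)
  have s3 : Integrable (fun x => ca * a x + cb * b x - cc * c x - cd * d x) ν :=
    s2.sub (hd.const_mul cd)
  have s4 : Integrable (fun x => ca * a x + cb * b x - cc * c x - cd * d x + cg * g x) ν :=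
    s3.add (hg.const_mul cg)
  rw [integral_add s4 hk, integral_add s3 (hg.const_mul cg), integral_sub s2 (hd.const_mul cd),
    integral_sub s1 (hc.const_mul cc), integral_add (ha.const_mul ca) (hb.const_mul cb)]
  simp only [integral_const_mul]

theorem cs (h : WA ν w e σ) {f : F → ℝ} (hf : Continuous f) (τ m s : ℝ) :
    (∫ x, (f x * ⟪e, x⟫_ℝ) * tw w e σ τ x ∂ν - m * ∫ x, ⟪e, x⟫_ℝ * tw w e σ τ x ∂ν -
      s * ∫ x, f x * tw w e σ τ x ∂ν + m * s * ∫ x, tw w e σ τ x ∂ν) ^ 2 ≤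
    (∫ x, (f x - m) ^ 2 * tw w e σ τ x ∂ν) * ∫ x, (⟪e, x⟫_ℝ - s) ^ 2 * tw w e σ τ x ∂ν := by
  have c3 : Continuous fun x => f x * ⟪e, x⟫_ℝ := by fun_prop
  have c4 : Continuous fun x : F => ⟪e, x⟫_ℝ := by fun_prop
  have c5 : Continuous fun x => (f x - m) ^ 2 := by fun_prop
  have c6 : Continuous fun x : F => (⟪e, x⟫_ℝ - s) ^ 2 := by fun_prop
  have i3 := LT5x.tw_intg h τ c3
  have i4 := LT5x.tw_intg h τ c4
  have i5 := LT5x.tw_intg h τ c5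
  have i6 := LT5x.tw_intg h τ c6
  have i0 := LT5x.tw_int h τ
  have i1 := LT5x.tw_intg h τ hf
  set C := ∫ x, (f x * ⟪e, x⟫_ℝ) * tw w e σ τ x ∂ν - m * ∫ x, ⟪e, x⟫_ℝ * tw w e σ τ x ∂ν -
      s * ∫ x, f x * tw w e σ τ x ∂ν + m * s * ∫ x, tw w e σ τ x ∂ν with hC
  have key : ∀ l : ℝ, 0 ≤ (∫ x, (⟪e, x⟫_ℝ - s) ^ 2 * tw w e σ τ x ∂ν) * (l * l) + (2 * C) * l +
      ∫ x, (f x - m) ^ 2 * tw w e σ τ x ∂ν := by
    intro l
    have h1 : 0 ≤ ∫ x, ((f x - m) + l * (⟪e, x⟫_ℝ - s)) ^ 2 * tw w e σ τ x ∂ν :=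
      integral_nonneg fun x => mul_nonneg (sq_nonneg _) (LT5x.tw_nonneg h τ x)
    have e1 : ∀ x, ((f x - m) + l * (⟪e, x⟫_ℝ - s)) ^ 2 * tw w e σ τ x =
        (l * l) * ((⟪e, x⟫_ℝ - s) ^ 2 * tw w e σ τ x) + (2 * l) * ((f x * ⟪e, x⟫_ℝ) * tw w e σ τ x) -
        (2 * l * m) * (⟪e, x⟫_ℝ * tw w e σ τ x) - (2 * l * s) * (f x * tw w e σ τ x) +
        (2 * l * m * s) * tw w e σ τ x + (f x - m) ^ 2 * tw w e σ τ x := by
      intro x
      ring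
    rw [integral_congr_ae (Filter.Eventually.of_forall e1), int6 i6 i3 i4 i1 i0 i5] at h1
    refine le_trans h1 (le_of_eq ?_)
    rw [hC]
    ring
  have h2 := discrim_le_zero key
  rw [discrim] at h2
  nlinarith

end LT3x

/-- LT3 -/
theorem LT3 : S_LT3 := by
  intro F _ _ _ _ _ ν _ w e σ h f hf
  have hσ := h.σpos
  have c3 : Continuous fun x => f x * ⟪e, x⟫_ℝ := by fun_prop
  have c4 : Continuous fun x : F => ⟪e, x⟫_ℝ := by fun_prop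
  have hZ0 := LT4x.Z_pos h
  have dZ : ∀ τ, HasDerivAt (fun t => ∫ x, tw w e σ t x ∂ν)
      ((∫ x, ⟪e, x⟫_ℝ * tw w e σ τ x ∂ν - τ * ∫ x, tw w e σ τ x ∂ν) / σ ^ 2) τ := by
    intro τ
    have := LT3x.dI h (φ := fun _ => (1 : ℝ)) continuous_const τ
    simpa only [one_mul] using this
  have dF := LT3x.dI h hf
  refine ⟨fun τ => ((∫ x, (f x * ⟪e, x⟫_ℝ) * tw w e σ τ x ∂ν) * (∫ x, tw w e σ τ x ∂ν) -
    (∫ x, f x * tw w e σ τ x ∂ν) * ∫ x, ⟪e, x⟫_ℝ * tw w e σ τ x ∂ν) /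
    (σ ^ 2 * (∫ x, tw w e σ τ x ∂ν) ^ 2), ?_, ?_, ?_⟩
  · refine Continuous.div (((LT3x.cI h c3).mul (LT4x.Z_cont h)).sub ((LT3x.cI h hf).mul
      (LT3x.cI h c4))) (continuous_const.mul ((LT4x.Z_cont h).pow 2)) ?_
    intro τ
    have := hZ0 τ
    positivity
  · intro τ
    have hz := (hZ0 τ).ne'
    have := (dF τ).div (dZ τ) hz
    refine this.congr_deriv ?_
    have hσ2 : σ ^ 2 ≠ 0 := by positivity
    field_simp
    ring
  · intro τ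
    have hz := hZ0 τ
    have key := LT3x.cs h hf τ ((∫ y, f y * tw w e σ τ y ∂ν) / ∫ y, tw w e σ τ y ∂ν)
      ((∫ y, ⟪e, y⟫_ℝ * tw w e σ τ y ∂ν) / ∫ y, tw w e σ τ y ∂ν)
    refine le_trans (le_of_eq ?_) key
    simp only
    set Z := ∫ y, tw w e σ τ y ∂ν with hZ
    set I1 := ∫ y, f y * tw w e σ τ y ∂ν
    set I2 := ∫ y, ⟪e, y⟫_ℝ * tw w e σ τ y ∂ν
    set I3 := ∫ x, (f x * ⟪e, x⟫_ℝ) * tw w e σ τ x ∂ν
    have hz' : Z ≠ 0 := hz.ne'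
    have hσ2 : σ ≠ 0 := hσ.ne'
    field_simp
    ring

end Pool.Agent.H787R2.KC
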