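import Pool.Agent.H787R2.KC.LT5
import Pool.Agent.H212R2.KLS.T1

/-!
# KC, task LT4: the function `Z` (helper330)
-/

set_option autoImplicit false

namespace Pool.Agent.H787R2.KC

open MeasureTheory Set Matrix Pool.Agent.H212R2.KLS
open scoped ENNReal InnerProductSpace

namespace LT4x

variable {F : Type} [NormedAddCommGroup F] [InnerProductSpace ℝ F] [FiniteDimensional ℝ F]
  [MeasurableSpace F] [BorelSpace F] {ν : Measure F} [ν.IsAddHaarMeasure] {w : F → ℝ} {e : F}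
  {σ : ℝ}

theorem Z_cont (h : WA ν w e σ) : Continuous (fun τ => ∫ y, tw w e σ τ y ∂ν) := by
  refine continuous_of_dominated (bound := w) (fun τ => (LT5x.tw_meas h τ).aestronglyMeasurable)
    (fun τ => Filter.Eventually.of_forall fun x => ?_) (LT5x.w_int h)
    (Filter.Eventually.of_forall fun x => ?_)
  · rw [Real.norm_eq_abs, abs_of_nonneg (LT5x.tw_nonneg h τ x)]
    exact LT5x.tw_le h τ x
  · unfold tw
    fun_prop

theorem Z_pos (h : WA ν w e σ) (τ : ℝ) : 0 < ∫ y, tw w e σ τ y ∂ν := by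
  rw [integral_pos_iff_support_of_nonneg (fun x => LT5x.tw_nonneg h τ x) (LT5x.tw_int h τ)]
  have h1 := h.pos
  rw [integral_pos_iff_support_of_nonneg (fun x => h.nonneg x) (LT5x.w_int h)] at h1
  have e1 : Function.support (tw w e σ τ) = Function.support w := by
    ext x
    simp only [Function.mem_support, tw, ne_eq, mul_eq_zero, Real.exp_ne_zero, or_false]
  rw [e1]
  exact h1

theorem Z_lint (h : WA ν w e σ) : ∫⁻ τ : ℝ, ENNReal.ofReal (∫ y, tw w e σ τ y ∂ν) =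
    ENNReal.ofReal (Real.sqrt (2 * Real.pi) * σ * ∫ x, w x ∂ν) := by
  have := LT5 F ν w e σ h (fun _ => 1) continuous_const (fun _ => zero_le_one)
  simpa using this

theorem Z_int (h : WA ν w e σ) : Integrable (fun τ => ∫ y, tw w e σ τ y ∂ν) := by
  refine ⟨(Z_cont h).aestronglyMeasurable, ?_⟩
  rw [hasFiniteIntegral_iff_ofReal (Filter.Eventually.of_forall fun τ => (Z_pos h τ).le), Z_lint h]
  exact ENNReal.ofReal_lt_top

theorem Z_total (h : WA ν w e σ) : ∫ τ, ∫ y, tw w e σ τ y ∂ν =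
    Real.sqrt (2 * Real.pi) * σ * ∫ x, w x ∂ν := by
  rw [integral_eq_lintegral_of_nonneg_ae (Filter.Eventually.of_forall fun τ => (Z_pos h τ).le)
    (Z_cont h).aestronglyMeasurable, Z_lint h]
  have := h.σpos
  have := h.pos
  exact ENNReal.toReal_ofReal (by positivity)

theorem tw_logc (h : WA ν w e σ) (x y t : ℝ) (ht0 : 0 < t) (ht1 : t < 1) (z z' : F) :
    tw w e σ x z ^ (1 - t) * tw w e σ y z' ^ t ≤
      tw w e σ ((1 - t) * x + t * y) ((1 - t) • z + t • z') := by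
  unfold tw
  rw [Real.mul_rpow (h.nonneg z) (Real.exp_pos _).le, Real.mul_rpow (h.nonneg z') (Real.exp_pos _).le,
    ← Real.exp_mul, ← Real.exp_mul]
  have h1 := h.logc z z' t ht0 ht1
  have h2 : Real.exp (-((⟪e, z⟫_ℝ - x) ^ 2 / (2 * σ ^ 2)) * (1 - t)) *
      Real.exp (-((⟪e, z'⟫_ℝ - y) ^ 2 / (2 * σ ^ 2)) * t) ≤
      Real.exp (-((⟪e, (1 - t) • z + t • z'⟫_ℝ - ((1 - t) * x + t * y)) ^ 2 / (2 * σ ^ 2))) := by
    rw [← Real.exp_add, Real.exp_le_exp, inner_add_right, inner_smul_right, inner_smul_right]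
    have hσ := h.σpos
    have h3 : ((1 - t) * ⟪e, z⟫_ℝ + t * ⟪e, z'⟫_ℝ - ((1 - t) * x + t * y)) ^ 2 ≤
        (1 - t) * (⟪e, z⟫_ℝ - x) ^ 2 + t * (⟪e, z'⟫_ℝ - y) ^ 2 := by
      have h4 : 0 ≤ t * (1 - t) * ((⟪e, z⟫_ℝ - x) - (⟪e, z'⟫_ℝ - y)) ^ 2 :=
        mul_nonneg (mul_nonneg ht0.le (by linarith)) (sq_nonneg _)
      nlinarith
    have h5 : ((1 - t) * ⟪e, z⟫_ℝ + t * ⟪e, z'⟫_ℝ - ((1 - t) * x + t * y)) ^ 2 / (2 * σ ^ 2) ≤
        ((1 - t) * (⟪e, z⟫_ℝ - x) ^ 2 + t * (⟪e, z'⟫_ℝ - y) ^ 2) / (2 * σ ^ 2) :=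
      div_le_div_of_nonneg_right h3 (by positivity)
    rw [add_div, mul_div_assoc, mul_div_assoc] at h5
    linarith
  calc _ = (w z ^ (1 - t) * w z' ^ t) * (Real.exp (-((⟪e, z⟫_ℝ - x) ^ 2 / (2 * σ ^ 2)) * (1 - t)) *
      Real.exp (-((⟪e, z'⟫_ℝ - y) ^ 2 / (2 * σ ^ 2)) * t)) := by ring
    _ ≤ _ := mul_le_mul h1 h2 (by positivity) (h.nonneg _)

theorem Z_logc (h : WA ν w e σ) (x y t : ℝ) (ht0 : 0 < t) (ht1 : t < 1) :
    (∫ z, tw w e σ x z ∂ν) ^ (1 - t) * (∫ z, tw w e σ y z ∂ν) ^ t ≤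
      ∫ z, tw w e σ ((1 - t) * x + t * y) z ∂ν := by
  have hc : ∀ τ : ℝ, ∫⁻ z, ENNReal.ofReal (tw w e σ τ z) ∂ν =
      ENNReal.ofReal (∫ z, tw w e σ τ z ∂ν) := fun τ =>
    (ofReal_integral_eq_lintegral_ofReal (LT5x.tw_int h τ)
      (Filter.Eventually.of_forall fun z => LT5x.tw_nonneg h τ z)).symm
  have key := PL ν t ht0 ht1 (fun z => ENNReal.ofReal (tw w e σ x z))
    (fun z => ENNReal.ofReal (tw w e σ y z))
    (fun z => ENNReal.ofReal (tw w e σ ((1 - t) * x + t * y) z))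
    (LT5x.tw_meas h _).ennreal_ofReal (LT5x.tw_meas h _).ennreal_ofReal
    (LT5x.tw_meas h _).ennreal_ofReal (by
      intro z z'
      rw [ENNReal.ofReal_rpow_of_nonneg (LT5x.tw_nonneg h _ _) (by linarith),
        ENNReal.ofReal_rpow_of_nonneg (LT5x.tw_nonneg h _ _) ht0.le,
        ← ENNReal.ofReal_mul (Real.rpow_nonneg (LT5x.tw_nonneg h _ _) _)]
      exact ENNReal.ofReal_le_ofReal (tw_logc h x y t ht0 ht1 z z'))
  rw [hc, hc, hc, ENNReal.ofReal_rpow_of_nonneg (Z_pos h _).le (by linarith),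
    ENNReal.ofReal_rpow_of_nonneg (Z_pos h _).le ht0.le,
    ← ENNReal.ofReal_mul (Real.rpow_nonneg (Z_pos h _).le _)] at key
  exact (ENNReal.ofReal_le_ofReal_iff (Z_pos h _).le).1 key

theorem Z_zero (h : WA ν w e σ) : (∫ x, w x ∂ν) / 2 ≤ ∫ y, tw w e σ 0 y ∂ν := by
  have hσ := h.σpos
  have hcont : Continuous fun x : F => ⟪e, x⟫_ℝ ^ 2 := by fun_prop
  have i2 := LT5x.w_intg h hcont
  have h1 : ∫ x, (w x - (1 / (2 * σ ^ 2)) * (⟪e, x⟫_ℝ ^ 2 * w x)) ∂ν ≤ ∫ y, tw w e σ 0 y ∂ν := by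
    apply integral_mono ((LT5x.w_int h).sub (i2.const_mul _)) (LT5x.tw_int h 0)
    intro x
    simp only [tw]
    have h2 := Real.add_one_le_exp (-((⟪e, x⟫_ℝ - 0) ^ 2 / (2 * σ ^ 2)))
    have h3 := mul_le_mul_of_nonneg_left h2 (h.nonneg x)
    refine le_trans (le_of_eq ?_) h3
    change w x - (1 / (2 * σ ^ 2)) * (⟪e, x⟫_ℝ ^ 2 * w x) = _
    rw [sub_zero]
    ring
  rw [integral_sub (LT5x.w_int h) (i2.const_mul _), integral_const_mul] at h1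
  have h4 := mul_le_mul_of_nonneg_left h.mom (show 0 ≤ 1 / (2 * σ ^ 2) by positivity)
  have h5 : 1 / (2 * σ ^ 2) * (σ ^ 2 * ∫ x, w x ∂ν) = (∫ x, w x ∂ν) / 2 := by
    field_simp
  rw [h5] at h4
  linarith

end LT4x

/-- LT4 -/
theorem LT4 : S_LT4 := by
  intro F _ _ _ _ _ ν _ w e σ h
  refine ⟨LT4x.Z_cont h, LT4x.Z_pos h, LT4x.Z_int h, LT4x.Z_logc h, 0, ?_⟩
  rw [LT4x.Z_total h]
  have h1 := LT4x.Z_zero h
  have hσ := h.σpos
  have hp := h.pos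
  have h2 : Real.sqrt (2 * Real.pi) ≤ 4 := by
    rw [Real.sqrt_le_left (by norm_num)]
    have := Real.pi_lt_four
    linarith
  calc Real.sqrt (2 * Real.pi) * σ * ∫ x, w x ∂ν ≤ 4 * σ * ∫ x, w x ∂ν := by gcongr
    _ = 8 * σ * ((∫ x, w x ∂ν) / 2) := by ring
    _ ≤ 8 * σ * ∫ y, tw w e σ 0 y ∂ν := by gcongr

end Pool.Agent.H787R2.KC
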