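import Pool.Agent.H787R2.KC.St
import Pool.Agent.H212R2.KLS.R4

/-!
# KC, task LT5: Fubini for the tilted weights (helper330)
-/

set_option autoImplicit false

namespace Pool.Agent.H787R2.KC

open MeasureTheory Set Matrix Pool.Agent.H212R2.KLS
open scoped ENNReal InnerProductSpace

namespace LT5x

variable {F : Type} [NormedAddCommGroup F] [InnerProductSpace ℝ F] [FiniteDimensional ℝ F]
  [MeasurableSpace F] [BorelSpace F] {ν : Measure F} [ν.IsAddHaarMeasure] {w : F → ℝ} {e : F}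
  {σ : ℝ}

theorem tw_nonneg (h : WA ν w e σ) (τ : ℝ) (x : F) : 0 ≤ tw w e σ τ x :=
  mul_nonneg (h.nonneg x) (Real.exp_pos _).le

theorem ex_le_one (a : ℝ) : Real.exp (-(a ^ 2 / (2 * σ ^ 2))) ≤ 1 := by
  rw [Real.exp_le_one_iff]
  have : 0 ≤ a ^ 2 / (2 * σ ^ 2) := by positivity
  linarith

theorem tw_le (h : WA ν w e σ) (τ : ℝ) (x : F) : tw w e σ τ x ≤ w x := by
  unfold tw
  exact mul_le_of_le_one_right (h.nonneg x) (ex_le_one _)

theorem tw_meas (h : WA ν w e σ) (τ : ℝ) : Measurable (tw w e σ τ) := by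
  unfold tw
  refine h.meas.mul (Real.measurable_exp.comp ?_)
  have : Continuous fun x : F => -((⟪e, x⟫_ℝ - τ) ^ 2 / (2 * σ ^ 2)) := by fun_prop
  exact this.measurable

theorem tw_meas2 (h : WA ν w e σ) : Measurable (fun p : ℝ × F => tw w e σ p.1 p.2) := by
  unfold tw
  refine (h.meas.comp measurable_snd).mul (Real.measurable_exp.comp ?_)
  have : Continuous fun p : ℝ × F => -((⟪e, p.2⟫_ℝ - p.1) ^ 2 / (2 * σ ^ 2)) := by fun_prop
  exact this.measurable

theorem w_intg (h : WA ν w e σ) {φ : F → ℝ} (hφ : Continuous φ) :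
    Integrable (fun x => φ x * w x) ν := by
  obtain ⟨R, hR⟩ := h.supp
  exact R4aux.intg h.meas h.nonneg h.bound hR hφ

theorem w_int (h : WA ν w e σ) : Integrable w ν := by
  have := w_intg h (φ := fun _ => (1 : ℝ)) continuous_const
  simpa using this

theorem tw_intg (h : WA ν w e σ) (τ : ℝ) {φ : F → ℝ} (hφ : Continuous φ) :
    Integrable (fun x => φ x * tw w e σ τ x) ν := by
  have : Continuous fun x => φ x * Real.exp (-((⟪e, x⟫_ℝ - τ) ^ 2 / (2 * σ ^ 2))) := by fun_prop
  have h1 := w_intg h this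
  refine h1.congr (Filter.Eventually.of_forall fun x => ?_)
  unfold tw
  ring

theorem tw_int (h : WA ν w e σ) (τ : ℝ) : Integrable (tw w e σ τ) ν := by
  have := tw_intg h τ (φ := fun _ => (1 : ℝ)) continuous_const
  simpa using this

theorem gauss (hσ : 0 < σ) (a : ℝ) :
    ∫⁻ τ : ℝ, ENNReal.ofReal (Real.exp (-((a - τ) ^ 2 / (2 * σ ^ 2)))) =
      ENNReal.ofReal (Real.sqrt (2 * Real.pi) * σ) := by
  have hb : 0 < 1 / (2 * σ ^ 2) := by positivity
  have e1 : ∀ τ : ℝ, Real.exp (-((a - τ) ^ 2 / (2 * σ ^ 2))) =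
      (fun u : ℝ => Real.exp (-(1 / (2 * σ ^ 2)) * u ^ 2)) (a - τ) := by
    intro τ
    simp only
    congr 1
    ring
  have i1 : Integrable (fun τ : ℝ => Real.exp (-((a - τ) ^ 2 / (2 * σ ^ 2)))) := by
    simp only [e1]
    exact (integrable_exp_neg_mul_sq hb).comp_sub_left a
  rw [← ofReal_integral_eq_lintegral_ofReal i1
    (Filter.Eventually.of_forall fun τ => (Real.exp_pos _).le)]
  congr 1
  simp only [e1]
  rw [integral_sub_left_eq_self (fun u : ℝ => Real.exp (-(1 / (2 * σ ^ 2)) * u ^ 2)) volume a,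
    integral_gaussian]
  rw [show Real.pi / (1 / (2 * σ ^ 2)) = (2 * Real.pi) * σ ^ 2 by field_simp,
    Real.sqrt_mul (by positivity), Real.sqrt_sq hσ.le]

end LT5x

/-- LT5 -/
theorem LT5 : S_LT5 := by
  intro F _ _ _ _ _ ν _ w e σ h g hg hg0
  have h1 : ∀ τ : ℝ, ENNReal.ofReal (∫ x, g x * tw w e σ τ x ∂ν) =
      ∫⁻ x, ENNReal.ofReal (g x * tw w e σ τ x) ∂ν := by
    intro τ
    exact ofReal_integral_eq_lintegral_ofReal (LT5x.tw_intg h τ hg)
      (Filter.Eventually.of_forall fun x => mul_nonneg (hg0 x) (LT5x.tw_nonneg h τ x))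
  simp only [h1]
  rw [lintegral_lintegral_swap]
  · have h2 : ∀ x : F, ∫⁻ τ : ℝ, ENNReal.ofReal (g x * tw w e σ τ x) =
        ENNReal.ofReal (g x * w x) * ENNReal.ofReal (Real.sqrt (2 * Real.pi) * σ) := by
      intro x
      rw [← LT5x.gauss h.σpos ⟪e, x⟫_ℝ, ← lintegral_const_mul']
      · apply lintegral_congr
        intro τ
        rw [← ENNReal.ofReal_mul (mul_nonneg (hg0 x) (h.nonneg x))]
        congr 1
        unfold tw
        ring
      · exact ENNReal.ofReal_ne_top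
    simp only [h2]
    rw [lintegral_mul_const']
    · rw [← ofReal_integral_eq_lintegral_ofReal (LT5x.w_intg h hg)
        (Filter.Eventually.of_forall fun x => mul_nonneg (hg0 x) (h.nonneg x)),
        ← ENNReal.ofReal_mul (integral_nonneg fun x => mul_nonneg (hg0 x) (h.nonneg x))]
      congr 1
      ring
    · exact ENNReal.ofReal_ne_top
  · refine Measurable.aemeasurable ?_
    exact (((hg.measurable.comp measurable_snd).mul (LT5x.tw_meas2 h))).ennreal_ofReal

end Pool.Agent.H787R2.KC
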