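import Pool.Agent.H787R2.KC.St

/-!
# MAIN: removal of the boundedness assumptions
-/

set_option autoImplicit false

namespace Pool.Agent.H787R2.KC

open MeasureTheory Set Matrix Filter Pool.Agent.H212R2.KLS
open scoped ENNReal InnerProductSpace Topology

namespace MAINx

/-- the truncated density -/
noncomputable def wk {n : ℕ} (ρ : Sy n → ℝ) (k : ℕ) : Sy n → ℝ :=
  {x : Sy n | ‖x‖ ≤ k}.indicator fun x => min (ρ x) k

theorem wk_nonneg {n : ℕ} {ρ : Sy n → ℝ} (h0 : ∀ x, 0 ≤ ρ x) (k : ℕ) (x : Sy n) :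
    0 ≤ wk ρ k x := by
  unfold wk
  apply indicator_nonneg
  intro y _
  exact le_min (h0 y) (Nat.cast_nonneg k)

theorem wk_le {n : ℕ} {ρ : Sy n → ℝ} (h0 : ∀ x, 0 ≤ ρ x) (k : ℕ) (x : Sy n) :
    wk ρ k x ≤ ρ x := by
  unfold wk
  by_cases hx : x ∈ {x : Sy n | ‖x‖ ≤ k}
  · rw [indicator_of_mem hx]
    exact min_le_left _ _
  · rw [indicator_of_notMem hx]
    exact h0 x

theorem wk_le_nat {n : ℕ} (ρ : Sy n → ℝ) (k : ℕ) (x : Sy n) :
    wk ρ k x ≤ k := by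
  unfold wk
  by_cases hx : x ∈ {x : Sy n | ‖x‖ ≤ k}
  · rw [indicator_of_mem hx]
    exact min_le_right _ _
  · rw [indicator_of_notMem hx]
    exact Nat.cast_nonneg k

theorem wk_meas {n : ℕ} {ρ : Sy n → ℝ} (hm : Measurable ρ) (k : ℕ) : Measurable (wk ρ k) := by
  unfold wk
  exact (hm.min measurable_const).indicator (measurableSet_le measurable_norm measurable_const)

theorem wk_lim {n : ℕ} (ρ : Sy n → ℝ) (x : Sy n) :
    Tendsto (fun k : ℕ => wk ρ k x) atTop (𝓝 (ρ x)) := by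
  obtain ⟨K, hK⟩ := exists_nat_ge (max ‖x‖ (ρ x))
  apply tendsto_const_nhds.congr'
  filter_upwards [eventually_ge_atTop K] with k hk
  have hk' : (K : ℝ) ≤ k := by exact_mod_cast hk
  have h1 : ‖x‖ ≤ k := (le_max_left _ _).trans (hK.trans hk')
  have h2 : ρ x ≤ k := (le_max_right _ _).trans (hK.trans hk')
  unfold wk
  rw [indicator_of_mem (show x ∈ {x : Sy n | ‖x‖ ≤ k} from h1), min_eq_left h2]

theorem mc_int {n : ℕ} {w : Sy n → ℝ} (h0 : ∀ x, 0 ≤ w x) (hm : Measurable w) (g : Sy n → ℝ) :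
    ∫ x, g x ∂(mc w) = ∫ x, w x * g x ∂(nu n) := by
  unfold mc
  rw [integral_withDensity_eq_integral_toReal_smul hm.ennreal_ofReal
    (Eventually.of_forall fun x => ENNReal.ofReal_lt_top)]
  apply integral_congr_ae
  refine Eventually.of_forall fun x => ?_
  show (ENNReal.ofReal (w x)).toReal • g x = w x * g x
  rw [ENNReal.toReal_ofReal (h0 x), smul_eq_mul]

theorem mc_lim {n : ℕ} {ρ : Sy n → ℝ} (h0 : ∀ x, 0 ≤ ρ x) (hm : Measurable ρ) (g : Sy n → ℝ)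
    (hgm : Measurable g) (hg : Integrable g (mc ρ)) :
    Tendsto (fun k : ℕ => ∫ x, g x ∂(mc (wk ρ k))) atTop (𝓝 (∫ x, g x ∂(mc ρ))) := by
  have e : ∀ k : ℕ, ∫ x, g x ∂(mc (wk ρ k)) = ∫ x, wk ρ k x * g x ∂(nu n) := fun k =>
    mc_int (wk_nonneg h0 k) (wk_meas hm k) g
  simp only [e]
  rw [mc_int h0 hm g]
  have hint : Integrable (fun x => ρ x * g x) (nu n) := by
    unfold mc at hg
    rw [integrable_withDensity_iff_integrable_smul' hm.ennreal_ofReal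
      (Eventually.of_forall fun x => ENNReal.ofReal_lt_top)] at hg
    refine hg.congr (Eventually.of_forall fun x => ?_)
    show (ENNReal.ofReal (ρ x)).toReal • g x = ρ x * g x
    rw [ENNReal.toReal_ofReal (h0 x), smul_eq_mul]
  refine tendsto_integral_of_dominated_convergence (fun x => ‖ρ x * g x‖) ?_ hint.norm ?_ ?_
  · intro k
    exact ((wk_meas hm k).mul hgm).aestronglyMeasurable
  · intro k
    refine Eventually.of_forall fun x => ?_
    rw [norm_mul, norm_mul, Real.norm_of_nonneg (wk_nonneg h0 k x), Real.norm_of_nonneg (h0 x)]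
    exact mul_le_mul_of_nonneg_right (wk_le h0 k x) (norm_nonneg _)
  · refine Eventually.of_forall fun x => ?_
    exact (wk_lim ρ x).mul_const _

theorem mc_le {n : ℕ} {ρ : Sy n → ℝ} (h0 : ∀ x, 0 ≤ ρ x) (k : ℕ) : mc (wk ρ k) ≤ mc ρ := by
  unfold mc
  apply withDensity_mono
  refine Eventually.of_forall fun x => ?_
  exact ENNReal.ofReal_le_ofReal (wk_le h0 k x)

theorem mc_smul {n : ℕ} {w : Sy n → ℝ} (hm : Measurable w) (c : ℝ) (hc : 0 ≤ c) :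
    mc (fun x => c * w x) = ENNReal.ofReal c • mc w := by
  unfold mc
  rw [← withDensity_smul _ hm.ennreal_ofReal]
  congr 1
  ext x
  show ENNReal.ofReal (c * w x) = ENNReal.ofReal c * ENNReal.ofReal (w x)
  rw [ENNReal.ofReal_mul hc]

theorem cont_grad {F : Type*} [NormedAddCommGroup F] [NormedSpace ℝ F] (f : F → ℝ)
    (hf : ContDiff ℝ 1 f) : Continuous fun x => ‖fderiv ℝ f x‖ ^ 2 := by
  have h2 : Continuous (fderiv ℝ f) := hf.continuous_fderiv (by norm_num)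
  fun_prop

end MAINx

open MAINx in
theorem MAIN (hb : S_CB) (hc : S_CORE) : S_MAIN := by
  obtain ⟨C, hC, hcore⟩ := hc
  refine ⟨C, hC, ?_⟩
  intro n hn ρ hρ h1 s hs hmom f hf hfL
  have hprob : IsProbabilityMeasure (mc ρ) := ⟨h1⟩
  by_cases hI : ∫⁻ x, ENNReal.ofReal (‖fderiv ℝ f x‖ ^ 2) ∂(mc ρ) = ⊤
  · rw [hI, ENNReal.mul_top (by
      rw [Ne, ENNReal.ofReal_eq_zero, not_le]
      positivity)]
    exact le_top
  obtain ⟨I, hIdef⟩ : ∃ I : ℝ, I = (∫⁻ x, ENNReal.ofReal (‖fderiv ℝ f x‖ ^ 2) ∂(mc ρ)).toReal :=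
    ⟨_, rfl⟩
  have hI0 : 0 ≤ I := by rw [hIdef]; exact ENNReal.toReal_nonneg
  have hgrad_meas : Continuous fun x => ‖fderiv ℝ f x‖ ^ 2 := cont_grad f hf
  have hf2 : Integrable (fun x => f x ^ 2) (mc ρ) := hfL.integrable_sq
  have hf1 : Integrable f (mc ρ) := hfL.integrable (by norm_num)
  have hmass : Tendsto (fun k : ℕ => (mc (wk ρ k)).real univ) atTop (𝓝 1) := by
    have h2 := mc_lim hρ.nonneg hρ.meas (fun _ => (1 : ℝ)) measurable_const (integrable_const _)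
    simpa using h2
  have key : ∀ᶠ k : ℕ in atTop,
      ((mc (wk ρ k)).real univ)⁻¹ * (∫ x, f x ^ 2 ∂(mc (wk ρ k))) -
        (((mc (wk ρ k)).real univ)⁻¹ * ∫ x, f x ∂(mc (wk ρ k))) ^ 2 ≤
      C * (s * ((mc (wk ρ k)).real univ)⁻¹) *
        (((mc (wk ρ k)).real univ)⁻¹ * I) := by
    have hev : ∀ᶠ k : ℕ in atTop, 0 < (mc (wk ρ k)).real univ :=
      hmass.eventually (lt_mem_nhds one_pos)
    filter_upwards [hev] with k hk
    obtain ⟨w, hw⟩ : ∃ w : Sy n → ℝ, w = wk ρ k := ⟨_, rfl⟩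
    have hw0 : ∀ x, 0 ≤ w x := by rw [hw]; exact wk_nonneg hρ.nonneg k
    have hwm : Measurable w := by rw [hw]; exact wk_meas hρ.meas k
    have hwle : mc w ≤ mc ρ := by rw [hw]; exact mc_le hρ.nonneg k
    have hwk : ∀ x, w x ≤ k := by rw [hw]; exact wk_le_nat ρ k
    have hwd : CDens n w := by
      rw [hw]
      have e1 := (hb n ρ hρ).2.2.2.1 k (Nat.cast_nonneg k)
      exact (hb n _ e1).2.2.2.2 k
    have hwb : ∀ x, (k : ℝ) < ‖x‖ → w x = 0 := by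
      intro x hx
      rw [hw]
      unfold wk
      rw [indicator_of_notMem]
      exact not_le.2 hx
    rw [← hw] at hk ⊢
    obtain ⟨M, hM⟩ : ∃ M : ℝ, M = (mc w).real univ := ⟨_, rfl⟩
    rw [← hM] at hk ⊢
    have hMi : 0 ≤ M⁻¹ := (inv_pos.2 hk).le
    have hfinw : mc w univ ≠ ⊤ := ne_top_of_le_ne_top (measure_ne_top (mc ρ) univ) (hwle univ)
    have hd : CDens n (fun x => M⁻¹ * w x) := (hb n w hwd).2.2.1 M⁻¹ hMi
    have hbd : Bdd (fun x => M⁻¹ * w x) := by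
      refine ⟨k, fun x hx => ?_⟩
      show M⁻¹ * w x = 0
      rw [hwb x hx, mul_zero]
    have hbB : ∃ B, ∀ x, M⁻¹ * w x ≤ B :=
      ⟨M⁻¹ * k, fun x => mul_le_mul_of_nonneg_left (hwk x) hMi⟩
    have hmu := mc_smul hwm M⁻¹ hMi
    have hmass1 : mc (fun x => M⁻¹ * w x) univ = 1 := by
      rw [hmu, Measure.smul_apply, smul_eq_mul]
      have h2 : mc w univ = ENNReal.ofReal M := by
        rw [hM, Measure.real, ENNReal.ofReal_toReal hfinw]
      rw [h2, ← ENNReal.ofReal_mul hMi, inv_mul_cancel₀ hk.ne', ENNReal.ofReal_one]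
    have hint : ∀ g : Sy n → ℝ, ∫ x, g x ∂(mc (fun x => M⁻¹ * w x)) =
        M⁻¹ * ∫ x, g x ∂(mc w) := by
      intro g
      rw [hmu, integral_smul_measure, ENNReal.toReal_ofReal hMi, smul_eq_mul]
    have hle : ∀ g : Sy n → ℝ, Continuous g → (∀ x, 0 ≤ g x) → ∀ a : ℝ, 0 ≤ a →
        ∫⁻ x, ENNReal.ofReal (g x) ∂(mc ρ) ≤ ENNReal.ofReal a → ∫ x, g x ∂(mc w) ≤ a := by
      intro g hg hg0 a ha hga
      rw [integral_eq_lintegral_of_nonneg_ae (Eventually.of_forall hg0)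
        hg.aestronglyMeasurable]
      apply ENNReal.toReal_le_of_le_ofReal ha
      exact le_trans (lintegral_mono' hwle le_rfl) hga
    have hmom' : ∀ θ : Sy n, ∫ x, ⟪θ, x⟫_ℝ ^ 2 ∂(mc (fun x => M⁻¹ * w x)) ≤
        (s * M⁻¹) * ‖θ‖ ^ 2 := by
      intro θ
      rw [hint]
      have h2 := hle (fun x => ⟪θ, x⟫_ℝ ^ 2) (by fun_prop) (fun x => sq_nonneg _) (s * ‖θ‖ ^ 2)
        (by positivity) (hmom θ)
      calc M⁻¹ * ∫ x, ⟪θ, x⟫_ℝ ^ 2 ∂(mc w) ≤ M⁻¹ * (s * ‖θ‖ ^ 2) :=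
            mul_le_mul_of_nonneg_left h2 hMi
        _ = (s * M⁻¹) * ‖θ‖ ^ 2 := by ring
    have h3 := hcore n hn _ hd hbB hbd hmass1 (s * M⁻¹) (mul_pos hs (inv_pos.2 hk)) hmom' f hf
    rw [hint, hint, hint] at h3
    refine h3.trans ?_
    have h4 : ∫ x, ‖fderiv ℝ f x‖ ^ 2 ∂(mc w) ≤ I := by
      apply hle _ hgrad_meas (fun x => sq_nonneg _) I hI0
      rw [hIdef, ENNReal.ofReal_toReal hI]
    have h5 : 0 ≤ C * (s * M⁻¹) := mul_nonneg hC.le (mul_nonneg hs.le hMi)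
    exact mul_le_mul_of_nonneg_left (mul_le_mul_of_nonneg_left h4 hMi) h5
  have hM1 : Tendsto (fun k : ℕ => ((mc (wk ρ k)).real univ)⁻¹) atTop (𝓝 1) := by
    have := hmass.inv₀ one_ne_zero
    rwa [inv_one] at this
  have hL : Tendsto (fun k : ℕ =>
      ((mc (wk ρ k)).real univ)⁻¹ * (∫ x, f x ^ 2 ∂(mc (wk ρ k))) -
        (((mc (wk ρ k)).real univ)⁻¹ * ∫ x, f x ∂(mc (wk ρ k))) ^ 2)
      atTop (𝓝 (1 * (∫ x, f x ^ 2 ∂(mc ρ)) - (1 * ∫ x, f x ∂(mc ρ)) ^ 2)) :=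
    (hM1.mul (mc_lim hρ.nonneg hρ.meas _ (hf.continuous.pow 2).measurable hf2)).sub
      ((hM1.mul (mc_lim hρ.nonneg hρ.meas _ hf.continuous.measurable hf1)).pow 2)
  have hR : Tendsto (fun k : ℕ => C * (s * ((mc (wk ρ k)).real univ)⁻¹) *
        (((mc (wk ρ k)).real univ)⁻¹ * I)) atTop (𝓝 (C * (s * 1) * (1 * I))) :=
    ((hM1.const_mul s).const_mul C).mul (hM1.mul_const I)
  have hfin := le_of_tendsto_of_tendsto hL hR key
  have hvar : ∫ x, (f x - ∫ y, f y ∂(mc ρ)) ^ 2 ∂(mc ρ) =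
      ∫ x, f x ^ 2 ∂(mc ρ) - (∫ x, f x ∂(mc ρ)) ^ 2 := by
    obtain ⟨a, ha⟩ : ∃ a : ℝ, a = ∫ y, f y ∂(mc ρ) := ⟨_, rfl⟩
    rw [← ha]
    have h2 : ∀ x, (f x - a) ^ 2 = (f x ^ 2 - 2 * a * f x) + a ^ 2 := fun x => by ring
    simp_rw [h2]
    have h3 : Integrable (fun x => 2 * a * f x) (mc ρ) := hf1.const_mul _
    have h4 : Integrable (fun x => f x ^ 2 - 2 * a * f x) (mc ρ) := hf2.sub h3
    rw [integral_add h4 (integrable_const _), integral_sub hf2 h3, integral_const_mul, ← ha]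
    simp
    ring
  rw [hvar]
  have h6 : ∫ x, f x ^ 2 ∂(mc ρ) - (∫ x, f x ∂(mc ρ)) ^ 2 ≤ C * s * I := by
    have : C * (s * 1) * (1 * I) = C * s * I := by ring
    rw [this] at hfin
    simpa using hfin
  calc ENNReal.ofReal (∫ x, f x ^ 2 ∂(mc ρ) - (∫ x, f x ∂(mc ρ)) ^ 2)
      ≤ ENNReal.ofReal (C * s * I) := ENNReal.ofReal_le_ofReal h6
    _ = ENNReal.ofReal (C * s) * ∫⁻ x, ENNReal.ofReal (‖fderiv ℝ f x‖ ^ 2) ∂(mc ρ) := by
      rw [ENNReal.ofReal_mul (by positivity), hIdef, ENNReal.ofReal_toReal hI]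

end Pool.Agent.H787R2.KC
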