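import Pool.Agent.H787R2.KC.St

/-! MEAN: the mean of a conjugation-invariant measure on symmetric matrices is scalar. -/

set_option autoImplicit false

namespace Pool.Agent.H787R2.KC

open MeasureTheory Set Matrix Pool.Agent.H212R2.KLS
open scoped ENNReal InnerProductSpace

namespace MEANx

theorem ip_trace {n : ℕ} (x y : Sy n) : ⟪x, y⟫_ℝ = Matrix.trace ((sM x)ᵀ * sM y) := by
  have h1 : ⟪x, y⟫_ℝ = ⟪(x : E n n), (y : E n n)⟫_ℝ := rfl
  rw [h1, PiLp.inner_apply, Fintype.sum_prod_type, Finset.sum_comm]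
  simp only [Matrix.trace, Matrix.diag_apply, Matrix.mul_apply, Matrix.transpose_apply]
  refine Finset.sum_congr rfl fun j _ => Finset.sum_congr rfl fun i _ => ?_
  change (y : E n n) (i, j) * (x : E n n) (i, j) = (x : E n n) (i, j) * (y : E n n) (i, j)
  ring

theorem adj {n : ℕ} (g : Matrix (Fin n) (Fin n) ℝ) (θ x : Sy n) :
    ⟪θ, cong g x⟫_ℝ = ⟪cong gᵀ θ, x⟫_ℝ := by
  rw [ip_trace, ip_trace, sM_cong, sM_cong]
  simp only [Matrix.transpose_mul, Matrix.transpose_transpose]
  rw [← Matrix.mul_assoc, Matrix.trace_mul_comm]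
  simp only [Matrix.mul_assoc]

theorem sign_mem {n : ℕ} (i : Fin n) :
    Matrix.diagonal (fun k => if k = i then (-1 : ℝ) else 1) ∈ OG n := by
  rw [Matrix.mem_orthogonalGroup_iff]
  rw [Matrix.diagonal_transpose, Matrix.diagonal_mul_diagonal, ← Matrix.diagonal_one]
  congr 1
  ext k
  by_cases h : k = i
  · simp [h]
  · simp [h]

/-- permutation matrix -/
def pm {n : ℕ} (σ : Equiv.Perm (Fin n)) : Matrix (Fin n) (Fin n) ℝ :=
  Matrix.of fun a b => if σ a = b then 1 else 0

theorem mul_pm {n : ℕ} (σ : Equiv.Perm (Fin n)) (M : Matrix (Fin n) (Fin n) ℝ) (a b : Fin n) :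
    (M * pm σ) a b = M a (σ.symm b) := by
  rw [Matrix.mul_apply, Finset.sum_eq_single (σ.symm b)]
  · simp [pm]
  · intro l _ hl
    have h1 : σ l ≠ b := by
      intro h
      apply hl
      rw [← h, Equiv.symm_apply_apply]
    simp [pm, h1]
  · intro h
    exact absurd (Finset.mem_univ _) h

theorem pmT_mul {n : ℕ} (σ : Equiv.Perm (Fin n)) (M : Matrix (Fin n) (Fin n) ℝ) (a b : Fin n) :
    ((pm σ)ᵀ * M) a b = M (σ.symm a) b := by
  rw [Matrix.mul_apply, Finset.sum_eq_single (σ.symm a)]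
  · simp [pm]
  · intro l _ hl
    have h1 : σ l ≠ a := by
      intro h
      apply hl
      rw [← h, Equiv.symm_apply_apply]
    simp [pm, h1]
  · intro h
    exact absurd (Finset.mem_univ _) h

theorem pm_mem {n : ℕ} (σ : Equiv.Perm (Fin n)) : pm σ ∈ OG n := by
  rw [Matrix.mem_orthogonalGroup_iff']
  ext a b
  rw [pmT_mul]
  simp only [pm, Matrix.of_apply, Equiv.apply_symm_apply, Matrix.one_apply]

end MEANx

open MEANx in
theorem MEAN : S_MEAN := by
  intro n μ _ hinv hint
  have : CompleteSpace (Sy n) := FiniteDimensional.complete ℝ (Sy n)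
  let L : Sy n →ₗ[ℝ] ℝ :=
    { toFun := fun θ => ∫ x, ⟪θ, x⟫_ℝ ∂μ
      map_add' := by
        intro θ θ'
        rw [← integral_add (hint θ) (hint θ')]
        refine integral_congr_ae (Filter.Eventually.of_forall fun x => ?_)
        exact inner_add_left θ θ' x
      map_smul' := by
        intro c θ
        rw [RingHom.id_apply, smul_eq_mul, ← integral_const_mul]
        refine integral_congr_ae (Filter.Eventually.of_forall fun x => ?_)
        exact real_inner_smul_left θ x c }
  have hL : ∀ θ, L θ = ∫ x, ⟪θ, x⟫_ℝ ∂μ := fun θ => rfl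
  let L' : Sy n →L[ℝ] ℝ := LinearMap.toContinuousLinearMap L
  let M : Sy n := (InnerProductSpace.toDual ℝ (Sy n)).symm L'
  have hM : ∀ θ, L θ = ⟪θ, M⟫_ℝ := by
    intro θ
    have h1 : ⟪M, θ⟫_ℝ = L' θ := InnerProductSpace.toDual_symm_apply
    rw [real_inner_comm, h1]
    rfl
  have hinvL : ∀ g ∈ OG n, ∀ θ, L (cong gᵀ θ) = L θ := by
    intro g hg θ
    rw [hL, hL]
    have h1 : ∫ x, ⟪θ, x⟫_ℝ ∂μ = ∫ x, ⟪θ, x⟫_ℝ ∂(μ.map (cong g)) := by rw [hinv g hg]
    have hc : Continuous (cong g) := (cong g).continuous_of_finiteDimensional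
    rw [h1, integral_map hc.measurable.aemeasurable
      (Continuous.aestronglyMeasurable (by fun_prop))]
    refine integral_congr_ae (Filter.Eventually.of_forall fun x => ?_)
    exact (adj g θ x).symm
  have hMinv : ∀ g ∈ OG n, cong g M = M := by
    intro g hg
    refine ext_inner_left ℝ fun θ => ?_
    rw [adj, ← hM, ← hM, hinvL g hg]
  have hMat : ∀ g ∈ OG n, gᵀ * sM M * g = sM M := by
    intro g hg
    have h1 := congrArg sM (hMinv g hg)
    rwa [sM_cong] at h1
  have hoff : ∀ i j : Fin n, i ≠ j → sM M i j = 0 := by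
    intro i j hij
    have h1 := congrFun (congrFun (hMat _ (sign_mem i)) i) j
    rw [Matrix.diagonal_transpose, Matrix.mul_diagonal, Matrix.diagonal_mul] at h1
    simp only [if_true, if_neg hij.symm] at h1
    linarith
  have hdiag : ∀ i j : Fin n, sM M i i = sM M j j := by
    intro i j
    have h1 := congrFun (congrFun (hMat _ (pm_mem (Equiv.swap i j))) i) i
    rw [mul_pm, pmT_mul, Equiv.symm_swap, Equiv.swap_apply_left] at h1
    exact h1.symm
  refine ⟨(if h : 0 < n then sM M ⟨0, h⟩ ⟨0, h⟩ else 0) * Real.sqrt n, fun θ => ?_⟩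
  rw [← hL, hM]
  congr 1
  apply sM_inj
  ext i j
  have hn : 0 < n := i.pos
  have hs : Real.sqrt n ≠ 0 := by
    have : (0 : ℝ) < n := by exact_mod_cast hn
    positivity
  rw [dif_pos hn, sM_smul, Matrix.smul_apply, td, sM_sOf, Matrix.smul_apply, smul_eq_mul,
    smul_eq_mul]
  by_cases hij : i = j
  · subst hij
    rw [Matrix.one_apply_eq, hdiag i ⟨0, hn⟩]
    field_simp
  · rw [hoff i j hij, Matrix.one_apply_ne hij]
    ring

end Pool.Agent.H787R2.KC
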