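import Pool.Agent.H787R2.KC.St

/-!
# RAD: Poincare inequality for invariant functions
-/

set_option autoImplicit false

namespace Pool.Agent.H787R2.KC

open MeasureTheory Set Matrix Pool.Agent.H212R2.KLS
open scoped ENNReal InnerProductSpace

namespace RADx

theorem cont_fd {F : Type} [NormedAddCommGroup F] [NormedSpace ℝ F] (f : F → ℝ)
    (hf : ContDiff ℝ 1 f) : Continuous (fun x => ‖fderiv ℝ f x‖ ^ 2) := by
  have h0 := hf.continuous_fderiv (by norm_num)
  have h1 := h0.norm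
  exact (continuous_pow 2).comp h1

theorem norm_sq_tr {n : ℕ} (X : Sy n) : ‖X‖ ^ 2 = Matrix.trace (sM X * (sM X)ᵀ) := by
  have h1 : ‖X‖ = ‖(X : E n n)‖ := rfl
  rw [h1, EuclideanSpace.real_norm_sq_eq, Fintype.sum_prod_type]
  unfold Matrix.trace
  refine Finset.sum_congr rfl fun i _ => ?_
  rw [Matrix.diag_apply, Matrix.mul_apply]
  refine Finset.sum_congr rfl fun j _ => ?_
  rw [Matrix.transpose_apply, pow_two]
  rfl

theorem og_mul {n : ℕ} {g : Matrix (Fin n) (Fin n) ℝ} (hg : g ∈ OG n) : g * gᵀ = 1 := by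
  have := (Matrix.mem_orthogonalGroup_iff (Fin n) ℝ).1 hg
  simpa [Matrix.star_eq_conjTranspose] using this

theorem og_mul' {n : ℕ} {g : Matrix (Fin n) (Fin n) ℝ} (hg : g ∈ OG n) : gᵀ * g = 1 := by
  have := (Matrix.mem_orthogonalGroup_iff' (Fin n) ℝ).1 hg
  simpa [Matrix.star_eq_conjTranspose] using this

theorem og_tr {n : ℕ} {g : Matrix (Fin n) (Fin n) ℝ} (hg : g ∈ OG n) : gᵀ ∈ OG n := by
  rw [Matrix.mem_orthogonalGroup_iff]
  simpa [Matrix.star_eq_conjTranspose] using og_mul' hg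

theorem norm_cong {n : ℕ} {g : Matrix (Fin n) (Fin n) ℝ} (hg : g ∈ OG n) (X : Sy n) :
    ‖cong g X‖ = ‖X‖ := by
  have h1 : ‖cong g X‖ ^ 2 = ‖X‖ ^ 2 := by
    rw [norm_sq_tr, norm_sq_tr, sM_cong]
    have e : gᵀ * sM X * g * (gᵀ * sM X * g)ᵀ = gᵀ * (sM X * (sM X)ᵀ * g) := by
      rw [Matrix.transpose_mul, Matrix.transpose_mul, Matrix.transpose_transpose]
      calc gᵀ * sM X * g * (gᵀ * ((sM X)ᵀ * g)) = gᵀ * sM X * (g * gᵀ) * ((sM X)ᵀ * g) := by
            simp only [Matrix.mul_assoc]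
        _ = gᵀ * (sM X * (sM X)ᵀ * g) := by
            rw [og_mul hg, Matrix.mul_one]
            simp only [Matrix.mul_assoc]
    rw [e, Matrix.trace_mul_comm, Matrix.mul_assoc, og_mul hg, Matrix.mul_one]
  have h2 : ‖cong g X‖ = Real.sqrt (‖cong g X‖ ^ 2) := (Real.sqrt_sq (norm_nonneg _)).symm
  rw [h2, h1, Real.sqrt_sq (norm_nonneg _)]

theorem cong_tr {n : ℕ} {g : Matrix (Fin n) (Fin n) ℝ} (hg : g ∈ OG n) (X : Sy n) :
    cong gᵀ (cong g X) = X := by
  apply sM_inj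
  rw [sM_cong, sM_cong, Matrix.transpose_transpose]
  calc g * (gᵀ * sM X * g) * gᵀ = (g * gᵀ) * sM X * (g * gᵀ) := by
        simp only [Matrix.mul_assoc]
    _ = sM X := by rw [og_mul hg, Matrix.one_mul, Matrix.mul_one]

/-- `cong g` as a continuous linear map -/
noncomputable def cl {n : ℕ} (g : Matrix (Fin n) (Fin n) ℝ) : Sy n →L[ℝ] Sy n :=
  LinearMap.toContinuousLinearMap (cong g)

theorem fd_le {n : ℕ} {f : Sy n → ℝ} (hf : ContDiff ℝ 1 f)
    (hinv : ∀ g ∈ OG n, ∀ x, f (cong g x) = f x) {g : Matrix (Fin n) (Fin n) ℝ} (hg : g ∈ OG n)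
    (x : Sy n) : ‖fderiv ℝ f x‖ ≤ ‖fderiv ℝ f (cong g x)‖ := by
  have hd : Differentiable ℝ f := hf.differentiable (by norm_num)
  have h1 : f = fun y => f (cl g y) := by
    funext y
    exact (hinv g hg y).symm
  have h2 : HasFDerivAt (fun y => f (cl g y)) ((fderiv ℝ f (cl g x)).comp (cl g)) x :=
    (hd (cl g x)).hasFDerivAt.comp x (cl g).hasFDerivAt
  have h3 : fderiv ℝ f x = (fderiv ℝ f (cl g x)).comp (cl g) := by
    conv_lhs => rw [h1]
    exact h2.fderiv
  rw [h3]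
  refine ContinuousLinearMap.opNorm_le_bound _ (norm_nonneg (fderiv ℝ f (cong g x))) ?_
  intro v
  rw [ContinuousLinearMap.comp_apply]
  refine (ContinuousLinearMap.le_opNorm _ _).trans (le_of_eq ?_)
  have h4 : ‖cl g v‖ = ‖v‖ := norm_cong hg v
  rw [h4]
  rfl

theorem fd_eq {n : ℕ} {f : Sy n → ℝ} (hf : ContDiff ℝ 1 f)
    (hinv : ∀ g ∈ OG n, ∀ x, f (cong g x) = f x) {g : Matrix (Fin n) (Fin n) ℝ} (hg : g ∈ OG n)
    (x : Sy n) : ‖fderiv ℝ f (cong g x)‖ = ‖fderiv ℝ f x‖ := by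
  apply le_antisymm
  · have := fd_le hf hinv (og_tr hg) (cong g x)
    rw [cong_tr hg] at this
    exact this
  · exact fd_le hf hinv hg x

/-- `dg` as a linear map -/
def dgl (n : ℕ) : V n →ₗ[ℝ] Sy n where
  toFun := dg
  map_add' x y := sM_inj (by
    rw [sM_add, sM_dg, sM_dg, sM_dg]
    exact (Matrix.diagonal_add x.ofLp y.ofLp).symm)
  map_smul' c x := sM_inj (by
    rw [RingHom.id_apply, sM_smul, sM_dg, sM_dg]
    exact Matrix.diagonal_smul c x.ofLp)

theorem norm_dg {n : ℕ} (l : V n) : ‖dg l‖ = ‖l‖ := by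
  have h1 : ‖dg l‖ ^ 2 = ‖l‖ ^ 2 := by
    rw [norm_sq_tr, sM_dg, Matrix.diagonal_transpose, Matrix.diagonal_mul_diagonal,
      Matrix.trace_diagonal, EuclideanSpace.real_norm_sq_eq]
    refine Finset.sum_congr rfl fun i _ => ?_
    rw [pow_two]
  have h2 : ‖dg l‖ = Real.sqrt (‖dg l‖ ^ 2) := (Real.sqrt_sq (norm_nonneg _)).symm
  rw [h2, h1, Real.sqrt_sq (norm_nonneg _)]

/-- `dg` as a continuous linear map -/
noncomputable def dgc (n : ℕ) : V n →L[ℝ] Sy n := LinearMap.toContinuousLinearMap (dgl n)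

theorem dgc_apply {n : ℕ} (l : V n) : dgc n l = dg l := rfl

theorem fd_dg {n : ℕ} {f : Sy n → ℝ} (hf : ContDiff ℝ 1 f) (l : V n) :
    ‖fderiv ℝ (fun k => f (dg k)) l‖ ≤ ‖fderiv ℝ f (dg l)‖ := by
  have hd : Differentiable ℝ f := hf.differentiable (by norm_num)
  have h2 : HasFDerivAt (fun k => f (dgc n k)) ((fderiv ℝ f (dgc n l)).comp (dgc n)) l :=
    (hd (dgc n l)).hasFDerivAt.comp l (dgc n).hasFDerivAt
  have h3 : fderiv ℝ (fun k => f (dg k)) l = (fderiv ℝ f (dgc n l)).comp (dgc n) := h2.fderiv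
  rw [h3]
  refine ContinuousLinearMap.opNorm_le_bound _ (norm_nonneg (fderiv ℝ f (dg l))) ?_
  intro v
  rw [ContinuousLinearMap.comp_apply]
  refine (ContinuousLinearMap.le_opNorm _ _).trans (le_of_eq ?_)
  rw [dgc_apply, dgc_apply, norm_dg]

theorem cont_dg (n : ℕ) : Continuous (dg (n := n)) := (dgc n).continuous

theorem meas_Ch (n : ℕ) : MeasurableSet (Ch n) := by
  have h : Ch n = ⋂ i : Fin n, ⋂ j : Fin n, {l : V n | i < j → l i < l j} := by
    ext l
    simp only [Ch, StrictMono, Set.mem_ofPred_eq, mem_iInter]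
  rw [h]
  refine MeasurableSet.iInter fun i => MeasurableSet.iInter fun j => ?_
  by_cases hij : i < j
  · have : {l : V n | i < j → l i < l j} = {l : V n | l i < l j} := by
      ext l
      simp [hij]
    rw [this]
    apply IsOpen.measurableSet
    exact isOpen_lt (by fun_prop) (by fun_prop)
  · have : {l : V n | i < j → l i < l j} = univ := by
      ext l
      simp [hij]
    rw [this]
    exact MeasurableSet.univ

theorem vd_nonneg {n : ℕ} {l : V n} (hl : l ∈ Ch n) : 0 ≤ vd l := by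
  unfold vd
  refine Finset.prod_nonneg fun i _ => Finset.prod_nonneg fun j hj => ?_
  rw [Finset.mem_Ioi] at hj
  have := hl hj
  linarith

theorem key {n : ℕ} {ρ : Sy n → ℝ} (hρ : CDens n ρ) (cW : ℝ≥0∞)
    (hw : ∀ F : Sy n → ℝ≥0∞, Measurable F → (∀ g ∈ OG n, ∀ x, F (cong g x) = F x) →
      ∫⁻ X, F X ∂(nu n) = cW * ∫⁻ l in Ch n, F (dg l) * ENNReal.ofReal (vd l))
    (hwm : Measurable (wch ρ)) (hw0 : ∀ l, 0 ≤ wch ρ l)
    (h : Sy n → ℝ) (hm : Measurable h) (h0 : ∀ x, 0 ≤ h x)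
    (hinv : ∀ g ∈ OG n, ∀ x, h (cong g x) = h x) :
    ∫ x, h x ∂(mc ρ) = cW.toReal * ∫ l, h (dg l) * wch ρ l := by
  have hmd : Measurable (fun l : V n => h (dg l)) := hm.comp (cont_dg n).measurable
  rw [integral_eq_lintegral_of_nonneg_ae (Filter.Eventually.of_forall h0)
    hm.aestronglyMeasurable]
  rw [integral_eq_lintegral_of_nonneg_ae
    (Filter.Eventually.of_forall fun l => mul_nonneg (h0 _) (hw0 l))
    (hmd.mul hwm).aestronglyMeasurable, ← ENNReal.toReal_mul]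
  congr 1
  have hρm : Measurable (fun x => ENNReal.ofReal (ρ x)) := hρ.meas.ennreal_ofReal
  have hhm : Measurable (fun x => ENNReal.ofReal (h x)) := hm.ennreal_ofReal
  unfold mc
  rw [lintegral_withDensity_eq_lintegral_mul _ hρm hhm]
  have h1 := hw (fun x => ENNReal.ofReal (ρ x) * ENNReal.ofReal (h x)) (hρm.mul hhm)
    (by
      intro g hg x
      rw [hρ.inv g hg, hinv g hg])
  have h2 : ∫⁻ a, ((fun x => ENNReal.ofReal (ρ x)) * fun x => ENNReal.ofReal (h x)) a ∂(nu n) =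
      ∫⁻ X, ENNReal.ofReal (ρ X) * ENNReal.ofReal (h X) ∂(nu n) := rfl
  rw [h2, h1]
  congr 1
  rw [← lintegral_indicator (meas_Ch n)]
  refine lintegral_congr fun l => ?_
  unfold wch
  by_cases hl : l ∈ Ch n
  · rw [Set.indicator_of_mem hl, Set.indicator_of_mem hl, ENNReal.ofReal_mul (h0 _),
      ENNReal.ofReal_mul (hρ.nonneg _)]
    ring
  · rw [Set.indicator_of_notMem hl, Set.indicator_of_notMem hl, mul_zero, ENNReal.ofReal_zero]

theorem intg {n : ℕ} (w : V n → ℝ) (hm : Measurable w) (h0 : ∀ x, 0 ≤ w x)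
    (hb : ∃ B, ∀ x, w x ≤ B) (hs : Bdd w) (g : V n → ℝ) (hg : Continuous g) :
    Integrable (fun l => g l * w l) := by
  obtain ⟨B, hB⟩ := hb
  obtain ⟨R, hR⟩ := hs
  obtain ⟨C, hC⟩ := (isCompact_closedBall (0 : V n) R).exists_bound_of_continuousOn
    hg.continuousOn
  have hfin : Integrable ((Metric.closedBall (0 : V n) R).indicator fun _ => |C| * |B|) := by
    rw [integrable_indicator_iff Metric.isClosed_closedBall.measurableSet]
    refine integrableOn_const ?_ ?_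
    · exact (isCompact_closedBall (0 : V n) R).measure_lt_top.ne
    · exact ENNReal.coe_ne_top
  refine hfin.mono' (hg.measurable.mul hm).aestronglyMeasurable
    (Filter.Eventually.of_forall fun l => ?_)
  by_cases hl : l ∈ Metric.closedBall (0 : V n) R
  · rw [Set.indicator_of_mem hl, norm_mul]
    refine mul_le_mul ((hC l hl).trans (le_abs_self _)) ?_ (norm_nonneg _) (abs_nonneg _)
    rw [Real.norm_eq_abs, abs_of_nonneg (h0 l)]
    exact (hB l).trans (le_abs_self _)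
  · rw [Set.indicator_of_notMem hl]
    have : R < ‖l‖ := by
      rw [Metric.mem_closedBall, dist_zero_right] at hl
      exact not_le.1 hl
    rw [hR l this, mul_zero, norm_zero]

end RADx

open RADx in
theorem RAD (hw : S_WEYL) (hr : S_RW) (hl : S_LT) : S_RAD := by
  intro n hn ρ hρ hB hsupp r σ hr0 hsp hσ hrσ hmom f hf hinv
  by_cases hz : mc ρ = 0
  · refine ⟨0, ?_⟩
    rw [hz]
    simp
  · obtain ⟨e, hWA⟩ := hr n hn ρ hρ hB hsupp hz r σ hr0 hsp hσ hrσ hmom
    obtain ⟨cW, -, -, hW⟩ := hw n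
    have hfd : ContDiff ℝ 1 (fun l : V n => f (dg l)) := hf.comp (dgc n).contDiff
    obtain ⟨c, hc⟩ := hl (V n) volume (wch ρ) e σ hWA (fun l => f (dg l)) hfd
    refine ⟨c, ?_⟩
    have hcf : Continuous (fun x => ‖fderiv ℝ f x‖ ^ 2) := cont_fd f hf
    rw [key hρ cW hW hWA.meas hWA.nonneg (fun x => (f x - c) ^ 2)
        ((hf.continuous.sub continuous_const).pow 2).measurable (fun x => sq_nonneg _)
        (fun g hg x => by rw [hinv g hg x]),
      key hρ cW hW hWA.meas hWA.nonneg (fun x => ‖fderiv ℝ f x‖ ^ 2)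
        hcf.measurable (fun x => sq_nonneg _)
        (fun g hg x => by rw [fd_eq hf hinv hg x])]
    have h1 : ∫ l, ‖fderiv ℝ (fun k => f (dg k)) l‖ ^ 2 * wch ρ l ≤
        ∫ l, ‖fderiv ℝ f (dg l)‖ ^ 2 * wch ρ l := by
      refine integral_mono_of_nonneg
        (Filter.Eventually.of_forall fun l => mul_nonneg (sq_nonneg _) (hWA.nonneg l))
        (intg (wch ρ) hWA.meas hWA.nonneg hWA.bound hWA.supp
          (fun l => ‖fderiv ℝ f (dg l)‖ ^ 2) (hcf.comp (cont_dg n)))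
        (Filter.Eventually.of_forall fun l => ?_)
      refine mul_le_mul_of_nonneg_right ?_ (hWA.nonneg l)
      exact pow_le_pow_left₀ (norm_nonneg _) (fd_dg hf l) 2
    have h2 := hc.trans (mul_le_mul_of_nonneg_left h1 (by positivity : 0 ≤ 514 * σ ^ 2))
    have h3 := mul_le_mul_of_nonneg_left h2 (ENNReal.toReal_nonneg (a := cW))
    linarith

end Pool.Agent.H787R2.KC
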