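import Pool.Agent.H787R2.KC.St

/-! The weight on the chamber. -/

set_option autoImplicit false

namespace Pool.Agent.H787R2.KC

open MeasureTheory Set Matrix Pool.Agent.H212R2.KLS
open scoped ENNReal InnerProductSpace

namespace RWx

/-- `dg` as a linear map -/
def dgL (n : ℕ) : V n →ₗ[ℝ] Sy n where
  toFun l := dg l
  map_add' l k := by
    apply sM_inj
    rw [sM_add, sM_dg, sM_dg, sM_dg, Matrix.diagonal_add]
    rfl
  map_smul' c l := by
    apply sM_inj
    rw [RingHom.id_apply, sM_smul, sM_dg, sM_dg, ← Matrix.diagonal_smul]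
    rfl

theorem dg_comb {n : ℕ} (a b : ℝ) (l k : V n) : dg (a • l + b • k) = a • dg l + b • dg k := by
  have := (dgL n).map_add (a • l) (b • k)
  rw [(dgL n).map_smul, (dgL n).map_smul] at this
  exact this

theorem dg_cont (n : ℕ) : Continuous (dg (n := n)) :=
  (dgL n).continuous_of_finiteDimensional

theorem norm_dg {n : ℕ} (l : V n) : ‖dg l‖ = ‖l‖ := by
  have h1 : ‖dg l‖ ^ 2 = ‖l‖ ^ 2 := by
    change ‖((dg l : Sy n) : E n n)‖ ^ 2 = ‖l‖ ^ 2
    rw [EuclideanSpace.norm_sq_eq, EuclideanSpace.norm_sq_eq, Fintype.sum_prod_type]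
    refine Finset.sum_congr rfl fun i _ => ?_
    rw [Finset.sum_eq_single i]
    · change ‖Matrix.diagonal l.ofLp i i‖ ^ 2 = _
      rw [Matrix.diagonal_apply_eq]
    · intro j _ hj
      change ‖Matrix.diagonal l.ofLp i j‖ ^ 2 = 0
      rw [Matrix.diagonal_apply_ne _ (Ne.symm hj)]
      simp
    · simp
  exact (pow_left_inj₀ (norm_nonneg _) (norm_nonneg _) (by norm_num)).1 h1

theorem inner_td {n : ℕ} (X : Sy n) :
    ⟪td n, X⟫_ℝ = 1 / Real.sqrt n * (sM X).trace := by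
  rw [Submodule.coe_inner, PiLp.inner_apply, Fintype.sum_prod_type, Matrix.trace, Finset.mul_sum]
  refine Finset.sum_congr rfl fun i _ => ?_
  rw [Finset.sum_eq_single i]
  · have e1 : ((td n : Sy n) : E n n) (i, i) = 1 / Real.sqrt n := by
      change ((1 / Real.sqrt n) • (1 : Matrix (Fin n) (Fin n) ℝ)) i i = _
      rw [Matrix.smul_apply, Matrix.one_apply_eq, smul_eq_mul, mul_one]
    rw [e1]
    simp [mul_comm]
    left
    rfl
  · intro j _ hj
    have e1 : ((td n : Sy n) : E n n) (i, j) = 0 := by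
      change ((1 / Real.sqrt n) • (1 : Matrix (Fin n) (Fin n) ℝ)) i j = _
      rw [Matrix.smul_apply, Matrix.one_apply_ne (Ne.symm hj), smul_zero]
    rw [e1]
    simp
  · simp

theorem inner_td_cong {n : ℕ} (g : Matrix (Fin n) (Fin n) ℝ) (hg : g ∈ OG n) (X : Sy n) :
    ⟪td n, cong g X⟫_ℝ = ⟪td n, X⟫_ℝ := by
  rw [inner_td, inner_td, sM_cong, Matrix.trace_mul_cycle, Matrix.trace_mul_comm]
  have h : g * gᵀ = 1 := (Matrix.mem_orthogonalGroup_iff (Fin n) ℝ).1 hg
  rw [h, Matrix.mul_one]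

/-- the unit vector `(1, ..., 1) / √n` -/
noncomputable def ee (n : ℕ) : V n := WithLp.toLp 2 fun _ => 1 / Real.sqrt n

theorem inner_ee {n : ℕ} (l : V n) : ⟪ee n, l⟫_ℝ = 1 / Real.sqrt n * ∑ i, l i := by
  rw [PiLp.inner_apply, Finset.mul_sum]
  refine Finset.sum_congr rfl fun i _ => ?_
  simp [ee, mul_comm]

theorem inner_ee_dg {n : ℕ} (l : V n) : ⟪td n, dg l⟫_ℝ = ⟪ee n, l⟫_ℝ := by
  rw [inner_td, inner_ee, sM_dg, Matrix.trace_diagonal]

theorem norm_ee {n : ℕ} (hn : 1 ≤ n) : ‖ee n‖ = 1 := by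
  have hn0 : (0 : ℝ) < n := by exact_mod_cast hn
  have h : ‖ee n‖ ^ 2 = 1 := by
    rw [EuclideanSpace.norm_sq_eq]
    simp only [ee, Real.norm_eq_abs, sq_abs, div_pow, one_pow, Real.sq_sqrt hn0.le,
      Finset.sum_const, Finset.card_univ, Fintype.card_fin, nsmul_eq_mul]
    field_simp
  have h2 : ‖ee n‖ ^ 2 = 1 ^ 2 := by rw [h]; norm_num
  exact (pow_left_inj₀ (norm_nonneg _) (by norm_num) (by norm_num)).1 h2

theorem inner_ee_sq {n : ℕ} (hn : 1 ≤ n) (l : V n) : ⟪ee n, l⟫_ℝ ^ 2 = (∑ i, l i) ^ 2 / n := by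
  rw [inner_ee, mul_pow, div_pow, one_pow, Real.sq_sqrt (Nat.cast_nonneg n)]
  ring

theorem cs_ee {n : ℕ} (hn : 1 ≤ n) (l : V n) : ⟪ee n, l⟫_ℝ ^ 2 ≤ ‖l‖ ^ 2 := by
  have h := abs_real_inner_le_norm (ee n) l
  rw [norm_ee hn, one_mul] at h
  rw [← sq_abs ⟪ee n, l⟫_ℝ]
  exact pow_le_pow_left₀ (abs_nonneg _) h 2

theorem meas_Ch (n : ℕ) : MeasurableSet (Ch n) := by
  have : Ch n = ⋂ i : Fin n, ⋂ j : Fin n, {l : V n | i < j → l i < l j} := by
    ext l
    simp only [Set.mem_iInter]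
    constructor
    · intro h i j hij
      exact h hij
    · intro h i j hij
      exact h i j hij
  rw [this]
  refine MeasurableSet.iInter fun i => MeasurableSet.iInter fun j => ?_
  by_cases hij : i < j
  · have : {l : V n | i < j → l i < l j} = {l : V n | l i < l j} := by
      ext l
      exact ⟨fun h => h hij, fun h _ => h⟩
    rw [this]
    exact measurableSet_lt (by fun_prop) (by fun_prop)
  · have : {l : V n | i < j → l i < l j} = Set.univ := by
      ext l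
      exact ⟨fun _ => trivial, fun _ h => absurd h hij⟩
    rw [this]
    exact MeasurableSet.univ

theorem vd_pos {n : ℕ} {l : V n} (h : l ∈ Ch n) : 0 < vd l := by
  refine Finset.prod_pos fun i _ => Finset.prod_pos fun j hj => ?_
  have : i < j := Finset.mem_Ioi.1 hj
  have := h this
  linarith

theorem vd_cont (n : ℕ) : Continuous (vd (n := n)) := by
  unfold vd
  fun_prop

theorem sqrt_mid {a b c : ℝ} (ha : 0 ≤ a) (hb : 0 ≤ b)
    (h : a ^ (1 - (1 / 2 : ℝ)) * b ^ (1 / 2 : ℝ) ≤ c) : a * b ≤ c ^ 2 := by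
  have h1 : a * b = (a ^ (1 - (1 / 2 : ℝ)) * b ^ (1 / 2 : ℝ)) ^ 2 := by
    rw [mul_pow, ← Real.rpow_natCast, ← Real.rpow_natCast, ← Real.rpow_mul ha, ← Real.rpow_mul hb]
    norm_num
  rw [h1]
  exact pow_le_pow_left₀ (mul_nonneg (Real.rpow_nonneg ha _) (Real.rpow_nonneg hb _)) h 2

end RWx

open RWx

theorem RW (hw : S_WEYL) (hv : S_VD) (hd : S_SPD) : S_RW := by
  intro n hn ρ hρ hB hbd hne r σ hr hsp hσ hrσ hmom
  obtain ⟨B, hB⟩ := hB
  obtain ⟨R, hR⟩ := hbd
  obtain ⟨c, hc0, hct, hc⟩ := hw n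
  have hn0 : (0 : ℝ) < n := by exact_mod_cast hn
  have hB0 : 0 ≤ B := le_trans (hρ.nonneg 0) (hB 0)
  -- basic facts on `wch`
  have w_in : ∀ l ∈ Ch n, wch ρ l = ρ (dg l) * vd l := fun l hl => Set.indicator_of_mem hl _
  have w_out : ∀ l, l ∉ Ch n → wch ρ l = 0 := fun l hl => Set.indicator_of_notMem hl _
  have w_nn : ∀ l, 0 ≤ wch ρ l := by
    intro l
    by_cases hl : l ∈ Ch n
    · rw [w_in l hl]; exact mul_nonneg (hρ.nonneg _) (vd_pos hl).le
    · rw [w_out l hl]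
  have w_meas : Measurable (wch ρ) := by
    refine Measurable.indicator ?_ (meas_Ch n)
    exact (hρ.meas.comp (dg_cont n).measurable).mul (vd_cont n).measurable
  have w_supp : ∀ l, R < ‖l‖ → wch ρ l = 0 := by
    intro l hl
    by_cases hlc : l ∈ Ch n
    · rw [w_in l hlc, hR (dg l) (by rw [norm_dg]; exact hl), zero_mul]
    · exact w_out l hlc
  obtain ⟨M, hM⟩ := (isCompact_closedBall (0 : V n) R).exists_bound_of_continuousOn
    (vd_cont n).continuousOn
  have w_bd : ∀ l, wch ρ l ≤ B * |M| := by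
    intro l
    by_cases hl : R < ‖l‖
    · rw [w_supp l hl]; positivity
    · by_cases hlc : l ∈ Ch n
      · rw [w_in l hlc]
        have h1 : ‖vd l‖ ≤ M := hM l (by rw [mem_closedBall_zero_iff]; exact not_lt.1 hl)
        have h2 : vd l ≤ |M| := le_trans (le_trans (le_abs_self _) h1) (le_abs_self _)
        exact mul_le_mul (hB _) h2 (vd_pos hlc).le hB0
      · rw [w_out l hlc]; positivity
  -- transfer
  have key : ∀ f : Sy n → ℝ, Measurable f → (∀ x, 0 ≤ f x) →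
      (∀ g ∈ OG n, ∀ x, f (cong g x) = f x) →
      ∫⁻ x, ENNReal.ofReal (f x) ∂(mc ρ) = c * ∫⁻ l : V n, ENNReal.ofReal (f (dg l) * wch ρ l) := by
    intro f hf hf0 hfi
    rw [mc, lintegral_withDensity_eq_lintegral_mul _ hρ.meas.ennreal_ofReal hf.ennreal_ofReal,
      hc _ (hρ.meas.ennreal_ofReal.mul hf.ennreal_ofReal) ?_]
    · congr 1
      rw [← lintegral_indicator (meas_Ch n)]
      refine lintegral_congr fun l => ?_
      by_cases hl : l ∈ Ch n
      · rw [Set.indicator_of_mem hl, w_in l hl, Pi.mul_apply,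
          ← ENNReal.ofReal_mul (hρ.nonneg _),
          ← ENNReal.ofReal_mul (mul_nonneg (hρ.nonneg _) (hf0 _))]
        congr 1; ring
      · rw [Set.indicator_of_notMem hl, w_out l hl, mul_zero, ENNReal.ofReal_zero]
    · intro g hg x
      simp only [Pi.mul_apply, hρ.inv g hg x, hfi g hg x]
  have mass : mc ρ univ = c * ∫⁻ l : V n, ENNReal.ofReal (wch ρ l) := by
    have := key (fun _ => 1) measurable_const (fun _ => by norm_num) (fun _ _ _ => rfl)
    simp only [ENNReal.ofReal_one, lintegral_one, one_mul] at this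
    exact this
  have fin : ∫⁻ l : V n, ENNReal.ofReal (wch ρ l) ≠ ⊤ := by
    have h1 : ∫⁻ l : V n, ENNReal.ofReal (wch ρ l) ≤
        ∫⁻ l in Metric.closedBall (0 : V n) R, ENNReal.ofReal (B * |M|) := by
      rw [← lintegral_indicator Metric.isClosed_closedBall.measurableSet]
      refine lintegral_mono fun l => ?_
      by_cases hl : l ∈ Metric.closedBall (0 : V n) R
      · rw [Set.indicator_of_mem hl]
        exact ENNReal.ofReal_le_ofReal (w_bd l)
      · rw [Set.indicator_of_notMem hl]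
        have : R < ‖l‖ := by
          rw [mem_closedBall_zero_iff] at hl
          exact not_le.1 hl
        rw [w_supp l this, ENNReal.ofReal_zero]
    refine ne_top_of_le_ne_top ?_ h1
    rw [lintegral_const, Measure.restrict_apply_univ]
    exact ENNReal.mul_ne_top ENNReal.ofReal_ne_top
      (isCompact_closedBall (0 : V n) R).measure_lt_top.ne
  have nz : ∫⁻ l : V n, ENNReal.ofReal (wch ρ l) ≠ 0 := by
    intro h0
    rw [h0, mul_zero] at mass
    exact hne (Measure.measure_univ_eq_zero.1 mass)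
  have intw : ∫ l : V n, wch ρ l = (∫⁻ l : V n, ENNReal.ofReal (wch ρ l)).toReal :=
    integral_eq_lintegral_of_nonneg_ae (Filter.Eventually.of_forall w_nn)
      w_meas.aestronglyMeasurable
  have cpos : 0 < c.toReal := ENNReal.toReal_pos hc0 hct
  have ctd : Continuous (fun x : Sy n => ⟪td n, x⟫_ℝ ^ 2) := by fun_prop
  have cee : Continuous (fun x : V n => ⟪ee n, x⟫_ℝ ^ 2) := by fun_prop
  refine ⟨ee n, w_nn, w_meas, ⟨B * |M|, w_bd⟩, ⟨R, w_supp⟩, ?_, norm_ee hn, hσ, ?_, ?_, ?_⟩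
  · rw [intw]
    exact ENNReal.toReal_pos nz fin
  · -- log-concavity
    intro x y t h0 h1
    by_cases hx : x ∈ Ch n
    · by_cases hy : y ∈ Ch n
      · obtain ⟨hm, hvd⟩ := (hv n hn x hx y hy).1 t h0 h1
        rw [w_in x hx, w_in y hy, w_in _ hm, Real.mul_rpow (hρ.nonneg _) (vd_pos hx).le,
          Real.mul_rpow (hρ.nonneg _) (vd_pos hy).le, dg_comb]
        have h2 := hρ.logc (dg x) (dg y) t h0 h1
        calc ρ (dg x) ^ (1 - t) * vd x ^ (1 - t) * (ρ (dg y) ^ t * vd y ^ t)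
            = (ρ (dg x) ^ (1 - t) * ρ (dg y) ^ t) * (vd x ^ (1 - t) * vd y ^ t) := by ring
          _ ≤ _ := mul_le_mul h2 hvd (mul_nonneg (Real.rpow_nonneg (vd_pos hx).le _)
              (Real.rpow_nonneg (vd_pos hy).le _)) (hρ.nonneg _)
      · rw [w_out y hy, Real.zero_rpow h0.ne', mul_zero]
        exact w_nn _
    · rw [w_out x hx, Real.zero_rpow (by linarith), zero_mul]
      exact w_nn _
  · -- midpoints
    intro x y
    have rhs : 0 ≤ (wch ρ ((1 / 2 : ℝ) • (x + y))) ^ 2 *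
      Real.exp (-(1 / (4 * σ ^ 2) * (‖x - y‖ ^ 2 - ⟪ee n, x - y⟫_ℝ ^ 2))) := by positivity
    by_cases hx : x ∈ Ch n
    swap
    · rw [w_out x hx, zero_mul]; exact rhs
    by_cases hy : y ∈ Ch n
    swap
    · rw [w_out y hy, mul_zero]; exact rhs
    by_cases hsx : Sp r (dg x)
    swap
    · rw [w_in x hx, hsp _ hsx, zero_mul, zero_mul]; exact rhs
    by_cases hsy : Sp r (dg y)
    swap
    · rw [w_in y hy, hsp _ hsy, zero_mul, mul_zero]; exact rhs
    have hmid : (1 / 2 : ℝ) • (x + y) = (1 - (1 / 2 : ℝ)) • x + (1 / 2 : ℝ) • y := by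
      rw [smul_add]; norm_num
    obtain ⟨hm, -⟩ := (hv n hn x hx y hy).1 (1 / 2) (by norm_num) (by norm_num)
    have h2 := hρ.logc (dg x) (dg y) (1 / 2) (by norm_num) (by norm_num)
    rw [← dg_comb, ← hmid] at h2
    rw [← hmid] at hm
    have h3 := sqrt_mid (hρ.nonneg _) (hρ.nonneg _) h2
    have h4 := (hv n hn x hx y hy).2 r hr (fun i j => hd n r x hsx i j)
      (fun i j => hd n r y hsy i j)
    rw [← inner_ee_sq hn] at h4
    have h5 : Real.exp (-(n / (16 * r ^ 2) * (‖x - y‖ ^ 2 - ⟪ee n, x - y⟫_ℝ ^ 2))) ≤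
        Real.exp (-(1 / (4 * σ ^ 2) * (‖x - y‖ ^ 2 - ⟪ee n, x - y⟫_ℝ ^ 2))) := by
      rw [Real.exp_le_exp]
      have h6 : 0 ≤ ‖x - y‖ ^ 2 - ⟪ee n, x - y⟫_ℝ ^ 2 := by linarith [cs_ee hn (x - y)]
      have h7 : 1 / (4 * σ ^ 2) ≤ n / (16 * r ^ 2) := by
        rw [div_le_div_iff₀ (by positivity) (by positivity)]
        rw [div_le_iff₀ hn0] at hrσ
        nlinarith
      have := mul_le_mul_of_nonneg_right h7 h6
      linarith
    rw [w_in x hx, w_in y hy, w_in _ hm]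
    calc ρ (dg x) * vd x * (ρ (dg y) * vd y) = (ρ (dg x) * ρ (dg y)) * (vd x * vd y) := by ring
      _ ≤ ρ (dg ((1 / 2 : ℝ) • (x + y))) ^ 2 * ((vd ((1 / 2 : ℝ) • (x + y))) ^ 2 *
          Real.exp (-(n / (16 * r ^ 2) * (‖x - y‖ ^ 2 - ⟪ee n, x - y⟫_ℝ ^ 2)))) :=
        mul_le_mul h3 h4 (mul_nonneg (vd_pos hx).le (vd_pos hy).le) (sq_nonneg _)
      _ ≤ ρ (dg ((1 / 2 : ℝ) • (x + y))) ^ 2 * ((vd ((1 / 2 : ℝ) • (x + y))) ^ 2 *
          Real.exp (-(1 / (4 * σ ^ 2) * (‖x - y‖ ^ 2 - ⟪ee n, x - y⟫_ℝ ^ 2)))) := by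
        gcongr
      _ = _ := by ring
  · -- second moment
    have e1 : ∫ x, ⟪td n, x⟫_ℝ ^ 2 ∂(mc ρ) =
        c.toReal * ∫ l : V n, ⟪ee n, l⟫_ℝ ^ 2 * wch ρ l := by
      rw [integral_eq_lintegral_of_nonneg_ae (Filter.Eventually.of_forall fun x => sq_nonneg _)
        ctd.measurable.aestronglyMeasurable,
        integral_eq_lintegral_of_nonneg_ae (Filter.Eventually.of_forall fun x =>
          mul_nonneg (sq_nonneg _) (w_nn x)) (cee.measurable.mul w_meas).aestronglyMeasurable,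
        key (fun x => ⟪td n, x⟫_ℝ ^ 2) ctd.measurable (fun x => sq_nonneg _)
          (fun g hg x => by rw [inner_td_cong g hg]), ENNReal.toReal_mul]
      congr 2
      refine lintegral_congr fun l => ?_
      rw [inner_ee_dg]
    have e2 : (mc ρ univ).toReal = c.toReal * ∫ l : V n, wch ρ l := by
      rw [mass, ENNReal.toReal_mul, intw]
    rw [e1, e2] at hmom
    have h3 : c.toReal * ∫ l : V n, ⟪ee n, l⟫_ℝ ^ 2 * wch ρ l ≤
        c.toReal * (σ ^ 2 * ∫ l : V n, wch ρ l) := by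
      calc _ ≤ _ := hmom
        _ = _ := by ring
    exact le_of_mul_le_mul_left h3 cpos

end Pool.Agent.H787R2.KC
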