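import Pool.Agent.H787R2.KC.St
import Pool.Agent.H212R2.KLS.T3

/-!
# SPA: a symmetric matrix of small spread is close to a scalar matrix
-/

set_option autoImplicit false

namespace Pool.Agent.H787R2.KC

open MeasureTheory Set Matrix Pool.Agent.H212R2.KLS
open scoped ENNReal InnerProductSpace

namespace SPAx

theorem sv_apply {n : ℕ} (X : Sy n) (v : V n) (i : Fin n) :
    sv X v i = ∑ j, (X : E n n) (i, j) * v j := rfl

theorem sv_add {n : ℕ} (X : Sy n) (v w : V n) : sv X (v + w) = sv X v + sv X w := by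
  ext i
  simp only [sv_apply, PiLp.add_apply, mul_add, Finset.sum_add_distrib]

theorem sv_smul {n : ℕ} (X : Sy n) (c : ℝ) (v : V n) : sv X (c • v) = c • sv X v := by
  ext i
  simp only [sv_apply, PiLp.smul_apply, smul_eq_mul, Finset.mul_sum]
  refine Finset.sum_congr rfl fun j _ => ?_
  ring

theorem sv_symm {n : ℕ} (X : Sy n) (u w : V n) : ⟪sv X u, w⟫_ℝ = ⟪u, sv X w⟫_ℝ := by
  have hX : ∀ i j, (X : E n n) (i, j) = (X : E n n) (j, i) := X.2
  simp only [PiLp.inner_apply, sv_apply]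
  have e1 : ∀ i : Fin n, ⟪∑ j, (X : E n n) (i, j) * u j, w i⟫_ℝ =
      ∑ j, (X : E n n) (i, j) * u j * w i := by
    intro i
    rw [← Finset.sum_mul]
    exact mul_comm _ _
  have e2 : ∀ i : Fin n, ⟪u i, ∑ j, (X : E n n) (i, j) * w j⟫_ℝ =
      ∑ j, (X : E n n) (i, j) * w j * u i := by
    intro i
    rw [← Finset.sum_mul]
    rfl
  rw [Finset.sum_congr rfl fun i _ => e1 i, Finset.sum_congr rfl fun i _ => e2 i,
    Finset.sum_comm]
  refine Finset.sum_congr rfl fun i _ => Finset.sum_congr rfl fun j _ => ?_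
  rw [hX j i]
  ring

theorem sv_cont {n : ℕ} (X : Sy n) : Continuous fun v : V n => sv X v := by
  unfold sv mv
  refine (PiLp.continuous_toLp 2 _).comp ?_
  refine continuous_pi fun i => ?_
  show Continuous fun v : V n => ∑ j, (X : E n n) (i, j) * v j
  fun_prop

end SPAx

open SPAx

theorem SPA : S_SPA := by
  intro n r X hS
  rcases Nat.eq_zero_or_pos n with hn | hn
  · subst hn
    refine ⟨0, fun v => ?_⟩
    have h1 : ∀ w : V 0, w = 0 := fun w => Subsingleton.elim _ _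
    rw [h1 (sv X v - (0 : ℝ) • v), h1 v]
    simp
  -- extremal values of the quadratic form
  have hcomp : IsCompact {u : V n | ‖u‖ = 1} := by
    have : {u : V n | ‖u‖ = 1} = Metric.sphere (0 : V n) 1 := by
      ext u; simp
    rw [this]
    exact isCompact_sphere _ _
  have hne : {u : V n | ‖u‖ = 1}.Nonempty :=
    ⟨EuclideanSpace.single ⟨0, hn⟩ 1, by simp⟩
  have hq : Continuous fun u : V n => ⟪u, sv X u⟫_ℝ := continuous_id.inner (sv_cont X)
  obtain ⟨a, ha, ha'⟩ := hcomp.exists_isMaxOn hne hq.continuousOn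
  obtain ⟨b, hb, hb'⟩ := hcomp.exists_isMinOn hne hq.continuousOn
  have hab := hS a b ha hb
  set M := ⟪a, sv X a⟫_ℝ with hM
  set m := ⟪b, sv X b⟫_ℝ with hm
  set c := (M + m) / 2 with hc
  have hr : 0 ≤ r := by
    have := hS a a ha ha
    simp only [sub_self] at this
    linarith
  refine ⟨c, ?_⟩
  set Y : V n → V n := fun v => sv X v - c • v with hY
  have hYadd : ∀ u w, Y (u + w) = Y u + Y w := by
    intro u w
    simp only [hY, sv_add, smul_add]
    abel
  have hYsmul : ∀ (s : ℝ) u, Y (s • u) = s • Y u := by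
    intro s u
    simp only [hY, sv_smul, smul_sub]
    rw [smul_comm c s u]
  have hYsymm : ∀ u w, ⟪Y u, w⟫_ℝ = ⟪u, Y w⟫_ℝ := by
    intro u w
    simp only [hY]
    rw [inner_sub_left, inner_sub_right, sv_symm, real_inner_smul_left, real_inner_smul_right]
  -- unit vectors
  have hunit : ∀ u : V n, ‖u‖ = 1 → |⟪u, Y u⟫_ℝ| ≤ r := by
    intro u hu
    have h1 : ⟪u, sv X u⟫_ℝ ≤ M := ha' hu
    have h2 : m ≤ ⟪u, sv X u⟫_ℝ := hb' hu
    have h3 : ⟪u, Y u⟫_ℝ = ⟪u, sv X u⟫_ℝ - c := by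
      simp only [hY]
      rw [inner_sub_right, real_inner_smul_right, real_inner_self_eq_norm_sq, hu]
      ring
    rw [h3, abs_le]
    constructor <;> linarith
  have hall : ∀ u : V n, |⟪u, Y u⟫_ℝ| ≤ r * ‖u‖ ^ 2 := by
    intro u
    by_cases hu : u = 0
    · subst hu
      simp
    · have hu' : 0 < ‖u‖ := norm_pos_iff.2 hu
      have h1 := hunit (‖u‖⁻¹ • u) (by rw [norm_smul, norm_inv, norm_norm]; field_simp)
      rw [hYsmul, real_inner_smul_left, real_inner_smul_right, ← mul_assoc, abs_mul,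
        abs_of_pos (by positivity : (0 : ℝ) < ‖u‖⁻¹ * ‖u‖⁻¹)] at h1
      have h2 : |⟪u, Y u⟫_ℝ| = (‖u‖⁻¹ * ‖u‖⁻¹ * |⟪u, Y u⟫_ℝ|) * ‖u‖ ^ 2 := by
        field_simp
      rw [h2]
      exact mul_le_mul_of_nonneg_right h1 (by positivity)
  have hbil : ∀ u w : V n, ‖u‖ = 1 → ‖w‖ = 1 → ⟪Y u, w⟫_ℝ ≤ r := by
    intro u w hu hw
    have h1 := (abs_le.1 (hall (u + w))).2
    have h2 := (abs_le.1 (hall (u - w))).1
    have e1 : ⟪u + w, Y (u + w)⟫_ℝ = ⟪u, Y u⟫_ℝ + ⟪w, Y w⟫_ℝ + 2 * ⟪Y u, w⟫_ℝ := by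
      rw [hYadd, inner_add_left, inner_add_right, inner_add_right, ← hYsymm u w,
        real_inner_comm (Y u) w]
      ring
    have e2 : ⟪u - w, Y (u - w)⟫_ℝ = ⟪u, Y u⟫_ℝ + ⟪w, Y w⟫_ℝ - 2 * ⟪Y u, w⟫_ℝ := by
      have h3 : Y (u - w) = Y u - Y w := by
        have : u - w = u + (-1 : ℝ) • w := by rw [neg_one_smul]; abel
        rw [this, hYadd, hYsmul, neg_one_smul]
        abel
      rw [h3, inner_sub_left, inner_sub_right u (Y u) (Y w), inner_sub_right w (Y u) (Y w), ← hYsymm u w,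
        real_inner_comm (Y u) w]
      ring
    have e3 : ‖u + w‖ ^ 2 + ‖u - w‖ ^ 2 = 4 := by
      have := parallelogram_law_with_norm ℝ u w
      rw [hu, hw] at this
      nlinarith
    rw [e1] at h1
    rw [e2] at h2
    nlinarith
  have hnorm : ∀ u : V n, ‖u‖ = 1 → ‖Y u‖ ≤ r := by
    intro u hu
    by_cases h0 : Y u = 0
    · rw [h0, norm_zero]; exact hr
    · have h0' : 0 < ‖Y u‖ := norm_pos_iff.2 h0
      have h1 := hbil u (‖Y u‖⁻¹ • Y u) hu (by rw [norm_smul, norm_inv, norm_norm]; field_simp)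
      rw [real_inner_smul_right, real_inner_self_eq_norm_sq] at h1
      have h2 : ‖Y u‖⁻¹ * ‖Y u‖ ^ 2 = ‖Y u‖ := by field_simp
      rwa [h2] at h1
  intro v
  show ‖Y v‖ ≤ r * ‖v‖
  by_cases hv : v = 0
  · subst hv
    have : Y 0 = 0 := by
      have := hYsmul 0 0
      simpa using this
    rw [this]
    simp
  · have hv' : 0 < ‖v‖ := norm_pos_iff.2 hv
    have h1 := hnorm (‖v‖⁻¹ • v) (by rw [norm_smul, norm_inv, norm_norm]; field_simp)
    rw [hYsmul, norm_smul, norm_inv, norm_norm] at h1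
    have h2 : ‖Y v‖ = (‖v‖⁻¹ * ‖Y v‖) * ‖v‖ := by field_simp
    rw [h2]
    exact mul_le_mul_of_nonneg_right h1 hv'.le

end Pool.Agent.H787R2.KC
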