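import Pool.Agent.H787R2.KC.St

/-! SPB: the set of matrices of bounded spread is closed, convex and conjugation invariant. -/

set_option autoImplicit false

namespace Pool.Agent.H787R2.KC

open MeasureTheory Set Matrix Pool.Agent.H212R2.KLS
open scoped ENNReal InnerProductSpace

namespace SPBx

theorem q_eq {n : ℕ} (X : Sy n) (u : V n) :
    ⟪u, sv X u⟫_ℝ = ∑ i, ∑ j, u i * (X : E n n) (i, j) * u j := by
  rw [PiLp.inner_apply]
  refine Finset.sum_congr rfl fun i _ => ?_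
  change (∑ j, (X : E n n) (i, j) * u j) * u i = _
  rw [Finset.sum_mul]
  refine Finset.sum_congr rfl fun j _ => ?_
  ring

theorem q_eq' {n : ℕ} (X : Sy n) (u : V n) :
    ⟪u, sv X u⟫_ℝ = u.ofLp ⬝ᵥ (sM X *ᵥ u.ofLp) := by
  rw [EuclideanSpace.inner_eq_star_dotProduct, dotProduct_comm]
  rfl

theorem q_cont {n : ℕ} (u : V n) : Continuous fun X : Sy n => ⟪u, sv X u⟫_ℝ := by
  simp only [q_eq]
  fun_prop

theorem q_comb {n : ℕ} (X Y : Sy n) (t : ℝ) (u : V n) :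
    ⟪u, sv ((1 - t) • X + t • Y) u⟫_ℝ = (1 - t) * ⟪u, sv X u⟫_ℝ + t * ⟪u, sv Y u⟫_ℝ := by
  rw [q_eq, q_eq, q_eq, Finset.mul_sum, Finset.mul_sum, ← Finset.sum_add_distrib]
  refine Finset.sum_congr rfl fun i _ => ?_
  rw [Finset.mul_sum, Finset.mul_sum, ← Finset.sum_add_distrib]
  refine Finset.sum_congr rfl fun j _ => ?_
  change u i * ((1 - t) * (X : E n n) (i, j) + t * (Y : E n n) (i, j)) * u j = _
  ring

/-- the action of a matrix on vectors -/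
noncomputable def gv {n : ℕ} (g : Matrix (Fin n) (Fin n) ℝ) (u : V n) : V n :=
  WithLp.toLp 2 (g *ᵥ u.ofLp)

theorem q_cong {n : ℕ} (g : Matrix (Fin n) (Fin n) ℝ) (X : Sy n) (u : V n) :
    ⟪u, sv (cong g X) u⟫_ℝ = ⟪gv g u, sv X (gv g u)⟫_ℝ := by
  rw [q_eq', q_eq', sM_cong]
  change _ = (g *ᵥ u.ofLp) ⬝ᵥ (sM X *ᵥ (g *ᵥ u.ofLp))
  rw [← Matrix.mulVec_mulVec, ← Matrix.mulVec_mulVec, Matrix.dotProduct_mulVec,
    Matrix.vecMul_transpose]

theorem gv_norm {n : ℕ} (g : Matrix (Fin n) (Fin n) ℝ) (hg : gᵀ * g = 1) (u : V n) :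
    ‖gv g u‖ = ‖u‖ := by
  have h : ‖gv g u‖ ^ 2 = ‖u‖ ^ 2 := by
    rw [← real_inner_self_eq_norm_sq, ← real_inner_self_eq_norm_sq,
      EuclideanSpace.inner_eq_star_dotProduct, EuclideanSpace.inner_eq_star_dotProduct]
    change (g *ᵥ u.ofLp) ⬝ᵥ (g *ᵥ u.ofLp) = u.ofLp ⬝ᵥ u.ofLp
    rw [Matrix.dotProduct_mulVec, ← Matrix.vecMul_transpose, Matrix.vecMul_vecMul, hg,
      Matrix.vecMul_one]
  exact (sq_eq_sq₀ (norm_nonneg _) (norm_nonneg _)).1 h

theorem OG_left {n : ℕ} {g : Matrix (Fin n) (Fin n) ℝ} (hg : g ∈ OG n) : gᵀ * g = 1 :=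
  (Matrix.mem_orthogonalGroup_iff' (Fin n) ℝ).1 hg

theorem OG_right {n : ℕ} {g : Matrix (Fin n) (Fin n) ℝ} (hg : g ∈ OG n) : g * gᵀ = 1 :=
  (Matrix.mem_orthogonalGroup_iff (Fin n) ℝ).1 hg

theorem Sp_cong {n : ℕ} {r : ℝ} (g : Matrix (Fin n) (Fin n) ℝ) (hg : gᵀ * g = 1) {X : Sy n}
    (h : Sp r X) : Sp r (cong g X) := by
  intro u v hu hv
  rw [q_cong, q_cong]
  exact h _ _ (by rw [gv_norm g hg, hu]) (by rw [gv_norm g hg, hv])

end SPBx

open SPBx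

theorem SPB : S_SPB := by
  intro n r
  refine ⟨?_, ?_, ?_⟩
  · have h : {X : Sy n | Sp r X} = ⋂ (u : V n) (v : V n) (_ : ‖u‖ = 1) (_ : ‖v‖ = 1),
        {X : Sy n | ⟪u, sv X u⟫_ℝ - ⟪v, sv X v⟫_ℝ ≤ 2 * r} := by
      ext X
      simp only [Sp, Set.mem_ofPred_eq, Set.mem_iInter]
    rw [h]
    refine isClosed_iInter fun u => isClosed_iInter fun v => isClosed_iInter fun _ =>
      isClosed_iInter fun _ => ?_
    exact isClosed_le ((q_cont u).sub (q_cont v)) continuous_const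
  · intro X Y t h0 h1 hX hY u v hu hv
    rw [q_comb, q_comb]
    have h2 := hX u v hu hv
    have h3 := hY u v hu hv
    nlinarith
  · intro g hg X
    refine ⟨fun h => ?_, Sp_cong g (OG_left hg)⟩
    have h1 := Sp_cong gᵀ (by rw [Matrix.transpose_transpose]; exact OG_right hg) h
    have h2 : cong gᵀ (cong g X) = X := by
      apply sM_inj
      rw [sM_cong, sM_cong, Matrix.transpose_transpose]
      have h3 : g * (gᵀ * sM X * g) * gᵀ = (g * gᵀ) * sM X * (g * gᵀ) := by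
        simp only [Matrix.mul_assoc]
      rw [h3, OG_right hg, Matrix.one_mul, Matrix.mul_one]
    rw [h2] at h1
    exact h1

end Pool.Agent.H787R2.KC
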