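import Pool.Agent.H787R2.KC.St
import Pool.Agent.H212R2.KLS.L3

/-!
# SPC: bound of the norm by the spread and the trace
-/

set_option autoImplicit false

namespace Pool.Agent.H787R2.KC

open MeasureTheory Set Matrix Pool.Agent.H212R2.KLS
open scoped ENNReal InnerProductSpace

namespace SPCx

theorem td_apply {n : ℕ} (i j : Fin n) :
    ((td n : Sy n) : E n n) (i, j) = (1 / Real.sqrt n) * (if i = j then 1 else 0) := by
  change ((1 / Real.sqrt n) • (1 : Matrix (Fin n) (Fin n) ℝ)) i j = _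
  rw [Matrix.smul_apply, Matrix.one_apply, smul_eq_mul]

theorem norm_td {n : ℕ} (hn : 1 ≤ n) : ‖td n‖ ^ 2 = 1 := by
  have h0 : ‖td n‖ = ‖((td n : Sy n) : E n n)‖ := rfl
  have hn' : (0 : ℝ) < n := by exact_mod_cast hn
  rw [h0, EuclideanSpace.real_norm_sq_eq, Fintype.sum_prod_type]
  simp only [td_apply]
  have h1 : ∀ i : Fin n, ∑ j : Fin n,
      ((1 / Real.sqrt (n : ℝ)) * (if i = j then (1 : ℝ) else 0)) ^ 2 = 1 / (n : ℝ) := by
    intro i
    rw [Finset.sum_eq_single i]
    · rw [if_pos rfl, mul_one, div_pow, Real.sq_sqrt hn'.le, one_pow]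
    · intro j _ hj
      rw [if_neg hj.symm]
      norm_num
    · intro h
      exact absurd (Finset.mem_univ i) h
  simp only [h1, Finset.sum_const, Finset.card_univ, Fintype.card_fin, nsmul_eq_mul]
  field_simp

end SPCx

open SPCx in
theorem SPC (h : S_SPA) : S_SPC := by
  intro n hn r X hX
  obtain ⟨c, hc⟩ := h n r X hX
  have hn' : (0 : ℝ) < n := by exact_mod_cast hn
  have hsq : 0 < Real.sqrt n := Real.sqrt_pos.2 hn'
  have hr : 0 ≤ r := by
    have h1 := hc (EuclideanSpace.single ⟨0, hn⟩ 1)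
    have h2 : ‖(EuclideanSpace.single (⟨0, hn⟩ : Fin n) (1 : ℝ) : V n)‖ = 1 := by simp
    rw [h2, mul_one] at h1
    exact (norm_nonneg _).trans h1
  set a : ℝ := c * Real.sqrt n with ha
  set Y : Sy n := X - a • td n with hY
  have hYn : ‖Y‖ ^ 2 ≤ n * r ^ 2 := by
    have h0 : ‖Y‖ = ‖((Y : Sy n) : E n n)‖ := rfl
    rw [h0, L3x.norm_sq_eq]
    calc ∑ j : Fin n, ‖mv (Y : E n n) (EuclideanSpace.single j 1)‖ ^ 2
        ≤ ∑ j : Fin n, r ^ 2 := by
          refine Finset.sum_le_sum fun j _ => ?_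
          have h1 : mv (Y : E n n) (EuclideanSpace.single j 1) =
              sv X (EuclideanSpace.single j 1) - c • (EuclideanSpace.single j 1 : V n) := by
            ext i
            have e1 : (mv (Y : E n n) (EuclideanSpace.single j 1)) i = (Y : E n n) (i, j) := by
              change (toM (Y : E n n) *ᵥ (EuclideanSpace.single j (1:ℝ)).ofLp) i = _
              simp [Matrix.mulVec, dotProduct]
            have e2 : (sv X (EuclideanSpace.single j 1)) i = (X : E n n) (i, j) := by
              change (toM (X : E n n) *ᵥ (EuclideanSpace.single j (1:ℝ)).ofLp) i = _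
              simp [Matrix.mulVec, dotProduct]
            have e3 : (Y : E n n) (i, j) = (X : E n n) (i, j) -
                a * ((td n : Sy n) : E n n) (i, j) := rfl
            rw [e1, e3, td_apply, PiLp.sub_apply, e2, PiLp.smul_apply, PiLp.single_apply,
              smul_eq_mul, ha]
            have e4 : c * Real.sqrt n * (1 / Real.sqrt n * (if i = j then (1:ℝ) else 0)) =
                c * (if i = j then (1:ℝ) else 0) := by
              field_simp
            rw [e4]
          rw [h1]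
          have h2 := hc (EuclideanSpace.single j 1)
          have h3 : ‖(EuclideanSpace.single j (1 : ℝ) : V n)‖ = 1 := by simp
          rw [h3, mul_one] at h2
          exact pow_le_pow_left₀ (norm_nonneg _) h2 2
      _ = n * r ^ 2 := by simp
  have hX2 : ‖X‖ ^ 2 = ‖Y‖ ^ 2 + 2 * a * ⟪td n, X⟫_ℝ - a ^ 2 := by
    have h1 : ‖Y‖ ^ 2 = ‖X‖ ^ 2 - 2 * ⟪X, a • td n⟫_ℝ + ‖a • td n‖ ^ 2 := by
      rw [hY]
      exact norm_sub_sq_real X (a • td n)
    have h2 : ⟪X, a • td n⟫_ℝ = a * ⟪td n, X⟫_ℝ := by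
      rw [real_inner_comm]
      exact real_inner_smul_left (td n) X a
    rw [norm_smul, mul_pow, norm_td hn, h2] at h1
    rw [h1, Real.norm_eq_abs, sq_abs]
    ring
  set b : ℝ := ⟪td n, X⟫_ℝ with hb
  have hX3 : ‖X‖ ^ 2 ≤ (Real.sqrt n * r + |b|) ^ 2 := by
    have h1 : (Real.sqrt n * r) ^ 2 = n * r ^ 2 := by
      rw [mul_pow, Real.sq_sqrt hn'.le]
    have h2 : 0 ≤ Real.sqrt n * r * |b| := by positivity
    have h3 : |b| ^ 2 = b ^ 2 := sq_abs b
    nlinarith [sq_nonneg (a - b)]
  exact le_of_sq_le_sq hX3 (by positivity)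

end Pool.Agent.H787R2.KC
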