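import Pool.Agent.H787R2.KC.St

set_option autoImplicit false

namespace Pool.Agent.H787R2.KC

open MeasureTheory Set Matrix Pool.Agent.H212R2.KLS
open scoped ENNReal InnerProductSpace

theorem SPDx.inner_dg {n : ℕ} (l : V n) (j : Fin n) :
    ⟪(EuclideanSpace.single j 1 : V n), sv (dg l) (EuclideanSpace.single j 1)⟫_ℝ = l j := by
  rw [EuclideanSpace.inner_single_left]
  simp only [map_one, one_mul]
  show (Matrix.diagonal l.ofLp *ᵥ (EuclideanSpace.single j (1 : ℝ)).ofLp) j = l.ofLp j
  rw [Matrix.mulVec_diagonal]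
  simp

theorem SPD : S_SPD := by
  intro n r l h i j
  have h1 := h (EuclideanSpace.single j 1) (EuclideanSpace.single i 1) (by simp) (by simp)
  rw [SPDx.inner_dg, SPDx.inner_dg] at h1
  exact h1

end Pool.Agent.H787R2.KC
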