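import Pool.Agent.H787R2.KC.St

/-!
# ST: tails of the spread from tails of the cubic test vectors
-/

set_option autoImplicit false

namespace Pool.Agent.H787R2.KC

open MeasureTheory Set Matrix Pool.Agent.H212R2.KLS
open scoped ENNReal InnerProductSpace

namespace STx

theorem sv_apply {n : ℕ} (X : Sy n) (v : V n) (i : Fin n) :
    (sv X v) i = ∑ j, (X : E n n) (i, j) * v j := rfl

theorem continuous_sv {n : ℕ} : Continuous fun p : Sy n × V n => sv p.1 p.2 := by
  have h : Continuous fun p : Sy n × V n =>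
      (fun i => ∑ j, (p.1 : E n n) (i, j) * p.2 j : Fin n → ℝ) := by
    fun_prop
  exact (PiLp.continuous_toLp 2 _).comp h

theorem continuous_Av {n : ℕ} : Continuous fun p : Sy n × V n => Av p.1 p.2 := by
  unfold Av
  have h := continuous_sv (n := n)
  have h1 : Continuous fun p : Sy n × V n => ⟪p.2, sv p.1 p.2⟫_ℝ :=
    Continuous.inner continuous_snd h
  have h2 : Continuous fun p : Sy n × V n => ‖p.2‖ ^ 2 := continuous_snd.norm.pow 2
  exact (h2.smul h).sub (h1.smul continuous_snd)

end STx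

open STx in
theorem ST (h : S_STL) : S_ST := by
  intro m hm ρ hρ h1 s hs hv t
  have hm0 : (2 : ℝ) ≤ m := by exact_mod_cast hm
  have hm1 : (0 : ℝ) < m := by linarith
  have hq : 0 < Real.sqrt (m * s) := Real.sqrt_pos.2 (mul_pos hm1 hs)
  rcases le_or_gt t 0 with ht | ht
  · calc mc ρ {X | ¬ Sp (40 * t * Real.sqrt (m * s)) X} ≤ mc ρ univ :=
          measure_mono (subset_univ _)
      _ = 1 := h1
      _ = ENNReal.ofReal 1 := by simp
      _ ≤ _ := by
        apply ENNReal.ofReal_le_ofReal
        apply Real.one_le_exp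
        apply mul_nonneg hm1.le
        linarith
  have : IsProbabilityMeasure (mc ρ) := ⟨h1⟩
  set rr := 40 * t * Real.sqrt (m * s) with hrr
  have hrr0 : 0 < rr := by positivity
  set S : Set (Sy (m + 1) × V (m + 1)) := {p | ‖p.2‖ ≤ 1 ∧ rr / 2 ≤ ‖Av p.1 p.2‖} with hS
  have hSc : IsClosed S := by
    apply IsClosed.inter
    · exact isClosed_le (continuous_norm.comp continuous_snd) continuous_const
    · exact isClosed_le continuous_const (continuous_norm.comp continuous_Av)
  have hSm : MeasurableSet S := hSc.measurableSet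
  set B : Set (V (m + 1)) := Metric.closedBall 0 1 with hB
  have hBm : MeasurableSet B := Metric.isClosed_closedBall.measurableSet
  have hB0 : volume B ≠ 0 := (Metric.measure_closedBall_pos volume _ one_pos).ne'
  have hBt : volume B ≠ ⊤ := measure_closedBall_lt_top.ne
  set c : ℝ≥0∞ := ENNReal.ofReal ((1 / 24 : ℝ) ^ (m + 1)) * volume B with hc
  -- every bad matrix has a large slice
  have hslice : ∀ X : Sy (m + 1), ¬ Sp rr X → c ≤ volume (Prod.mk X ⁻¹' S) := by
    intro X hX
    obtain ⟨v0, hv0, hv1⟩ := h (m + 1) (by omega) rr hrr0.le X hX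
    have hsub : Metric.closedBall ((23 / 24 : ℝ) • v0) (1 / 24) ⊆ Prod.mk X ⁻¹' S := by
      intro v hv'
      rw [Metric.mem_closedBall, dist_eq_norm] at hv'
      have hw : v = (23 / 24 : ℝ) • v0 + (v - (23 / 24 : ℝ) • v0) := by abel
      have hn1 : ‖v‖ ≤ 1 := by
        calc ‖v‖ = ‖(23 / 24 : ℝ) • v0 + (v - (23 / 24 : ℝ) • v0)‖ := by rw [← hw]
          _ ≤ ‖(23 / 24 : ℝ) • v0‖ + ‖v - (23 / 24 : ℝ) • v0‖ := norm_add_le _ _
          _ ≤ 23 / 24 * 1 + 1 / 24 := by
            rw [norm_smul, Real.norm_of_nonneg (by norm_num), hv0]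
            gcongr
          _ = 1 := by norm_num
      have hn2 : ‖v - v0‖ ≤ 1 / 12 := by
        have hw2 : v - v0 = (v - (23 / 24 : ℝ) • v0) + (-(1 / 24) : ℝ) • v0 := by
          have : v0 = (1 : ℝ) • v0 := (one_smul _ _).symm
          module
        calc ‖v - v0‖ = ‖(v - (23 / 24 : ℝ) • v0) + (-(1 / 24) : ℝ) • v0‖ := by rw [← hw2]
          _ ≤ ‖v - (23 / 24 : ℝ) • v0‖ + ‖(-(1 / 24) : ℝ) • v0‖ := norm_add_le _ _
          _ ≤ 1 / 24 + 1 / 24 * 1 := by
            rw [norm_smul, norm_neg, Real.norm_of_nonneg (by norm_num), hv0]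
            gcongr
          _ = 1 / 12 := by norm_num
      exact ⟨hn1, hv1 v hn1 hn2⟩
    calc c = volume (Metric.closedBall ((23 / 24 : ℝ) • v0) (1 / 24)) := by
          rw [hc, hB, Measure.addHaar_closedBall' _ _ (by norm_num : (0 : ℝ) ≤ 1 / 24)]
          simp
      _ ≤ _ := measure_mono hsub
  -- Markov
  have hmk : c * mc ρ {X | ¬ Sp rr X} ≤ ∫⁻ X, volume (Prod.mk X ⁻¹' S) ∂(mc ρ) := by
    calc c * mc ρ {X | ¬ Sp rr X} ≤ c * mc ρ {X | c ≤ volume (Prod.mk X ⁻¹' S)} := by
          exact mul_le_mul_right (measure_mono fun X hX => hslice X hX) c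
      _ ≤ _ := mul_meas_ge_le_lintegral (measurable_measure_prodMk_left hSm) c
  -- Tonelli
  set K : ℝ≥0∞ := ENNReal.ofReal (Real.exp (m * (5 / 2 - t))) with hK
  have hton : ∫⁻ X, volume (Prod.mk X ⁻¹' S) ∂(mc ρ) ≤ K * volume B := by
    rw [← Measure.prod_apply hSm, Measure.prod_apply_symm hSm]
    calc ∫⁻ v, mc ρ ((fun X => (X, v)) ⁻¹' S) ≤ ∫⁻ v, B.indicator (fun _ => K) v := by
          apply lintegral_mono
          intro v
          by_cases hvB : v ∈ B
          · rw [indicator_of_mem hvB]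
            have hv1 : ‖v‖ ≤ 1 := by simpa [hB] using hvB
            calc mc ρ ((fun X => (X, v)) ⁻¹' S) ≤ mc ρ {X | rr / 2 ≤ ‖Av X v‖} := by
                  apply measure_mono
                  intro X hX
                  exact hX.2
              _ ≤ _ := hv v hv1 (rr / 2)
              _ = K := by
                rw [hK]
                congr 3
                rw [hrr]
                field_simp
                ring
          · rw [indicator_of_notMem hvB]
            have : (fun X : Sy (m + 1) => (X, v)) ⁻¹' S = ∅ := by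
              ext X
              simp only [mem_preimage, mem_empty_iff_false, iff_false]
              intro hX
              apply hvB
              simpa [hB] using hX.1
            change mc ρ ((fun X : Sy (m + 1) => (X, v)) ⁻¹' S) ≤ 0
            rw [this]; simp
      _ = K * volume B := by
        rw [lintegral_indicator hBm, lintegral_const, Measure.restrict_apply MeasurableSet.univ,
          univ_inter]
  -- divide
  have hfin : ENNReal.ofReal ((1 / 24 : ℝ) ^ (m + 1)) * mc ρ {X | ¬ Sp rr X} ≤ K := by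
    have h9 : (ENNReal.ofReal ((1 / 24 : ℝ) ^ (m + 1)) * mc ρ {X | ¬ Sp rr X}) * volume B
        ≤ K * volume B := by
      calc (ENNReal.ofReal ((1 / 24 : ℝ) ^ (m + 1)) * mc ρ {X | ¬ Sp rr X}) * volume B
          = c * mc ρ {X | ¬ Sp rr X} := by rw [hc]; ring
        _ ≤ _ := hmk.trans hton
    exact (ENNReal.mul_le_mul_iff_left hB0 hBt).1 h9
  have h10 : mc ρ {X | ¬ Sp rr X} ≤ ENNReal.ofReal ((24 : ℝ) ^ (m + 1)) * K := by
    calc mc ρ {X | ¬ Sp rr X}
        = ENNReal.ofReal ((24 : ℝ) ^ (m + 1)) *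
          (ENNReal.ofReal ((1 / 24 : ℝ) ^ (m + 1)) * mc ρ {X | ¬ Sp rr X}) := by
          rw [← mul_assoc, ← ENNReal.ofReal_mul (by positivity), ← mul_pow]
          norm_num
      _ ≤ _ := by gcongr
  refine h10.trans ?_
  rw [hK, ← ENNReal.ofReal_mul (by positivity)]
  apply ENNReal.ofReal_le_ofReal
  have h11 : (24 : ℝ) ^ (m + 1) ≤ Real.exp (m * (11 / 2)) := by
    calc (24 : ℝ) ^ (m + 1) ≤ 32 ^ (m + 1) := by gcongr; norm_num
      _ = Real.exp (((m + 1 : ℕ) : ℝ) * (5 * Real.log 2)) := by
        have h2 : (32 : ℝ) = Real.exp (5 * Real.log 2) := by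
          rw [show (5 : ℝ) * Real.log 2 = Real.log 2 * (5 : ℕ) by push_cast; ring,
            Real.exp_mul, Real.exp_log (by norm_num), Real.rpow_natCast]
          norm_num
        rw [Real.exp_nat_mul, ← h2]
      _ ≤ _ := by
        apply Real.exp_le_exp.2
        have h3 := Real.log_two_lt_d9
        push_cast
        nlinarith
  calc (24 : ℝ) ^ (m + 1) * Real.exp (m * (5 / 2 - t))
      ≤ Real.exp (m * (11 / 2)) * Real.exp (m * (5 / 2 - t)) := by gcongr
    _ = Real.exp (m * (8 - t)) := by
      rw [← Real.exp_add]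
      congr 1
      ring

end Pool.Agent.H787R2.KC
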