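import Pool.Agent.H787R2.KC.St

/-!
STL: a cubic test vector (helper818)
-/

set_option autoImplicit false

namespace Pool.Agent.H787R2.KC

open MeasureTheory Set Matrix Pool.Agent.H212R2.KLS
open scoped ENNReal InnerProductSpace

namespace STLx

variable {F : Type} [NormedAddCommGroup F] [InnerProductSpace ℝ F]

theorem quad_le (Y : F →ₗ[ℝ] F) (r : ℝ) (hb : ∀ u, ‖u‖ = 1 → |⟪u, Y u⟫_ℝ| ≤ r) (v : F) :
    |⟪v, Y v⟫_ℝ| ≤ r * ‖v‖ ^ 2 := by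
  by_cases hv : v = 0
  · subst hv; simp
  · have hn : 0 < ‖v‖ := norm_pos_iff.mpr hv
    have h1 := hb (‖v‖⁻¹ • v) (by rw [norm_smul, norm_inv, norm_norm, inv_mul_cancel₀ hn.ne'])
    rw [map_smul, inner_smul_left, inner_smul_right] at h1
    simp only [conj_trivial] at h1
    have h2 : ⟪v, Y v⟫_ℝ = ‖v‖ ^ 2 * (‖v‖⁻¹ * (‖v‖⁻¹ * ⟪v, Y v⟫_ℝ)) := by
      field_simp
    rw [h2, abs_mul, abs_of_nonneg (by positivity : (0:ℝ) ≤ ‖v‖ ^ 2), mul_comm]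
    exact mul_le_mul_of_nonneg_right h1 (by positivity)

theorem norm_le (Y : F →ₗ[ℝ] F) (hY : ∀ u v, ⟪Y u, v⟫_ℝ = ⟪u, Y v⟫_ℝ) (r : ℝ)
    (hb : ∀ u, ‖u‖ = 1 → |⟪u, Y u⟫_ℝ| ≤ r) (v : F) : ‖Y v‖ ≤ r * ‖v‖ := by
  by_cases hv : v = 0
  · subst hv; simp
  by_cases hyv : Y v = 0
  · rw [hyv, norm_zero]
    have h1 := quad_le Y r hb v
    have h2 : 0 ≤ r * ‖v‖ ^ 2 := (abs_nonneg _).trans h1
    have hn : 0 < ‖v‖ := norm_pos_iff.mpr hv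
    have : 0 ≤ r := by
      by_contra hcon
      push Not at hcon
      have : r * ‖v‖ ^ 2 < 0 := mul_neg_of_neg_of_pos hcon (by positivity)
      linarith
    positivity
  have hn : 0 < ‖v‖ := norm_pos_iff.mpr hv
  have hm : 0 < ‖Y v‖ := norm_pos_iff.mpr hyv
  set u : F := (‖v‖ / ‖Y v‖) • Y v with hu
  have hun : ‖u‖ = ‖v‖ := by
    rw [hu, norm_smul, Real.norm_of_nonneg (by positivity)]
    field_simp
  have h1 := quad_le Y r hb (u + v)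
  have h2 := quad_le Y r hb (u - v)
  have e1 : ⟪u + v, Y (u + v)⟫_ℝ - ⟪u - v, Y (u - v)⟫_ℝ = 4 * ⟪u, Y v⟫_ℝ := by
    simp only [map_add, map_sub, inner_add_left, inner_add_right, inner_sub_left, inner_sub_right]
    have : ⟪v, Y u⟫_ℝ = ⟪u, Y v⟫_ℝ := by rw [← hY, real_inner_comm]
    rw [this]
    ring
  have e2 : ⟪u, Y v⟫_ℝ = ‖v‖ * ‖Y v‖ := by
    rw [hu, inner_smul_left, real_inner_self_eq_norm_sq]
    simp only [conj_trivial]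
    field_simp
  have e3 := parallelogram_law_with_norm ℝ u v
  have h3 := abs_le.mp h1
  have h4 := abs_le.mp h2
  have h5 : 4 * (‖v‖ * ‖Y v‖) ≤ r * (2 * (‖v‖ ^ 2 + ‖v‖ ^ 2)) := by
    rw [← e2, ← e1]
    have : r * (2 * (‖v‖ ^ 2 + ‖v‖ ^ 2)) = r * ‖u + v‖ ^ 2 + r * ‖u - v‖ ^ 2 := by
      rw [hun] at e3
      rw [← mul_add]
      congr 1
      nlinarith
    rw [this]
    linarith [h3.2, h4.1]
  have h6 : ‖v‖ * ‖Y v‖ ≤ ‖v‖ * (r * ‖v‖) := by nlinarith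
  exact le_of_mul_le_mul_left h6 hn

theorem eig (Y : F →ₗ[ℝ] F) (hY : ∀ u v, ⟪Y u, v⟫_ℝ = ⟪u, Y v⟫_ℝ) (r s : ℝ) (hs : |s| = r)
    (hb : ∀ u, ‖u‖ = 1 → |⟪u, Y u⟫_ℝ| ≤ r) (e : F) (he : ‖e‖ = 1) (hes : ⟪e, Y e⟫_ℝ = s) :
    Y e = s • e := by
  have h1 := norm_le Y hY r hb e
  rw [he, mul_one] at h1
  have h2 : ‖Y e - s • e‖ ^ 2 ≤ 0 := by
    rw [norm_sub_sq_real, inner_smul_right, real_inner_comm, hes, norm_smul, he, mul_one,
      Real.norm_eq_abs]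
    have h3 : ‖Y e‖ ^ 2 ≤ r ^ 2 := pow_le_pow_left₀ (norm_nonneg _) h1 2
    have h4 : s * s = r ^ 2 := by rw [← hs, sq_abs]; ring
    rw [hs]
    nlinarith
  have h3 : ‖Y e - s • e‖ = 0 := by
    have := norm_nonneg (Y e - s • e)
    nlinarith
  exact sub_eq_zero.mp (norm_eq_zero.mp h3)

theorem core (T : F →ₗ[ℝ] F) (hT : ∀ u v, ⟪T u, v⟫_ℝ = ⟪u, T v⟫_ℝ) (e f : F) (he : ‖e‖ = 1)
    (hf : ‖f‖ = 1) (M m : ℝ) (hM : ⟪e, T e⟫_ℝ = M) (hm : ⟪f, T f⟫_ℝ = m)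
    (hb : ∀ u, ‖u‖ = 1 → m ≤ ⟪u, T u⟫_ℝ ∧ ⟪u, T u⟫_ℝ ≤ M) (R : ℝ) (hR : 0 ≤ R)
    (h : 2 * R < M - m) : ∃ v0 : F, ‖v0‖ = 1 ∧ ∀ v : F, ‖v‖ ≤ 1 → ‖v - v0‖ ≤ 1 / 12 →
      R / 2 ≤ ‖(‖v‖ ^ 2) • T v - ⟪v, T v⟫_ℝ • v‖ := by
  set r : ℝ := (M - m) / 2 with hr
  set c : ℝ := (M + m) / 2 with hc
  have hr0 : 0 < r := by rw [hr]; linarith
  let Y : F →ₗ[ℝ] F := T - c • LinearMap.id
  have hYa : ∀ v, Y v = T v - c • v := fun v => rfl
  have hY : ∀ u v, ⟪Y u, v⟫_ℝ = ⟪u, Y v⟫_ℝ := by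
    intro u v
    rw [hYa, hYa, inner_sub_left, inner_sub_right, inner_smul_left, inner_smul_right, hT]
    simp
  have hq : ∀ u, ‖u‖ = 1 → ⟪u, Y u⟫_ℝ = ⟪u, T u⟫_ℝ - c := by
    intro u hu
    rw [hYa, inner_sub_right, inner_smul_right, real_inner_self_eq_norm_sq, hu]
    ring
  have hYb : ∀ u, ‖u‖ = 1 → |⟪u, Y u⟫_ℝ| ≤ r := by
    intro u hu
    rw [hq u hu, abs_le]
    have := hb u hu
    constructor
    · rw [hr, hc]; linarith [this.1]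
    · rw [hr, hc]; linarith [this.2]
  have hYe : Y e = r • e := eig Y hY r r (abs_of_pos hr0) hYb e he (by
    rw [hq e he, hM, hr, hc]; ring)
  have hYf : Y f = (-r) • f := eig Y hY r (-r) (by rw [abs_neg, abs_of_pos hr0]) hYb f hf (by
    rw [hq f hf, hm, hr, hc]; ring)
  have horth : ⟪e, f⟫_ℝ = 0 := by
    have h1 := hY e f
    rw [hYe, hYf, inner_smul_left, inner_smul_right] at h1
    simp only [conj_trivial] at h1
    have h2 : 2 * r * ⟪e, f⟫_ℝ = 0 := by linarith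
    rcases mul_eq_zero.mp h2 with h3 | h3
    · linarith
    · exact h3
  have hs2 : (0 : ℝ) < Real.sqrt 2 := by positivity
  have hsq : Real.sqrt 2 * Real.sqrt 2 = 2 := Real.mul_self_sqrt (by norm_num)
  set a : ℝ := (Real.sqrt 2)⁻¹ with ha
  have haa : a * a = 1 / 2 := by
    rw [ha, ← mul_inv, hsq]; norm_num
  have ha0 : 0 < a := by rw [ha]; positivity
  set v0 : F := a • (e + f) with hv0
  have hee : ⟪e, e⟫_ℝ = 1 := by rw [real_inner_self_eq_norm_sq, he]; norm_num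
  have hff : ⟪f, f⟫_ℝ = 1 := by rw [real_inner_self_eq_norm_sq, hf]; norm_num
  have hfe : ⟪f, e⟫_ℝ = 0 := by rw [real_inner_comm, horth]
  have hv0n : ‖v0‖ = 1 := by
    have h1 : ‖v0‖ ^ 2 = 1 := by
      rw [← real_inner_self_eq_norm_sq, hv0, inner_smul_left, inner_smul_right, inner_add_left,
        inner_add_right, inner_add_right, hee, hff, horth, hfe]
      simp only [conj_trivial]
      nlinarith
    have h2 := norm_nonneg v0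
    nlinarith
  have hYv0 : Y v0 = (a * r) • (e - f) := by
    rw [hv0, map_smul, map_add, hYe, hYf, mul_smul, neg_smul, smul_sub, sub_eq_add_neg]
  have hYv0n : ‖Y v0‖ = r := by
    have h1 : ‖Y v0‖ ^ 2 = r ^ 2 := by
      rw [← real_inner_self_eq_norm_sq, hYv0, inner_smul_left, inner_smul_right, inner_sub_left,
        inner_sub_right, inner_sub_right, hee, hff, horth, hfe]
      simp only [conj_trivial]
      nlinarith
    have h2 := norm_nonneg (Y v0)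
    nlinarith
  have hv0Y : ⟪v0, Y v0⟫_ℝ = 0 := by
    rw [hYv0, hv0, inner_smul_left, inner_smul_right, inner_add_left, inner_sub_right,
      inner_sub_right, hee, hff, horth, hfe]
    simp
  refine ⟨v0, hv0n, ?_⟩
  intro v hv hδ
  have hAv : (‖v‖ ^ 2) • T v - ⟪v, T v⟫_ℝ • v = (‖v‖ ^ 2) • Y v - ⟪v, Y v⟫_ℝ • v := by
    rw [hYa, inner_sub_right, inner_smul_right, real_inner_self_eq_norm_sq, smul_sub, smul_smul,
      sub_smul, mul_comm c]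
    abel
  rw [hAv]
  set δ := ‖v - v0‖ with hδd
  have hδ0 : 0 ≤ δ := norm_nonneg _
  have hYv : ‖Y v‖ ≤ r := by
    have := norm_le Y hY r hYb v
    nlinarith
  have hYd : ‖Y (v - v0)‖ ≤ r * δ := norm_le Y hY r hYb _
  have hnv : 1 - ‖v‖ ≤ δ := by
    have h1 := norm_sub_norm_le v0 v
    rw [hv0n, norm_sub_rev] at h1
    exact h1
  have h1 : ‖(‖v‖ ^ 2) • Y v - Y v0‖ ≤ 3 * δ * r := by
    have e1 : (‖v‖ ^ 2) • Y v - Y v0 = (‖v‖ ^ 2 - 1) • Y v + Y (v - v0) := by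
      rw [map_sub, sub_smul, one_smul]; abel
    rw [e1]
    refine (norm_add_le _ _).trans ?_
    rw [norm_smul, Real.norm_eq_abs]
    have h2 : |‖v‖ ^ 2 - 1| ≤ 2 * δ := by
      rw [abs_le]
      have := norm_nonneg v
      constructor <;> nlinarith
    have h3 : |‖v‖ ^ 2 - 1| * ‖Y v‖ ≤ 2 * δ * r :=
      mul_le_mul h2 hYv (norm_nonneg _) (by positivity)
    linarith
  have h2 : ‖⟪v, Y v⟫_ℝ • v‖ ≤ 2 * δ * r := by
    rw [norm_smul, Real.norm_eq_abs]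
    have e1 : ⟪v, Y v⟫_ℝ = ⟪v - v0, Y v⟫_ℝ + ⟪v0, Y (v - v0)⟫_ℝ := by
      rw [inner_sub_left, map_sub, inner_sub_right, hv0Y]; ring
    have h3 : |⟪v - v0, Y v⟫_ℝ| ≤ δ * r :=
      (abs_real_inner_le_norm _ _).trans (mul_le_mul_of_nonneg_left hYv hδ0)
    have h4 : |⟪v0, Y (v - v0)⟫_ℝ| ≤ r * δ := by
      refine (abs_real_inner_le_norm _ _).trans ?_
      rw [hv0n, one_mul]
      exact hYd
    have h5 : |⟪v, Y v⟫_ℝ| ≤ 2 * δ * r := by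
      rw [e1]
      refine (abs_add_le _ _).trans ?_
      linarith
    calc |⟪v, Y v⟫_ℝ| * ‖v‖ ≤ (2 * δ * r) * 1 :=
          mul_le_mul h5 hv (norm_nonneg _) (by positivity)
      _ = 2 * δ * r := mul_one _
  have h3 : ‖Y v0‖ ≤ ‖(‖v‖ ^ 2) • Y v - ⟪v, Y v⟫_ℝ • v‖ + (3 * δ * r + 2 * δ * r) := by
    have e1 : Y v0 = ((‖v‖ ^ 2) • Y v - ⟪v, Y v⟫_ℝ • v) -
        ((‖v‖ ^ 2) • Y v - Y v0) + ⟪v, Y v⟫_ℝ • v := by abel
    calc ‖Y v0‖ = ‖((‖v‖ ^ 2) • Y v - ⟪v, Y v⟫_ℝ • v) -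
        ((‖v‖ ^ 2) • Y v - Y v0) + ⟪v, Y v⟫_ℝ • v‖ := by rw [← e1]
      _ ≤ ‖((‖v‖ ^ 2) • Y v - ⟪v, Y v⟫_ℝ • v) - ((‖v‖ ^ 2) • Y v - Y v0)‖ +
          ‖⟪v, Y v⟫_ℝ • v‖ := norm_add_le _ _
      _ ≤ (‖(‖v‖ ^ 2) • Y v - ⟪v, Y v⟫_ℝ • v‖ + ‖(‖v‖ ^ 2) • Y v - Y v0‖) +
          ‖⟪v, Y v⟫_ℝ • v‖ := by gcongr; exact norm_sub_le _ _
      _ ≤ _ := by linarith
  rw [hYv0n] at h3
  have h4 : 5 * δ * r ≤ 5 / 12 * r := by nlinarith
  have h5 : R ≤ r := by rw [hr]; linarith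
  linarith

/-- the linear map of a symmetric matrix -/
def Tm {n : ℕ} (X : Sy n) : V n →ₗ[ℝ] V n where
  toFun v := sv X v
  map_add' u v := by
    unfold sv mv
    rw [WithLp.ofLp_add, Matrix.mulVec_add, WithLp.toLp_add]
  map_smul' c v := by
    unfold sv mv
    rw [WithLp.ofLp_smul, Matrix.mulVec_smul, WithLp.toLp_smul]
    rfl

theorem Tm_symm {n : ℕ} (X : Sy n) (u v : V n) : ⟪Tm X u, v⟫_ℝ = ⟪u, Tm X v⟫_ℝ := by
  change ⟪sv X u, v⟫_ℝ = ⟪u, sv X v⟫_ℝ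
  unfold sv mv
  simp only [PiLp.inner_apply, Matrix.mulVec, dotProduct, toM_apply, RCLike.inner_apply,
    conj_trivial]
  simp only [Finset.mul_sum, Finset.sum_mul]
  rw [Finset.sum_comm]
  refine Finset.sum_congr rfl fun i _ => Finset.sum_congr rfl fun j _ => ?_
  have h : (X : E n n) (j, i) = (X : E n n) (i, j) := X.2 j i
  rw [h]
  ring

end STLx

open STLx in
theorem STL : S_STL := by
  intro n hn R hR X hX
  haveI : Nonempty (Fin n) := ⟨⟨0, hn⟩⟩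
  have hcont : Continuous fun u : V n => ⟪u, Tm X u⟫_ℝ :=
    continuous_id.inner (LinearMap.continuous_of_finiteDimensional (Tm X))
  have hcomp : IsCompact (Metric.sphere (0 : V n) 1) := isCompact_sphere 0 1
  have hne : (Metric.sphere (0 : V n) 1).Nonempty := by
    refine ⟨EuclideanSpace.single ⟨0, hn⟩ 1, ?_⟩
    rw [mem_sphere_zero_iff_norm]
    simp
  obtain ⟨e, he, hmax⟩ := hcomp.exists_isMaxOn hne hcont.continuousOn
  obtain ⟨f, hf, hmin⟩ := hcomp.exists_isMinOn hne hcont.continuousOn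
  rw [mem_sphere_zero_iff_norm] at he hf
  have h1 : ∀ u : V n, ‖u‖ = 1 → ⟪f, Tm X f⟫_ℝ ≤ ⟪u, Tm X u⟫_ℝ ∧
      ⟪u, Tm X u⟫_ℝ ≤ ⟪e, Tm X e⟫_ℝ := by
    intro u hu
    have hu' : u ∈ Metric.sphere (0 : V n) 1 := by rwa [mem_sphere_zero_iff_norm]
    exact ⟨hmin hu', hmax hu'⟩
  have h2 : 2 * R < ⟪e, Tm X e⟫_ℝ - ⟪f, Tm X f⟫_ℝ := by
    unfold Sp at hX
    push Not at hX
    obtain ⟨u, v, hu, hv, h3⟩ := hX
    have h4 := (h1 u hu).2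
    have h5 := (h1 v hv).1
    have h6 : ⟪u, sv X u⟫_ℝ = ⟪u, Tm X u⟫_ℝ := rfl
    have h7 : ⟪v, sv X v⟫_ℝ = ⟪v, Tm X v⟫_ℝ := rfl
    rw [h6, h7] at h3
    linarith
  exact core (Tm X) (Tm_symm X) e f he hf _ _ rfl rfl h1 R hR h2

end Pool.Agent.H787R2.KC
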