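import Pool.Agent.H787R2.KC.Defs

/-!
# KLS for conjugation-invariant log-concave measures on symmetric matrices: all statements
-/

set_option autoImplicit false

namespace Pool.Agent.H787R2.KC

open MeasureTheory Set Matrix Pool.Agent.H212R2.KLS
open scoped ENNReal InnerProductSpace

/-! ## SP: the spread -/

/-- SPA -/
def S_SPA : Prop := ∀ (n : ℕ) (r : ℝ) (X : Sy n), Sp r X →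
  ∃ c : ℝ, ∀ v : V n, ‖sv X v - c • v‖ ≤ r * ‖v‖

/-- SPB -/
def S_SPB : Prop := ∀ (n : ℕ) (r : ℝ), IsClosed {X : Sy n | Sp r X} ∧
  (∀ X Y : Sy n, ∀ t : ℝ, 0 < t → t < 1 → Sp r X → Sp r Y → Sp r ((1 - t) • X + t • Y)) ∧
  (∀ g ∈ OG n, ∀ X : Sy n, Sp r (cong g X) ↔ Sp r X)

/-- SPC -/
def S_SPC : Prop := ∀ (n : ℕ), 1 ≤ n → ∀ (r : ℝ) (X : Sy n), Sp r X →
  ‖X‖ ≤ Real.sqrt n * r + |⟪td n, X⟫_ℝ|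

/-- SPD -/
def S_SPD : Prop := ∀ (n : ℕ) (r : ℝ) (l : V n), Sp r (dg l) → ∀ i j : Fin n, l j - l i ≤ 2 * r

/-! ## A: angular part -/

/-- CA1 -/
def S_CA1 : Prop := ∀ (n : ℕ) (a b c d : Fin n) (p : MvPolynomial (Fin n × Fin n) ℝ),
  (cD b a p = - cD a b p) ∧
  (cD a b (cD c d p) - cD c d (cD a b p) =
      (if a = d then cD c b p else 0) + (if b = d then cD a c p else 0) +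
      (if a = c then cD b d p else 0) + (if b = c then cD d a p else 0))

/-- CA1b -/
def S_CA1b : Prop := ∀ (n : ℕ) (a b : Fin n) (p q : MvPolynomial (Fin n × Fin n) ℝ),
  (cD a b p).totalDegree ≤ p.totalDegree ∧
  cD a b (gr p q) = gr (cD a b p) q + gr p (cD a b q) ∧
  sy (cD a b p) = cD a b (sy p) ∧ sy (sy p) = sy p ∧
  (∀ x : Sy n, evs (sy p) x = evs p x)

/-- CA2 -/
def S_CA2 : Prop := ∀ (n : ℕ) (μ : Measure (Sy n)) [IsFiniteMeasure μ],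
  (∀ g ∈ OG n, μ.map (cong g) = μ) → (∃ R, μ (Metric.closedBall 0 R)ᶜ = 0) →
  ∀ (a b : Fin n) (p : MvPolynomial (Fin n × Fin n) ℝ), ∫ x, evs (cD a b p) x ∂μ = 0

/-- CA5 -/
def S_CA5 : Prop := ∀ (n : ℕ) (ρ : Sy n → ℝ), CDens n ρ → Bdd ρ → IsFiniteMeasure (mc ρ) →
  mc ρ ≠ 0 → ∀ p : MvPolynomial (Fin n × Fin n) ℝ, sy p = p →
  ∫ x, (evs p x) ^ 2 ∂(mc ρ) = 0 → p = 0

/-- CA6 -/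
def S_CA6 : Prop := ∀ (n : ℕ), 3 ≤ n → ∀ (μ : Measure (Sy n)) [IsFiniteMeasure μ],
  (∀ g ∈ OG n, μ.map (cong g) = μ) → (∃ R, μ (Metric.closedBall 0 R)ᶜ = 0) →
  (∀ p : MvPolynomial (Fin n × Fin n) ℝ, sy p = p → ∫ x, (evs p x) ^ 2 ∂μ = 0 → p = 0) →
  ∀ p : MvPolynomial (Fin n × Fin n) ℝ, sy p = p →
  ∃ p0 : MvPolynomial (Fin n × Fin n) ℝ, sy p0 = p0 ∧ (∀ a b, cD a b p0 = 0) ∧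
    ∫ x, (evs p x - evs p0 x) ∂μ = 0 ∧ ∫ x, evs p0 x * (evs p x - evs p0 x) ∂μ = 0 ∧
    ((n : ℝ) - 2) * ∫ x, (evs p x - evs p0 x) ^ 2 ∂μ ≤
      ∑ a, ∑ b, ∫ x, (evs (cD a b p) x) ^ 2 ∂μ ∧
    ∫ x, evs (gr p0 p0) x ∂μ ≤ ∫ x, evs (gr p p) x ∂μ

/-- CA7 -/
def S_CA7 : Prop := ∀ (n : ℕ) (p : MvPolynomial (Fin n × Fin n) ℝ), (∀ a b, cD a b p = 0) →
  ∀ g ∈ OG n, ∀ x : Sy n, evs p (cong g x) = evs p x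

/-- CA8 -/
def S_CA8 : Prop := ∀ (n : ℕ) (p : MvPolynomial (Fin n × Fin n) ℝ), sy p = p → ∀ x : Sy n,
  ContDiff ℝ 1 (evs p) ∧ evs (gr p p) x = ‖fderiv ℝ (evs p) x‖ ^ 2 ∧
  ∀ r : ℝ, 0 ≤ r → Sp r x → ∑ a, ∑ b, (evs (cD a b p) x) ^ 2 ≤ 16 * r ^ 2 * evs (gr p p) x

/-- CL1: polynomial approximation -/
def S_CL1 : Prop := ∀ (n : ℕ) (f : Sy n → ℝ), ContDiff ℝ 1 f → ∀ R ε : ℝ, 0 < ε →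
  ∃ p : MvPolynomial (Fin n × Fin n) ℝ, sy p = p ∧ ∀ x : Sy n, ‖x‖ ≤ R →
    |evs p x - f x| ≤ ε ∧ ‖fderiv ℝ (evs p) x - fderiv ℝ f x‖ ≤ ε

/-! ## B: basic facts on densities -/

/-- CB -/
def S_CB : Prop := ∀ (n : ℕ) (ρ : Sy n → ℝ), CDens n ρ →
  (∀ g ∈ OG n, (mc ρ).map (cong g) = mc ρ) ∧
  ((∃ B, ∀ x, ρ x ≤ B) → Bdd ρ → IsFiniteMeasure (mc ρ)) ∧
  (∀ c : ℝ, 0 ≤ c → CDens n (fun x => c * ρ x)) ∧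
  (∀ B : ℝ, 0 ≤ B → CDens n (fun x => min (ρ x) B)) ∧
  (∀ r : ℝ, CDens n ({x | ‖x‖ ≤ r}.indicator ρ))

/-- CB2 (uses SPB) -/
def S_CB2 : Prop := ∀ (n : ℕ) (ρ : Sy n → ℝ), CDens n ρ → ∀ r : ℝ,
  CDens n ({x | Sp r x}.indicator ρ) ∧
  mc ({x | Sp r x}.indicator ρ) = (mc ρ).restrict {x | Sp r x}

/-! ## T: tails -/

/-- YT0 -/
def S_YT0 : Prop := ∀ (m : ℕ), 1 ≤ m → ∀ ρ : Sy (m + 1) → ℝ, CDens (m + 1) ρ → Bdd ρ →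
  mc ρ univ = 1 → ∀ s : ℝ, 0 < s → (∀ θ : Sy (m + 1), ∫ x, ⟪θ, x⟫_ℝ ^ 2 ∂(mc ρ) ≤ s * ‖θ‖ ^ 2) →
  ∀ r : ℝ, mc ρ {X | r ≤ ‖yv X‖} ≤
    ENNReal.ofReal (Real.exp (m * (5 / 2 - r / (20 * Real.sqrt (m * s)))))

/-- YT -/
def S_YT : Prop := ∀ (m : ℕ), 1 ≤ m → ∀ ρ : Sy (m + 1) → ℝ, CDens (m + 1) ρ → Bdd ρ →
  mc ρ univ = 1 → ∀ s : ℝ, 0 < s → (∀ θ : Sy (m + 1), ∫ x, ⟪θ, x⟫_ℝ ^ 2 ∂(mc ρ) ≤ s * ‖θ‖ ^ 2) →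
  ∀ v : V (m + 1), ‖v‖ ≤ 1 → ∀ r : ℝ, mc ρ {X | r ≤ ‖Av X v‖} ≤
    ENNReal.ofReal (Real.exp (m * (5 / 2 - r / (20 * Real.sqrt (m * s)))))

/-- STL: linear algebra -/
def S_STL : Prop := ∀ (n : ℕ), 1 ≤ n → ∀ R : ℝ, 0 ≤ R → ∀ X : Sy n, ¬ Sp R X →
  ∃ v0 : V n, ‖v0‖ = 1 ∧ ∀ v : V n, ‖v‖ ≤ 1 → ‖v - v0‖ ≤ 1 / 12 → R / 2 ≤ ‖Av X v‖

/-- ST -/
def S_ST : Prop := ∀ (m : ℕ), 2 ≤ m → ∀ ρ : Sy (m + 1) → ℝ, Measurable ρ →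
  mc ρ univ = 1 → ∀ s : ℝ, 0 < s →
  (∀ v : V (m + 1), ‖v‖ ≤ 1 → ∀ r : ℝ, mc ρ {X | r ≤ ‖Av X v‖} ≤
    ENNReal.ofReal (Real.exp (m * (5 / 2 - r / (20 * Real.sqrt (m * s)))))) →
  ∀ t : ℝ, mc ρ {X | ¬ Sp (40 * t * Real.sqrt (m * s)) X} ≤
    ENNReal.ofReal (Real.exp (m * (8 - t)))

/-- TT: Borell's lemma for one linear functional -/
def S_TT : Prop := ∀ (F : Type) [NormedAddCommGroup F] [InnerProductSpace ℝ F]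
  [FiniteDimensional ℝ F] [MeasurableSpace F] [BorelSpace F] (ν : Measure F)
  [ν.IsAddHaarMeasure] (ρ : F → ℝ), (∀ x, 0 ≤ ρ x) → Measurable ρ →
  (∀ x y : F, ∀ t : ℝ, 0 < t → t < 1 → ρ x ^ (1 - t) * ρ y ^ t ≤ ρ ((1 - t) • x + t • y)) →
  ∀ μ : Measure F, (μ = ν.withDensity fun x => ENNReal.ofReal (ρ x)) → μ univ = 1 →
  ∀ (θ : F) (s : ℝ), 0 < s → ∫⁻ x, ENNReal.ofReal (⟪θ, x⟫_ℝ ^ 2) ∂μ ≤ ENNReal.ofReal s →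
  ∀ u : ℝ, 1 ≤ u → μ {x | 4 * u * Real.sqrt s < |⟪θ, x⟫_ℝ|} ≤ ENNReal.ofReal (Real.exp (-u))

/-- BT: tail of the norm -/
def S_BT : Prop := ∀ (m : ℕ), 2 ≤ m → ∀ ρ : Sy (m + 1) → ℝ, ∀ s : ℝ, 0 < s →
  (∀ t : ℝ, mc ρ {X | ¬ Sp (40 * t * Real.sqrt (m * s)) X} ≤
    ENNReal.ofReal (Real.exp (m * (8 - t)))) →
  (∀ u : ℝ, 1 ≤ u → mc ρ {x | 4 * u * Real.sqrt s < |⟪td (m + 1), x⟫_ℝ|} ≤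
    ENNReal.ofReal (Real.exp (-u))) →
  ∀ r : ℝ, 2 * (400 * Real.sqrt s) * (2 * (m + 1)) ≤ r →
  mc ρ (Metric.closedBall 0 r)ᶜ ≤ ENNReal.ofReal (Real.exp (-(r / (400 * Real.sqrt s))))

/-! ## W: the Weyl integration formula -/

/-- W1 -/
def S_W1 : Prop := ∀ (n : ℕ) (A : Sk n), IsUnit (1 + kM A).det ∧ cay A ∈ OG n ∧
  (1 + cay A) * (1 + kM A) = (2 : ℝ) • (1 : Matrix (Fin n) (Fin n) ℝ) ∧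
  ∀ B : Sk n, cay A = cay B → A = B

/-- W2 -/
def S_W2 : Prop := ∀ (n : ℕ) (g : Matrix (Fin n) (Fin n) ℝ), ∃ ε : Fin n → ℝ,
  (∀ i, ε i = 1 ∨ ε i = -1) ∧ (1 + g * Matrix.diagonal ε).det ≠ 0

/-- W3 -/
def S_W3 : Prop := ∀ (n : ℕ) (X : Sy n), ∃ (A : Sk n) (l : V n), Monotone l.ofLp ∧ Ph (A, l) = X

/-- W4a -/
def S_W4a : Prop := ∀ (n : ℕ) (p : Sk n × V n), ∃ T : (Sk n × V n) →L[ℝ] Sy n,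
  HasFDerivAt Ph T p ∧ ∀ q : Sk n × V n, T q = cong (cay p.1)ᵀ (Lb p.2 (kc p.1 q.1, q.2))

/-- W4b -/
def S_W4b : Prop := ∀ (n : ℕ) (l : V n),
  LinearMap.det ((io2 n).toLinearMap ∘ₗ Lb l) = vd l

/-- W4c -/
def S_W4c : Prop := ∀ (n : ℕ), Measurable (fun A : Sk n => LinearMap.det (kc A)) ∧
  ∀ A : Sk n, LinearMap.det (kc A) ≠ 0

/-- W4 -/
def S_W4 : Prop := ∀ (n : ℕ) (p : Sk n × V n), ∃ T : (Sk n × V n) →L[ℝ] (Sk n × V n),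
  HasFDerivAt (fun q => io2 n (Ph q)) T p ∧ |T.det| = |LinearMap.det (kc p.1)| * |vd p.2|

/-- W5 -/
def S_W5 : Prop := ∀ (n : ℕ), nu n {X | ∀ (A : Sk n) (l : V n), l ∈ Ch n → Ph (A, l) ≠ X} = 0

/-- W6a -/
def S_W6a : Prop := ∀ (n : ℕ), ∀ Q ∈ OG n, ∀ R ∈ OG n, ∀ l ∈ Ch n, ∀ k ∈ Ch n,
  cong Qᵀ (dg l) = cong Rᵀ (dg k) → l = k ∧ ∃ ε : Fin n → ℝ, (∀ i, ε i = 1 ∨ ε i = -1) ∧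
    Q = R * Matrix.diagonal ε

/-- W6b -/
def S_W6b : Prop := ∀ (n : ℕ), InjOn (Ph (n := n)) (Kb n ×ˢ Ch n)

/-- W7 -/
def S_W7 : Prop := ∀ (n : ℕ), MeasurableSet (Om n) ∧ ∃ c : ℝ≥0∞, c ≠ 0 ∧
  ∀ F : Sy n → ℝ≥0∞, Measurable F → (∀ g ∈ OG n, ∀ x, F (cong g x) = F x) →
  ∫⁻ X in Om n, F X ∂(nu n) = c * ∫⁻ l in Ch n, F (dg l) * ENNReal.ofReal (vd l)

/-- W8 -/
def S_W8 : Prop := ∀ (n : ℕ), MeasurableSet (Om n) → ∃ p : ℝ≥0∞, p ≤ 1 ∧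
  ∀ F : Sy n → ℝ≥0∞, Measurable F → (∀ g ∈ OG n, ∀ x, F (cong g x) = F x) →
  ∫⁻ X in Om n, F X ∂(nu n) = p * ∫⁻ X, F X ∂(nu n)

/-- WEYL -/
def S_WEYL : Prop := ∀ (n : ℕ), ∃ c : ℝ≥0∞, c ≠ 0 ∧ c ≠ ⊤ ∧
  ∀ F : Sy n → ℝ≥0∞, Measurable F → (∀ g ∈ OG n, ∀ x, F (cong g x) = F x) →
  ∫⁻ X, F X ∂(nu n) = c * ∫⁻ l in Ch n, F (dg l) * ENNReal.ofReal (vd l)

/-! ## R: radial part -/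

/-- VD: the Vandermonde weight -/
def S_VD : Prop := ∀ (n : ℕ), 1 ≤ n → ∀ l ∈ Ch n, ∀ k ∈ Ch n,
  (∀ t : ℝ, 0 < t → t < 1 → (1 - t) • l + t • k ∈ Ch n ∧
    vd l ^ (1 - t) * vd k ^ t ≤ vd ((1 - t) • l + t • k)) ∧
  ∀ r : ℝ, 0 < r → (∀ i j, l j - l i ≤ 2 * r) → (∀ i j, k j - k i ≤ 2 * r) →
    vd l * vd k ≤ (vd ((1 / 2 : ℝ) • (l + k))) ^ 2 *
      Real.exp (-(n / (16 * r ^ 2) * (‖l - k‖ ^ 2 - (∑ i, (l - k) i) ^ 2 / n)))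

/-- LT1: Hardy inequality for log-concave densities on the line -/
def S_LT1 : Prop := ∀ (Z m m' : ℝ → ℝ) (x0 K M : ℝ), Continuous Z → (∀ x, 0 < Z x) →
  Integrable Z → (∀ x y t : ℝ, 0 < t → t < 1 → Z x ^ (1 - t) * Z y ^ t ≤ Z ((1 - t) * x + t * y)) →
  ∫ x, Z x ≤ K * Z x0 → Continuous m' → (∀ x, HasDerivAt m (m' x) x) → (∀ x, |m x| ≤ M) →
  ∫⁻ x, ENNReal.ofReal ((m x - m x0) ^ 2 * Z x) ≤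
    ENNReal.ofReal (4 * K ^ 2) * ∫⁻ x, ENNReal.ofReal ((m' x) ^ 2 * Z x)

/-- the standing assumptions on a weight `w` (almost strongly log-concave orthogonally to the
unit vector `e`) -/
structure WA {F : Type} [NormedAddCommGroup F] [InnerProductSpace ℝ F] [FiniteDimensional ℝ F]
    [MeasurableSpace F] [BorelSpace F] (ν : Measure F) (w : F → ℝ) (e : F) (σ : ℝ) : Prop where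
  nonneg : ∀ x, 0 ≤ w x
  meas : Measurable w
  bound : ∃ B, ∀ x, w x ≤ B
  supp : Bdd w
  pos : 0 < ∫ x, w x ∂ν
  unit : ‖e‖ = 1
  σpos : 0 < σ
  logc : ∀ x y : F, ∀ t : ℝ, 0 < t → t < 1 → w x ^ (1 - t) * w y ^ t ≤ w ((1 - t) • x + t • y)
  mid : ∀ x y, w x * w y ≤ (w ((1 / 2 : ℝ) • (x + y))) ^ 2 *
      Real.exp (-(1 / (4 * σ ^ 2) * (‖x - y‖ ^ 2 - ⟪e, x - y⟫_ℝ ^ 2)))
  mom : ∫ x, ⟪e, x⟫_ℝ ^ 2 * w x ∂ν ≤ σ ^ 2 * ∫ x, w x ∂ν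

/-- LT2: Poincare inequality for the tilted weight -/
def S_LT2 : Prop := ∀ (F : Type) [NormedAddCommGroup F] [InnerProductSpace ℝ F]
  [FiniteDimensional ℝ F] [MeasurableSpace F] [BorelSpace F] (ν : Measure F)
  [ν.IsAddHaarMeasure] (w : F → ℝ) (e : F) (σ : ℝ), WA ν w e σ →
  ∀ (τ : ℝ) (f : F → ℝ), ContDiff ℝ 1 f →
  0 < ∫ x, tw w e σ τ x ∂ν ∧
  ∫ x, (f x - (∫ y, f y * tw w e σ τ y ∂ν) / ∫ y, tw w e σ τ y ∂ν) ^ 2 * tw w e σ τ x ∂ν ≤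
    σ ^ 2 * ∫ x, ‖fderiv ℝ f x‖ ^ 2 * tw w e σ τ x ∂ν

/-- LT3: the derivative of the tilted mean -/
def S_LT3 : Prop := ∀ (F : Type) [NormedAddCommGroup F] [InnerProductSpace ℝ F]
  [FiniteDimensional ℝ F] [MeasurableSpace F] [BorelSpace F] (ν : Measure F)
  [ν.IsAddHaarMeasure] (w : F → ℝ) (e : F) (σ : ℝ), WA ν w e σ →
  ∀ (f : F → ℝ), Continuous f →
  ∃ m' : ℝ → ℝ, Continuous m' ∧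
  (∀ τ, HasDerivAt (fun t => (∫ y, f y * tw w e σ t y ∂ν) / ∫ y, tw w e σ t y ∂ν) (m' τ) τ) ∧
  ∀ τ, (m' τ) ^ 2 * σ ^ 4 * (∫ y, tw w e σ τ y ∂ν) ^ 2 ≤
    (∫ x, (f x - (∫ y, f y * tw w e σ τ y ∂ν) / ∫ y, tw w e σ τ y ∂ν) ^ 2 * tw w e σ τ x ∂ν) *
    ∫ x, (⟪e, x⟫_ℝ - (∫ y, ⟪e, y⟫_ℝ * tw w e σ τ y ∂ν) / ∫ y, tw w e σ τ y ∂ν) ^ 2 *
      tw w e σ τ x ∂ν

/-- LT4: the function `Z` -/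
def S_LT4 : Prop := ∀ (F : Type) [NormedAddCommGroup F] [InnerProductSpace ℝ F]
  [FiniteDimensional ℝ F] [MeasurableSpace F] [BorelSpace F] (ν : Measure F)
  [ν.IsAddHaarMeasure] (w : F → ℝ) (e : F) (σ : ℝ), WA ν w e σ →
  Continuous (fun τ => ∫ y, tw w e σ τ y ∂ν) ∧ (∀ τ, 0 < ∫ y, tw w e σ τ y ∂ν) ∧
  Integrable (fun τ => ∫ y, tw w e σ τ y ∂ν) ∧
  (∀ x y t : ℝ, 0 < t → t < 1 → (∫ z, tw w e σ x z ∂ν) ^ (1 - t) * (∫ z, tw w e σ y z ∂ν) ^ t ≤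
    ∫ z, tw w e σ ((1 - t) * x + t * y) z ∂ν) ∧
  ∃ x0 : ℝ, ∫ τ, ∫ y, tw w e σ τ y ∂ν ≤ 8 * σ * ∫ y, tw w e σ x0 y ∂ν

/-- LT5: Fubini for the tilted weights -/
def S_LT5 : Prop := ∀ (F : Type) [NormedAddCommGroup F] [InnerProductSpace ℝ F]
  [FiniteDimensional ℝ F] [MeasurableSpace F] [BorelSpace F] (ν : Measure F)
  [ν.IsAddHaarMeasure] (w : F → ℝ) (e : F) (σ : ℝ), WA ν w e σ →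
  ∀ (h : F → ℝ), Continuous h → (∀ x, 0 ≤ h x) →
  ∫⁻ τ : ℝ, ENNReal.ofReal (∫ x, h x * tw w e σ τ x ∂ν) =
    ENNReal.ofReal (Real.sqrt (2 * Real.pi) * σ * ∫ x, h x * w x ∂ν)

/-- LT -/
def S_LT : Prop := ∀ (F : Type) [NormedAddCommGroup F] [InnerProductSpace ℝ F]
  [FiniteDimensional ℝ F] [MeasurableSpace F] [BorelSpace F] (ν : Measure F)
  [ν.IsAddHaarMeasure] (w : F → ℝ) (e : F) (σ : ℝ), WA ν w e σ →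
  ∀ (f : F → ℝ), ContDiff ℝ 1 f →
  ∃ c : ℝ, ∫ x, (f x - c) ^ 2 * w x ∂ν ≤ 514 * σ ^ 2 * ∫ x, ‖fderiv ℝ f x‖ ^ 2 * w x ∂ν

/-- RW: the weight on the chamber satisfies the assumptions -/
def S_RW : Prop := ∀ (n : ℕ), 1 ≤ n → ∀ ρ : Sy n → ℝ, CDens n ρ → (∃ B, ∀ x, ρ x ≤ B) →
  Bdd ρ → mc ρ ≠ 0 → ∀ r σ : ℝ, 0 < r → (∀ x, ¬ Sp r x → ρ x = 0) → 0 < σ →
  4 * r ^ 2 / n ≤ σ ^ 2 →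
  ∫ x, ⟪td n, x⟫_ℝ ^ 2 ∂(mc ρ) ≤ σ ^ 2 * (mc ρ univ).toReal →
  ∃ e : V n, WA (volume : Measure (V n)) (wch ρ) e σ

/-- RAD: Poincare inequality for invariant functions -/
def S_RAD : Prop := ∀ (n : ℕ), 1 ≤ n → ∀ ρ : Sy n → ℝ, CDens n ρ → (∃ B, ∀ x, ρ x ≤ B) →
  Bdd ρ → ∀ r σ : ℝ, 0 < r → (∀ x, ¬ Sp r x → ρ x = 0) → 0 < σ →
  4 * r ^ 2 / n ≤ σ ^ 2 →
  ∫ x, ⟪td n, x⟫_ℝ ^ 2 ∂(mc ρ) ≤ σ ^ 2 * (mc ρ univ).toReal →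
  ∀ f : Sy n → ℝ, ContDiff ℝ 1 f → (∀ g ∈ OG n, ∀ x, f (cong g x) = f x) →
  ∃ c : ℝ, ∫ x, (f x - c) ^ 2 ∂(mc ρ) ≤ 514 * σ ^ 2 * ∫ x, ‖fderiv ℝ f x‖ ^ 2 ∂(mc ρ)

/-! ## L, G: local inequality, gluing, main theorems -/

/-- LOC -/
def S_LOC : Prop := ∀ (n : ℕ), 3 ≤ n → ∀ ρ : Sy n → ℝ, CDens n ρ → (∃ B, ∀ x, ρ x ≤ B) →
  Bdd ρ → ∀ r σ : ℝ, 0 < r → (∀ x, ¬ Sp r x → ρ x = 0) → 0 < σ →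
  4 * r ^ 2 / n ≤ σ ^ 2 →
  ∫ x, ⟪td n, x⟫_ℝ ^ 2 ∂(mc ρ) ≤ σ ^ 2 * (mc ρ univ).toReal →
  ∀ f : Sy n → ℝ, ContDiff ℝ 1 f →
  ∃ c : ℝ, ∫ x, (f x - c) ^ 2 ∂(mc ρ) ≤ 1100 * σ ^ 2 * ∫ x, ‖fderiv ℝ f x‖ ^ 2 ∂(mc ρ)

/-- GLUE -/
def S_GLUE : Prop := ∀ (F : Type) [NormedAddCommGroup F] [InnerProductSpace ℝ F]
  [FiniteDimensional ℝ F] [MeasurableSpace F] [BorelSpace F] (μ : Measure F)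
  [IsProbabilityMeasure μ], (∃ R, μ (Metric.closedBall 0 R)ᶜ = 0) →
  ∀ (a s A B : ℝ), 3 ≤ a → 0 ≤ s → 0 ≤ A → 0 ≤ B →
  (∀ g : F → ℝ, ContDiff ℝ 1 g → μ {x | g x ≠ 0} ≤ ENNReal.ofReal (Real.exp (-(2 * a))) →
    ∫ x, g x ^ 2 ∂μ ≤ B * s * ∫ x, ‖fderiv ℝ g x‖ ^ 2 ∂μ) →
  ∀ U : Set F, MeasurableSet U → μ Uᶜ ≤ ENNReal.ofReal (Real.exp (-(8 * a))) →
  (∀ h : F → ℝ, ContDiff ℝ 1 h → ∃ c : ℝ, ∫ x in U, (h x - c) ^ 2 ∂μ ≤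
    A * s * ∫ x in U, ‖fderiv ℝ h x‖ ^ 2 ∂μ) →
  ∀ f : F → ℝ, ContDiff ℝ 1 f →
  ∫ x, f x ^ 2 ∂μ - (∫ x, f x ∂μ) ^ 2 ≤ (2 * (2 * A + 4 * B)) * s * ∫ x, ‖fderiv ℝ f x‖ ^ 2 ∂μ

/-- CORE -/
def S_CORE : Prop := ∃ C : ℝ, 0 < C ∧ ∀ n : ℕ, 3 ≤ n → ∀ ρ : Sy n → ℝ, CDens n ρ →
  (∃ B, ∀ x, ρ x ≤ B) → Bdd ρ → mc ρ univ = 1 → ∀ s : ℝ, 0 < s →
  (∀ θ : Sy n, ∫ x, ⟪θ, x⟫_ℝ ^ 2 ∂(mc ρ) ≤ s * ‖θ‖ ^ 2) →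
  ∀ f : Sy n → ℝ, ContDiff ℝ 1 f →
  ∫ x, f x ^ 2 ∂(mc ρ) - (∫ x, f x ∂(mc ρ)) ^ 2 ≤ C * s * ∫ x, ‖fderiv ℝ f x‖ ^ 2 ∂(mc ρ)

/-- MAIN: removal of the boundedness assumptions -/
def S_MAIN : Prop := ∃ C : ℝ, 0 < C ∧ ∀ n : ℕ, 3 ≤ n → ∀ ρ : Sy n → ℝ, CDens n ρ →
  mc ρ univ = 1 → ∀ s : ℝ, 0 < s →
  (∀ θ : Sy n, ∫⁻ x, ENNReal.ofReal (⟪θ, x⟫_ℝ ^ 2) ∂(mc ρ) ≤ ENNReal.ofReal (s * ‖θ‖ ^ 2)) →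
  ∀ f : Sy n → ℝ, ContDiff ℝ 1 f → MemLp f 2 (mc ρ) →
  ENNReal.ofReal (∫ x, (f x - ∫ y, f y ∂(mc ρ)) ^ 2 ∂(mc ρ)) ≤
    ENNReal.ofReal (C * s) * ∫⁻ x, ENNReal.ofReal (‖fderiv ℝ f x‖ ^ 2) ∂(mc ρ)

/-- MEAN: the mean of a conjugation-invariant measure is scalar -/
def S_MEAN : Prop := ∀ (n : ℕ) (μ : Measure (Sy n)) [IsProbabilityMeasure μ],
  (∀ g ∈ OG n, μ.map (cong g) = μ) → (∀ θ : Sy n, Integrable (fun x => ⟪θ, x⟫_ℝ) μ) →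
  ∃ c : ℝ, ∀ θ : Sy n, ∫ x, ⟪θ, x⟫_ℝ ∂μ = ⟪θ, c • td n⟫_ℝ

/-- FIN: the theorem -/
def S_FIN : Prop := ∃ C : ℝ, 0 < C ∧ ∀ n : ℕ, 3 ≤ n →
  ∀ (ν : Measure (Sy n)) [ν.IsAddHaarMeasure] (ρ : Sy n → ℝ), Measurable ρ → (∀ X, 0 ≤ ρ X) →
  (∀ X Y, ∀ t : ℝ, 0 < t → t < 1 → ρ X ^ (1 - t) * ρ Y ^ t ≤ ρ ((1 - t) • X + t • Y)) →
  (∀ g ∈ Matrix.orthogonalGroup (Fin n) ℝ, ∀ X Y : Sy n,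
    (∀ i j, (Y : E n n) (i, j) = ∑ k, ∑ l, g i k * (X : E n n) (k, l) * g j l) → ρ Y = ρ X) →
  ∀ μ : Measure (Sy n), μ = ν.withDensity (fun X => ENNReal.ofReal (ρ X)) →
  IsProbabilityMeasure μ → ∀ s : ℝ, 0 < s →
  (∀ θ : Sy n, ProbabilityTheory.evariance (fun X => ⟪θ, X⟫_ℝ) μ ≤
    ENNReal.ofReal (s * ‖θ‖ ^ 2)) →
  ∀ f : Sy n → ℝ, ContDiff ℝ 1 f → MemLp f 2 μ →
  ENNReal.ofReal (ProbabilityTheory.variance f μ) ≤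
    ENNReal.ofReal (C * s) * ∫⁻ X, ENNReal.ofReal (‖fderiv ℝ f X‖ ^ 2) ∂μ

end Pool.Agent.H787R2.KC
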