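import Pool.Agent.H787R2.KC.St

/-! Task VD: the Vandermonde weight. -/

set_option autoImplicit false

namespace Pool.Agent.H787R2.KC

open MeasureTheory Set Matrix Pool.Agent.H212R2.KLS
open scoped ENNReal InnerProductSpace

namespace VDx

/-- the set of pairs `i < j` -/
def P (n : ℕ) : Finset ((_ : Fin n) × Fin n) := Finset.univ.sigma fun i => Finset.Ioi i

theorem vd_eq {n : ℕ} (l : V n) : vd l = ∏ p ∈ P n, (l p.2 - l p.1) := by
  unfold vd P
  rw [Finset.prod_sigma]

theorem mem_P {n : ℕ} (p : (_ : Fin n) × Fin n) (hp : p ∈ P n) : p.1 < p.2 := by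
  unfold P at hp
  rw [Finset.mem_sigma] at hp
  exact Finset.mem_Ioi.1 hp.2

theorem sum_pairs {n : ℕ} (f : Fin n → Fin n → ℝ) (hs : ∀ i j, f i j = f j i)
    (h0 : ∀ i, f i i = 0) :
    2 * ∑ p ∈ P n, f p.1 p.2 = ∑ i, ∑ j, f i j := by
  unfold P
  rw [Finset.sum_sigma]
  have h1 : ∀ i : Fin n, ∑ j ∈ Finset.Ioi i, f i j = ∑ j, if i < j then f i j else 0 := by
    intro i
    rw [← Finset.sum_filter]
    congr 1
    ext j
    simp
  have h2 : ∑ i : Fin n, ∑ j, (if i < j then f i j else 0) =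
      ∑ i : Fin n, ∑ j, (if j < i then f i j else 0) := by
    rw [Finset.sum_comm]
    refine Finset.sum_congr rfl fun j _ => Finset.sum_congr rfl fun i _ => ?_
    rw [hs i j]
  have h3 : ∑ i : Fin n, ∑ j, f i j = ∑ i : Fin n, ∑ j, (if i < j then f i j else 0) +
      ∑ i : Fin n, ∑ j, (if j < i then f i j else 0) := by
    rw [← Finset.sum_add_distrib]
    refine Finset.sum_congr rfl fun i _ => ?_
    rw [← Finset.sum_add_distrib]
    refine Finset.sum_congr rfl fun j _ => ?_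
    rcases lt_trichotomy i j with h | h | h
    · rw [if_pos h, if_neg h.not_gt, add_zero]
    · subst h
      simp [h0]
    · rw [if_neg h.not_gt, if_pos h, zero_add]
  rw [h3, ← h2]
  simp only [h1]
  ring

theorem sum_sq {n : ℕ} (h : Fin n → ℝ) :
    ∑ p ∈ P n, (h p.2 - h p.1) ^ 2 = n * ∑ i, h i ^ 2 - (∑ i, h i) ^ 2 := by
  have h1 := sum_pairs (fun i j => (h j - h i) ^ 2) (fun i j => by ring) (fun i => by ring)
  have h2 : ∑ i, ∑ j, (h j - h i) ^ 2 = 2 * (n * ∑ i, h i ^ 2) - 2 * (∑ i, h i) ^ 2 := by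
    have e : ∀ i j : Fin n, (h j - h i) ^ 2 = h j ^ 2 + h i ^ 2 - 2 * (h i * h j) := by
      intro i j; ring
    simp only [e, Finset.sum_sub_distrib, Finset.sum_add_distrib, ← Finset.mul_sum,
      Finset.sum_const, Finset.card_univ, Fintype.card_fin, nsmul_eq_mul, ← Finset.sum_mul]
    ring

  linarith

theorem pair_bound {a b r : ℝ} (ha : 0 < a) (hb : 0 < b) (hr : 0 < r) (har : a ≤ 2 * r)
    (hbr : b ≤ 2 * r) :
    a * b ≤ ((a + b) / 2) ^ 2 * Real.exp (-(1 / (16 * r ^ 2) * (a - b) ^ 2)) := by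
  have hab : 0 < a + b := by positivity
  have h1 : a * b = ((a + b) / 2) ^ 2 * (1 - ((a - b) / (a + b)) ^ 2) := by
    field_simp
    ring
  have h2 : 1 / (16 * r ^ 2) * (a - b) ^ 2 ≤ ((a - b) / (a + b)) ^ 2 := by
    rw [div_pow, one_div, inv_mul_eq_div]
    apply div_le_div_of_nonneg_left (sq_nonneg _) (by positivity)
    nlinarith
  have h3 : 1 - ((a - b) / (a + b)) ^ 2 ≤ Real.exp (-(((a - b) / (a + b)) ^ 2)) := by
    have := Real.add_one_le_exp (-(((a - b) / (a + b)) ^ 2))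
    linarith
  rw [h1]
  apply mul_le_mul_of_nonneg_left _ (sq_nonneg _)
  exact h3.trans (Real.exp_le_exp.2 (by linarith))

end VDx

open VDx in
theorem VD : S_VD := by
  intro n hn l hl k hk
  have hl' : ∀ p ∈ P n, 0 < l p.2 - l p.1 := fun p hp => sub_pos.2 (hl (mem_P p hp))
  have hk' : ∀ p ∈ P n, 0 < k p.2 - k p.1 := fun p hp => sub_pos.2 (hk (mem_P p hp))
  refine ⟨fun t ht0 ht1 => ⟨?_, ?_⟩, ?_⟩
  · intro i j hij
    have h1 : l i < l j := hl hij
    have h2 : k i < k j := hk hij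
    show (1 - t) * l i + t * k i < (1 - t) * l j + t * k j
    have h3 : 0 < 1 - t := by linarith
    have h4 := mul_lt_mul_of_pos_left h1 h3
    have h5 := mul_lt_mul_of_pos_left h2 ht0
    linarith
  · rw [vd_eq, vd_eq, vd_eq, ← Real.finsetProd_rpow _ _ (fun p hp => (hl' p hp).le),
      ← Real.finsetProd_rpow _ _ (fun p hp => (hk' p hp).le), ← Finset.prod_mul_distrib]
    refine Finset.prod_le_prod (fun p hp => ?_) (fun p hp => ?_)
    · have := hl' p hp
      have := hk' p hp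
      positivity
    · have h1 := Real.geom_mean_le_arith_mean2_weighted (by linarith : (0:ℝ) ≤ 1 - t) ht0.le
        (hl' p hp).le (hk' p hp).le (by ring)
      refine h1.trans (le_of_eq ?_)
      show _ = ((1 - t) * l p.2 + t * k p.2) - ((1 - t) * l p.1 + t * k p.1)
      ring
  · intro r hr hlr hkr
    rw [vd_eq, vd_eq, vd_eq, ← Finset.prod_mul_distrib, ← Finset.prod_pow]
    have e1 : (n : ℝ) / (16 * r ^ 2) * (‖l - k‖ ^ 2 - (∑ i, (l - k) i) ^ 2 / n) =
        ∑ p ∈ P n, 1 / (16 * r ^ 2) * ((l p.2 - l p.1) - (k p.2 - k p.1)) ^ 2 := by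
      have e2 := sum_sq (fun i => (l - k) i)
      have hn' : (n : ℝ) ≠ 0 := by positivity
      rw [← Finset.mul_sum]
      have e3 : ∀ p : (_ : Fin n) × Fin n, ((l p.2 - l p.1) - (k p.2 - k p.1)) ^ 2 =
          ((l - k) p.2 - (l - k) p.1) ^ 2 := by
        intro p
        show _ = ((l p.2 - k p.2) - (l p.1 - k p.1)) ^ 2
        ring
      simp only [e3]
      rw [e2, EuclideanSpace.real_norm_sq_eq]
      field_simp
    rw [e1, ← Finset.sum_neg_distrib, Real.exp_sum, ← Finset.prod_mul_distrib]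
    refine Finset.prod_le_prod (fun p hp => ?_) (fun p hp => ?_)
    · have := hl' p hp
      have := hk' p hp
      positivity
    · refine (pair_bound (hl' p hp) (hk' p hp) hr (hlr _ _) (hkr _ _)).trans (le_of_eq ?_)
      congr 2
      show _ = (1 / 2 : ℝ) * (l p.2 + k p.2) - (1 / 2 : ℝ) * (l p.1 + k p.1)
      ring

end Pool.Agent.H787R2.KC
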