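import Pool.Agent.H787R2.KC.St

/-!
# W1: the Cayley transform
-/

set_option autoImplicit false

namespace Pool.Agent.H787R2.KC

open MeasureTheory Set Matrix Pool.Agent.H212R2.KLS
open scoped ENNReal InnerProductSpace

namespace W1x

variable {n : ℕ}

theorem skew_dot (a : Matrix (Fin n) (Fin n) ℝ) (ha : aᵀ = -a) (v : Fin n → ℝ) :
    v ⬝ᵥ (a *ᵥ v) = 0 := by
  have h : v ⬝ᵥ (a *ᵥ v) = -(v ⬝ᵥ (a *ᵥ v)) := by
    calc v ⬝ᵥ (a *ᵥ v) = (v ᵥ* a) ⬝ᵥ v := Matrix.dotProduct_mulVec v a v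
      _ = (aᵀ *ᵥ v) ⬝ᵥ v := by rw [Matrix.mulVec_transpose]
      _ = -((a *ᵥ v) ⬝ᵥ v) := by rw [ha, Matrix.neg_mulVec, neg_dotProduct]
      _ = -(v ⬝ᵥ (a *ᵥ v)) := by rw [dotProduct_comm]
  linarith

theorem det_ne (a : Matrix (Fin n) (Fin n) ℝ) (ha : aᵀ = -a) : (1 + a).det ≠ 0 := by
  intro h
  obtain ⟨v, hv, hv0⟩ := Matrix.exists_mulVec_eq_zero_iff.2 h
  apply hv
  have h1 : v ⬝ᵥ ((1 + a) *ᵥ v) = 0 := by rw [hv0, dotProduct_zero]
  rw [Matrix.add_mulVec, Matrix.one_mulVec, dotProduct_add, skew_dot a ha, add_zero] at h1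
  exact dotProduct_self_eq_zero.1 h1

end W1x

open W1x

theorem W1 : S_W1 := by
  intro n A
  have hu : ∀ A : Sk n, IsUnit (1 + kM A).det := fun A =>
    isUnit_iff_ne_zero.2 (det_ne (kM A) (kM_transpose A))
  have hmul : ∀ A : Sk n, (1 + kM A) * (1 + kM A)⁻¹ = 1 := fun A => Matrix.mul_nonsing_inv _ (hu A)
  have hmul' : ∀ A : Sk n, (1 + kM A)⁻¹ * (1 + kM A) = 1 := fun A => Matrix.nonsing_inv_mul _ (hu A)
  have h3 : ∀ A : Sk n, (1 + cay A) * (1 + kM A) = (2 : ℝ) • (1 : Matrix (Fin n) (Fin n) ℝ) := by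
    intro A
    unfold cay
    rw [Matrix.add_mul, Matrix.one_mul, Matrix.mul_assoc, hmul' A, Matrix.mul_one, two_smul]
    abel
  refine ⟨hu A, ?_, h3 A, ?_⟩
  · rw [Matrix.mem_orthogonalGroup_iff']
    have ht : (1 - kM A)ᵀ = 1 + kM A := by
      rw [Matrix.transpose_sub, Matrix.transpose_one, kM_transpose, sub_neg_eq_add]
    have ht' : (1 + kM A)ᵀ = 1 - kM A := by
      rw [Matrix.transpose_add, Matrix.transpose_one, kM_transpose, sub_eq_add_neg]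
    have hG : ((1 + kM A)⁻¹)ᵀ * (1 - kM A) = 1 := by
      rw [← ht', ← Matrix.transpose_mul, hmul A, Matrix.transpose_one]
    have hc : (1 + kM A) * (1 - kM A) = (1 - kM A) * (1 + kM A) := by
      noncomm_ring
    unfold cay
    rw [Matrix.transpose_mul, ht]
    calc ((1 + kM A)⁻¹)ᵀ * (1 + kM A) * ((1 - kM A) * (1 + kM A)⁻¹)
        = ((1 + kM A)⁻¹)ᵀ * ((1 + kM A) * (1 - kM A)) * (1 + kM A)⁻¹ := by
          simp only [Matrix.mul_assoc]
      _ = (((1 + kM A)⁻¹)ᵀ * (1 - kM A)) * ((1 + kM A) * (1 + kM A)⁻¹) := by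
          rw [hc]
          simp only [Matrix.mul_assoc]
      _ = 1 := by rw [hG, hmul A, Matrix.one_mul]
  · intro B hAB
    have e : ∀ A : Sk n, 1 + cay A = (2 : ℝ) • (1 + kM A)⁻¹ := by
      intro A
      have h := congrArg (· * (1 + kM A)⁻¹) (h3 A)
      simp only [Matrix.mul_assoc, hmul A, Matrix.mul_one, Matrix.smul_mul, Matrix.one_mul] at h
      exact h
    have h1 : (2 : ℝ) • (1 + kM A)⁻¹ = (2 : ℝ) • (1 + kM B)⁻¹ := by
      rw [← e A, ← e B, hAB]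
    have h2 : (1 + kM A)⁻¹ = (1 + kM B)⁻¹ := smul_right_injective _ (by norm_num : (2 : ℝ) ≠ 0) h1
    have h4 : 1 + kM A = 1 + kM B := by
      calc 1 + kM A = (1 + kM A) * ((1 + kM B)⁻¹ * (1 + kM B)) := by rw [hmul' B, Matrix.mul_one]
        _ = (1 + kM A) * (1 + kM A)⁻¹ * (1 + kM B) := by rw [h2, Matrix.mul_assoc]
        _ = 1 + kM B := by rw [hmul A, Matrix.one_mul]
    exact kM_inj (add_left_cancel h4)

end Pool.Agent.H787R2.KC
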