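import Pool.Agent.H787R2.KC.St

set_option autoImplicit false

namespace Pool.Agent.H787R2.KC

open MeasureTheory Set Matrix Pool.Agent.H212R2.KLS
open scoped ENNReal InnerProductSpace

namespace W2x

/-- sign of a Boolean -/
def sg (b : Bool) : ℝ := if b then 1 else -1

/-- column `j` of `1 + g diag ε` with sign `b` -/
def col {n : ℕ} (g : Matrix (Fin n) (Fin n) ℝ) (j : Fin n) (b : Bool) : Fin n → ℝ :=
  fun i => (1 : Matrix (Fin n) (Fin n) ℝ) i j + g i j * sg b

theorem det_eq {n : ℕ} (g : Matrix (Fin n) (Fin n) ℝ) (r : Fin n → Bool) :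
    (Matrix.detRowAlternating (R := ℝ) (n := Fin n)).toMultilinearMap (fun j => col g j (r j)) =
      (1 + g * Matrix.diagonal fun j => sg (r j)).det := by
  rw [← Matrix.det_transpose (1 + g * Matrix.diagonal fun j => sg (r j))]
  show Matrix.det (fun j => col g j (r j)) = _
  congr 1
  ext j i
  simp [col, Matrix.transpose_apply, Matrix.add_apply, Matrix.mul_diagonal]

theorem sum_eq {n : ℕ} (g : Matrix (Fin n) (Fin n) ℝ) :
    (Matrix.detRowAlternating (R := ℝ) (n := Fin n)).toMultilinearMap
      (fun j => ∑ b : Bool, col g j b) = 2 ^ n := by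
  show Matrix.det (fun j => ∑ b : Bool, col g j b) = _
  have h : (fun j => ∑ b : Bool, col g j b : Matrix (Fin n) (Fin n) ℝ) =
      (2 : ℝ) • (1 : Matrix (Fin n) (Fin n) ℝ) := by
    ext j i
    simp only [Fintype.sum_bool, Pi.add_apply, col, sg, Matrix.smul_apply, smul_eq_mul]
    rw [Matrix.one_apply, Matrix.one_apply]
    by_cases hij : i = j
    · subst hij
      simp
      ring
    · rw [if_neg hij, if_neg (Ne.symm hij)]
      simp
  rw [h, Matrix.det_smul]
  simp

end W2x

theorem W2 : S_W2 := by
  intro n g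
  by_contra hcon
  push Not at hcon
  have h1 := (Matrix.detRowAlternating (R := ℝ) (n := Fin n)).toMultilinearMap.map_sum
    (fun (j : Fin n) (b : Bool) => W2x.col g j b)
  rw [W2x.sum_eq] at h1
  have h2 : ∑ r : Fin n → Bool,
      (Matrix.detRowAlternating (R := ℝ) (n := Fin n)).toMultilinearMap
        (fun j => W2x.col g j (r j)) = 0 := by
    refine Finset.sum_eq_zero fun r _ => ?_
    rw [W2x.det_eq]
    refine hcon _ fun i => ?_
    cases h : r i
    · right; simp [W2x.sg]
    · left; simp [W2x.sg]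
  rw [h2] at h1
  exact absurd h1 (by positivity)

end Pool.Agent.H787R2.KC
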