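import Pool.Agent.H787R2.KC.St

/-!
# Every symmetric matrix is in the chart
-/

set_option autoImplicit false

namespace Pool.Agent.H787R2.KC

open MeasureTheory Set Matrix Pool.Agent.H212R2.KLS
open scoped ENNReal InnerProductSpace

namespace W3x

/-- real spectral theorem, eigenvalues in increasing order -/
theorem spec {n : ℕ} (A : Matrix (Fin n) (Fin n) ℝ) (hA : Aᵀ = A) :
    ∃ (U : Matrix (Fin n) (Fin n) ℝ) (m : Fin n → ℝ), Monotone m ∧ U * Uᵀ = 1 ∧
      U * diagonal m * Uᵀ = A := by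
  have hH : A.IsHermitian := by
    rw [Matrix.IsHermitian, Matrix.conjTranspose_eq_transpose_of_trivial, hA]
  set U₀ : Matrix (Fin n) (Fin n) ℝ := hH.eigenvectorUnitary.1 with hU₀
  have h1 : U₀ * U₀ᵀ = 1 := by
    have := (Matrix.mem_unitaryGroup_iff (A := U₀)).1 hH.eigenvectorUnitary.2
    rwa [Matrix.star_eq_conjTranspose, Matrix.conjTranspose_eq_transpose_of_trivial] at this
  have h2 : A = U₀ * diagonal hH.eigenvalues * U₀ᵀ := by
    have := hH.spectral_theorem
    rw [Unitary.conjStarAlgAut_apply] at this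
    have h3 : star U₀ = U₀ᵀ := by
      rw [Matrix.star_eq_conjTranspose, Matrix.conjTranspose_eq_transpose_of_trivial]
    rw [← h3]
    exact this
  let σ : Equiv.Perm (Fin n) := Tuple.sort hH.eigenvalues
  refine ⟨U₀.submatrix id σ, hH.eigenvalues ∘ σ, Tuple.monotone_sort _, ?_, ?_⟩
  · rw [Matrix.transpose_submatrix, Matrix.submatrix_mul_equiv, h1, Matrix.submatrix_id_id]
  · have h3 : diagonal (hH.eigenvalues ∘ σ) = (diagonal hH.eigenvalues).submatrix σ σ := by
      rw [Matrix.submatrix_diagonal_equiv]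
    rw [h3, Matrix.transpose_submatrix, Matrix.submatrix_mul_equiv, Matrix.submatrix_mul_equiv,
      Matrix.submatrix_id_id, ← h2]

/-- the Cayley transform is onto the orthogonal matrices without eigenvalue `-1` -/
theorem cay_onto {n : ℕ} (Q : Matrix (Fin n) (Fin n) ℝ) (hQ : Q * Qᵀ = 1)
    (hd : (1 + Q).det ≠ 0) : ∃ A : Sk n, cay A = Q := by
  have hu : IsUnit (1 + Q).det := isUnit_iff_ne_zero.2 hd
  set P := (1 + Q)⁻¹ with hP
  have e1 : (1 + Q) * P = 1 := Matrix.mul_nonsing_inv _ hu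
  have e2 : P * (1 + Q) = 1 := Matrix.nonsing_inv_mul _ hu
  have e1t : Pᵀ * (1 + Qᵀ) = 1 := by
    have := congrArg Matrix.transpose e1
    rwa [Matrix.transpose_mul, Matrix.transpose_one, Matrix.transpose_add,
      Matrix.transpose_one] at this
  have e2t : (1 + Qᵀ) * Pᵀ = 1 := by
    have := congrArg Matrix.transpose e2
    rwa [Matrix.transpose_mul, Matrix.transpose_one, Matrix.transpose_add,
      Matrix.transpose_one] at this
  have e3 : P + Pᵀ = 1 := by
    have h1 : (1 + Q) * (P + Pᵀ) * (1 + Qᵀ) = (1 + Q) * (1 + Qᵀ) := by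
      have : (1 + Q) * (P + Pᵀ) * (1 + Qᵀ) =
          ((1 + Q) * P) * (1 + Qᵀ) + (1 + Q) * (Pᵀ * (1 + Qᵀ)) := by noncomm_ring
      rw [this, e1, e1t, Matrix.one_mul, Matrix.mul_one]
      have h2 : (1 + Q) * (1 + Qᵀ) = 1 + Qᵀ + Q + Q * Qᵀ := by noncomm_ring
      rw [h2, hQ]
      abel
    calc P + Pᵀ = (P * (1 + Q)) * (P + Pᵀ) * ((1 + Qᵀ) * Pᵀ) := by
          rw [e2, e2t, Matrix.one_mul, Matrix.mul_one]
      _ = P * ((1 + Q) * (P + Pᵀ) * (1 + Qᵀ)) * Pᵀ := by noncomm_ring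
      _ = P * ((1 + Q) * (1 + Qᵀ)) * Pᵀ := by rw [h1]
      _ = (P * (1 + Q)) * ((1 + Qᵀ) * Pᵀ) := by noncomm_ring
      _ = 1 := by rw [e2, e2t, Matrix.mul_one]
  refine ⟨kOf ((2 : ℝ) • P - 1) ?_, ?_⟩
  · rw [Matrix.transpose_sub, Matrix.transpose_smul, Matrix.transpose_one]
    have : Pᵀ = 1 - P := by rw [← e3]; abel
    rw [this, smul_sub, two_smul ℝ (1 : Matrix (Fin n) (Fin n) ℝ)]
    abel
  · unfold cay
    rw [kM_kOf]
    have h1 : (1 : Matrix (Fin n) (Fin n) ℝ) + ((2 : ℝ) • P - 1) = (2 : ℝ) • P := by abel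
    rw [h1]
    have h2 : ((2 : ℝ) • P)⁻¹ = (1 / 2 : ℝ) • (1 + Q) := by
      refine Matrix.inv_eq_left_inv ?_
      rw [Matrix.smul_mul, Matrix.mul_smul, e1, smul_smul]
      norm_num
    rw [h2, Matrix.mul_smul, Matrix.sub_mul, Matrix.one_mul, Matrix.sub_mul, Matrix.one_mul,
      Matrix.smul_mul, e2]
    module

end W3x

theorem W3 (h1 : S_W1) (h2 : S_W2) : S_W3 := by
  intro n X
  obtain ⟨U, m, hm, hU, hX⟩ := W3x.spec (sM X) (sM_transpose X)
  obtain ⟨ε, hε, hd⟩ := h2 n U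
  have hεε : diagonal ε * diagonal ε = (1 : Matrix (Fin n) (Fin n) ℝ) := by
    rw [Matrix.diagonal_mul_diagonal, ← Matrix.diagonal_one]
    congr 1
    funext i
    rcases hε i with h | h <;> rw [h] <;> norm_num
  have hQ : (U * diagonal ε) * (U * diagonal ε)ᵀ = 1 := by
    rw [Matrix.transpose_mul, Matrix.diagonal_transpose]
    calc U * diagonal ε * (diagonal ε * Uᵀ) = U * (diagonal ε * diagonal ε) * Uᵀ := by
          simp only [Matrix.mul_assoc]
      _ = 1 := by rw [hεε, Matrix.mul_one, hU]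
  obtain ⟨A, hA⟩ := W3x.cay_onto (U * diagonal ε) hQ hd
  refine ⟨A, WithLp.toLp 2 m, hm, sM_inj ?_⟩
  unfold Ph
  rw [sM_cong, sM_dg, Matrix.transpose_transpose]
  change cay A * diagonal m * (cay A)ᵀ = sM X
  rw [hA, ← hX, Matrix.transpose_mul, Matrix.diagonal_transpose]
  calc U * diagonal ε * diagonal m * (diagonal ε * Uᵀ)
      = U * (diagonal ε * (diagonal m * diagonal ε)) * Uᵀ := by simp only [Matrix.mul_assoc]
    _ = U * diagonal m * Uᵀ := by
        have h3 : diagonal m * diagonal ε = diagonal ε * diagonal m := by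
          rw [Matrix.diagonal_mul_diagonal, Matrix.diagonal_mul_diagonal]
          congr 1
          funext i
          exact mul_comm _ _
        rw [h3, ← Matrix.mul_assoc (diagonal ε), hεε, Matrix.one_mul]

end Pool.Agent.H787R2.KC
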