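import Pool.Agent.H787R2.KC.St

/-!
# W4b: the determinant of `Lb` (helper99)
-/

set_option autoImplicit false

namespace Pool.Agent.H787R2.KC

open MeasureTheory Set Matrix Pool.Agent.H212R2.KLS
open scoped ENNReal InnerProductSpace

/-- index pairs `i < j` -/
abbrev w4bI (n : ℕ) := {p : Fin n × Fin n // p.1 < p.2}

/-- coordinates on skew matrices -/
def w4bE (n : ℕ) : Sk n ≃ₗ[ℝ] (w4bI n → ℝ) where
  toFun G p := kM G p.1.1 p.1.2
  map_add' G H := rfl
  map_smul' c G := rfl
  invFun f := kOf (Matrix.of fun i j => if h : i < j then f ⟨(i, j), h⟩ else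
    if h : j < i then - f ⟨(j, i), h⟩ else 0) (by
      ext i j
      simp only [Matrix.transpose_apply, Matrix.of_apply, Matrix.neg_apply]
      rcases lt_trichotomy i j with h1 | h1 | h1
      · rw [dif_neg h1.not_gt, dif_pos h1, dif_pos h1]
      · subst h1
        rw [dif_neg (lt_irrefl i), dif_neg (lt_irrefl i), neg_zero]
      · rw [dif_pos h1, dif_neg h1.not_gt, dif_pos h1, neg_neg])
  left_inv G := by
    apply kM_inj
    ext i j
    change (if h : i < j then kM G i j else if h : j < i then - kM G j i else 0) = kM G i j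
    have h : kM G j i = - kM G i j := congrFun (congrFun (kM_transpose G) i) j
    rcases lt_trichotomy i j with h1 | h1 | h1
    · rw [dif_pos h1]
    · subst h1
      rw [dif_neg (lt_irrefl i), dif_neg (lt_irrefl i)]
      linarith
    · rw [dif_neg h1.not_gt, dif_pos h1, h, neg_neg]
  right_inv f := by
    funext p
    obtain ⟨⟨i, j⟩, h⟩ := p
    change (if h : i < j then f ⟨(i, j), h⟩ else _) = _
    rw [dif_pos h]

/-- the diagonal operator on skew matrices -/
noncomputable def w4bT {n : ℕ} (l : V n) : Sk n →ₗ[ℝ] Sk n :=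
  ((w4bE n).symm : (w4bI n → ℝ) →ₗ[ℝ] Sk n) ∘ₗ
    Matrix.toLin' (Matrix.diagonal fun p : w4bI n => l p.1.2 - l p.1.1) ∘ₗ
    (((w4bE n).symm.symm : Sk n ≃ₗ[ℝ] (w4bI n → ℝ)) : Sk n →ₗ[ℝ] (w4bI n → ℝ))

theorem w4bT_det {n : ℕ} (l : V n) : LinearMap.det (w4bT l) =
    ∏ p : w4bI n, (l p.1.2 - l p.1.1) := by
  unfold w4bT
  rw [LinearMap.det_conj, LinearMap.det_toLin', Matrix.det_diagonal]

theorem w4b_prod {n : ℕ} (l : V n) : ∏ p : w4bI n, (l p.1.2 - l p.1.1) = vd l := by
  classical
  have h1 : ∏ p : w4bI n, (l p.1.2 - l p.1.1) =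
      ∏ p : Fin n × Fin n, if p.1 < p.2 then l p.2 - l p.1 else 1 := by
    rw [Finset.prod_ite, Finset.prod_const_one, mul_one]
    rw [← Finset.prod_subtype (s := Finset.univ.filter fun p : Fin n × Fin n => p.1 < p.2)
      (p := fun p : Fin n × Fin n => p.1 < p.2) (by simp) (f := fun p => l p.2 - l p.1)]
  rw [h1, Fintype.prod_prod_type]
  unfold vd
  refine Finset.prod_congr rfl fun i _ => ?_
  rw [← Finset.prod_filter]
  refine Finset.prod_congr ?_ fun j _ => rfl
  ext j
  simp

theorem w4bT_apply {n : ℕ} (l : V n) (O : Sk n) (i j : Fin n) :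
    kM (w4bT l O) i j = if i < j then (l j - l i) * kM O i j else
      if j < i then - ((l i - l j) * kM O j i) else 0 := by
  have h : ∀ p : w4bI n, Matrix.toLin' (Matrix.diagonal fun p : w4bI n => l p.1.2 - l p.1.1)
      (w4bE n O) p = (l p.1.2 - l p.1.1) * kM O p.1.1 p.1.2 := by
    intro p
    rw [Matrix.toLin'_apply, Matrix.mulVec_diagonal]
    rfl
  change (if h : i < j then Matrix.toLin' (Matrix.diagonal fun p : w4bI n => l p.1.2 - l p.1.1)
      (w4bE n O) ⟨(i, j), h⟩ else if h : j < i then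
      - Matrix.toLin' (Matrix.diagonal fun p : w4bI n => l p.1.2 - l p.1.1)
      (w4bE n O) ⟨(j, i), h⟩ else 0) = _
  rcases lt_trichotomy i j with h1 | h1 | h1
  · rw [dif_pos h1, if_pos h1, h]
  · subst h1
    rw [dif_neg (lt_irrefl i), dif_neg (lt_irrefl i), if_neg (lt_irrefl i), if_neg (lt_irrefl i)]
  · rw [dif_neg h1.not_gt, dif_pos h1, if_neg h1.not_gt, if_pos h1, h]

theorem w4b_LbM {n : ℕ} (l d : Fin n → ℝ) (O : Matrix (Fin n) (Fin n) ℝ) (i j : Fin n) :
    LbM l O d i j = (l j - l i) * O i j + if i = j then d i else 0 := by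
  unfold LbM
  rw [Matrix.add_apply, Matrix.sub_apply, Matrix.mul_diagonal, Matrix.diagonal_mul,
    Matrix.diagonal_apply]
  ring

theorem w4b_eq {n : ℕ} (l : V n) :
    (io2 n).toLinearMap ∘ₗ Lb l = LinearMap.prodMap (w4bT l) LinearMap.id := by
  apply LinearMap.ext
  rintro ⟨O, d⟩
  refine Prod.ext ?_ ?_
  · apply kM_inj
    ext i j
    change sg i j * LbM l.ofLp (kM O) d.ofLp i j = kM (w4bT l O) i j
    rw [w4bT_apply, w4b_LbM]
    have h : kM O j i = - kM O i j := congrFun (congrFun (kM_transpose O) i) j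
    unfold sg
    rcases lt_trichotomy i j with h1 | h1 | h1
    · rw [if_pos h1, if_pos h1, if_neg h1.ne]
      ring
    · subst h1
      rw [if_neg (lt_irrefl i), if_neg (lt_irrefl i), if_neg (lt_irrefl i), if_neg (lt_irrefl i)]
      ring
    · rw [if_neg h1.not_gt, if_pos h1, if_neg h1.not_gt, if_pos h1, if_neg h1.ne', h]
      ring
  · ext i
    change LbM l.ofLp (kM O) d.ofLp i i = d i
    rw [w4b_LbM, if_pos rfl]
    ring

theorem W4b : S_W4b := by
  intro n l
  rw [w4b_eq, LinearMap.det_prodMap, LinearMap.det_id, mul_one, w4bT_det, w4b_prod]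

end Pool.Agent.H787R2.KC
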