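import Pool.Agent.H787R2.KC.St
import Pool.Agent.H212R2.KLS.R7

/-!
# The determinant of `kc A`
-/

set_option autoImplicit false

namespace Pool.Agent.H787R2.KC

open MeasureTheory Set Matrix Pool.Agent.H212R2.KLS
open scoped ENNReal InnerProductSpace

namespace W4cx

theorem continuous_kM {n : ℕ} : Continuous (kM : Sk n → Matrix (Fin n) (Fin n) ℝ) :=
  R7.continuous_toM.comp continuous_subtype_val

theorem continuous_Sk {α : Type*} [TopologicalSpace α] {n : ℕ} {f : α → Sk n}
    (h : Continuous fun a => kM (f a)) : Continuous f := by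
  refine continuous_induced_rng.2 ?_
  have h2 : Continuous fun a => (WithLp.ofLp ((f a : E n n))) := by
    refine continuous_pi fun p => ?_
    exact h.matrix_elem p.1 p.2
  have := (PiLp.continuous_toLp 2 (fun _ : Fin n × Fin n => ℝ)).comp h2
  exact this

theorem cont_inv (h1 : S_W1) {n : ℕ} :
    Continuous fun A : Sk n => ((1 + kM A)⁻¹ : Matrix (Fin n) (Fin n) ℝ) := by
  have e : (fun A : Sk n => ((1 + kM A)⁻¹ : Matrix (Fin n) (Fin n) ℝ)) =
      fun A => (1 + kM A).det⁻¹ • (1 + kM A).adjugate := by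
    funext A
    rw [Matrix.inv_def, Ring.inverse_eq_inv']
  rw [e]
  have hc : Continuous fun A : Sk n => (1 + kM A : Matrix (Fin n) (Fin n) ℝ) :=
    continuous_const.add continuous_kM
  refine Continuous.smul (Continuous.inv₀ hc.matrix_det ?_) hc.matrix_adjugate
  intro A
  exact (h1 n A).1.ne_zero

theorem cont_kc (h1 : S_W1) {n : ℕ} (H : Sk n) : Continuous fun A : Sk n => kc A H := by
  apply continuous_Sk
  have hG := cont_inv h1 (n := n)
  have e : (fun A : Sk n => kM (kc A H)) = fun A =>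
      (-2 : ℝ) • (((1 + kM A)⁻¹)ᵀ * kM H * (1 + kM A)⁻¹) := by
    funext A
    rfl
  rw [e]
  exact ((hG.matrix_transpose.matrix_mul continuous_const).matrix_mul hG).const_smul (-2 : ℝ)

theorem cont_det (h1 : S_W1) {n : ℕ} : Continuous fun A : Sk n => LinearMap.det (kc A) := by
  let b := Module.finBasis ℝ (Sk n)
  have e : (fun A : Sk n => LinearMap.det (kc A)) =
      fun A => (LinearMap.toMatrix b b (kc A)).det := by
    funext A
    rw [LinearMap.det_toMatrix]
  rw [e]
  apply Continuous.matrix_det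
  refine continuous_matrix fun i j => ?_
  have e2 : (fun A : Sk n => LinearMap.toMatrix b b (kc A) i j) =
      fun A => b.coord i (kc A (b j)) := by
    funext A
    rw [LinearMap.toMatrix_apply]
    rfl
  rw [e2]
  exact (LinearMap.continuous_of_finiteDimensional (b.coord i)).comp (cont_kc h1 (b j))

theorem inj (h1 : S_W1) {n : ℕ} (A H : Sk n) (h : kc A H = 0) : H = 0 := by
  have hG : (1 + kM A)⁻¹ * (1 + kM A) = 1 := Matrix.nonsing_inv_mul _ (h1 n A).1
  have hG' : (1 + kM A)ᵀ * ((1 + kM A)⁻¹)ᵀ = 1 := by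
    rw [← Matrix.transpose_mul, hG, Matrix.transpose_one]
  have h2 : (-2 : ℝ) • (((1 + kM A)⁻¹)ᵀ * kM H * (1 + kM A)⁻¹) = 0 := by
    have : kM (kc A H) = 0 := by
      rw [h]
      rfl
    exact this
  have h3 : ((1 + kM A)⁻¹)ᵀ * kM H * (1 + kM A)⁻¹ = 0 := by
    rcases smul_eq_zero.1 h2 with h4 | h4
    · norm_num at h4
    · exact h4
  have h5 : kM H = (1 + kM A)ᵀ * (((1 + kM A)⁻¹)ᵀ * kM H * (1 + kM A)⁻¹) * (1 + kM A) := by
    calc kM H = 1 * kM H * 1 := by rw [Matrix.one_mul, Matrix.mul_one]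
      _ = ((1 + kM A)ᵀ * ((1 + kM A)⁻¹)ᵀ) * kM H * ((1 + kM A)⁻¹ * (1 + kM A)) := by
          rw [hG, hG']
      _ = (1 + kM A)ᵀ * (((1 + kM A)⁻¹)ᵀ * kM H * (1 + kM A)⁻¹) * (1 + kM A) := by
          simp only [Matrix.mul_assoc]
  rw [h3, Matrix.mul_zero, Matrix.zero_mul] at h5
  apply kM_inj
  rw [h5]
  rfl

end W4cx

theorem W4c (h1 : S_W1) : S_W4c := by
  intro n
  refine ⟨(W4cx.cont_det h1).measurable, ?_⟩
  intro A hdet
  have h2 := LinearMap.bot_lt_ker_of_det_eq_zero hdet
  have h3 : LinearMap.ker (kc A) = ⊥ := by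
    rw [LinearMap.ker_eq_bot']
    intro H hH
    exact W4cx.inj h1 A H hH
  rw [h3] at h2
  exact lt_irrefl _ h2

end Pool.Agent.H787R2.KC
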