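import Pool.Agent.H787R2.KC.St

set_option autoImplicit false

namespace Pool.Agent.H787R2.KC

open MeasureTheory Set Matrix Pool.Agent.H212R2.KLS
open scoped ENNReal InnerProductSpace

namespace W5x

theorem vd_eq_zero {n : ℕ} (l : V n) (hm : Monotone l.ofLp) (hl : l ∉ Ch n) : vd l = 0 := by
  have h : ∃ i j : Fin n, i < j ∧ l.ofLp i = l.ofLp j := by
    by_contra hcon
    push Not at hcon
    apply hl
    intro i j hij
    exact lt_of_le_of_ne (hm hij.le) (hcon i j hij)
  obtain ⟨i, j, hij, he⟩ := h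
  unfold vd
  apply Finset.prod_eq_zero (Finset.mem_univ i)
  apply Finset.prod_eq_zero (Finset.mem_Ioi.2 hij)
  change l.ofLp j - l.ofLp i = 0
  rw [he, sub_self]

end W5x

theorem W5 (h3 : S_W3) (h4 : S_W4) : S_W5 := by
  intro n
  let e : Sy n ≃L[ℝ] (Sk n × V n) := (io2 n).toContinuousLinearEquiv
  have he : ∀ X : Sy n, e X = io2 n X := fun X => rfl
  let P0 : Set (Sk n × V n) := {p | vd p.2 = 0}
  let f : (Sk n × V n) → (Sk n × V n) := fun q => io2 n (Ph q)
  choose T hT using fun p : Sk n × V n => h4 n p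
  have : Measure.IsAddHaarMeasure (nu n) := by
    unfold nu
    infer_instance
  have : Measure.IsAddHaarMeasure ((nu n).map e) := e.isAddHaarMeasure_map (nu n)
  have hnull : ((nu n).map e) (f '' P0) = 0 := by
    apply addHaar_image_eq_zero_of_det_fderivWithin_eq_zero (f' := T) ((nu n).map e)
    · intro p _
      exact (hT p).1.hasFDerivWithinAt
    · intro p hp
      have h := (hT p).2
      have hp' : vd p.2 = 0 := hp
      rw [hp', abs_zero, mul_zero] at h
      exact abs_eq_zero.1 h
  have hmap : ((nu n).map e) (f '' P0) = nu n (e ⁻¹' (f '' P0)) :=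
    e.toHomeomorph.toMeasurableEquiv.map_apply (f '' P0)
  rw [hmap] at hnull
  apply measure_mono_null _ hnull
  intro X hX
  obtain ⟨A, l, hm, hPh⟩ := h3 n X
  have hl : l ∉ Ch n := fun hl => hX A l hl hPh
  refine ⟨(A, l), W5x.vd_eq_zero l hm hl, ?_⟩
  change io2 n (Ph (A, l)) = io2 n X
  rw [hPh]

end Pool.Agent.H787R2.KC
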