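import Pool.Agent.H787R2.KC.St

/-!
# The chart is injective on the small set
-/

set_option autoImplicit false

namespace Pool.Agent.H787R2.KC

open MeasureTheory Set Matrix Pool.Agent.H212R2.KLS
open scoped ENNReal InnerProductSpace

namespace W6bx

theorem col_le {n : ℕ} (A : Sk n) (i : Fin n) : ∑ j, kM A j i ^ 2 ≤ ‖A‖ ^ 2 := by
  have h1 : ‖A‖ ^ 2 = ∑ j, ∑ k, kM A j k ^ 2 := by
    rw [← Submodule.norm_coe, EuclideanSpace.norm_sq_eq, Fintype.sum_prod_type]
    refine Finset.sum_congr rfl fun j _ => Finset.sum_congr rfl fun k _ => ?_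
    rw [Real.norm_eq_abs, sq_abs]
    rfl
  rw [h1]
  refine Finset.sum_le_sum fun j _ => ?_
  exact Finset.single_le_sum (f := fun k => kM A j k ^ 2) (fun k _ => sq_nonneg _)
    (Finset.mem_univ i)

theorem diag_pos (h1 : S_W1) {n : ℕ} (A : Sk n) (hA : ‖A‖ < 1 / 10) (i : Fin n) :
    0 < cay A i i := by
  obtain ⟨_, hO, hQ, _⟩ := h1 n A
  have h2 : ((1 + cay A) * (1 + kM A)) i i = 2 := by
    rw [hQ, Matrix.smul_apply, Matrix.one_apply_eq]
    simp
  have h3 : ((1 + cay A) * (1 + kM A)) i i =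
      1 + cay A i i + kM A i i + ∑ j, cay A i j * kM A j i := by
    have e : (1 + cay A) * (1 + kM A) = 1 + cay A + kM A + cay A * kM A := by
      noncomm_ring
    rw [e, Matrix.add_apply, Matrix.add_apply, Matrix.add_apply, Matrix.one_apply_eq,
      Matrix.mul_apply]
  have h4 : kM A i i = 0 := by
    have h : kM A i i = - kM A i i := congrFun (congrFun (kM_transpose A) i) i
    linarith
  have h5 : ∑ j, cay A i j ^ 2 = 1 := by
    have h := (Matrix.mem_orthogonalGroup_iff (Fin n) ℝ).mp hO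
    have h' := congrFun (congrFun h i) i
    rw [Matrix.mul_apply, Matrix.one_apply_eq] at h'
    rw [← h']
    refine Finset.sum_congr rfl fun j _ => ?_
    rw [pow_two]
    rfl
  have h6 := col_le A i
  have h7 := Finset.sum_mul_sq_le_sq_mul_sq Finset.univ (fun j => cay A i j) (fun j => kM A j i)
  rw [h5, one_mul] at h7
  have h8 : ‖A‖ ^ 2 ≤ (1 / 10) ^ 2 := by
    have := norm_nonneg A
    gcongr
  rw [h3, h4] at h2
  set t := ∑ j, cay A i j * kM A j i with ht
  have h9 : t ^ 2 ≤ (1 / 10) ^ 2 := h7.trans (h6.trans h8)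
  have h10 : |t| ≤ 1 / 10 := abs_le_of_sq_le_sq h9 (by norm_num)
  have h11 := abs_le.mp h10
  linarith [h11.2]

end W6bx

theorem W6b (h1 : S_W1) (ha : S_W6a) : S_W6b := by
  intro n p hp q hq hpq
  obtain ⟨A, l⟩ := p
  obtain ⟨B, k⟩ := q
  obtain ⟨hA, hl⟩ := hp
  obtain ⟨hB, hk⟩ := hq
  obtain ⟨_, hOA, _, hinj⟩ := h1 n A
  obtain ⟨_, hOB, _, _⟩ := h1 n B
  obtain ⟨hlk, ε, hε, hQR⟩ := ha n (cay A) hOA (cay B) hOB l hl k hk hpq
  have hε1 : ∀ i, ε i = 1 := by
    intro i
    rcases hε i with h | h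
    · exact h
    · exfalso
      have e : cay A i i = cay B i i * ε i := by
        rw [hQR, Matrix.mul_diagonal]
      rw [h] at e
      have p1 := W6bx.diag_pos h1 A hA i
      have p2 := W6bx.diag_pos h1 B hB i
      linarith
  have hd : Matrix.diagonal ε = 1 := by
    rw [show ε = fun _ => (1 : ℝ) from funext hε1, Matrix.diagonal_one]
  rw [hd, Matrix.mul_one] at hQR
  exact Prod.ext (hinj B hQR) hlk

end Pool.Agent.H787R2.KC
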