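import Pool.Agent.H787R2.KC.St

set_option autoImplicit false

namespace Pool.Agent.H787R2.KC

open MeasureTheory Set Matrix Pool.Agent.H212R2.KLS
open scoped ENNReal InnerProductSpace

namespace W7x

instance nu_haar (n : ℕ) : (nu n).IsAddHaarMeasure := by unfold nu; infer_instance

instance nk_haar (n : ℕ) : (nk n).IsAddHaarMeasure := by unfold nk; infer_instance

theorem isOpen_Kb (n : ℕ) : IsOpen (Kb n) := by
  unfold Kb
  exact isOpen_lt continuous_norm continuous_const

theorem isOpen_Ch (n : ℕ) : IsOpen (Ch n) := by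
  have h1 : Ch n = ⋂ i : Fin n, ⋂ j : Fin n, {l : V n | i < j → l i < l j} := by
    ext l
    simp only [Ch, StrictMono, Set.mem_ofPred_eq, Set.mem_iInter]
  rw [h1]
  refine isOpen_iInter_of_finite fun i => isOpen_iInter_of_finite fun j => ?_
  by_cases hij : i < j
  · simp only [hij, forall_const]
    exact isOpen_lt (by fun_prop) (by fun_prop)
  · simp only [hij, false_imp_iff]
    exact isOpen_univ

theorem cont_dg (n : ℕ) : Continuous (dg (n := n)) := by
  unfold dg sOf
  refine Continuous.subtype_mk ?_ _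
  unfold ofM
  refine (PiLp.continuous_toLp 2 _).comp ?_
  refine continuous_pi fun p => ?_
  simp only [Matrix.diagonal_apply]
  by_cases h : p.1 = p.2
  · simp only [h, if_true]
    fun_prop
  · simp only [h, if_false]
    exact continuous_const

theorem cont_vd (n : ℕ) : Continuous (vd (n := n)) := by
  unfold vd
  fun_prop

theorem vd_pos {n : ℕ} {l : V n} (hl : l ∈ Ch n) : 0 < vd l := by
  unfold vd
  refine Finset.prod_pos fun i _ => Finset.prod_pos fun j hj => ?_
  rw [Finset.mem_Ioi] at hj
  have := hl hj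
  exact sub_pos.mpr this

end W7x

open W7x

theorem W7 (h4 : S_W4) (h4c : S_W4c) (h6 : S_W6b) (h1 : S_W1) : S_W7 := by
  intro n
  choose T hT using h4 n
  have hs : MeasurableSet (Kb n ×ˢ Ch n) :=
    ((isOpen_Kb n).prod (isOpen_Ch n)).measurableSet
  -- the linear isomorphism
  let e : Sy n ≃L[ℝ] (Sk n × V n) := (io2 n).toContinuousLinearEquiv
  have he : ∀ X : Sy n, e X = io2 n X := fun X => rfl
  set f : Sk n × V n → Sk n × V n := fun q => io2 n (Ph q) with hf
  have hfd : ∀ q, HasFDerivAt f (T q) q := fun q => (hT q).1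
  have hfinj : InjOn f (Kb n ×ˢ Ch n) := fun q hq q' hq' h =>
    h6 n hq hq' ((io2 n).injective h)
  have hfc : Continuous f := continuous_iff_continuousAt.mpr fun q => (hfd q).continuousAt
  have hPh : ∀ q, e.symm (f q) = Ph q := fun q => by
    rw [hf]
    exact e.symm_apply_apply (Ph q)
  have him : MeasurableSet (f '' (Kb n ×ˢ Ch n)) :=
    hs.image_of_continuousOn_injOn hfc.continuousOn hfinj
  have hOm : Om n = e ⁻¹' (f '' (Kb n ×ˢ Ch n)) := by
    ext X
    constructor
    · rintro ⟨q, hq, rfl⟩
      exact ⟨q, hq, rfl⟩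
    · rintro ⟨q, hq, h⟩
      exact ⟨q, hq, (io2 n).injective h⟩
  have hOmm : MeasurableSet (Om n) := by
    rw [hOm]
    exact e.continuous.measurable him
  refine ⟨hOmm, ?_⟩
  -- measures
  let lam : Measure (Sk n × V n) := (nk n).prod volume
  have hlam : lam.IsAddHaarMeasure := by
    change ((nk n).prod volume).IsAddHaarMeasure
    infer_instance
  have hmap : (lam.map e.symm).IsAddHaarMeasure := by
    infer_instance
  have huniq : nu n = (Measure.addHaarScalarFactor (nu n) (lam.map e.symm)) • (lam.map e.symm) :=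
    Measure.isAddLeftInvariant_eq_smul _ _
  have hpos := Measure.addHaarScalarFactor_pos_of_isAddHaarMeasure (nu n) (lam.map e.symm)
  generalize Measure.addHaarScalarFactor (nu n) (lam.map e.symm) = c0 at huniq hpos
  have hmeas : Measurable (fun A : Sk n => ENNReal.ofReal |LinearMap.det (kc A)|) :=
    ((h4c n).1.abs).ennreal_ofReal
  refine ⟨(c0 : ℝ≥0∞) * ∫⁻ A in Kb n, ENNReal.ofReal |LinearMap.det (kc A)| ∂(nk n), ?_, ?_⟩
  · refine mul_ne_zero (by exact_mod_cast hpos.ne') ?_
    intro h0
    rw [lintegral_eq_zero_iff hmeas] at h0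
    have h2 : ∀ᵐ A ∂((nk n).restrict (Kb n)), False := by
      filter_upwards [h0] with A hA
      simp only [Pi.zero_apply, ENNReal.ofReal_eq_zero] at hA
      exact (h4c n).2 A (abs_nonpos_iff.mp hA)
    rw [Filter.eventually_false_iff_eq_bot, ae_eq_bot, Measure.restrict_eq_zero] at h2
    have h3 := (isOpen_Kb n).measure_pos (nk n) ⟨0, by simp [Kb]⟩
    exact h3.ne' h2
  · intro F hF hinv
    have step1 : ∫⁻ X in Om n, F X ∂(nu n) =
        (c0 : ℝ≥0∞) * ∫⁻ y in f '' (Kb n ×ˢ Ch n), F (e.symm y) ∂lam := by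
      conv_lhs => rw [huniq]
      rw [Measure.restrict_smul, lintegral_smul_measure,
        setLIntegral_map hOmm hF e.symm.continuous.measurable]
      have h2 : e.symm ⁻¹' (Om n) = f '' (Kb n ×ˢ Ch n) := by
        rw [hOm, ← preimage_comp]
        have h3 : (e ∘ e.symm) = id := by
          funext y
          exact e.apply_symm_apply y
        rw [h3, preimage_id]
      rw [h2]
      rfl
    have step2 := lintegral_image_eq_lintegral_abs_det_fderiv_mul lam hs
      (fun x _ => (hfd x).hasFDerivWithinAt) hfinj (fun y => F (e.symm y))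
    have hFdg : ∀ q : Sk n × V n, F (Ph q) = F (dg q.2) := by
      intro q
      have h2 : (cay q.1)ᵀ ∈ OG n := by
        have h3 := Unitary.star_mem (h1 n q.1).2.1
        rwa [Matrix.star_eq_conjTranspose, Matrix.conjTranspose_eq_transpose_of_trivial] at h3
      exact hinv _ h2 _
    have step3 : ∫⁻ x in Kb n ×ˢ Ch n, ENNReal.ofReal |(T x).det| * F (e.symm (f x)) ∂lam =
        ∫⁻ x in Kb n ×ˢ Ch n, ENNReal.ofReal |LinearMap.det (kc x.1)| *
          (F (dg x.2) * ENNReal.ofReal (vd x.2)) ∂lam := by
      refine setLIntegral_congr_fun hs fun q hq => ?_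
      rw [hPh, hFdg, (hT q).2, abs_of_pos (vd_pos hq.2), ENNReal.ofReal_mul (abs_nonneg _)]
      ring
    have hFm : Measurable (fun l : V n => F (dg l) * ENNReal.ofReal (vd l)) :=
      (hF.comp (cont_dg n).measurable).mul (cont_vd n).measurable.ennreal_ofReal
    rw [step1, step2, step3]
    have step4 : lam.restrict (Kb n ×ˢ Ch n) =
        ((nk n).restrict (Kb n)).prod ((volume : Measure (V n)).restrict (Ch n)) :=
      (Measure.prod_restrict _ _).symm
    rw [step4, lintegral_prod_mul hmeas.aemeasurable hFm.aemeasurable, mul_assoc]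

end Pool.Agent.H787R2.KC
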