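import Pool.Agent.H787R2.KC.St
import Pool.Agent.H212R2.KLS.T2

/-!
# YT: tail of `Av X v`
-/

set_option autoImplicit false

namespace Pool.Agent.H787R2.KC

open MeasureTheory Set Matrix Pool.Agent.H212R2.KLS
open scoped ENNReal InnerProductSpace

namespace YTx

theorem inner_sum {n : ℕ} (x y : V n) : ⟪x, y⟫_ℝ = ∑ i, x i * y i := by
  rw [PiLp.inner_apply]
  refine Finset.sum_congr rfl fun i _ => ?_
  simp [mul_comm]

theorem Av_zero {n : ℕ} (X : Sy n) : Av X 0 = 0 := by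
  unfold Av
  simp

theorem sv_smul {n : ℕ} (X : Sy n) (t : ℝ) (u : V n) : sv X (t • u) = t • sv X u := by
  show WithLp.toLp 2 (toM (X : E n n) *ᵥ (t • u.ofLp)) = t • WithLp.toLp 2 (toM (X : E n n) *ᵥ u.ofLp)
  rw [Matrix.mulVec_smul]
  rfl

theorem Av_smul {n : ℕ} (X : Sy n) (t : ℝ) (u : V n) (hu : ‖u‖ = 1) :
    Av X (t • u) = (t ^ 3) • Av X u := by
  unfold Av
  rw [sv_smul, norm_smul, hu, inner_smul_left, inner_smul_right]
  simp only [RCLike.conj_to_real, Real.norm_eq_abs, mul_one, one_pow, one_smul, sq_abs, smul_sub,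
    smul_smul]
  congr 1
  congr 1
  ring

theorem norm_Av_sq {n : ℕ} (X : Sy n) (u : V n) (hu : ‖u‖ = 1) :
    ‖Av X u‖ ^ 2 = ‖sv X u‖ ^ 2 - ⟪u, sv X u⟫_ℝ ^ 2 := by
  unfold Av
  rw [hu, one_pow, one_smul, norm_sub_sq_real, inner_smul_right, norm_smul, hu,
    real_inner_comm, Real.norm_eq_abs, mul_one, sq_abs]
  ring

theorem yv_sq {m : ℕ} (X : Sy (m + 1)) (u : V (m + 1)) (g : Matrix (Fin (m + 1)) (Fin (m + 1)) ℝ)
    (hg : g ∈ OG (m + 1)) (hgu : g *ᵥ (Pi.single 0 1) = u.ofLp) :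
    ‖yv (cong g X)‖ ^ 2 = ‖sv X u‖ ^ 2 - ⟪u, sv X u⟫_ℝ ^ 2 := by
  set z : Fin (m + 1) → ℝ := sM X *ᵥ u.ofLp with hz
  set w : Fin (m + 1) → ℝ := gᵀ *ᵥ z with hw
  have hsv : sv X u = WithLp.toLp 2 z := rfl
  have h1 : ∀ i : Fin m, yv (cong g X) i = w i.succ := by
    intro i
    have h2 : (gᵀ * sM X * g) *ᵥ (Pi.single 0 1) = w := by
      rw [← Matrix.mulVec_mulVec, ← Matrix.mulVec_mulVec, hgu]
    have h3 := congrFun h2 i.succ
    rw [Matrix.mulVec_single_one] at h3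
    exact h3
  have h4 : ‖yv (cong g X)‖ ^ 2 = ∑ i : Fin m, w i.succ ^ 2 := by
    rw [EuclideanSpace.real_norm_sq_eq]
    exact Finset.sum_congr rfl fun i _ => by rw [h1]
  have h5 : ∑ j, w j ^ 2 = ‖sv X u‖ ^ 2 := by
    rw [hsv, EuclideanSpace.real_norm_sq_eq]
    have h6 : w ⬝ᵥ w = z ⬝ᵥ z := by
      rw [hw, Matrix.dotProduct_mulVec, Matrix.vecMul_mulVec, Matrix.transpose_transpose]
      have h7 : g * gᵀ = 1 := (Matrix.mem_orthogonalGroup_iff (Fin (m + 1)) ℝ).1 hg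
      rw [h7, Matrix.vecMul_one]
    simpa only [dotProduct, ← pow_two] using h6
  have h8 : w 0 = ⟪u, sv X u⟫_ℝ := by
    rw [inner_sum, hsv]
    have h9 : w 0 = Pi.single 0 1 ⬝ᵥ w := by
      rw [single_dotProduct, one_mul]
    have h10 : Pi.single 0 1 ⬝ᵥ w = (g *ᵥ (Pi.single 0 1)) ⬝ᵥ z := by
      rw [hw, Matrix.dotProduct_mulVec, Matrix.vecMul_transpose]
    rw [h9, h10, hgu]
    rfl
  rw [h4, ← h5, ← h8, Fin.sum_univ_succ]
  ring

theorem norm_eq {m : ℕ} (X : Sy (m + 1)) (u : V (m + 1)) (hu : ‖u‖ = 1)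
    (g : Matrix (Fin (m + 1)) (Fin (m + 1)) ℝ)
    (hg : g ∈ OG (m + 1)) (hgu : g *ᵥ (Pi.single 0 1) = u.ofLp) :
    ‖Av X u‖ = ‖yv (cong g X)‖ := by
  rw [← sq_eq_sq₀ (norm_nonneg _) (norm_nonneg _), norm_Av_sq X u hu, yv_sq X u g hg hgu]

theorem yv_cont {m : ℕ} : Continuous (yv : Sy (m + 1) → V m) := by
  unfold yv
  refine (PiLp.continuous_toLp 2 _).comp ?_
  refine continuous_pi fun i => ?_
  show Continuous fun X : Sy (m + 1) => (X : E (m + 1) (m + 1)) (i.succ, 0)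
  fun_prop

end YTx

open YTx in
theorem YT (hb : S_CB) (h0 : S_YT0) : S_YT := by
  intro m hm ρ hρ hbd hprob s hs hcov v hv r
  have h0' := h0 m hm ρ hρ hbd hprob s hs hcov
  by_cases hv0 : v = 0
  · subst hv0
    by_cases hr : r ≤ 0
    · refine le_trans (measure_mono (subset_univ _)) ?_
      rw [hprob, ENNReal.one_le_ofReal]
      apply Real.one_le_exp
      have h1 : r / (20 * Real.sqrt (m * s)) ≤ 0 :=
        div_nonpos_of_nonpos_of_nonneg hr (by positivity)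
      have h2 : (0 : ℝ) ≤ m := Nat.cast_nonneg m
      nlinarith
    · have h1 : {X : Sy (m + 1) | r ≤ ‖Av X 0‖} = ∅ := by
        ext X
        simp only [Set.mem_ofPred_eq, Set.mem_empty_iff_false, iff_false, Av_zero, norm_zero]
        exact hr
      rw [h1, measure_empty]
      exact bot_le
  · have ht : 0 < ‖v‖ := norm_pos_iff.2 hv0
    set u : V (m + 1) := ‖v‖⁻¹ • v with hu
    have hu1 : ‖u‖ = 1 := by
      rw [hu, norm_smul, norm_inv, norm_norm, inv_mul_cancel₀ ht.ne']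
    have hvu : v = ‖v‖ • u := by
      rw [hu, smul_smul, mul_inv_cancel₀ ht.ne', one_smul]
    obtain ⟨g, hg, hgu⟩ := T2.exists_refl (EuclideanSpace.single (0 : Fin (m + 1)) (1 : ℝ)) u
      (by rw [hu1]; simp)
    have hgu' : g *ᵥ (Pi.single 0 1) = u.ofLp := hgu
    have hsub : {X : Sy (m + 1) | r ≤ ‖Av X v‖} ⊆ (cong g) ⁻¹' {X | r ≤ ‖yv X‖} := by
      intro X hX
      have hX' : r ≤ ‖Av X v‖ := hX
      show r ≤ ‖yv (cong g X)‖
      rw [← norm_eq X u hu1 g hg hgu']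
      refine hX'.trans ?_
      rw [hvu, Av_smul X _ u hu1, norm_smul, norm_pow, norm_norm]
      have h1 : ‖v‖ ^ 3 ≤ 1 := pow_le_one₀ ht.le hv
      exact mul_le_of_le_one_left (norm_nonneg _) h1
    refine (measure_mono hsub).trans ?_
    have hmeas : Measurable (cong g : Sy (m + 1) → Sy (m + 1)) :=
      (LinearMap.continuous_of_finiteDimensional (cong g)).measurable
    have hset : MeasurableSet {X : Sy (m + 1) | r ≤ ‖yv X‖} :=
      (isClosed_le continuous_const yv_cont.norm).measurableSet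
    rw [← Measure.map_apply hmeas hset, (hb (m + 1) ρ hρ).1 g hg]
    exact h0' r

end Pool.Agent.H787R2.KC
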