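import Pool.Agent.H787R2.KC.St
import Pool.Agent.H212R2.KLS.T1
import Pool.Agent.H212R2.KLS.T2
import Pool.Agent.H317R2.KLS.MvTailCore

/-!
# YT0: tail of the first column (without the diagonal entry)
-/

set_option autoImplicit false

namespace Pool.Agent.H787R2.KC

open MeasureTheory Set Matrix Pool.Agent.H212R2.KLS
open scoped ENNReal InnerProductSpace

namespace YT0x

theorem yv_apply {m : ℕ} (X : Sy (m + 1)) (i : Fin m) :
    yv X i = (X : E (m + 1) (m + 1)) (i.succ, 0) := rfl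

theorem yv_continuous {m : ℕ} : Continuous fun X : Sy (m + 1) => yv X := by
  unfold yv
  refine (PiLp.continuous_toLp 2 _).comp ?_
  refine continuous_pi fun i => ?_
  show Continuous fun X : Sy (m + 1) => (X : E (m + 1) (m + 1)) (i.succ, 0)
  fun_prop

theorem yv_comb {m : ℕ} (a b : ℝ) (X Y : Sy (m + 1)) :
    yv (a • X + b • Y) = a • yv X + b • yv Y := by
  ext i
  rfl

/-- the block matrix `diag(1, gᵀ)` -/
def blk {m : ℕ} (g : Matrix (Fin m) (Fin m) ℝ) : Matrix (Fin (m + 1)) (Fin (m + 1)) ℝ :=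
  Matrix.of (Fin.cons (Fin.cons 1 (fun _ => 0)) (fun k => Fin.cons 0 (fun i => g i k)))

theorem blk_00 {m : ℕ} (g : Matrix (Fin m) (Fin m) ℝ) : blk g 0 0 = 1 := rfl
theorem blk_0s {m : ℕ} (g : Matrix (Fin m) (Fin m) ℝ) (i : Fin m) : blk g 0 i.succ = 0 := rfl
theorem blk_s0 {m : ℕ} (g : Matrix (Fin m) (Fin m) ℝ) (i : Fin m) : blk g i.succ 0 = 0 := rfl
theorem blk_ss {m : ℕ} (g : Matrix (Fin m) (Fin m) ℝ) (k i : Fin m) :
    blk g k.succ i.succ = g i k := rfl

theorem blk_mem {m : ℕ} (g : Matrix (Fin m) (Fin m) ℝ)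
    (hg : g ∈ Matrix.orthogonalGroup (Fin m) ℝ) : blk g ∈ OG (m + 1) := by
  have h3 : gᵀ * g = 1 := (Matrix.mem_orthogonalGroup_iff' (Fin m) ℝ).1 hg
  rw [Matrix.mem_orthogonalGroup_iff]
  show blk g * (blk g)ᵀ = 1
  ext i j
  rw [Matrix.mul_apply, Fin.sum_univ_succ]
  simp only [Matrix.transpose_apply]
  refine Fin.cases ?_ (fun i => ?_) i <;> refine Fin.cases ?_ (fun j => ?_) j
  · simp [blk_00, blk_0s]
  · simp [blk_00, blk_0s, blk_s0, (Fin.succ_ne_zero j).symm]
  · simp [blk_00, blk_0s, blk_s0]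
  · simp only [blk_s0, blk_ss, mul_zero, zero_add]
    have h4 := congrFun (congrFun h3 i) j
    rw [Matrix.mul_apply] at h4
    simp only [Matrix.transpose_apply] at h4
    rw [h4]
    simp [Matrix.one_apply]

theorem yv_cong {m : ℕ} (g : Matrix (Fin m) (Fin m) ℝ) (X : Sy (m + 1)) :
    yv (cong (blk g) X) = WithLp.toLp 2 (g *ᵥ (yv X).ofLp) := by
  ext i
  show ((blk g)ᵀ * sM X * blk g) i.succ 0 = ∑ k, g i k * sM X k.succ 0
  rw [Matrix.mul_apply, Fin.sum_univ_succ]
  simp only [blk_00, blk_s0, mul_zero, mul_one, Finset.sum_const_zero, add_zero]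
  rw [Matrix.mul_apply, Fin.sum_univ_succ]
  simp only [Matrix.transpose_apply, blk_0s, blk_ss, zero_mul, zero_add]

theorem cong_continuous {n : ℕ} (A : Matrix (Fin n) (Fin n) ℝ) : Continuous (cong A) :=
  (cong A).continuous_of_finiteDimensional

theorem yv_ball {m : ℕ} (ρ : Sy (m + 1) → ℝ) (hρ : CDens (m + 1) ρ) (d : ℝ) (y z : V m)
    (t : ℝ) (ht0 : 0 < t) (ht1 : t < 1) :
    mc ρ {X | yv X ∈ Metric.closedBall y d} ^ (1 - t) *
      mc ρ {X | yv X ∈ Metric.closedBall z d} ^ t ≤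
    mc ρ {X | yv X ∈ Metric.closedBall ((1 - t) • y + t • z) d} := by
  have hms : ∀ y : V m, MeasurableSet {X : Sy (m + 1) | yv X ∈ Metric.closedBall y d} := fun y =>
    (Metric.isClosed_closedBall.preimage yv_continuous).measurableSet
  have hρm : Measurable fun x => ENNReal.ofReal (ρ x) := ENNReal.measurable_ofReal.comp hρ.meas
  have he : ∀ y : V m, mc ρ {X | yv X ∈ Metric.closedBall y d} =
      ∫⁻ X, {X : Sy (m + 1) | yv X ∈ Metric.closedBall y d}.indicator
        (fun x => ENNReal.ofReal (ρ x)) X ∂(nu (m + 1)) := by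
    intro y
    rw [mc, withDensity_apply _ (hms y), lintegral_indicator (hms y)]
  rw [he y, he z, he]
  have : (nu (m + 1)).IsAddHaarMeasure := by
    unfold nu
    infer_instance
  apply PL (nu (m + 1)) t ht0 ht1 _ _ _ (hρm.indicator (hms y)) (hρm.indicator (hms z))
    (hρm.indicator (hms _))
  intro a b
  by_cases ha : a ∈ {X : Sy (m + 1) | yv X ∈ Metric.closedBall y d}
  · by_cases hb : b ∈ {X : Sy (m + 1) | yv X ∈ Metric.closedBall z d}
    · have hab : (1 - t) • a + t • b ∈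
          {X : Sy (m + 1) | yv X ∈ Metric.closedBall ((1 - t) • y + t • z) d} := by
        show yv ((1 - t) • a + t • b) ∈ Metric.closedBall ((1 - t) • y + t • z) d
        have ha' : yv a ∈ Metric.closedBall y d := ha
        have hb' : yv b ∈ Metric.closedBall z d := hb
        rw [yv_comb, mem_closedBall_iff_norm]
        rw [mem_closedBall_iff_norm] at ha' hb'
        have e : (1 - t) • yv a + t • yv b - ((1 - t) • y + t • z) =
            (1 - t) • (yv a - y) + t • (yv b - z) := by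
          rw [smul_sub, smul_sub]; abel
        rw [e]
        calc ‖(1 - t) • (yv a - y) + t • (yv b - z)‖
            ≤ ‖(1 - t) • (yv a - y)‖ + ‖t • (yv b - z)‖ := norm_add_le _ _
          _ = (1 - t) * ‖yv a - y‖ + t * ‖yv b - z‖ := by
              rw [norm_smul, norm_smul, Real.norm_eq_abs, Real.norm_eq_abs,
                abs_of_pos ht0, abs_of_pos (by linarith)]
          _ ≤ (1 - t) * d + t * d := by
              apply add_le_add
              · exact mul_le_mul_of_nonneg_left ha' (by linarith)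
              · exact mul_le_mul_of_nonneg_left hb' ht0.le
          _ = d := by ring
      rw [indicator_of_mem ha, indicator_of_mem hb, indicator_of_mem hab,
        ENNReal.ofReal_rpow_of_nonneg (hρ.nonneg a) (by linarith),
        ENNReal.ofReal_rpow_of_nonneg (hρ.nonneg b) ht0.le,
        ← ENNReal.ofReal_mul (Real.rpow_nonneg (hρ.nonneg a) _)]
      exact ENNReal.ofReal_le_ofReal (hρ.logc a b t ht0 ht1)
    · rw [indicator_of_notMem hb, ENNReal.zero_rpow_of_pos ht0, mul_zero]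
      exact zero_le
  · rw [indicator_of_notMem ha, ENNReal.zero_rpow_of_pos (by linarith), zero_mul]
    exact zero_le

/-- the symmetric matrix `(E_{i+1,0} + E_{0,i+1}) / 2` -/
noncomputable def th {m : ℕ} (i : Fin m) : Sy (m + 1) :=
  ⟨WithLp.toLp 2 fun p => (if p = (i.succ, 0) then 1 / 2 else 0) +
    (if p = (0, i.succ) then 1 / 2 else 0), by
    intro a b
    show ((if (a, b) = (i.succ, (0 : Fin (m + 1))) then (1 / 2 : ℝ) else 0) +
      (if (a, b) = ((0 : Fin (m + 1)), i.succ) then 1 / 2 else 0)) =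
      ((if (b, a) = (i.succ, (0 : Fin (m + 1))) then (1 / 2 : ℝ) else 0) +
      (if (b, a) = ((0 : Fin (m + 1)), i.succ) then 1 / 2 else 0))
    have e1 : ((a, b) = (i.succ, (0 : Fin (m + 1)))) = ((b, a) = ((0 : Fin (m + 1)), i.succ)) := by
      simp only [Prod.mk.injEq, and_comm]
    have e2 : ((a, b) = ((0 : Fin (m + 1)), i.succ)) = ((b, a) = (i.succ, (0 : Fin (m + 1)))) := by
      simp only [Prod.mk.injEq, and_comm]
    simp only [e1, e2]
    rw [add_comm]⟩

theorem th_inner {m : ℕ} (i : Fin m) (X : Sy (m + 1)) : ⟪th i, X⟫_ℝ = yv X i := by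
  rw [Submodule.coe_inner, PiLp.inner_apply]
  have h : ∀ p : Fin (m + 1) × Fin (m + 1),
      ⟪(th i : E (m + 1) (m + 1)) p, (X : E (m + 1) (m + 1)) p⟫_ℝ =
      (if p = (i.succ, 0) then (1 / 2) * (X : E (m + 1) (m + 1)) p else 0) +
      (if p = (0, i.succ) then (1 / 2) * (X : E (m + 1) (m + 1)) p else 0) := by
    intro p
    show (X : E (m + 1) (m + 1)) p * ((if p = (i.succ, 0) then (1 / 2 : ℝ) else 0) +
      (if p = (0, i.succ) then 1 / 2 else 0)) = _
    split_ifs <;> ring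
  simp only [h, Finset.sum_add_distrib, Finset.sum_ite_eq', Finset.mem_univ, if_true]
  rw [yv_apply]
  have h2 : (X : E (m + 1) (m + 1)) (0, i.succ) = (X : E (m + 1) (m + 1)) (i.succ, 0) := X.2 0 i.succ
  rw [h2]
  ring

theorem th_norm {m : ℕ} (i : Fin m) : ‖(th i : Sy (m + 1))‖ ^ 2 ≤ 1 := by
  rw [← real_inner_self_eq_norm_sq, th_inner, yv_apply]
  show (if ((i.succ, 0) : Fin (m + 1) × Fin (m + 1)) = (i.succ, 0) then (1 / 2 : ℝ) else 0) +
    (if ((i.succ, 0) : Fin (m + 1) × Fin (m + 1)) = (0, i.succ) then 1 / 2 else 0) ≤ 1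
  split_ifs <;> norm_num

theorem ae_bdd {n : ℕ} (ρ : Sy n → ℝ) (R : ℝ) (hR : ∀ x, R < ‖x‖ → ρ x = 0) :
    ∀ᵐ x ∂(mc ρ), ‖x‖ ≤ R := by
  rw [ae_iff]
  apply le_antisymm _ zero_le
  have hms : MeasurableSet {x : Sy n | ¬ ‖x‖ ≤ R} := by
    have : {x : Sy n | ¬ ‖x‖ ≤ R} = {x | R < ‖x‖} := by ext x; simp
    rw [this]
    exact (isOpen_lt continuous_const continuous_norm).measurableSet
  rw [mc, withDensity_apply _ hms]
  calc ∫⁻ x in {x : Sy n | ¬ ‖x‖ ≤ R}, ENNReal.ofReal (ρ x) ∂(nu n) ≤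
      ∫⁻ _x in {x : Sy n | ¬ ‖x‖ ≤ R}, 0 ∂(nu n) := by
        apply setLIntegral_mono' hms
        intro x hx
        have hx' : ¬ ‖x‖ ≤ R := hx
        rw [hR x (not_le.1 hx'), ENNReal.ofReal_zero]
    _ = 0 := by simp

theorem second_moment {m : ℕ} (ρ : Sy (m + 1) → ℝ) (hb : Bdd ρ)
    (h1 : mc ρ univ = 1) (s : ℝ) (hs : 0 < s)
    (hmom : ∀ θ : Sy (m + 1), ∫ x, ⟪θ, x⟫_ℝ ^ 2 ∂(mc ρ) ≤ s * ‖θ‖ ^ 2) :
    ∫⁻ X, ENNReal.ofReal (‖yv X‖ ^ 2) ∂(mc ρ) ≤ ENNReal.ofReal (m * s) := by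
  have : IsProbabilityMeasure (mc ρ) := ⟨h1⟩
  obtain ⟨R, hR⟩ := hb
  have hint : ∀ i : Fin m, Integrable (fun X : Sy (m + 1) => ⟪th i, X⟫_ℝ ^ 2) (mc ρ) := by
    intro i
    refine Integrable.of_bound ?_ ((‖(th i : Sy (m + 1))‖ * R) ^ 2) ?_
    · exact ((continuous_const.inner continuous_id).pow 2).aestronglyMeasurable
    · filter_upwards [ae_bdd ρ R hR] with x hx
      rw [Real.norm_eq_abs, abs_of_nonneg (sq_nonneg _)]
      have h2 := abs_real_inner_le_norm (th i) x
      have h3 : |⟪th i, x⟫_ℝ| ≤ ‖(th i : Sy (m + 1))‖ * R :=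
        le_trans h2 (mul_le_mul_of_nonneg_left hx (norm_nonneg _))
      rw [← sq_abs]
      exact pow_le_pow_left₀ (abs_nonneg _) h3 2
  have e : ∀ X : Sy (m + 1), ‖yv X‖ ^ 2 = ∑ i : Fin m, ⟪th i, X⟫_ℝ ^ 2 := by
    intro X
    rw [EuclideanSpace.real_norm_sq_eq]
    simp only [th_inner]
  simp only [e]
  rw [← ofReal_integral_eq_lintegral_ofReal (integrable_finsetSum _ fun i _ => hint i)
    (Filter.Eventually.of_forall fun X => Finset.sum_nonneg fun i _ => sq_nonneg _)]
  apply ENNReal.ofReal_le_ofReal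
  rw [integral_finsetSum _ fun i _ => hint i]
  calc ∑ i : Fin m, ∫ X, ⟪th i, X⟫_ℝ ^ 2 ∂(mc ρ) ≤ ∑ _i : Fin m, s := by
        apply Finset.sum_le_sum
        intro i _
        refine le_trans (hmom (th i)) ?_
        have := th_norm i
        nlinarith
    _ = m * s := by simp

end YT0x

theorem YT0 (hb : S_CB) : S_YT0 := by
  intro m hm ρ hρ hbd h1 s hs hmom r
  have hP : IsProbabilityMeasure (mc ρ) := ⟨h1⟩
  have hm0 : (0 : ℝ) < m := by exact_mod_cast hm
  have hσ : 0 < Real.sqrt (m * s) := Real.sqrt_pos.2 (by positivity)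
  have hmeas : Measurable fun X : Sy (m + 1) => yv X := YT0x.yv_continuous.measurable
  have hL : IsProbabilityMeasure ((mc ρ).map fun X => yv X) :=
    Measure.isProbabilityMeasure_map hmeas.aemeasurable
  have hball : ∀ y : V m, ∀ d : ℝ, ((mc ρ).map fun X => yv X) (Metric.closedBall y d) =
      mc ρ {X | yv X ∈ Metric.closedBall y d} := fun y d =>
    Measure.map_apply hmeas Metric.isClosed_closedBall.measurableSet
  have key := Pool.Agent.H317R2.KLS.core_tail hm ((mc ρ).map fun X => yv X)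
    (Real.sqrt (m * s)) hσ ?_ ?_ ?_ r
  · have hset : MeasurableSet {y : V m | r ≤ ‖y‖} :=
      (isClosed_le continuous_const continuous_norm).measurableSet
    rw [Measure.map_apply hmeas hset] at key
    exact key
  · intro y z t ht0 ht1
    rw [hball, hball, hball, ENNReal.toReal_rpow, ENNReal.toReal_rpow, ← ENNReal.toReal_mul]
    exact ENNReal.toReal_mono (measure_ne_top _ _) (YT0x.yv_ball ρ hρ _ y z t ht0 ht1)
  · intro y z hyz
    obtain ⟨g, hg, hgy⟩ := T2.exists_refl y z hyz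
    rw [hball, hball]
    have hinv := (hb (m + 1) ρ hρ).1 (YT0x.blk g) (YT0x.blk_mem g hg)
    have hgm : Measurable (cong (YT0x.blk g) : Sy (m + 1) → Sy (m + 1)) :=
      (YT0x.cong_continuous _).measurable
    have hset : MeasurableSet {X : Sy (m + 1) | yv X ∈ Metric.closedBall z (√(m * s) / 100)} :=
      (Metric.isClosed_closedBall.preimage YT0x.yv_continuous).measurableSet
    conv_rhs => rw [← hinv, Measure.map_apply hgm hset]
    congr 1
    ext X
    show yv X ∈ Metric.closedBall y _ ↔ yv (cong (YT0x.blk g) X) ∈ Metric.closedBall z _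
    rw [mem_closedBall_iff_norm, mem_closedBall_iff_norm, YT0x.yv_cong]
    have hz : z = WithLp.toLp 2 (g *ᵥ y.ofLp) := by rw [hgy]
    rw [hz, T2.norm_mulVec g hg]
  · have hset : MeasurableSet {y : V m | 2 * Real.sqrt (m * s) < ‖y‖} :=
      (isOpen_lt continuous_const continuous_norm).measurableSet
    rw [Measure.map_apply hmeas hset]
    have h2 := YT0x.second_moment ρ hbd h1 s hs hmom
    have h3 := mul_meas_ge_le_lintegral₀ (μ := mc ρ)
      (f := fun X : Sy (m + 1) => ENNReal.ofReal (‖yv X‖ ^ 2)) (by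
        apply Measurable.aemeasurable
        exact ENNReal.measurable_ofReal.comp (YT0x.yv_continuous.norm.pow 2).measurable)
      (ENNReal.ofReal (4 * (m * s)))
    have h4 : (fun X : Sy (m + 1) => yv X) ⁻¹' {y : V m | 2 * Real.sqrt (m * s) < ‖y‖} ⊆
        {X : Sy (m + 1) | ENNReal.ofReal (4 * (m * s)) ≤ ENNReal.ofReal (‖yv X‖ ^ 2)} := by
      intro X hX
      have hX' : 2 * Real.sqrt (m * s) < ‖yv X‖ := hX
      show ENNReal.ofReal (4 * (m * s)) ≤ ENNReal.ofReal (‖yv X‖ ^ 2)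
      apply ENNReal.ofReal_le_ofReal
      have h5 : (2 * Real.sqrt (m * s)) ^ 2 = 4 * (m * s) := by
        rw [mul_pow, Real.sq_sqrt (by positivity)]; norm_num
      rw [← h5]
      exact pow_le_pow_left₀ (by positivity) hX'.le 2
    have h5 := le_trans (mul_le_mul_right (measure_mono (μ := mc ρ) h4)
      (ENNReal.ofReal (4 * (m * s)))) (le_trans h3 h2)
    have h6 : ENNReal.ofReal (m * s) = ENNReal.ofReal (4 * (m * s)) * ENNReal.ofReal (1 / 4) := by
      rw [← ENNReal.ofReal_mul (by positivity)]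
      congr 1; ring
    rw [h6] at h5
    refine (ENNReal.mul_le_mul_iff_right ?_ ENNReal.ofReal_ne_top).1 h5
    rw [Ne, ENNReal.ofReal_eq_zero, not_le]
    positivity

end Pool.Agent.H787R2.KC
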